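import Mathlib

/-!
# Definitions used in the statements

Lie words with prescribed content, homogeneous and multilinear Lie polynomials, images of Lie
polynomials, polynomial maps between powers of a Lie algebra, and equivariance.
-/

namespace Pool.Agent.Lib.MP_d55432_al

/-- `IsLieWord K c w`: the element `w` of the free Lie algebra is a Lie word in which the letters
occur as prescribed by the multiset `c` (so `c.card` is the degree of the word). -/
inductive IsLieWord (K : Type*) [Field K] {σ : Type*} : Multiset σ → FreeLieAlgebra K σ → Prop
  | letter (i : σ) : IsLieWord K {i} (FreeLieAlgebra.of K i)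
  | bracket {c d : Multiset σ} {u v : FreeLieAlgebra K σ} :
      IsLieWord K c u → IsLieWord K d v → IsLieWord K (c + d) ⁅u, v⁆

/-- A Lie polynomial is homogeneous of degree `d` if it is a linear combination of Lie words of
degree `d`. -/
def IsHomogeneousLie {K : Type*} [Field K] {σ : Type*} (d : ℕ) (p : FreeLieAlgebra K σ) : Prop :=
  p ∈ Submodule.span K {w | ∃ c : Multiset σ, c.card = d ∧ IsLieWord K c w}

/-- A Lie polynomial in finitely many letters is multilinear if it is a linear combination of
Lie words in which every letter occurs exactly once. -/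
def IsMultilinearLie {K : Type*} [Field K] {σ : Type*} [Fintype σ] (p : FreeLieAlgebra K σ) :
    Prop :=
  p ∈ Submodule.span K {w | IsLieWord K (Finset.univ : Finset σ).val w}

/-- The image of a Lie polynomial on a Lie algebra. -/
def lieImage {K : Type*} [Field K] (L : Type*) [LieRing L] [LieAlgebra K L] {σ : Type*}
    (p : FreeLieAlgebra K σ) : Set L :=
  Set.range fun a : σ → L => FreeLieAlgebra.lift K a p

/-- Polynomial functions on tuples of elements of `L`: the algebra generated by the functions
`a ↦ ψ (a i)` with `ψ` a linear form on `L`. -/
def PolyFun (K : Type*) [Field K] (L : Type*) [LieRing L] [LieAlgebra K L] (σ : Type*) :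
    Subalgebra K ((σ → L) → K) :=
  Algebra.adjoin K {g | ∃ (i : σ) (ψ : Module.Dual K L), g = fun a => ψ (a i)}

/-- A map from tuples of elements of `L` to `L` is polynomial if its composition with every linear
form is a polynomial function. -/
def IsPolyMap (K : Type*) [Field K] {L : Type*} [LieRing L] [LieAlgebra K L] {σ : Type*}
    (f : (σ → L) → L) : Prop :=
  ∀ ψ : Module.Dual K L, (fun a => ψ (f a)) ∈ PolyFun K L σ

/-- Equivariance under all automorphisms of the Lie algebra `L`. -/
def IsAutEquivariant (K : Type*) [Field K] {L : Type*} [LieRing L] [LieAlgebra K L] {σ : Type*}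
    (f : (σ → L) → L) : Prop :=
  ∀ (φ : L ≃ₗ⁅K⁆ L) (a : σ → L), f (fun i => φ (a i)) = φ (f a)

end Pool.Agent.Lib.MP_d55432_al
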