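import Mathlib

/-!
# Burnside's theorem for the adjoint representation of a simple Lie algebra
-/

namespace Pool.Agent.Lib.MP_d55432_al.Burnside

open LieAlgebra Module

variable {K : Type*} [Field K] [IsAlgClosed K] {L : Type*} [LieRing L] [LieAlgebra K L]
  [FiniteDimensional K L] [LieAlgebra.IsSimple K L]

theorem adjoin_eq_top {ι : Type*} (e : Basis ι K L) :
    Algebra.adjoin K (Set.range fun i => ad K L (e i)) = ⊤ := by
  classical
  let A : Subalgebra K (Module.End K L) := Algebra.adjoin K (Set.range fun i => ad K L (e i))
  have hadmem : ∀ x : L, ad K L x ∈ A := by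
    intro x
    have hx : x ∈ Submodule.span K (Set.range e) := by rw [e.span_eq]; trivial
    induction hx using Submodule.span_induction with
    | mem y hy =>
      obtain ⟨i, rfl⟩ := hy
      exact Algebra.subset_adjoin ⟨i, rfl⟩
    | zero => rw [map_zero]; exact A.zero_mem
    | add y z _ _ hy hz => rw [map_add]; exact A.add_mem hy hz
    | smul c y _ hy => rw [map_smul]; exact A.smul_mem hy c
  have hnt : Nontrivial L := by
    by_contra h
    rw [not_nontrivial_iff_subsingleton] at h
    exact LieAlgebra.IsSimple.non_abelian (R := K) (L := L) ⟨fun x y => Subsingleton.elim _ _⟩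
  have hsimple : IsSimpleModule A L := by
    rw [isSimpleModule_iff]
    refine { toNontrivial := ?_, eq_bot_or_eq_top := ?_ }
    · exact (Submodule.nontrivial_iff A).2 hnt
    · intro N
      let I : LieIdeal K L :=
        { carrier := N
          add_mem' := fun ha hb => N.add_mem ha hb
          zero_mem' := N.zero_mem
          smul_mem' := by
            intro c x hx
            exact N.smul_mem (algebraMap K A c) hx
          lie_mem := by
            intro x m hm
            exact N.smul_mem (⟨ad K L x, hadmem x⟩ : A) hm }
      have hIN : ∀ x, x ∈ N ↔ x ∈ I := fun x => Iff.rfl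
      rcases LieAlgebra.IsSimple.eq_bot_or_eq_top (R := K) I with h | h
      · left
        ext x
        have : x ∈ I ↔ x ∈ (⊥ : LieIdeal K L) := by rw [h]
        rw [hIN]
        simpa using this
      · right
        ext x
        have : x ∈ I ↔ x ∈ (⊤ : LieIdeal K L) := by rw [h]
        rw [hIN]
        simpa using this
  rw [eq_top_iff]
  intro E _
  have hsch := (IsSimpleModule.algebraMap_end_bijective_of_isAlgClosed (A := A) (V := L) K).2
  let f : Module.End (Module.End A L) L :=
    { toFun := E
      map_add' := E.map_add
      map_smul' := by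
        intro g x
        obtain ⟨c, rfl⟩ := hsch g
        simp }
  obtain ⟨r, hr⟩ := jacobson_density (R := A) (M := L) f
    (Finset.univ.image (Module.finBasis K L))
  have hE : E = (r : Module.End K L) := by
    apply (Module.finBasis K L).ext
    intro i
    exact hr _ (Finset.mem_image_of_mem _ (Finset.mem_univ i))
  rw [hE]
  exact r.2

theorem exists_freeAlgebra {ι : Type*} (e : Basis ι K L) (E : Module.End K L) :
    ∃ P : FreeAlgebra K ι, FreeAlgebra.lift K (fun i => ad K L (e i)) P = E := by
  have h : E ∈ Algebra.adjoin K (Set.range fun i => ad K L (e i)) := by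
    rw [adjoin_eq_top e]; trivial
  rw [Algebra.adjoin_range_eq_range_freeAlgebra_lift] at h
  exact h

end Pool.Agent.Lib.MP_d55432_al.Burnside
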