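import Pool.Agent.Lib.MP_d55432_al.Zar

/-!
# Ranges of polynomial maps are constructible
-/

namespace Pool.Agent.Lib.MP_d55432_al

open MvPolynomial

theorem BoolComb.univ {X K : Type*} [Zero K] {A : Set (X → K)} (h0 : (0 : X → K) ∈ A) :
    BoolComb A Set.univ := by
  have := BoolComb.zeros (A := A) 0 h0
  have h : {x : X | (0 : X → K) x = 0} = Set.univ := by ext; simp
  rwa [h] at this

theorem BoolComb.iInter {X K : Type*} [Zero K] {A : Set (X → K)} (h0 : (0 : X → K) ∈ A)
    {ι : Type*} (s : Finset ι) (S : ι → Set X) (h : ∀ i ∈ s, BoolComb A (S i)) :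
    BoolComb A {x | ∀ i ∈ s, x ∈ S i} := by
  classical
  induction s using Finset.induction_on with
  | empty =>
    have : {x : X | ∀ i ∈ (∅ : Finset ι), x ∈ S i} = Set.univ := by ext; simp
    rw [this]
    exact BoolComb.univ h0
  | insert a s ha ih =>
    have h1 : {x : X | ∀ i ∈ insert a s, x ∈ S i} = S a ∩ {x | ∀ i ∈ s, x ∈ S i} := by
      ext x; simp
    rw [h1]
    exact (h a (Finset.mem_insert_self a s)).inter
      (ih fun i hi => h i (Finset.mem_insert_of_mem hi))

theorem BoolComb.iUnion {X K : Type*} [Zero K] {A : Set (X → K)} (h0 : (0 : X → K) ∈ A)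
    {ι : Type*} (s : Finset ι) (S : ι → Set X) (h : ∀ i ∈ s, BoolComb A (S i)) :
    BoolComb A {x | ∃ i ∈ s, x ∈ S i} := by
  have h1 := (BoolComb.iInter h0 s (fun i => (S i)ᶜ) fun i hi => (h i hi).compl).compl
  have h2 : {x : X | ∀ i ∈ s, x ∈ (S i)ᶜ}ᶜ = {x | ∃ i ∈ s, x ∈ S i} := by
    ext x; simp
  rwa [h2] at h1

variable {K : Type*} [Field K]

theorem zero_mem_polys {τ : Type*} : (0 : (τ → K) → K) ∈ Zar.polys τ K := ⟨0, fun x => by simp⟩

theorem boolComb_constructible {τ : Type*} (D : PrimeSpectrum.ConstructibleSetData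
    (MvPolynomial τ K)) : BoolComb (Zar.polys τ K)
      {y | pointToPoint (k := K) (K := K) y ∈ D.toSet} := by
  have h1 : {y | pointToPoint (k := K) (K := K) y ∈ D.toSet} =
      {y | ∃ C ∈ D, y ∈ {y | pointToPoint (k := K) (K := K) y ∈ C.toSet}} := by
    ext y
    simp only [PrimeSpectrum.ConstructibleSetData.toSet, Set.mem_iUnion, Set.mem_ofPred_eq,
      exists_prop]
  rw [h1]
  refine BoolComb.iUnion zero_mem_polys D _ fun C _ => ?_
  have h2 : {y | pointToPoint (k := K) (K := K) y ∈ C.toSet} =
      {y | ∀ i ∈ (Finset.univ : Finset (Fin C.n)), y ∈ {y | eval y (C.g i) = 0}} ∩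
        {y | eval y C.f = 0}ᶜ := by
    ext y
    simp only [PrimeSpectrum.BasicConstructibleSetData.toSet, Set.mem_ofPred_eq, Set.mem_sdiff,
      Zar.mem_preimage, Set.mem_range, forall_exists_index, forall_apply_eq_imp_iff,
      Set.mem_singleton_iff, forall_eq, Set.mem_inter_iff, Set.mem_compl_iff, Finset.mem_univ,
      true_implies]
  rw [h2]
  refine BoolComb.inter (BoolComb.iInter zero_mem_polys _ _ fun i _ => ?_) (BoolComb.compl ?_)
  · exact BoolComb.zeros (fun y => eval y (C.g i)) ⟨_, fun _ => rfl⟩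
  · exact BoolComb.zeros (fun y => eval y C.f) ⟨_, fun _ => rfl⟩

/-- The range of a polynomial map between affine spaces over an algebraically closed field is a
Boolean combination of zero sets. -/
theorem boolComb_range [IsAlgClosed K] {ι τ : Type*} [Finite ι] [Finite τ]
    (F : τ → MvPolynomial ι K) :
    BoolComb (Zar.polys τ K) (Set.range fun (x : ι → K) (j : τ) => eval x (F j)) := by
  let φ : MvPolynomial τ K →+* MvPolynomial ι K := (bind₁ F).toRingHom
  have hφ : φ.FinitePresentation := by
    rw [← RingHom.FinitePresentation.of_finiteType]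
    refine RingHom.FiniteType.of_comp_finiteType (f := (MvPolynomial.C : K →+* MvPolynomial τ K)) ?_
    have : φ.comp (MvPolynomial.C : K →+* MvPolynomial τ K) = algebraMap K (MvPolynomial ι K) := by
      ext c
      simp [φ]
    rw [this]
    exact RingHom.finiteType_algebraMap.2 inferInstance
  obtain ⟨D, hD⟩ := PrimeSpectrum.exists_constructibleSetData_iff.2
    (PrimeSpectrum.isConstructible_range_comap hφ)
  have h := boolComb_constructible D
  have hset : {y | pointToPoint (k := K) (K := K) y ∈ D.toSet} =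
      Set.range fun (x : ι → K) (j : τ) => eval x (F j) := by
    rw [hD]
    ext y
    constructor
    · rintro ⟨P, hP⟩
      obtain ⟨M, hM, hPM⟩ := Ideal.exists_le_maximal P.asIdeal P.isPrime.ne_top
      obtain ⟨x, rfl⟩ := MvPolynomial.isMaximal_iff_eq_vanishingIdeal_singleton.1 hM
      refine ⟨x, ?_⟩
      funext j
      have h1 : (X j - C (y j) : MvPolynomial τ K) ∈ vanishingIdeal K {y} := by
        rw [mem_vanishingIdeal_singleton_iff]
        simp
      have h2 : vanishingIdeal K {y} = Ideal.comap φ P.asIdeal :=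
        (congrArg PrimeSpectrum.asIdeal hP).symm
      rw [h2, Ideal.mem_comap] at h1
      have h3 := hPM h1
      rw [mem_vanishingIdeal_singleton_iff] at h3
      simp only [φ] at h3
      simpa [sub_eq_zero, MvPolynomial.aeval_eq_eval] using h3
    · rintro ⟨x, rfl⟩
      refine ⟨pointToPoint (k := K) (K := K) x, ?_⟩
      apply PrimeSpectrum.ext
      ext p
      change φ p ∈ vanishingIdeal K {x} ↔ p ∈ vanishingIdeal K {fun j => eval x (F j)}
      rw [mem_vanishingIdeal_singleton_iff, mem_vanishingIdeal_singleton_iff,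
        MvPolynomial.aeval_eq_eval, MvPolynomial.aeval_eq_eval]
      change eval x (bind₁ F p) = 0 ↔ _
      rw [Zar.eval_bind]
  rwa [hset] at h

end Pool.Agent.Lib.MP_d55432_al
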