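import Mathlib

/-!
# Principal ideals in polynomial rings over factorial domains
-/

namespace Pool.Agent.Lib.MP_d55432_al.Principal

open Polynomial

/-- An ideal of `D[X]` with torsion-free quotient over the factorial domain `D` and zero
intersection with `D` is principal, generated by any nonzero primitive element of least degree. -/
theorem exists_generator {D : Type*} [CommRing D] [IsDomain D] [UniqueFactorizationMonoid D]
    (I : Ideal D[X]) (h0 : I ≠ ⊥) (hsat : ∀ d : D, d ≠ 0 → ∀ g, C d * g ∈ I → g ∈ I)
    (hD : ∀ d : D, C d ∈ I → d = 0) :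
    ∃ h : D[X], h ∈ I ∧ h ≠ 0 ∧ 0 < h.natDegree ∧ (∀ g ∈ I, h ∣ g) := by
  classical
  let _ : StrongNormalizationMonoid D := UniqueFactorizationMonoid.strongNormalizationMonoid
  let _ : NormalizedGCDMonoid D := UniqueFactorizationMonoid.toNormalizedGCDMonoid D
  obtain ⟨f, hfI, hf0⟩ := Submodule.exists_mem_ne_zero_of_ne_bot h0
  let P : ℕ → Prop := fun n => ∃ g ∈ I, g ≠ 0 ∧ g.natDegree = n
  have hP : ∃ n, P n := ⟨_, f, hfI, hf0, rfl⟩
  obtain ⟨g₀, hg₀I, hg₀0, hg₀d⟩ := Nat.find_spec hP
  have hmin : ∀ g ∈ I, g ≠ 0 → g₀.natDegree ≤ g.natDegree := by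
    intro g hg hg0
    rw [hg₀d]
    exact Nat.find_min' hP ⟨g, hg, hg0, rfl⟩
  have hc : g₀.content ≠ 0 := by
    intro h
    exact hg₀0 (content_eq_zero_iff.1 h)
  have hI : g₀.primPart ∈ I := by
    refine hsat g₀.content hc _ ?_
    rw [← eq_C_content_mul_primPart]
    exact hg₀I
  have hprim := isPrimitive_primPart g₀
  have hne : g₀.primPart ≠ 0 := hprim.ne_zero
  have hdeg := natDegree_primPart g₀
  refine ⟨g₀.primPart, hI, hne, ?_, ?_⟩
  · rw [Nat.pos_iff_ne_zero]
    intro h
    rw [natDegree_eq_zero] at h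
    obtain ⟨d, hd⟩ := h
    rw [← hd] at hI
    have := hD d hI
    rw [this, C_0] at hd
    exact hne hd.symm
  · intro g hg
    let F := FractionRing D
    apply hprim.dvd_of_fraction_map_dvd_fraction_map (K := F)
    have hinj : Function.Injective (algebraMap D F) := IsFractionRing.injective D F
    have hmap0 : g₀.primPart.map (algebraMap D F) ≠ 0 := by
      rwa [Ne, Polynomial.map_eq_zero_iff hinj]
    have hdiv := EuclideanDomain.div_add_mod (g.map (algebraMap D F))
      (g₀.primPart.map (algebraMap D F))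
    set q := g.map (algebraMap D F) / g₀.primPart.map (algebraMap D F) with hq
    set r := g.map (algebraMap D F) % g₀.primPart.map (algebraMap D F) with hr
    obtain ⟨b, hb, hbq⟩ := IsLocalization.integerNormalization_spec (nonZeroDivisors D) q
    set q' := IsLocalization.integerNormalization (nonZeroDivisors D) q with hq'
    have hb0 : b ≠ 0 := nonZeroDivisors.ne_zero hb
    let r' : D[X] := C b * g - g₀.primPart * q'
    have hr'map : r'.map (algebraMap D F) = C (algebraMap D F b) * r := by
      simp only [r', Polynomial.map_sub, Polynomial.map_mul, Polynomial.map_C, hbq]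
      rw [← hdiv, mul_add]
      have : b • q = C (algebraMap D F b) * q := by
        rw [← algebraMap_smul F b q, Polynomial.smul_eq_C_mul]
      rw [this]
      ring
    have hr'I : r' ∈ I := I.sub_mem (I.mul_mem_left _ hg) (I.mul_mem_right _ hI)
    have hbF : algebraMap D F b ≠ 0 := by
      rwa [Ne, map_eq_zero_iff _ hinj]
    by_cases hr0 : r' = 0
    · rw [hr0, Polynomial.map_zero] at hr'map
      have hr00 : r = 0 := by
        rcases mul_eq_zero.1 hr'map.symm with h | h
        · exact absurd (C_eq_zero.1 h) hbF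
        · exact h
      rw [hr00, add_zero] at hdiv
      exact ⟨q, hdiv.symm⟩
    · exfalso
      have h1 := hmin r' hr'I hr0
      have h2 : r.degree < (g₀.primPart.map (algebraMap D F)).degree :=
        EuclideanDomain.mod_lt _ hmap0
      have h3 : r'.degree = r.degree := by
        rw [← Polynomial.degree_map_eq_of_injective hinj r', hr'map, Polynomial.degree_C_mul hbF]
      rw [Polynomial.degree_map_eq_of_injective hinj, ← h3] at h2
      have h4 := Polynomial.natDegree_lt_natDegree hr0 h2
      rw [hdeg] at h4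
      omega

section mv

open MvPolynomial

variable {K : Type*} [Field K] {τ : Type*} [DecidableEq τ] (v₀ : τ)

/-- Polynomials as polynomials in one distinguished variable. -/
noncomputable def E (K : Type*) [Field K] :
    MvPolynomial τ K ≃ₐ[K] Polynomial (MvPolynomial {v // v ≠ v₀} K) :=
  (renameEquiv K (Equiv.optionSubtypeNe v₀).symm).trans (optionEquivLeft K {v // v ≠ v₀})

theorem E_X : E v₀ K (X v₀) = Polynomial.X := by
  simp [E, optionEquivLeft_apply]

theorem E_rename (d : MvPolynomial {v // v ≠ v₀} K) :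
    E v₀ K (rename Subtype.val d) = Polynomial.C d := by
  have h : ((E v₀ K : MvPolynomial τ K →ₐ[K] Polynomial (MvPolynomial {v // v ≠ v₀} K)).comp
      (rename Subtype.val)) = IsScalarTower.toAlgHom K (MvPolynomial {v // v ≠ v₀} K)
        (Polynomial (MvPolynomial {v // v ≠ v₀} K)) := by
    apply MvPolynomial.algHom_ext
    intro i
    simp [E, optionEquivLeft_apply, i.2]
  exact DFunLike.congr_fun h d

theorem E_pderiv (p : MvPolynomial τ K) :
    E v₀ K (pderiv v₀ p) = Polynomial.derivative (E v₀ K p) := by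
  induction p using MvPolynomial.induction_on with
  | C a =>
    rw [pderiv_C, map_zero]
    have : E v₀ K (MvPolynomial.C a) = Polynomial.C (MvPolynomial.C a) := by
      have := E_rename (K := K) v₀ (MvPolynomial.C a)
      rwa [rename_C] at this
    rw [this, Polynomial.derivative_C]
  | add p q hp hq => rw [map_add, map_add, map_add, hp, hq, Polynomial.derivative_add]
  | mul_X p i hp =>
    rw [Derivation.leibniz, map_add, smul_eq_mul, smul_eq_mul, map_mul, map_mul, hp, map_mul,
      Polynomial.derivative_mul]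
    by_cases h : i = v₀
    · subst h
      rw [pderiv_X_self, E_X, map_one, Polynomial.derivative_X]
      ring
    · rw [pderiv_X_of_ne h, map_zero]
      have : E v₀ K (X i) = Polynomial.C (X ⟨i, h⟩) := by
        have := E_rename (K := K) v₀ (X ⟨i, h⟩)
        rwa [rename_X] at this
      rw [this, Polynomial.derivative_C]
      ring

theorem exists_generator_mv [CharZero K] (I : Ideal (MvPolynomial τ K)) (h0 : I ≠ ⊥)
    (hsat : ∀ d : MvPolynomial {v // v ≠ v₀} K, d ≠ 0 → ∀ g,
      rename Subtype.val d * g ∈ I → g ∈ I)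
    (hD : ∀ d : MvPolynomial {v // v ≠ v₀} K, rename Subtype.val d ∈ I → d = 0) :
    ∃ h : MvPolynomial τ K, h ∈ I ∧ h ≠ 0 ∧ (∀ g ∈ I, h ∣ g) ∧ pderiv v₀ h ∉ I := by
  classical
  let J : Ideal (Polynomial (MvPolynomial {v // v ≠ v₀} K)) :=
    I.comap ((E v₀ K).symm : _ →+* _)
  have hJ : ∀ f, f ∈ J ↔ (E v₀ K).symm f ∈ I := fun f => Iff.rfl
  obtain ⟨f, hfI, hf0⟩ := Submodule.exists_mem_ne_zero_of_ne_bot h0
  obtain ⟨h, hhJ, hh0, hdeg, hdvd⟩ := exists_generator J
    (by
      intro hbot
      have : E v₀ K f ∈ J := by rw [hJ, AlgEquiv.symm_apply_apply]; exact hfI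
      rw [hbot, Ideal.mem_bot] at this
      exact hf0 ((E v₀ K).injective (by rw [this, map_zero])))
    (by
      intro d hd g hg
      rw [hJ, map_mul, ← E_rename, AlgEquiv.symm_apply_apply] at hg
      exact hsat d hd _ hg)
    (by
      intro d hd
      rw [hJ, ← E_rename, AlgEquiv.symm_apply_apply] at hd
      exact hD d hd)
  refine ⟨(E v₀ K).symm h, hhJ, ?_, ?_, ?_⟩
  · intro hz
    exact hh0 ((E v₀ K).symm.injective (by rw [hz, map_zero]))
  · intro g hg
    have h1 : E v₀ K g ∈ J := by rw [hJ, AlgEquiv.symm_apply_apply]; exact hg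
    obtain ⟨q, hq⟩ := hdvd _ h1
    refine ⟨(E v₀ K).symm q, ?_⟩
    rw [← map_mul, ← hq, AlgEquiv.symm_apply_apply]
  · intro hmem
    have h1 : Polynomial.derivative h ∈ J := by
      rw [hJ]
      have h2 := E_pderiv v₀ ((E v₀ K).symm h)
      rw [AlgEquiv.apply_symm_apply] at h2
      rw [← h2, AlgEquiv.symm_apply_apply]
      exact hmem
    have h3 := hdvd _ h1
    have h4 : Polynomial.derivative h ≠ 0 := by
      intro hz
      have := Polynomial.derivative_eq_zero.1 hz
      omega
    have h5 := Polynomial.natDegree_le_of_dvd h3 h4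
    have h6 := Polynomial.natDegree_derivative_lt (p := h) (by omega)
    omega

end mv

end Pool.Agent.Lib.MP_d55432_al.Principal
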