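import Pool.Agent.Lib.MP_d55432_al.Line
import Pool.Agent.Lib.MP_d55432_al.Principal

/-!
# Elimination forms of stable closed cones

For a closed cone `C` stable under a group of similitudes and irreducible with respect to this
group, we construct a polynomial `h` in a matrix `b` of linear forms and a vector `y` which
vanishes exactly when `y` extends to the values of the forms `b` on `C` in a chosen set of rows,
and a polynomial map `e` which on the hypersurface `h = 0` takes values in `C`.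
-/

namespace Pool.Agent.Lib.MP_d55432_al.Chow

open MvPolynomial DetTrick Zar

attribute [local instance] zar

variable {σ : Type*} [Fintype σ] [DecidableEq σ] {K : Type*} [Field K]

/-- The point with coordinates `(b, y)`. -/
def pt {ι σ K : Type*} (p : (ι → σ → K) × (σ → K)) : (ι × σ) ⊕ σ → K :=
  Sum.elim (fun q => p.1 q.1 q.2) p.2

theorem pt_eq {ι : Type*} (p : (ι → σ → K) × (σ → K)) : (fun t => c2 ι σ K t p) = pt p := by
  funext t
  rcases t with t | t <;> rfl

/-- Evaluation as a function of `(b, y)`. -/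
noncomputable def ef {ι : Type*} (P : MvPolynomial ((ι × σ) ⊕ σ) K)
    (p : (ι → σ → K) × (σ → K)) : K := eval (pt p) P

theorem ef_mem {ι : Type*} (P : MvPolynomial ((ι × σ) ⊕ σ) K) : ef P ∈ Pol (c2 ι σ K) :=
  mem_Pol.2 ⟨P, fun p => by rw [pt_eq]; rfl⟩

theorem exists_ef {ι : Type*} {f : (ι → σ → K) × (σ → K) → K} (hf : f ∈ Pol (c2 ι σ K)) :
    ∃ P, f = ef P := by
  obtain ⟨P, hP⟩ := mem_Pol.1 hf
  exact ⟨P, funext fun p => by rw [hP, pt_eq]; rfl⟩

theorem pt_surj {ι : Type*} (a : (ι × σ) ⊕ σ → K) :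
    pt ((fun i k => a (Sum.inl (i, k)), fun k => a (Sum.inr k)) : (ι → σ → K) × (σ → K)) = a := by
  funext t
  rcases t with t | t <;> rfl

theorem ef_eq_zero [Infinite K] {ι : Type*} (P : MvPolynomial ((ι × σ) ⊕ σ) K)
    (h : ∀ p, ef P p = 0) : P = 0 := by
  apply MvPolynomial.funext
  intro a
  rw [map_zero, ← pt_surj a]
  exact h _

theorem Pol_mul_eq_zero [Infinite K] {ι : Type*} {f g : (ι → σ → K) × (σ → K) → K}
    (hf : f ∈ Pol (c2 ι σ K)) (hg : g ∈ Pol (c2 ι σ K)) (h : ∀ p, f p * g p = 0) :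
    f = 0 ∨ g = 0 := by
  obtain ⟨P, rfl⟩ := exists_ef hf
  obtain ⟨Q, rfl⟩ := exists_ef hg
  have h1 : P * Q = 0 := ef_eq_zero _ fun p => by
    rw [ef, map_mul]; exact h p
  rcases mul_eq_zero.1 h1 with h2 | h2
  · left; funext p; rw [h2, ef, map_zero]; rfl
  · right; funext p; rw [h2, ef, map_zero]; rfl

/-- Stability of a set under a group of linear maps. -/
def Stable (G : Subgroup ((σ → K) ≃ₗ[K] (σ → K))) (A : Set (σ → K)) : Prop :=
  ∀ g ∈ G, ∀ x ∈ A, g x ∈ A

/-- Irreducibility with respect to a group. -/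
def Irr (G : Subgroup ((σ → K) ≃ₗ[K] (σ → K))) (C : Set (σ → K)) : Prop :=
  C.Nonempty ∧ ∀ C₁ C₂ : Set (σ → K), IsClosed C₁ → IsClosed C₂ → Stable G C₁ → Stable G C₂ →
    C ⊆ C₁ ∪ C₂ → C ⊆ C₁ ∨ C ⊆ C₂

/-- Groups of similitudes containing all nonzero scalars. -/
structure Sim (G : Subgroup ((σ → K) ≃ₗ[K] (σ → K))) : Prop where
  sim : ∀ g ∈ G, ∃ μ : K, μ ≠ 0 ∧ ∀ x y, g x ⬝ᵥ g y = μ * (x ⬝ᵥ y)
  scal : ∀ t : K, t ≠ 0 → ∃ g ∈ G, ∀ x, g x = t • x

/-- Replace the entries of `y` in the rows `A` by the values of the forms at `z`. -/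
def fill (A : Finset σ) (z : σ → K) (p : (σ → σ → K) × (σ → K)) : (σ → σ → K) × (σ → K) :=
  (p.1, fun i => if i ∈ A then p.1 i ⬝ᵥ z else p.2 i)

/-- The function `f` vanishes at all `(b, y)` whose entries in the rows `A` are the values at
`z`. -/
def Van (A : Finset σ) (f : (σ → σ → K) × (σ → K) → K) (z : σ → K) : Prop :=
  ∀ p, f (fill A z p) = 0

theorem fill_of_eq {A : Finset σ} {z : σ → K} {p : (σ → σ → K) × (σ → K)}
    (h : ∀ i ∈ A, p.2 i = p.1 i ⬝ᵥ z) : fill A z p = p := by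
  refine Prod.ext rfl ?_
  funext i
  simp only [fill]
  split_ifs with hi
  · exact (h i hi).symm
  · rfl

theorem fill_eq {A : Finset σ} (z : σ → K) (p : (σ → σ → K) × (σ → K)) (i : σ) (hi : i ∈ A) :
    (fill A z p).2 i = (fill A z p).1 i ⬝ᵥ z := by
  simp only [fill, if_pos hi]

theorem Van.apply {A : Finset σ} {f : (σ → σ → K) × (σ → K) → K} {z : σ → K} (h : Van A f z)
    {p : (σ → σ → K) × (σ → K)} (hp : ∀ i ∈ A, p.2 i = p.1 i ⬝ᵥ z) : f p = 0 := by
  have := h p
  rwa [fill_of_eq hp] at this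

theorem fill_mem (B : Subalgebra K ((σ → K) → K)) (hB : ∀ j, (fun z : σ → K => z j) ∈ B)
    (A : Finset σ) (p : (σ → σ → K) × (σ → K)) {f : (σ → σ → K) × (σ → K) → K}
    (hf : f ∈ Pol (c2 σ σ K)) : (fun z => f (fill A z p)) ∈ B := by
  obtain ⟨P, hP⟩ := mem_Pol.1 hf
  simp only [hP]
  refine eval_mem B P (fun t z => c2 σ σ K t (fill A z p)) ?_
  rintro (t | t)
  · exact B.algebraMap_mem (p.1 t.1 t.2)
  · simp only [c2, fill, Sum.elim_inr]
    by_cases h : t ∈ A
    · simp only [if_pos h, dotProduct]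
      have : (fun z : σ → K => ∑ j, p.1 t j * z j) = ∑ j, p.1 t j • (fun z : σ → K => z j) := by
        funext z
        rw [Finset.sum_apply]
        rfl
      rw [this]
      exact B.sum_mem fun j _ => B.smul_mem (hB j) _
    · simp only [if_neg h]
      exact B.algebraMap_mem _

theorem van_closed (A : Finset σ) {f : (σ → σ → K) × (σ → K) → K} (hf : f ∈ Pol (c2 σ σ K)) :
    IsClosed {z | Van A f z} := by
  have h1 : {z | Van A f z} = ⋂ p, {z | f (fill A z p) = 0} := by
    ext z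
    simp only [Set.mem_iInter]
    rfl
  rw [h1]
  refine isClosed_iInter fun p => ?_
  have h2 := fill_mem (polyAlg σ K) (fun j => (mem_polyAlg _).2 ⟨X j, fun x => by simp⟩) A p hf
  exact isClosed_polys _ ((mem_polyAlg _).1 h2)

theorem fill_mem' (A : Finset σ) (z : σ → K) {f : (σ → σ → K) × (σ → K) → K}
    (hf : f ∈ Pol (c2 σ σ K)) : (fun p => f (fill A z p)) ∈ Pol (c2 σ σ K) := by
  obtain ⟨P, hP⟩ := mem_Pol.1 hf
  simp only [hP]
  refine eval_mem _ P (fun t p => c2 σ σ K t (fill A z p)) ?_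
  rintro (t | t)
  · exact coord_mem (c2 σ σ K) (Sum.inl t)
  · simp only [c2, fill, Sum.elim_inr]
    by_cases h : t ∈ A
    · simp only [if_pos h, dotProduct]
      have : (fun p : (σ → σ → K) × (σ → K) => ∑ j, p.1 t j * z j) =
          ∑ j, z j • (fun p : (σ → σ → K) × (σ → K) => p.1 t j) := by
        funext p
        rw [Finset.sum_apply]
        exact Finset.sum_congr rfl fun j _ => mul_comm _ _
      rw [this]
      exact Subalgebra.sum_mem _ fun j _ => Subalgebra.smul_mem _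
        (coord_mem (c2 σ σ K) (Sum.inl (t, j))) _
    · simp only [if_neg h]
      exact coord_mem (c2 σ σ K) (Sum.inr t)

theorem van_mul [Infinite K] (A : Finset σ) {f g : (σ → σ → K) × (σ → K) → K}
    (hf : f ∈ Pol (c2 σ σ K)) (hg : g ∈ Pol (c2 σ σ K)) (z : σ → K)
    (h : Van A (f * g) z) : Van A f z ∨ Van A g z := by
  rcases Pol_mul_eq_zero (fill_mem' A z hf) (fill_mem' A z hg) h with h1 | h1
  · left; exact fun p => congrFun h1 p
  · right; exact fun p => congrFun h1 p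

theorem van_prod [Infinite K] (A : Finset σ) {ι : Type*} (s : Finset ι)
    (f : ι → (σ → σ → K) × (σ → K) → K) (i : ι) (hi : i ∈ s) (z : σ → K) (h : Van A (f i) z) :
    Van A (∏ i ∈ s, f i) z := by
  intro p
  rw [Finset.prod_apply]
  exact Finset.prod_eq_zero hi (h p)

/-- The action of a linear map on `(b, y)`. -/
def act (g : (σ → K) ≃ₗ[K] (σ → K)) (μ : K) (p : (σ → σ → K) × (σ → K)) :
    (σ → σ → K) × (σ → K) := (fun i => g (p.1 i), μ • p.2)

theorem act_fill (g : (σ → K) ≃ₗ[K] (σ → K)) (μ : K)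
    (hμ : ∀ x y, g x ⬝ᵥ g y = μ * (x ⬝ᵥ y)) (A : Finset σ) (z : σ → K)
    (p : (σ → σ → K) × (σ → K)) : act g μ (fill A z p) = fill A (g z) (act g μ p) := by
  refine Prod.ext rfl ?_
  funext i
  simp only [act, fill, Pi.smul_apply, smul_eq_mul, mul_ite, hμ]

theorem act_mem (g : (σ → K) ≃ₗ[K] (σ → K)) (μ : K) {f : (σ → σ → K) × (σ → K) → K}
    (hf : f ∈ Pol (c2 σ σ K)) : (fun p => f (act g μ p)) ∈ Pol (c2 σ σ K) := by
  obtain ⟨P, hP⟩ := mem_Pol.1 hf
  simp only [hP]
  refine eval_mem _ P (fun t p => c2 σ σ K t (act g μ p)) ?_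
  rintro (t | t)
  · have : (fun p : (σ → σ → K) × (σ → K) => c2 σ σ K (Sum.inl t) (act g μ p)) =
        ∑ j, g (Pi.single j 1) t.2 • (fun p : (σ → σ → K) × (σ → K) => p.1 t.1 j) := by
      funext p
      change g (p.1 t.1) t.2 = _
      conv_lhs => rw [← Finset.univ_sum_single (p.1 t.1)]
      rw [map_sum, Finset.sum_apply, Finset.sum_apply]
      refine Finset.sum_congr rfl fun j _ => ?_
      have : (Pi.single j (p.1 t.1 j) : σ → K) = p.1 t.1 j • Pi.single j 1 := by
        rw [← Pi.single_smul, smul_eq_mul, mul_one]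
      rw [this, map_smul, Pi.smul_apply, Pi.smul_apply, smul_eq_mul, smul_eq_mul, mul_comm]
    rw [this]
    exact Subalgebra.sum_mem _ fun j _ => Subalgebra.smul_mem _
      (coord_mem (c2 σ σ K) (Sum.inl (t.1, j))) _
  · exact Subalgebra.smul_mem _ (coord_mem (c2 σ σ K) (Sum.inr t)) μ

theorem act_surj (g : (σ → K) ≃ₗ[K] (σ → K)) (μ : K) (hμ : μ ≠ 0)
    (p : (σ → σ → K) × (σ → K)) : ∃ q, act g μ q = p := by
  refine ⟨(fun i => g.symm (p.1 i), μ⁻¹ • p.2), ?_⟩
  refine Prod.ext ?_ ?_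
  · funext i
    simp [act]
  · simp [act, smul_smul, mul_inv_cancel₀ hμ]

/-- No nonzero polynomial function vanishes at all `(b, y)` with entries in the rows `s` given by
the values at points of `C`. -/
def NN (C : Set (σ → K)) (s : Finset σ) : Prop :=
  ∀ f ∈ Pol (c2 σ σ K), (∀ z ∈ C, Van s f z) → f = 0

theorem NN_empty {C : Set (σ → K)} (hC : C.Nonempty) : NN C ∅ := by
  intro f _ h
  obtain ⟨z, hz⟩ := hC
  funext p
  exact (h z hz).apply (fun i hi => by simp at hi)

theorem zero_mem_of_stable [Infinite K] {G : Subgroup ((σ → K) ≃ₗ[K] (σ → K))} (hG : Sim G)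
    {C : Set (σ → K)} (hC : IsClosed C) (hst : Stable G C) (hne : C.Nonempty) : (0 : σ → K) ∈ C := by
  obtain ⟨z, hz⟩ := hne
  rw [← hC.closure_eq, mem_closure_iff_eval]
  intro P hP
  have h1 : Line.line 0 z P = 0 := by
    have h2 : ∀ t : K, t ≠ 0 → Polynomial.eval t (Line.line 0 z P) = 0 := by
      intro t ht
      rw [Line.eval_line, zero_add]
      obtain ⟨g, hg, hgt⟩ := hG.scal t ht
      rw [← hgt]
      exact hP _ (hst g hg z hz)
    have h3 : Polynomial.X * Line.line 0 z P = 0 := by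
      apply Polynomial.funext
      intro t
      rw [Polynomial.eval_mul, Polynomial.eval_X, Polynomial.eval_zero]
      by_cases ht : t = 0
      · rw [ht, zero_mul]
      · rw [h2 t ht, mul_zero]
    rcases mul_eq_zero.1 h3 with h | h
    · exact absurd h Polynomial.X_ne_zero
    · exact h
  have h4 := Line.eval_line 0 z P 0
  rw [h1, zero_smul, add_zero, Polynomial.eval_zero] at h4
  exact h4.symm

theorem smul_mem_of_stable [Infinite K] {G : Subgroup ((σ → K) ≃ₗ[K] (σ → K))} (hG : Sim G)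
    {C : Set (σ → K)} (hC : IsClosed C) (hst : Stable G C) {z : σ → K} (hz : z ∈ C) (t : K) :
    t • z ∈ C := by
  by_cases ht : t = 0
  · rw [ht, zero_smul]
    exact zero_mem_of_stable hG hC hst ⟨z, hz⟩
  · obtain ⟨g, hg, hgt⟩ := hG.scal t ht
    rw [← hgt]
    exact hst g hg z hz

theorem not_NN_univ [Infinite K] {G : Subgroup ((σ → K) ≃ₗ[K] (σ → K))} (hG : Sim G)
    {C : Set (σ → K)} (hC : IsClosed C) (hst : Stable G C) (hne : C ≠ Set.univ) :
    ¬ NN C Finset.univ := by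
  intro hN
  obtain ⟨x₀, hx₀⟩ := (Set.ne_univ_iff_exists_notMem C).1 hne
  rw [← hC.closure_eq, mem_closure_iff_eval] at hx₀
  push Not at hx₀
  obtain ⟨P, hP, hPx⟩ := hx₀
  let f : (σ → σ → K) × (σ → K) → K := fun p =>
    eval (fun t => ((Matrix.of p.1).adjugate.mulVec p.2) t) P
  have hf : f ∈ Pol (c2 σ σ K) := by
    refine eval_mem _ P (fun t (p : (σ → σ → K) × (σ → K)) =>
      ((Matrix.of p.1).adjugate.mulVec p.2) t) ?_
    intro t
    have h1 : (fun p : (σ → σ → K) × (σ → K) => ((Matrix.of p.1).adjugate.mulVec p.2) t) =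
        ∑ j, (fun p : (σ → σ → K) × (σ → K) => (Matrix.of p.1).adjugate t j) *
          (fun p : (σ → σ → K) × (σ → K) => p.2 j) := by
      funext p
      rw [Finset.sum_apply]
      rfl
    rw [h1]
    refine Subalgebra.sum_mem _ fun j _ => Subalgebra.mul_mem _ ?_
      (coord_mem (c2 σ σ K) (Sum.inr j))
    simp only [Matrix.adjugate_apply]
    refine det_mem_alg _ (fun i k (p : (σ → σ → K) × (σ → K)) =>
      (Matrix.of p.1).updateRow j (Pi.single t 1) i k) ?_
    intro i k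
    by_cases h : i = j
    · subst h
      simp only [Matrix.updateRow_self]
      exact Subalgebra.algebraMap_mem _ _
    · simp only [Matrix.updateRow_ne h]
      exact coord_mem (c2 σ σ K) (Sum.inl (i, k))
  have h0 := hN f hf (by
    intro z hz p
    simp only [f, fill, Finset.mem_univ, if_true]
    have h1 : (fun i => p.1 i ⬝ᵥ z) = (Matrix.of p.1).mulVec z := rfl
    rw [h1, Matrix.mulVec_mulVec, Matrix.adjugate_mul, Matrix.smul_mulVec, Matrix.one_mulVec]
    exact hP _ (smul_mem_of_stable hG hC hst hz _))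
  have h1 := congrFun h0 (fun i => (1 : Matrix σ σ K) i, x₀)
  simp only [f] at h1
  have h2 : (Matrix.of fun i => (1 : Matrix σ σ K) i) = 1 := rfl
  rw [h2, Matrix.adjugate_one, Matrix.one_mulVec] at h1
  exact hPx h1

theorem exists_maximal [Infinite K] {G : Subgroup ((σ → K) ≃ₗ[K] (σ → K))} (hG : Sim G)
    {C : Set (σ → K)} (hC : IsClosed C) (hst : Stable G C) (hne : C ≠ Set.univ)
    (hne' : C.Nonempty) : ∃ (s : Finset σ) (i₀ : σ), i₀ ∉ s ∧ NN C s ∧ ¬ NN C (insert i₀ s) := by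
  by_contra hcon
  push Not at hcon
  apply not_NN_univ hG hC hst hne
  have : ∀ s : Finset σ, NN C s := by
    intro s
    induction s using Finset.induction_on with
    | empty => exact NN_empty hne'
    | insert a s ha ih => exact hcon s a ha ih
  exact this _

theorem ef_prod {ι κ : Type*} (s : Finset κ) (P : κ → MvPolynomial ((ι × σ) ⊕ σ) K) :
    ef (∏ i ∈ s, P i) = ∏ i ∈ s, ef (P i) := by
  funext p
  rw [ef, map_prod, Finset.prod_apply]
  rfl

theorem stable_closure {G : Subgroup ((σ → K) ≃ₗ[K] (σ → K))} {A : Set (σ → K)}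
    (hA : Stable G A) : Stable G (closure A) := by
  intro g hg x hx
  have hc : Continuous g := continuous_linear (g : (σ → K) →ₗ[K] (σ → K))
  have h1 := image_closure_subset_closure_image hc ⟨x, hx, rfl⟩
  refine closure_mono ?_ h1
  rintro _ ⟨y, hy, rfl⟩
  exact hA g hg y hy

/-- The vanishing condition descends along a maximal independent set of rows. -/
theorem eq_zero_of_indep {C : Set (σ → K)} {s : Finset σ} {i₀ : σ} (hN : NN C s)
    {f : (σ → σ → K) × (σ → K) → K} (hf : f ∈ Pol (c2 σ σ K))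
    (hind : ∀ (b : σ → σ → K) (y y' : σ → K), (∀ i, i ≠ i₀ → y i = y' i) → f (b, y) = f (b, y'))
    (h : ∀ z ∈ C, Van (insert i₀ s) f z) : f = 0 := by
  apply hN f hf
  intro z hz p
  rw [← h z hz p]
  apply hind
  intro i hi
  simp only [Finset.mem_insert, hi, false_or]

theorem saturated [Infinite K] {G : Subgroup ((σ → K) ≃ₗ[K] (σ → K))} (hG : Sim G)
    {C : Set (σ → K)} (hst : Stable G C) (hirr : Irr G C)
    {s : Finset σ} {i₀ : σ} (hN : NN C s) {D f : (σ → σ → K) × (σ → K) → K}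
    (hD : D ∈ Pol (c2 σ σ K)) (hf : f ∈ Pol (c2 σ σ K)) (hD0 : D ≠ 0)
    (hind : ∀ (b : σ → σ → K) (y y' : σ → K), (∀ i, i ≠ i₀ → y i = y' i) → D (b, y) = D (b, y'))
    (h : ∀ z ∈ C, Van (insert i₀ s) (D * f) z) : ∀ z ∈ C, Van (insert i₀ s) f z := by
  classical
  by_contra hcon
  push Not at hcon
  obtain ⟨z₀, hz₀, hz₀f⟩ := hcon
  set A := insert i₀ s with hA
  let B : Set (σ → K) := ⋂ g : G, {z | Van A f ((g : (σ → K) ≃ₗ[K] (σ → K)) z)}
  have hcont : ∀ g : (σ → K) ≃ₗ[K] (σ → K), Continuous g := fun g =>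
    continuous_linear (g : (σ → K) →ₗ[K] (σ → K))
  have hclosed : ∀ g : (σ → K) ≃ₗ[K] (σ → K), IsClosed {z | Van A f (g z)} := fun g =>
    (van_closed A hf).preimage (hcont g)
  have hBcl : IsClosed B := isClosed_iInter fun g => hclosed g
  have hBmem : ∀ z, z ∈ B ↔ ∀ g ∈ G, Van A f (g z) := by
    intro z
    simp only [B, Set.mem_iInter]
    exact ⟨fun h g hg => h ⟨g, hg⟩, fun h g => h g g.2⟩
  have hBst : Stable G B := by
    intro g hg z hz
    rw [hBmem] at hz ⊢
    intro g' hg'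
    exact hz (g' * g) (G.mul_mem hg' hg)
  have hUst : Stable G (C ∩ Bᶜ) := by
    rintro g hg z ⟨hzC, hzB⟩
    refine ⟨hst g hg z hzC, fun hgz => hzB ?_⟩
    have := hBst g⁻¹ (G.inv_mem hg) _ hgz
    have h2 : g⁻¹ (g z) = z := LinearEquiv.symm_apply_apply g z
    rwa [h2] at this
  -- density
  have hdense : C ⊆ closure (C ∩ Bᶜ) := by
    rcases hirr.2 (closure (C ∩ Bᶜ)) B isClosed_closure hBcl (stable_closure hUst) hBst (by
      intro z hz
      by_cases hzB : z ∈ B
      · exact Or.inr hzB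
      · exact Or.inl (subset_closure ⟨hz, hzB⟩)) with h1 | h1
    · exact h1
    · exfalso
      have := (hBmem z₀).1 (h1 hz₀) 1 G.one_mem
      exact hz₀f this
  -- finite cover
  have hnoeth : TopologicalSpace.NoetherianSpace (σ → K) := noetherian
  obtain ⟨Γ, hΓ⟩ := (TopologicalSpace.NoetherianSpace.isCompact Bᶜ).elim_finite_subcover
    (fun g : G => {z | Van A f ((g : (σ → K) ≃ₗ[K] (σ → K)) z)}ᶜ)
    (fun g => (hclosed g).isOpen_compl) (by
      intro z hz
      rw [Set.mem_iUnion]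
      by_contra hcon
      push Not at hcon
      apply hz
      simp only [B, Set.mem_iInter]
      intro g
      by_contra h
      exact hcon g h)
  have hμ : ∀ g : G, ∃ μ : K, μ ≠ 0 ∧ ∀ x y, (g : (σ → K) ≃ₗ[K] (σ → K)) x ⬝ᵥ
      (g : (σ → K) ≃ₗ[K] (σ → K)) y = μ * (x ⬝ᵥ y) := fun g => hG.sim g g.2
  choose μ hμ0 hμ using hμ
  let DD : G → (σ → σ → K) × (σ → K) → K := fun g p => D (act g (μ g) p)
  have hDD : ∀ g, DD g ∈ Pol (c2 σ σ K) := fun g => act_mem _ _ hD
  have hprod : (∏ g ∈ Γ, DD g) ∈ Pol (c2 σ σ K) := Subalgebra.prod_mem _ fun g _ => hDD g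
  have hvan : ∀ z ∈ C, Van A (∏ g ∈ Γ, DD g) z := by
    have hcl := van_closed A hprod
    intro z hz
    refine (closure_minimal ?_ hcl) (hdense hz)
    rintro w ⟨hwC, hwB⟩
    obtain ⟨g, hgΓ, hg⟩ := Set.mem_iUnion₂.1 (hΓ hwB)
    refine van_prod A Γ DD g hgΓ w ?_
    have h1 := h _ (hst g g.2 w hwC)
    rcases van_mul A hD hf _ h1 with h2 | h2
    · intro p
      change D (act g (μ g) (fill A w p)) = 0
      rw [act_fill _ _ (hμ g)]
      exact h2 _
    · exact absurd h2 hg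
  have hzero : (∏ g ∈ Γ, DD g) = 0 := by
    apply eq_zero_of_indep hN hprod _ hvan
    intro b y y' hy
    rw [Finset.prod_apply, Finset.prod_apply]
    refine Finset.prod_congr rfl fun g _ => ?_
    apply hind
    intro i hi
    change μ g • y i = μ g • y' i
    rw [hy i hi]
  have hP := fun g => exists_ef (hDD g)
  choose P hP using hP
  have hprodP : (∏ g ∈ Γ, P g) = 0 := by
    apply ef_eq_zero
    intro p
    rw [ef_prod]
    have : (∏ g ∈ Γ, ef (P g)) = ∏ g ∈ Γ, DD g := Finset.prod_congr rfl fun g _ => (hP g).symm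
    rw [this, hzero]
    rfl
  obtain ⟨g, _, hg⟩ := Finset.prod_eq_zero_iff.1 hprodP
  apply hD0
  funext p
  obtain ⟨q, hq⟩ := act_surj (g : (σ → K) ≃ₗ[K] (σ → K)) (μ g) (hμ0 g) p
  have h1 : DD g q = 0 := by rw [hP, hg, ef, map_zero]
  change D (act g (μ g) q) = 0 at h1
  rwa [hq] at h1

/-- The elimination form. -/
theorem exists_chow [CharZero K] {G : Subgroup ((σ → K) ≃ₗ[K] (σ → K))} (hG : Sim G)
    {C : Set (σ → K)} (hC : IsClosed C) (hst : Stable G C) (hirr : Irr G C)
    (hne : C ≠ Set.univ) :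
    ∃ (A : Finset σ) (i₀ : σ) (h : MvPolynomial ((σ × σ) ⊕ σ) K), i₀ ∈ A ∧ h ≠ 0 ∧
      (∀ z ∈ C, Van A (ef h) z) ∧ (∀ Q, (∀ z ∈ C, Van A (ef Q) z) → h ∣ Q) ∧
      ¬ (∀ z ∈ C, Van A (ef (pderiv (Sum.inr i₀) h)) z) := by
  classical
  obtain ⟨s, i₀, hi₀, hN, hN'⟩ := exists_maximal hG hC hst hne hirr.1
  let I : Ideal (MvPolynomial ((σ × σ) ⊕ σ) K) :=
    { carrier := {Q | ∀ z ∈ C, Van (insert i₀ s) (ef Q) z}
      add_mem' := by
        intro P Q hP hQ z hz p
        rw [ef, map_add]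
        have h1 := hP z hz p
        have h2 := hQ z hz p
        rw [ef] at h1 h2
        rw [h1, h2, add_zero]
      zero_mem' := by
        intro z hz p
        rw [ef, map_zero]
      smul_mem' := by
        intro P Q hQ z hz p
        have h2 := hQ z hz p
        rw [ef] at h2
        rw [ef, smul_eq_mul, map_mul, h2, mul_zero] }
  have hI : ∀ Q, Q ∈ I ↔ ∀ z ∈ C, Van (insert i₀ s) (ef Q) z := fun Q => Iff.rfl
  have hindr : ∀ (d : MvPolynomial {v : (σ × σ) ⊕ σ // v ≠ Sum.inr i₀} K) (b : σ → σ → K)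
      (y y' : σ → K), (∀ i, i ≠ i₀ → y i = y' i) →
      ef (rename Subtype.val d) (b, y) = ef (rename Subtype.val d) (b, y') := by
    intro d b y y' hy
    rw [ef, ef, eval_rename, eval_rename]
    congr 1
    congr 1
    funext t
    obtain ⟨t, ht⟩ := t
    rcases t with t | t
    · rfl
    · exact hy t (fun h => ht (by rw [h]))
  obtain ⟨h, h1, h2, h3, h4⟩ := Principal.exists_generator_mv (K := K) (Sum.inr i₀) I
    (by
      intro hbot
      apply hN'
      intro f hf hfv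
      obtain ⟨P, rfl⟩ := exists_ef hf
      have : P ∈ I := hfv
      rw [hbot, Ideal.mem_bot] at this
      rw [this]
      funext p
      rw [ef, map_zero]
      rfl)
    (by
      intro d hd Q hdQ
      rw [hI] at hdQ ⊢
      refine saturated hG hst hirr hN (D := ef (rename Subtype.val d)) (ef_mem _) (ef_mem _) ?_
        (hindr d) ?_
      · intro h0
        apply hd
        apply rename_injective _ Subtype.val_injective
        rw [map_zero]
        apply ef_eq_zero
        intro p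
        rw [h0]
        rfl
      · intro z hz p
        have := hdQ z hz p
        rw [ef, map_mul] at this
        exact this)
    (by
      intro d hd
      rw [hI] at hd
      have h0 := eq_zero_of_indep hN (ef_mem _) (hindr d) hd
      apply rename_injective _ Subtype.val_injective
      rw [map_zero]
      apply ef_eq_zero
      intro p
      rw [h0]
      rfl)
  exact ⟨insert i₀ s, i₀, h, Finset.mem_insert_self _ _, h2, h1, h3, h4⟩

/-- The vector-valued companion of the elimination form. -/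
noncomputable def evec (i₀ : σ) (h : MvPolynomial ((σ × σ) ⊕ σ) K)
    (p : (σ → σ → K) × (σ → K)) : σ → K :=
  fun j => - ef (pderiv (Sum.inl (i₀, j)) h) p

theorem evec_eq [Infinite K] {A : Finset σ} {i₀ : σ} {h : MvPolynomial ((σ × σ) ⊕ σ) K}
    (hi₀ : i₀ ∈ A) {z : σ → K} (hv : Van A (ef h) z) (p : (σ → σ → K) × (σ → K)) :
    evec i₀ h (fill A z p) = ef (pderiv (Sum.inr i₀) h) (fill A z p) • z := by
  funext j
  set q := fill A z p with hq
  let v : (σ → σ → K) × (σ → K) := (Pi.single i₀ (Pi.single j 1), Pi.single i₀ (z j))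
  have h1 : ∀ ε : K, eval (pt q + ε • pt v) h = 0 := by
    intro ε
    have h2 : pt q + ε • pt v = pt (q + ε • v) := by
      funext t
      rcases t with t | t <;> rfl
    rw [h2]
    refine hv.apply (p := q + ε • v) ?_
    intro i hi
    have h3 : q.2 i = q.1 i ⬝ᵥ z := fill_eq z p i hi
    by_cases hii : i = i₀
    · subst hii
      simp only [v, Prod.snd_add, Prod.smul_snd, Pi.add_apply, Pi.smul_apply, Pi.single_eq_same,
        Prod.fst_add, Prod.smul_fst, add_dotProduct, smul_dotProduct, h3, single_dotProduct,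
        one_mul]
    · simp only [v, Prod.snd_add, Prod.smul_snd, Pi.add_apply, Pi.smul_apply,
        Prod.fst_add, Prod.smul_fst, add_dotProduct, h3,
        Pi.single_eq_of_ne hii, smul_zero, zero_dotProduct]
  have h4 := Line.deriv_zero (pt q) (pt v) h h1
  rw [Fintype.sum_sum_type] at h4
  have h5 : ∑ x : σ × σ, pt v (Sum.inl x) * eval (pt q) (pderiv (Sum.inl x) h) =
      ef (pderiv (Sum.inl (i₀, j)) h) q := by
    rw [Finset.sum_eq_single (i₀, j)]
    · simp only [pt, v, Sum.elim_inl, Pi.single_eq_same, one_mul, ef]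
    · rintro ⟨a, b⟩ _ hab
      by_cases ha : a = i₀
      · subst ha
        have hb : b ≠ j := fun hb => hab (by rw [hb])
        simp only [pt, v, Sum.elim_inl, Pi.single_eq_same, Pi.single_eq_of_ne hb, zero_mul]
      · simp only [pt, v, Sum.elim_inl, Pi.single_eq_of_ne ha, Pi.zero_apply, zero_mul]
    · intro hn
      exact absurd (Finset.mem_univ _) hn
  have h6 : ∑ x : σ, pt v (Sum.inr x) * eval (pt q) (pderiv (Sum.inr x) h) =
      z j * ef (pderiv (Sum.inr i₀) h) q := by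
    rw [Finset.sum_eq_single i₀]
    · simp only [pt, v, Sum.elim_inr, Pi.single_eq_same, ef]
    · intro a _ ha
      simp only [pt, v, Sum.elim_inr, Pi.single_eq_of_ne ha, zero_mul]
    · intro hn
      exact absurd (Finset.mem_univ _) hn
  rw [h5, h6] at h4
  rw [evec, Pi.smul_apply, smul_eq_mul]
  linear_combination -h4

theorem evec_mem_pol (i₀ : σ) (h : MvPolynomial ((σ × σ) ⊕ σ) K) (j : σ) :
    (fun p => evec i₀ h p j) ∈ Pol (c2 σ σ K) :=
  Subalgebra.neg_mem _ (ef_mem _)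

/-- On the hypersurface the companion takes values in `C`. -/
theorem evec_mem [Infinite K] {G : Subgroup ((σ → K) ≃ₗ[K] (σ → K))} (hG : Sim G)
    {C : Set (σ → K)} (hC : IsClosed C) (hst : Stable G C)
    {A : Finset σ} {i₀ : σ} {h : MvPolynomial ((σ × σ) ⊕ σ) K} (hi₀ : i₀ ∈ A)
    (hv : ∀ z ∈ C, Van A (ef h) z) (hd : ∀ Q, (∀ z ∈ C, Van A (ef Q) z) → h ∣ Q)
    (p : (σ → σ → K) × (σ → K)) (hp : ef h p = 0) : evec i₀ h p ∈ C := by
  rw [← hC.closure_eq, mem_closure_iff_eval]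
  intro P hP
  have h1 : (fun p => eval (evec i₀ h p) P) ∈ Pol (c2 σ σ K) :=
    eval_mem _ P (fun t p => evec i₀ h p t) (fun t => evec_mem_pol i₀ h t)
  obtain ⟨Q, hQ⟩ := exists_ef h1
  have h2 : h ∣ Q := by
    apply hd
    intro z hz q
    rw [← hQ]
    simp only
    rw [evec_eq hi₀ (hv z hz)]
    exact hP _ (smul_mem_of_stable hG hC hst hz _)
  obtain ⟨R, rfl⟩ := h2
  have h3 : eval (evec i₀ h p) P = ef (h * R) p := congrFun hQ p
  rw [h3, ef, map_mul]
  rw [ef] at hp
  rw [hp, zero_mul]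

/-- Points are given by pairs. -/
def unpt (a : (σ × σ) ⊕ σ → K) : (σ → σ → K) × (σ → K) :=
  (fun i k => a (Sum.inl (i, k)), fun k => a (Sum.inr k))

theorem pt_unpt (a : (σ × σ) ⊕ σ → K) : pt (unpt a) = a := pt_surj a

theorem unpt_pt (p : (σ → σ → K) × (σ → K)) : unpt (pt p) = p := rfl

/-- The action on points as a linear map. -/
def actL (g : (σ → K) ≃ₗ[K] (σ → K)) (μ : K) :
    ((σ × σ) ⊕ σ → K) →ₗ[K] ((σ × σ) ⊕ σ → K) where
  toFun a := pt (act g μ (unpt a))
  map_add' a b := by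
    funext t
    rcases t with t | t
    · change g (fun k => a (Sum.inl (t.1, k)) + b (Sum.inl (t.1, k))) t.2 = _
      have : (fun k => a (Sum.inl (t.1, k)) + b (Sum.inl (t.1, k))) =
        (fun k => a (Sum.inl (t.1, k))) + (fun k => b (Sum.inl (t.1, k))) := rfl
      rw [this, map_add]
      rfl
    · change μ * (a (Sum.inr t) + b (Sum.inr t)) = _
      rw [mul_add]
      rfl
  map_smul' c a := by
    funext t
    rcases t with t | t
    · change g (fun k => c * a (Sum.inl (t.1, k))) t.2 = _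
      have : (fun k => c * a (Sum.inl (t.1, k))) = c • (fun k => a (Sum.inl (t.1, k))) := rfl
      rw [this, map_smul]
      rfl
    · change μ * (c * a (Sum.inr t)) = c * (μ * a (Sum.inr t))
      ring

theorem actL_pt (g : (σ → K) ≃ₗ[K] (σ → K)) (μ : K) (p : (σ → σ → K) × (σ → K)) :
    actL g μ (pt p) = pt (act g μ p) := rfl

/-- Semi-invariance of the elimination form. -/
theorem chow_semi [Infinite K] {G : Subgroup ((σ → K) ≃ₗ[K] (σ → K))}
    {C : Set (σ → K)} (hst : Stable G C)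
    {A : Finset σ} {h : MvPolynomial ((σ × σ) ⊕ σ) K}
    (hv : ∀ z ∈ C, Van A (ef h) z) (hd : ∀ Q, (∀ z ∈ C, Van A (ef Q) z) → h ∣ Q)
    (g : (σ → K) ≃ₗ[K] (σ → K)) (hg : g ∈ G) (μ : K) (hμ0 : μ ≠ 0)
    (hμ : ∀ x y, g x ⬝ᵥ g y = μ * (x ⬝ᵥ y)) :
    ∃ c : K, c ≠ 0 ∧ ∀ p, ef h (act g μ p) = c * ef h p := by
  -- the inverse
  have hμ' : ∀ x y, g⁻¹ x ⬝ᵥ g⁻¹ y = μ⁻¹ * (x ⬝ᵥ y) := by
    intro x y
    have h1 := hμ (g⁻¹ x) (g⁻¹ y)
    have h2 : ∀ x, g (g⁻¹ x) = x := fun x => LinearEquiv.apply_symm_apply g x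
    rw [h2, h2] at h1
    rw [h1, ← mul_assoc, inv_mul_cancel₀ hμ0, one_mul]
  have key : ∀ (g : (σ → K) ≃ₗ[K] (σ → K)) (_ : g ∈ G) (μ : K)
      (_ : ∀ x y, g x ⬝ᵥ g y = μ * (x ⬝ᵥ y)), ∃ R, ∀ p, ef h (act g μ p) = ef h p * ef R p := by
    intro g hg μ hμ
    obtain ⟨Q, hQ⟩ := exists_ef (act_mem g μ (ef_mem h))
    obtain ⟨R, rfl⟩ := hd Q (by
      intro z hz p
      rw [← hQ]
      simp only
      rw [act_fill g μ hμ]
      exact hv _ (hst g hg z hz) _)
    refine ⟨R, fun p => ?_⟩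
    have e : ef h (act g μ p) = ef (h * R) p := congrFun hQ p
    rw [e, ef, map_mul]
    rfl
  obtain ⟨R, hR⟩ := key g hg μ hμ
  obtain ⟨R', hR'⟩ := key g⁻¹ (G.inv_mem hg) μ⁻¹ hμ'
  obtain ⟨Q, hQ⟩ := exists_ef (act_mem g μ (ef_mem h))
  obtain ⟨Q', hQ'⟩ := exists_ef (act_mem g μ (ef_mem R'))
  have hinv : ∀ p, act g⁻¹ μ⁻¹ (act g μ p) = p := by
    intro p
    refine Prod.ext ?_ ?_
    · funext i
      exact LinearEquiv.symm_apply_apply g _
    · simp [act, smul_smul, inv_mul_cancel₀ hμ0]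
  have h1 : Q = h * R := by
    have : Q - h * R = 0 := ef_eq_zero _ fun p => by
      have e1 : ef h (act g μ p) = ef Q p := congrFun hQ p
      rw [ef, map_sub, map_mul]
      change ef Q p - ef h p * ef R p = 0
      rw [← e1, hR, sub_self]
    exact sub_eq_zero.1 this
  have h2 : h = Q * Q' := by
    have : h - Q * Q' = 0 := ef_eq_zero _ fun p => by
      have e1 : ef h (act g μ p) = ef Q p := congrFun hQ p
      have e2 : ef R' (act g μ p) = ef Q' p := congrFun hQ' p
      have e3 := hR' (act g μ p)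
      rw [hinv] at e3
      rw [ef, map_sub, map_mul]
      change ef h p - ef Q p * ef Q' p = 0
      rw [← e1, ← e2, ← e3, sub_self]
    exact sub_eq_zero.1 this
  obtain ⟨c, hc, hcQ⟩ := Line.exists_const_of_dvd h Q ⟨R, h1⟩ ⟨Q', h2⟩
  refine ⟨c, hc, fun p => ?_⟩
  have e1 : ef h (act g μ p) = ef Q p := congrFun hQ p
  rw [e1, hcQ, ef, map_mul, eval_C]
  rfl

/-- Transformation of the companion. -/
theorem evec_semi [Infinite K] {h : MvPolynomial ((σ × σ) ⊕ σ) K} (i₀ : σ)
    (g : (σ → K) ≃ₗ[K] (σ → K)) (μ : K) (hμ0 : μ ≠ 0)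
    (hμ : ∀ x y, g x ⬝ᵥ g y = μ * (x ⬝ᵥ y)) (c : K)
    (hc : ∀ p, ef h (act g μ p) = c * ef h p) (p : (σ → σ → K) × (σ → K)) :
    evec i₀ h (act g μ p) = (c * μ⁻¹) • g (evec i₀ h p) := by
  have hΛ : ∀ a, eval (actL g μ a) h = c * eval a h := by
    intro a
    have := hc (unpt a)
    rw [ef, ef, pt_unpt] at this
    exact this
  have hsum : ∀ (q : (σ → σ → K) × (σ → K)) (β : σ → K),
      ∑ t, pt ((Pi.single i₀ β, 0) : (σ → σ → K) × (σ → K)) t * eval (pt q) (pderiv t h) =
      - (β ⬝ᵥ evec i₀ h q) := by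
    intro q β
    rw [Fintype.sum_sum_type]
    have h6 : ∑ x : σ, pt ((Pi.single i₀ β, 0) : (σ → σ → K) × (σ → K)) (Sum.inr x) *
        eval (pt q) (pderiv (Sum.inr x) h) = 0 := by
      apply Finset.sum_eq_zero
      intro x _
      simp [pt]
    rw [h6, add_zero, Fintype.sum_prod_type, Finset.sum_eq_single i₀]
    · simp only [pt, Sum.elim_inl, Pi.single_eq_same, dotProduct, evec, ef, mul_neg,
        Finset.sum_neg_distrib, neg_neg]
    · intro a _ ha
      apply Finset.sum_eq_zero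
      intro x _
      simp only [pt, Sum.elim_inl, Pi.single_eq_of_ne ha, Pi.zero_apply, zero_mul]
    · intro hn
      exact absurd (Finset.mem_univ _) hn
  have hdual : ∀ w : σ → K, (∀ β, β ⬝ᵥ w = 0) → w = 0 := by
    intro w hw
    funext j
    have := hw (Pi.single j 1)
    rwa [single_dotProduct, one_mul] at this
  rw [← sub_eq_zero]
  apply hdual
  intro β'
  obtain ⟨β, rfl⟩ := g.surjective β'
  have h1 := Line.deriv_subst (actL g μ) c h hΛ (pt p)
    (pt ((Pi.single i₀ β, 0) : (σ → σ → K) × (σ → K)))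
  rw [actL_pt, actL_pt] at h1
  have h2 : act g μ ((Pi.single i₀ β, 0) : (σ → σ → K) × (σ → K)) =
      (Pi.single i₀ (g β), 0) := by
    refine Prod.ext ?_ ?_
    · funext i
      by_cases hi : i = i₀
      · subst hi; simp [act]
      · simp [act, Pi.single_eq_of_ne hi]
    · simp [act]
  rw [h2, hsum, hsum] at h1
  rw [dotProduct_sub, dotProduct_smul, hμ, smul_eq_mul]
  have h3 : c * μ⁻¹ * (μ * (β ⬝ᵥ evec i₀ h p)) = c * (β ⬝ᵥ evec i₀ h p) := by
    field_simp
  rw [h3]
  linear_combination -h1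

end Pool.Agent.Lib.MP_d55432_al.Chow
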