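import Pool.Agent.Lib.MP_d55432_al.Defs

/-!
# Lie words, contents, and extraction of multihomogeneous components
-/

namespace Pool.Agent.Lib.MP_d55432_al

open LieAlgebra Module

variable {K : Type*} [Field K] {L : Type*} [LieRing L] [LieAlgebra K L] {σ : Type*}

/-- The span of the Lie words with content `c`. -/
noncomputable def W (K : Type*) [Field K] {σ : Type*} (c : Multiset σ) : Submodule K (FreeLieAlgebra K σ) :=
  Submodule.span K {w | IsLieWord K c w}

theorem mem_span_words (p : FreeLieAlgebra K σ) :
    p ∈ Submodule.span K {w : FreeLieAlgebra K σ | ∃ c, IsLieWord K c w} := by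
  let S : LieSubalgebra K (FreeLieAlgebra K σ) :=
    { Submodule.span K {w : FreeLieAlgebra K σ | ∃ c, IsLieWord K c w} with
      lie_mem' := by
        intro x y hx hy
        change x ∈ Submodule.span K {w : FreeLieAlgebra K σ | ∃ c, IsLieWord K c w} at hx
        change y ∈ Submodule.span K {w : FreeLieAlgebra K σ | ∃ c, IsLieWord K c w} at hy
        change ⁅x, y⁆ ∈ Submodule.span K {w : FreeLieAlgebra K σ | ∃ c, IsLieWord K c w}
        induction hx using Submodule.span_induction with
        | mem u hu =>
          induction hy using Submodule.span_induction with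
          | mem v hv =>
            obtain ⟨c, hc⟩ := hu
            obtain ⟨d, hd⟩ := hv
            exact Submodule.subset_span ⟨c + d, hc.bracket hd⟩
          | zero => rw [lie_zero]; exact Submodule.zero_mem _
          | add v w _ _ hv hw => rw [lie_add]; exact Submodule.add_mem _ hv hw
          | smul r v _ hv => rw [lie_smul]; exact Submodule.smul_mem _ _ hv
        | zero => rw [zero_lie]; exact Submodule.zero_mem _
        | add v w _ _ hv hw => rw [add_lie]; exact Submodule.add_mem _ hv hw
        | smul r v _ hv => rw [smul_lie]; exact Submodule.smul_mem _ _ hv }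
  let φ : FreeLieAlgebra K σ →ₗ⁅K⁆ S :=
    FreeLieAlgebra.lift K fun i => ⟨FreeLieAlgebra.of K i, Submodule.subset_span
      ⟨{i}, IsLieWord.letter i⟩⟩
  have h : S.incl.comp φ = LieHom.id := by
    apply FreeLieAlgebra.hom_ext
    intro i
    rw [LieHom.comp_apply, FreeLieAlgebra.lift_of_apply]
    rfl
  have h2 : (S.incl.comp φ) p = p := by rw [h]; rfl
  rw [← h2]
  exact (φ p).2

/-- Decomposition of a Lie polynomial into components of given content. -/
theorem exists_decomposition (p : FreeLieAlgebra K σ) :
    ∃ P : Multiset σ →₀ FreeLieAlgebra K σ, (∀ c, P c ∈ W K c) ∧ P.sum (fun _ x => x) = p := by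
  classical
  have hp := mem_span_words p
  induction hp using Submodule.span_induction with
  | mem w hw =>
    obtain ⟨c, hc⟩ := hw
    refine ⟨Finsupp.single c w, ?_, by rw [Finsupp.sum_single_index rfl]⟩
    intro d
    rw [Finsupp.single_apply]
    split_ifs with h
    · subst h; exact Submodule.subset_span hc
    · exact Submodule.zero_mem _
  | zero => exact ⟨0, fun c => Submodule.zero_mem _, Finsupp.sum_zero_index⟩
  | add x y _ _ hx hy =>
    obtain ⟨P, hP, hP'⟩ := hx
    obtain ⟨Q, hQ, hQ'⟩ := hy
    refine ⟨P + Q, fun c => Submodule.add_mem _ (hP c) (hQ c), ?_⟩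
    rw [Finsupp.sum_add_index' (fun _ => rfl) (fun _ _ _ => rfl), hP', hQ']
  | smul r x _ hx =>
    obtain ⟨P, hP, hP'⟩ := hx
    refine ⟨r • P, fun c => Submodule.smul_mem _ _ (hP c), ?_⟩
    rw [Finsupp.sum_smul_index' (fun _ => rfl), ← hP', Finsupp.smul_sum]

theorem lift_scale_word {c : Multiset σ} {w : FreeLieAlgebra K σ} (hw : IsLieWord K c w)
    (s : σ → K) (a : σ → L) :
    FreeLieAlgebra.lift K (fun i => s i • a i) w =
      (c.map s).prod • FreeLieAlgebra.lift K a w := by
  induction hw with
  | letter i =>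
    rw [FreeLieAlgebra.lift_of_apply, FreeLieAlgebra.lift_of_apply]
    simp
  | bracket _ _ hu hv =>
    rw [LieHom.map_lie, LieHom.map_lie, hu, hv, Multiset.map_add, Multiset.prod_add, smul_lie,
      lie_smul, smul_smul]

theorem lift_scale {c : Multiset σ} {w : FreeLieAlgebra K σ} (hw : w ∈ W K c)
    (s : σ → K) (a : σ → L) :
    FreeLieAlgebra.lift K (fun i => s i • a i) w =
      (c.map s).prod • FreeLieAlgebra.lift K a w := by
  induction hw using Submodule.span_induction with
  | mem u hu => exact lift_scale_word hu s a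
  | zero => rw [map_zero, map_zero, smul_zero]
  | add x y _ _ hx hy => rw [map_add, map_add, smul_add, hx, hy]
  | smul r x _ hx => rw [map_smul, map_smul, hx, smul_comm]

/-- Interpolation weights. -/
theorem exists_weights [CharZero K] (N : ℕ) : ∃ s : Fin (N + 1) → K, ∀ k, k ≤ N →
    ∃ μ : Fin (N + 1) → K, ∀ l, l ≤ N → ∑ j, μ j * s j ^ l = if l = k then 1 else 0 := by
  classical
  let s : Fin (N + 1) → K := fun j => (j.1 : K)
  refine ⟨s, fun k hk => ?_⟩
  have hinj : Function.Injective s := by
    intro i j hij
    exact Fin.ext (Nat.cast_injective hij)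
  have hdet : IsUnit (Matrix.vandermonde s).det :=
    isUnit_iff_ne_zero.2 (Matrix.det_vandermonde_ne_zero_iff.2 hinj)
  refine ⟨fun j => (Matrix.vandermonde s)⁻¹ ⟨k, by omega⟩ j, fun l hl => ?_⟩
  have h1 := congrFun (congrFun (Matrix.nonsing_inv_mul (Matrix.vandermonde s) hdet)
    ⟨k, by omega⟩) ⟨l, by omega⟩
  rw [Matrix.mul_apply, Matrix.one_apply] at h1
  simp only [Matrix.vandermonde_apply, Fin.mk.injEq] at h1
  rw [h1]
  exact if_congr ⟨Eq.symm, Eq.symm⟩ rfl rfl

/-- Renaming of letters. -/
noncomputable def relabel {τ : Type*} (g : σ → τ) (p : FreeLieAlgebra K σ) : FreeLieAlgebra K τ :=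
  FreeLieAlgebra.lift K (fun i => FreeLieAlgebra.of K (g i)) p

theorem relabel_word {τ : Type*} (g : σ → τ) {c : Multiset σ} {w : FreeLieAlgebra K σ}
    (hw : IsLieWord K c w) : IsLieWord K (c.map g) (relabel g w) := by
  induction hw with
  | letter i =>
    rw [relabel, FreeLieAlgebra.lift_of_apply, Multiset.map_singleton]
    exact IsLieWord.letter _
  | bracket _ _ hu hv =>
    rw [relabel, LieHom.map_lie, Multiset.map_add]
    exact hu.bracket hv

theorem relabel_span {τ : Type*} (g : σ → τ) (A : Set (FreeLieAlgebra K σ))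
    (B : Set (FreeLieAlgebra K τ)) (h : ∀ w ∈ A, relabel g w ∈ B) {p : FreeLieAlgebra K σ}
    (hp : p ∈ Submodule.span K A) : relabel g p ∈ Submodule.span K B := by
  induction hp using Submodule.span_induction with
  | mem u hu => exact Submodule.subset_span (h u hu)
  | zero => rw [relabel, map_zero]; exact Submodule.zero_mem _
  | add x y _ _ hx hy => rw [relabel, map_add]; exact Submodule.add_mem _ hx hy
  | smul r x _ hx => rw [relabel, map_smul]; exact Submodule.smul_mem _ _ hx

theorem lift_relabel {τ : Type*} (g : σ → τ) (p : FreeLieAlgebra K σ) (a : τ → L) :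
    FreeLieAlgebra.lift K a (relabel g p) = FreeLieAlgebra.lift K (fun i => a (g i)) p := by
  rw [relabel, lift_lift]
  congr 2
  funext i
  rw [FreeLieAlgebra.lift_of_apply]

theorem lieImage_relabel {τ : Type*} (g : σ ≃ τ) (p : FreeLieAlgebra K σ) :
    lieImage L (relabel g p) = lieImage L p := by
  ext x
  constructor
  · rintro ⟨a, rfl⟩
    exact ⟨fun i => a (g i), (lift_relabel g p a).symm⟩
  · rintro ⟨a, rfl⟩
    refine ⟨fun i => a (g.symm i), ?_⟩
    simp only [lift_relabel, Equiv.symm_apply_apply]

theorem IsHomogeneousLie.relabel {τ : Type*} (g : σ → τ) {d : ℕ} {p : FreeLieAlgebra K σ}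
    (hp : IsHomogeneousLie d p) : IsHomogeneousLie d (relabel g p) := by
  refine relabel_span g _ _ ?_ hp
  rintro w ⟨c, hc, hw⟩
  exact ⟨c.map g, by rw [Multiset.card_map, hc], relabel_word g hw⟩

theorem IsMultilinearLie.relabel {τ : Type*} [Fintype σ] [Fintype τ] (g : σ ≃ τ)
    {p : FreeLieAlgebra K σ} (hp : IsMultilinearLie p) :
    IsMultilinearLie (relabel g p) := by
  refine relabel_span g _ _ ?_ hp
  intro w hw
  have h := relabel_word g hw
  have h2 : (Finset.univ : Finset σ).val.map g = (Finset.univ : Finset τ).val := by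
    have := Finset.map_univ_equiv g
    rw [← this]
    rfl
  rw [h2] at h
  exact h

end Pool.Agent.Lib.MP_d55432_al
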