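import Pool.Agent.Lib.MP_d55432_al.StageB
import Pool.Agent.Lib.MP_d55432_al.Words

/-!
# Images of homogeneous Lie polynomials
-/

namespace Pool.Agent.Lib.MP_d55432_al

open LieAlgebra Module

variable {K : Type*} [Field K] {L : Type*} [LieRing L] [LieAlgebra K L]

theorem isPolyMap_lie [FiniteDimensional K L] {σ : Type*} {f g : (σ → L) → L}
    (hf : IsPolyMap K f) (hg : IsPolyMap K g) : IsPolyMap K (fun a => ⁅f a, g a⁆) := by
  intro ψ
  let e := Module.finBasis K L
  have h1 : (fun a : σ → L => ψ ⁅f a, g a⁆) =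
      ∑ i, ∑ j, ψ ⁅e i, e j⁆ • ((fun a : σ → L => e.coord i (f a)) *
        (fun a : σ → L => e.coord j (g a))) := by
    funext y
    conv_lhs => rw [← e.sum_repr (f y), ← e.sum_repr (g y), sum_lie, map_sum]
    rw [Finset.sum_apply]
    refine Finset.sum_congr rfl fun i _ => ?_
    rw [lie_sum, map_sum, Finset.sum_apply]
    refine Finset.sum_congr rfl fun j _ => ?_
    rw [smul_lie, lie_smul, map_smul, map_smul, smul_eq_mul, smul_eq_mul, Pi.smul_apply,
      Pi.mul_apply, smul_eq_mul, Basis.coord_apply, Basis.coord_apply]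
    ring
  rw [h1]
  exact Subalgebra.sum_mem _ fun i _ => Subalgebra.sum_mem _ fun j _ =>
    Subalgebra.smul_mem _ (Subalgebra.mul_mem _ (hf _) (hg _)) _

theorem isPolyMap_lift [FiniteDimensional K L] {σ : Type*} (p : FreeLieAlgebra K σ) :
    IsPolyMap K (fun a : σ → L => FreeLieAlgebra.lift K a p) := by
  have hp := mem_span_words p
  induction hp using Submodule.span_induction with
  | mem w hw =>
    obtain ⟨c, hc⟩ := hw
    induction hc with
    | letter i =>
      intro ψ
      simp only [FreeLieAlgebra.lift_of_apply]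
      exact PolyFun_coord i ψ
    | bracket _ _ hu hv =>
      simp only [LieHom.map_lie]
      exact isPolyMap_lie hu hv
  | zero =>
    intro ψ
    simp only [map_zero]
    exact Subalgebra.zero_mem _
  | add x y _ _ hx hy =>
    intro ψ
    simp only [map_add]
    exact Subalgebra.add_mem _ (hx ψ) (hy ψ)
  | smul r x _ hx =>
    intro ψ
    simp only [map_smul]
    exact Subalgebra.smul_mem _ (hx ψ) r

theorem isAutEquivariant_lift {σ : Type*} (p : FreeLieAlgebra K σ) :
    IsAutEquivariant K (fun a : σ → L => FreeLieAlgebra.lift K a p) := by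
  intro φ a
  exact map_lift (φ : L →ₗ⁅K⁆ L) a p

theorem card_pos_of_word {σ : Type*} {c : Multiset σ} {w : FreeLieAlgebra K σ}
    (hw : IsLieWord K c w) : 0 < c.card := by
  induction hw with
  | letter i => simp
  | bracket _ _ hu hv => rw [Multiset.card_add]; omega

theorem IsHomogeneousLie.eq_zero {σ : Type*} {p : FreeLieAlgebra K σ}
    (hp : IsHomogeneousLie 0 p) : p = 0 := by
  have h : {w : FreeLieAlgebra K σ | ∃ c : Multiset σ, c.card = 0 ∧ IsLieWord K c w} = ∅ := by
    ext w
    simp only [Set.mem_ofPred_eq, Set.mem_empty_iff_false, iff_false, not_exists, not_and]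
    intro c hc hw
    have := card_pos_of_word hw
    omega
  rw [IsHomogeneousLie, h, Submodule.span_empty] at hp
  simpa using hp

theorem IsHomogeneousLie.lift_smul {σ : Type*} {d : ℕ} {p : FreeLieAlgebra K σ}
    (hp : IsHomogeneousLie d p) (t : K) (a : σ → L) :
    FreeLieAlgebra.lift K (t • a) p = t ^ d • FreeLieAlgebra.lift K a p := by
  induction hp using Submodule.span_induction with
  | mem w hw =>
    obtain ⟨c, hc, hw⟩ := hw
    have := lift_scale_word hw (fun _ => t) a
    rw [Multiset.map_const', Multiset.prod_replicate, hc] at this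
    exact this
  | zero => rw [map_zero, map_zero, smul_zero]
  | add x y _ _ hx hy => rw [map_add, map_add, smul_add, hx, hy]
  | smul r x _ hx =>
    rw [map_smul (FreeLieAlgebra.lift K (t • a)) r x, map_smul (FreeLieAlgebra.lift K a) r x, hx,
      smul_comm]

theorem exists_root [IsAlgClosed K] {b : ℕ} (hb : 0 < b) (x : K) : ∃ τ : K, τ ^ b = x :=
  IsAlgClosed.exists_pow_nat_eq x hb

/-- Range of `c(w) f(x)`. -/
theorem range_smul_eq [IsAlgClosed K] {X Y : Type*} [SMul K X] {b : ℕ} (hb : 0 < b)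
    (f : X → L) (hf : ∀ (t : K) a, f (t • a) = t ^ b • f a) (c : Y → K) (w₀ : Y)
    (hw₀ : c w₀ ≠ 0) : Set.range (fun q : X × Y => c q.2 • f q.1) = Set.range f := by
  ext y
  constructor
  · rintro ⟨⟨x, w⟩, rfl⟩
    obtain ⟨τ, hτ⟩ := exists_root hb (c w)
    exact ⟨τ • x, by rw [hf, hτ]⟩
  · rintro ⟨x, rfl⟩
    obtain ⟨τ, hτ⟩ := exists_root hb (c w₀)⁻¹
    exact ⟨(τ • x, w₀), by simp only [hf, hτ, smul_smul, mul_inv_cancel₀ hw₀, one_smul]⟩

theorem exists_homogeneous [IsAlgClosed K] [CharZero K] [FiniteDimensional K L]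
    [LieAlgebra.IsSimple K L] {m b : ℕ} (hb : 0 < b) (f : (Fin m → L) → L)
    (hf : IsPolyMap K f) (heq : IsAutEquivariant K f)
    (hfb : ∀ (t : K) a, f (t • a) = t ^ b • f a) :
    ∃ (m' d : ℕ) (p : FreeLieAlgebra K (Fin m')), IsHomogeneousLie d p ∧
      Set.range f = lieImage L p := by
  classical
  by_cases hzero : ∀ x, f x = 0
  · refine ⟨1, 0, 0, Submodule.zero_mem _, ?_⟩
    ext y
    simp only [lieImage, map_zero, Set.mem_range, hzero, exists_const]
  push Not at hzero
  obtain ⟨x₀, hx₀⟩ := hzero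
  obtain ⟨n, c, ⟨w₀, hw₀⟩, p, hp⟩ := stageB f hf heq
  obtain ⟨P, hPW, hPsum⟩ := exists_decomposition p
  let N := P.support.sup Multiset.card
  have hN : ∀ c ∈ P.support, c.card ≤ N := fun c hc => Finset.le_sup hc
  let Pk : ℕ → FreeLieAlgebra K (Fin m ⊕ Aux n) := fun k =>
    ∑ c ∈ P.support with c.card = k, P c
  have hPk : ∀ k, IsHomogeneousLie k (Pk k) := by
    intro k
    refine Submodule.sum_mem _ fun c hc => ?_
    rw [Finset.mem_filter] at hc
    have h1 : W K c ≤ Submodule.span K
        {w | ∃ c : Multiset (Fin m ⊕ Aux n), c.card = k ∧ IsLieWord K c w} :=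
      Submodule.span_mono fun w hw => ⟨c, hc.2, hw⟩
    exact h1 (hPW c)
  have hPsum' : p = ∑ k ∈ Finset.range (N + 1), Pk k := by
    rw [← hPsum, Finsupp.sum]
    rw [← Finset.sum_fiberwise_of_maps_to (s := P.support) (t := Finset.range (N + 1))
      (g := Multiset.card) (fun c hc => Finset.mem_range.2 (Nat.lt_succ_of_le (hN c hc)))]
  let a₀ : (Fin m ⊕ Aux n) → L := Sum.elim x₀ w₀
  have hne : FreeLieAlgebra.lift K a₀ p ≠ 0 := by
    rw [← hp a₀]
    exact smul_ne_zero hw₀ hx₀
  have hex : ∃ k ∈ Finset.range (N + 1), FreeLieAlgebra.lift K a₀ (Pk k) ≠ 0 := by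
    by_contra hcon
    push Not at hcon
    apply hne
    rw [hPsum', map_sum]
    exact Finset.sum_eq_zero hcon
  obtain ⟨k, hk, hk0⟩ := hex
  obtain ⟨s, hs⟩ := exists_weights (K := K) N
  obtain ⟨μ, hμ⟩ := hs k (Nat.le_of_lt_succ (Finset.mem_range.1 hk))
  let c' : (Aux n → L) → K := fun w => ∑ j, μ j * s j ^ b * c (s j • w)
  have hext : ∀ a : (Fin m ⊕ Aux n) → L, FreeLieAlgebra.lift K a (Pk k) =
      c' (fun i => a (Sum.inr i)) • f (fun i => a (Sum.inl i)) := by
    intro a
    have h1 : ∀ j, FreeLieAlgebra.lift K (s j • a) p =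
        ∑ l ∈ Finset.range (N + 1), s j ^ l • FreeLieAlgebra.lift K a (Pk l) := by
      intro j
      rw [hPsum', map_sum]
      exact Finset.sum_congr rfl fun l _ => (hPk l).lift_smul (s j) a
    have h2 : ∑ j, μ j • FreeLieAlgebra.lift K (s j • a) p =
        FreeLieAlgebra.lift K a (Pk k) := by
      simp only [h1, Finset.smul_sum, smul_smul]
      rw [Finset.sum_comm]
      rw [Finset.sum_eq_single k]
      · rw [← Finset.sum_smul, hμ k (Nat.le_of_lt_succ (Finset.mem_range.1 hk)), if_pos rfl,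
          one_smul]
      · intro l hl hlk
        rw [← Finset.sum_smul, hμ l (Nat.le_of_lt_succ (Finset.mem_range.1 hl)), if_neg hlk,
          zero_smul]
      · intro h; exact absurd hk h
    rw [← h2]
    simp only [c', Finset.sum_smul]
    refine Finset.sum_congr rfl fun j _ => ?_
    rw [← hp (s j • a)]
    change μ j • (c (fun i => (s j • a) (Sum.inr i)) • f (fun i => (s j • a) (Sum.inl i))) = _
    have h3 : f (fun i => (s j • a) (Sum.inl i)) = s j ^ b • f (fun i => a (Sum.inl i)) :=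
      hfb (s j) (fun i => a (Sum.inl i))
    have h4 : c (fun i => (s j • a) (Sum.inr i)) = c (s j • fun i => a (Sum.inr i)) := rfl
    rw [h3, h4, smul_smul, smul_smul]
    congr 1
    ring
  have hc' : c' w₀ ≠ 0 := by
    intro h0
    apply hk0
    rw [hext a₀]
    have : c' (fun i => a₀ (Sum.inr i)) = 0 := h0
    rw [this, zero_smul]
  let g : (Fin m ⊕ Aux n) ≃ Fin (Fintype.card (Fin m ⊕ Aux n)) := Fintype.equivFin _
  refine ⟨_, k, relabel g (Pk k), (hPk k).relabel g, ?_⟩
  rw [lieImage_relabel, ← range_smul_eq hb f hfb c' w₀ hc', lieImage]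
  ext y
  constructor
  · rintro ⟨⟨x, w⟩, rfl⟩
    exact ⟨Sum.elim x w, by simp only [hext]; rfl⟩
  · rintro ⟨a, rfl⟩
    exact ⟨(fun i => a (Sum.inl i), fun i => a (Sum.inr i)), (hext a).symm⟩

/-- The images of homogeneous Lie polynomials on a simple Lie algebra are the images of
homogeneous `Aut L`-equivariant polynomial maps. -/
theorem homogeneous_images [IsAlgClosed K] [CharZero K] [FiniteDimensional K L]
    [LieAlgebra.IsSimple K L] (S : Set L) :
    (∃ (m d : ℕ) (p : FreeLieAlgebra K (Fin m)), IsHomogeneousLie d p ∧ S = lieImage L p) ↔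
    (∃ (m b : ℕ) (f : (Fin m → L) → L), 0 < b ∧ IsPolyMap K f ∧ IsAutEquivariant K f ∧
      (∀ (t : K) a, f (t • a) = t ^ b • f a) ∧ S = Set.range f) := by
  constructor
  · rintro ⟨m, d, p, hp, rfl⟩
    rcases Nat.eq_zero_or_pos d with hd | hd
    · subst hd
      have hp0 := hp.eq_zero
      subst hp0
      refine ⟨m, 1, fun a => FreeLieAlgebra.lift K a 0, one_pos, isPolyMap_lift 0,
        isAutEquivariant_lift 0, ?_, rfl⟩
      intro t a
      simp only [map_zero, smul_zero]
    · exact ⟨m, d, fun a => FreeLieAlgebra.lift K a p, hd, isPolyMap_lift p,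
        isAutEquivariant_lift p, fun t a => hp.lift_smul t a, rfl⟩
  · rintro ⟨m, b, f, hb, hf, heq, hfb, rfl⟩
    exact exists_homogeneous hb f hf heq hfb

end Pool.Agent.Lib.MP_d55432_al
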