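import Pool.Agent.Lib.MP_d55432_al.StageS
import Pool.Agent.Lib.MP_d55432_al.Homog

/-!
# Ranges of homogeneous polynomial maps which are equivariant up to scalars
-/

namespace Pool.Agent.Lib.MP_d55432_al

open LieAlgebra Module

variable {K : Type*} [Field K] {L : Type*} [LieRing L] [LieAlgebra K L]

theorem stageBS [IsAlgClosed K] [CharZero K] [FiniteDimensional K L] [LieAlgebra.IsSimple K L]
    {m : ℕ} (f : (Fin m → L) → L)
    (hf : ∀ ψ : Module.Dual K L, (fun a => ψ (f a)) ∈ PolyFun K L (Fin m))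
    (heq : ∀ φ : L ≃ₗ⁅K⁆ L, ∃ c : K, c ≠ 0 ∧ ∀ a, f (fun i => φ (a i)) = c • φ (f a))
    (hne : ∃ x, f x ≠ 0) :
    ∃ (n : ℕ) (c : (Aux n → L) → K), (∃ w, c w ≠ 0) ∧
      (fun a : (Fin m ⊕ Aux n) → L =>
        c (fun i => a (Sum.inr i)) • f (fun i => a (Sum.inl i))) ∈ LP K L (Fin m ⊕ Aux n) := by
  classical
  let n := Module.finrank K L
  let e : Basis (Fin n) K L := Module.finBasis K L
  obtain ⟨ρ, P, ⟨y₁, hy₁, hQ₁⟩, hQP⟩ := stageS (n := n) (m := m) e f hf heq hne
  -- nonabelian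
  have hna : ∃ v b : L, ⁅v, b⁆ ≠ 0 := by
    by_contra hcon
    push Not at hcon
    exact LieAlgebra.IsSimple.non_abelian (R := K) (L := L) ⟨hcon⟩
  obtain ⟨v, b, hvb⟩ := hna
  obtain ⟨θ, hθ⟩ : ∃ θ : Module.Dual K L, θ ⁅v, b⁆ = 1 := by
    have h1 : ∃ θ : Module.Dual K L, θ ⁅v, b⁆ ≠ 0 := by
      by_contra hcon
      push Not at hcon
      exact hvb ((Module.forall_dual_apply_eq_zero_iff K _).1 hcon)
    obtain ⟨θ, hθ⟩ := h1
    exact ⟨(θ ⁅v, b⁆)⁻¹ • θ, by simp [inv_mul_cancel₀ hθ]⟩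
  -- operators
  obtain ⟨PS, hPS⟩ := Burnside.exists_freeAlgebra e (LinearMap.toSpanSingleton K L b ∘ₗ θ)
  have hPT := fun j : Fin n =>
    Burnside.exists_freeAlgebra e (LinearMap.toSpanSingleton K L v ∘ₗ (e.coord j))
  choose PT hPT using hPT
  -- functions of the auxiliary letters
  let yW : (Aux n → L) → Fin n → L := fun w i => w (Sum.inl i)
  let aW : (Aux n → L) → Fin n → L := fun w i => w (Sum.inr (Sum.inl i))
  let sW : (Aux n → L) → L := fun w => w (Sum.inr (Sum.inr ()))
  let SW : (Aux n → L) → Module.End K L :=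
    fun w => FreeAlgebra.lift K (fun i => ad K L (aW w i)) PS
  let TW : Fin n → (Aux n → L) → Module.End K L :=
    fun j w => FreeAlgebra.lift K (fun i => ad K L (aW w i)) (PT j)
  let cW : (Aux n → L) → L := fun w => ∑ i, e.repr ⁅v, b⁆ i • aW w i
  let κW : (Aux n → L) → K := fun w =>
    killingForm K L (Ops.DM (SW w) (cW w) n (fun j => TW j w) e) (sW w)
  let uW : (Aux n → L) → K := fun w => κW w * e.det (yW w)
  -- pulled back to all letters
  let σ := Fin m ⊕ Aux n
  let M := LP K L σ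
  let pr : (σ → L) → (Aux n → L) := fun a i => a (Sum.inr i)
  let xx : (σ → L) → Fin m → L := fun a i => a (Sum.inl i)
  have hM : Ops.LieClosed M := LP_closed σ
  have hyM : ∀ i, (fun a : σ → L => yW (pr a) i) ∈ M := fun i => LP_coord _
  have haM : ∀ i, (fun a : σ → L => aW (pr a) i) ∈ M := fun i => LP_coord _
  have hsM : (fun a : σ → L => sW (pr a)) ∈ M := LP_coord _
  have hxM : ∀ i, (fun a : σ → L => xx a i) ∈ M := fun i => LP_coord _
  have hSM : (fun a : σ → L => SW (pr a)) ∈ Ops.Op M := Ops.freeAlgebra_mem hM haM PS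
  have hTM : ∀ j, (fun a : σ → L => TW j (pr a)) ∈ Ops.Op M := fun j =>
    Ops.freeAlgebra_mem hM haM (PT j)
  have hcM : (fun a : σ → L => cW (pr a)) ∈ M := by
    have h1 : (fun a : σ → L => cW (pr a)) =
        ∑ i, e.repr ⁅v, b⁆ i • (fun a : σ → L => aW (pr a) i) := by
      funext a
      rw [Finset.sum_apply]
      rfl
    rw [h1]
    exact M.sum_mem fun i _ => M.smul_mem _ (haM i)
  have hmult : ∀ (z : Fin n → (σ → L) → L) (_ : ∀ j, z j ∈ M),
      (fun a : σ → L => κW (pr a) * e.det (fun j => z j a)) ∈ Mult M := by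
    intro z hz g hg
    exact Ops.multiplier_mem hM e hSM hcM (fun j a => TW j (pr a)) hTM z hz _ hsM g hg
  -- the multipliers
  let u₀ : (σ → L) → K := fun a => uW (pr a)
  have hu₀ : u₀ ∈ Mult M := hmult (fun j a => yW (pr a) j) hyM
  let u : ((Fin n × Fin n × Fin n) ⊕ (Fin n × Fin m)) → (σ → L) → K := fun q a =>
    Sum.elim (fun q : Fin n × Fin n × Fin n => κW (pr a) *
        e.det (Function.update (yW (pr a)) q.2.2 ⁅yW (pr a) q.1, yW (pr a) q.2.1⁆))
      (fun q : Fin n × Fin m => κW (pr a) *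
        e.det (Function.update (yW (pr a)) q.1 (xx a q.2))) q
  have hu : ∀ q, u q ∈ Mult M := by
    rintro (q | q)
    · refine hmult (fun j a => Function.update (yW (pr a)) q.2.2
        ⁅yW (pr a) q.1, yW (pr a) q.2.1⁆ j) ?_
      intro j
      by_cases h : j = q.2.2
      · subst h
        simp only [Function.update_self]
        exact hM _ (hyM _) _ (hyM _)
      · simp only [Function.update_of_ne h]
        exact hyM j
    · refine hmult (fun j a => Function.update (yW (pr a)) q.1 (xx a q.2) j) ?_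
      intro j
      by_cases h : j = q.1
      · subst h
        simp only [Function.update_self]
        exact hxM _
      · simp only [Function.update_of_ne h]
        exact hyM j
  have hratio : ∀ a, u₀ a ≠ 0 → (fun q => u q a / u₀ a) =
      Sum.elim (gam e (yW (pr a))) (crd e (yW (pr a)) (xx a)) := by
    intro a ha
    have h1 : κW (pr a) ≠ 0 := (mul_ne_zero_iff.1 ha).1
    have h2 : e.det (yW (pr a)) ≠ 0 := (mul_ne_zero_iff.1 ha).2
    funext q
    rcases q with q | q
    · change κW (pr a) * _ / (κW (pr a) * e.det (yW (pr a))) = gam e (yW (pr a)) q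
      rw [mul_div_mul_left _ _ h1]
      rfl
    · change κW (pr a) * _ / (κW (pr a) * e.det (yW (pr a))) = crd e (yW (pr a)) (xx a) q
      rw [mul_div_mul_left _ _ h1]
      rfl
  have hw := fun i => exists_good (Mult M) u₀ hu₀ u hu (P i)
  choose D w hwM hw using hw
  let E : ℕ := (∑ i, (D i + 1)) + 1
  have hE : ∀ i, D i + 1 + (E - (D i + 1)) = E := by
    intro i
    have : D i + 1 ≤ ∑ i, (D i + 1) :=
      Finset.single_le_sum (f := fun i => D i + 1) (fun _ _ => Nat.zero_le _) (Finset.mem_univ i)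
    omega
  refine ⟨n, fun w => uW w ^ E * ρ (yW w), ?_, ?_⟩
  · -- nonvanishing
    have hDM : ∀ w : Aux n → L, aW w = e → Ops.DM (SW w) (cW w) n (fun j => TW j w) e = ⁅v, b⁆ := by
      intro w hw
      have h1 : cW w = ⁅v, b⁆ := by
        simp only [cW, hw]
        exact e.sum_repr _
      rw [h1]
      refine DM_value e (SW w) ⁅v, b⁆ v b ?_ rfl _ ?_
      · simp only [SW, hw]
        rw [hPS, LinearMap.comp_apply, hθ, LinearMap.toSpanSingleton_apply, one_smul]
      · intro j t
        simp only [TW, hw]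
        rw [hPT, LinearMap.comp_apply, LinearMap.toSpanSingleton_apply]
    obtain ⟨s₀, hs₀⟩ : ∃ s₀, killingForm K L ⁅v, b⁆ s₀ ≠ 0 := by
      by_contra hcon
      push Not at hcon
      exact hvb ((LieAlgebra.IsKilling.killingForm_nondegenerate K L).1 _ hcon)
    refine ⟨Sum.elim y₁ (Sum.elim e (fun _ => s₀)), ?_⟩
    refine mul_ne_zero (pow_ne_zero _ (mul_ne_zero ?_ hy₁)) hQ₁
    simp only [κW]
    rw [hDM _ rfl]
    exact hs₀
  · have hfin : (fun a : σ → L => (uW (pr a) ^ E * ρ (yW (pr a))) •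
        f (xx a)) = ∑ i, fun a => (w i * u₀ ^ (E - (D i + 1))) a • yW (pr a) i := by
      funext a
      rw [Finset.sum_apply]
      by_cases h : u₀ a = 0
      · have h1 : uW (pr a) ^ E = 0 := by
          change u₀ a ^ E = 0
          rw [h]
          exact zero_pow (Nat.succ_ne_zero _)
        rw [h1, zero_mul, zero_smul]
        symm
        apply Finset.sum_eq_zero
        intro i _
        rw [Pi.mul_apply, hw i a, h, zero_pow (Nat.succ_ne_zero _), zero_mul, zero_mul, zero_smul]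
      · have h2 : e.det (yW (pr a)) ≠ 0 := (mul_ne_zero_iff.1 h).2
        rw [mul_smul, hQP (yW (pr a)) (xx a) h2, Finset.smul_sum]
        refine Finset.sum_congr rfl fun i _ => ?_
        rw [Pi.mul_apply, Pi.pow_apply, hw i a, hratio a h, smul_smul]
        congr 1
        change u₀ a ^ E * _ = _
        conv_lhs => rw [← hE i, pow_add]
        ring
    change (fun a : σ → L => (uW (pr a) ^ E * ρ (yW (pr a))) •
        f (xx a)) ∈ M
    rw [hfin]
    exact M.sum_mem fun i _ =>
      (Mult M).mul_mem (hwM i) ((Mult M).pow_mem hu₀ _) _ (hyM i)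

theorem exists_homogeneousS [IsAlgClosed K] [CharZero K] [FiniteDimensional K L]
    [LieAlgebra.IsSimple K L] {m b : ℕ} (hb : 0 < b) (f : (Fin m → L) → L)
    (hf : IsPolyMap K f)
    (heq : ∀ φ : L ≃ₗ⁅K⁆ L, ∃ c : K, c ≠ 0 ∧ ∀ a, f (fun i => φ (a i)) = c • φ (f a))
    (hfb : ∀ (t : K) a, f (t • a) = t ^ b • f a) :
    ∃ (m' d : ℕ) (p : FreeLieAlgebra K (Fin m')), IsHomogeneousLie d p ∧
      Set.range f = lieImage L p := by
  classical
  by_cases hzero : ∀ x, f x = 0
  · refine ⟨1, 0, 0, Submodule.zero_mem _, ?_⟩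
    ext y
    simp only [lieImage, map_zero, Set.mem_range, hzero, exists_const]
  push Not at hzero
  obtain ⟨x₀, hx₀⟩ := hzero
  obtain ⟨n, c, ⟨w₀, hw₀⟩, p, hp⟩ := stageBS f hf heq ⟨x₀, hx₀⟩
  obtain ⟨P, hPW, hPsum⟩ := exists_decomposition p
  let N := P.support.sup Multiset.card
  have hN : ∀ c ∈ P.support, c.card ≤ N := fun c hc => Finset.le_sup hc
  let Pk : ℕ → FreeLieAlgebra K (Fin m ⊕ Aux n) := fun k =>
    ∑ c ∈ P.support with c.card = k, P c
  have hPk : ∀ k, IsHomogeneousLie k (Pk k) := by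
    intro k
    refine Submodule.sum_mem _ fun c hc => ?_
    rw [Finset.mem_filter] at hc
    have h1 : W K c ≤ Submodule.span K
        {w | ∃ c : Multiset (Fin m ⊕ Aux n), c.card = k ∧ IsLieWord K c w} :=
      Submodule.span_mono fun w hw => ⟨c, hc.2, hw⟩
    exact h1 (hPW c)
  have hPsum' : p = ∑ k ∈ Finset.range (N + 1), Pk k := by
    rw [← hPsum, Finsupp.sum]
    rw [← Finset.sum_fiberwise_of_maps_to (s := P.support) (t := Finset.range (N + 1))
      (g := Multiset.card) (fun c hc => Finset.mem_range.2 (Nat.lt_succ_of_le (hN c hc)))]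
  let a₀ : (Fin m ⊕ Aux n) → L := Sum.elim x₀ w₀
  have hne : FreeLieAlgebra.lift K a₀ p ≠ 0 := by
    rw [← hp a₀]
    exact smul_ne_zero hw₀ hx₀
  have hex : ∃ k ∈ Finset.range (N + 1), FreeLieAlgebra.lift K a₀ (Pk k) ≠ 0 := by
    by_contra hcon
    push Not at hcon
    apply hne
    rw [hPsum', map_sum]
    exact Finset.sum_eq_zero hcon
  obtain ⟨k, hk, hk0⟩ := hex
  obtain ⟨s, hs⟩ := exists_weights (K := K) N
  obtain ⟨μ, hμ⟩ := hs k (Nat.le_of_lt_succ (Finset.mem_range.1 hk))
  let c' : (Aux n → L) → K := fun w => ∑ j, μ j * s j ^ b * c (s j • w)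
  have hext : ∀ a : (Fin m ⊕ Aux n) → L, FreeLieAlgebra.lift K a (Pk k) =
      c' (fun i => a (Sum.inr i)) • f (fun i => a (Sum.inl i)) := by
    intro a
    have h1 : ∀ j, FreeLieAlgebra.lift K (s j • a) p =
        ∑ l ∈ Finset.range (N + 1), s j ^ l • FreeLieAlgebra.lift K a (Pk l) := by
      intro j
      rw [hPsum', map_sum]
      exact Finset.sum_congr rfl fun l _ => (hPk l).lift_smul (s j) a
    have h2 : ∑ j, μ j • FreeLieAlgebra.lift K (s j • a) p =
        FreeLieAlgebra.lift K a (Pk k) := by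
      simp only [h1, Finset.smul_sum, smul_smul]
      rw [Finset.sum_comm]
      rw [Finset.sum_eq_single k]
      · rw [← Finset.sum_smul, hμ k (Nat.le_of_lt_succ (Finset.mem_range.1 hk)), if_pos rfl,
          one_smul]
      · intro l hl hlk
        rw [← Finset.sum_smul, hμ l (Nat.le_of_lt_succ (Finset.mem_range.1 hl)), if_neg hlk,
          zero_smul]
      · intro h; exact absurd hk h
    rw [← h2]
    simp only [c', Finset.sum_smul]
    refine Finset.sum_congr rfl fun j _ => ?_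
    rw [← hp (s j • a)]
    change μ j • (c (fun i => (s j • a) (Sum.inr i)) • f (fun i => (s j • a) (Sum.inl i))) = _
    have h3 : f (fun i => (s j • a) (Sum.inl i)) = s j ^ b • f (fun i => a (Sum.inl i)) :=
      hfb (s j) (fun i => a (Sum.inl i))
    have h4 : c (fun i => (s j • a) (Sum.inr i)) = c (s j • fun i => a (Sum.inr i)) := rfl
    rw [h3, h4, smul_smul, smul_smul]
    congr 1
    ring
  have hc' : c' w₀ ≠ 0 := by
    intro h0
    apply hk0
    rw [hext a₀]
    have : c' (fun i => a₀ (Sum.inr i)) = 0 := h0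
    rw [this, zero_smul]
  let g : (Fin m ⊕ Aux n) ≃ Fin (Fintype.card (Fin m ⊕ Aux n)) := Fintype.equivFin _
  refine ⟨_, k, relabel g (Pk k), (hPk k).relabel g, ?_⟩
  rw [lieImage_relabel, ← range_smul_eq hb f hfb c' w₀ hc', lieImage]
  ext y
  constructor
  · rintro ⟨⟨x, w⟩, rfl⟩
    exact ⟨Sum.elim x w, by simp only [hext]; rfl⟩
  · rintro ⟨a, rfl⟩
    exact ⟨(fun i => a (Sum.inl i), fun i => a (Sum.inr i)), (hext a).symm⟩

end Pool.Agent.Lib.MP_d55432_al
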