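import Pool.Agent.Lib.MP_d55432_al.Core
import Pool.Agent.Lib.MP_d55432_al.StageBS

/-!
# Dense constructible cones are images of homogeneous Lie polynomials
-/

namespace Pool.Agent.Lib.MP_d55432_al

open LieAlgebra Module

variable {K : Type*} [Field K] {L : Type*} [LieRing L] [LieAlgebra K L]

/-- Polynomial functions on `L`. -/
def PolyOn (K : Type*) [Field K] (L : Type*) [AddCommGroup L] [Module K L] :
    Subalgebra K (L → K) :=
  Algebra.adjoin K (Set.range fun (ψ : Module.Dual K L) (x : L) => ψ x)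

theorem exists_pow_of_mul [Infinite K] (q : Polynomial K) (h1 : q.eval 1 = 1)
    (h : ∀ s t, s ≠ 0 → t ≠ 0 → q.eval (s * t) = q.eval s * q.eval t) :
    ∃ b : ℕ, ∀ s, s ≠ 0 → q.eval s = s ^ b := by
  have hq : q ≠ 0 := by
    rintro rfl
    rw [Polynomial.eval_zero] at h1
    exact zero_ne_one h1
  refine ⟨q.natDegree, fun s hs => ?_⟩
  have hpol : q.comp (Polynomial.C s * Polynomial.X) = Polynomial.C (q.eval s) * q := by
    apply Polynomial.eq_of_infinite_eval_eq
    refine Set.Infinite.mono ?_ (Set.Infinite.sdiff Set.infinite_univ (Set.finite_singleton (0 : K)))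
    rintro t ⟨_, ht⟩
    have ht : t ≠ 0 := ht
    change Polynomial.eval t _ = Polynomial.eval t _
    rw [Polynomial.eval_comp, Polynomial.eval_mul, Polynomial.eval_C, Polynomial.eval_X,
      Polynomial.eval_mul, Polynomial.eval_C, h s t hs ht]
  have hco := congrArg (fun r => Polynomial.coeff r q.natDegree) hpol
  simp only [Polynomial.comp_C_mul_X_coeff, Polynomial.coeff_C_mul] at hco
  have hl : q.coeff q.natDegree ≠ 0 := by
    rw [Polynomial.coeff_natDegree]
    exact Polynomial.leadingCoeff_ne_zero.2 hq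
  rw [mul_comm] at hco
  exact (mul_right_cancel₀ hl hco).symm

theorem exists_line_poly [FiniteDimensional K L] {m : ℕ} {f : (Fin m → L) → L}
    (hf : IsPolyMap K f) (ψ : Module.Dual K L) (a : Fin m → L) :
    ∃ q : Polynomial K, ∀ t, q.eval t = ψ (f (t • a)) := by
  obtain ⟨P, hP⟩ := exists_mvPolynomial (Module.finBasis K L) _ (hf ψ)
  refine ⟨MvPolynomial.aeval (fun ik : Fin m × Fin (finrank K L) =>
    Polynomial.C ((Module.finBasis K L).repr (a ik.1) ik.2) * Polynomial.X) P, fun t => ?_⟩
  rw [hP]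
  clear hP
  have h1 : Polynomial.eval t (MvPolynomial.aeval (fun ik : Fin m × Fin (finrank K L) =>
      Polynomial.C ((Module.finBasis K L).repr (a ik.1) ik.2) * Polynomial.X) P) =
      MvPolynomial.eval (fun ik : Fin m × Fin (finrank K L) =>
        (Module.finBasis K L).repr (a ik.1) ik.2 * t) P := by
    induction P using MvPolynomial.induction_on with
    | C c => simp
    | add p q hp hq => simp only [map_add, Polynomial.eval_add, hp, hq]
    | mul_X p i hp => simp only [map_mul, Polynomial.eval_mul, hp, MvPolynomial.aeval_X,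
        MvPolynomial.eval_X, Polynomial.eval_C, Polynomial.eval_X]
  rw [h1]
  congr 1
  congr 1
  funext ik
  rw [Pi.smul_apply, map_smul, Finsupp.smul_apply, smul_eq_mul, mul_comm]

/-- Polynomial maps which are semi-equivariant under scalars are homogeneous. -/
theorem homogeneous_of_semi [Infinite K] [FiniteDimensional K L] {m : ℕ} {f : (Fin m → L) → L}
    (hf : IsPolyMap K f) (hsemi : ∀ t : K, t ≠ 0 → ∃ c : K, ∀ a, f (t • a) = c • f a)
    (hne : ∃ a, f a ≠ 0) : ∃ b : ℕ, ∀ (t : K) a, f (t • a) = t ^ b • f a := by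
  obtain ⟨a₀, ha₀⟩ := hne
  obtain ⟨ψ, hψ⟩ : ∃ ψ : Module.Dual K L, ψ (f a₀) = 1 := by
    have h1 : ∃ θ : Module.Dual K L, θ (f a₀) ≠ 0 := by
      by_contra hcon
      push Not at hcon
      exact ha₀ ((Module.forall_dual_apply_eq_zero_iff K _).1 hcon)
    obtain ⟨θ, hθ⟩ := h1
    exact ⟨(θ (f a₀))⁻¹ • θ, by simp [inv_mul_cancel₀ hθ]⟩
  obtain ⟨q, hq⟩ := exists_line_poly hf ψ a₀
  have hc : ∀ t : K, t ≠ 0 → ∀ a, f (t • a) = q.eval t • f a := by
    intro t ht a
    obtain ⟨c, hc⟩ := hsemi t ht
    have h1 := hq t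
    rw [hc, map_smul, hψ, smul_eq_mul, mul_one] at h1
    rw [h1, hc]
  have h1 : q.eval 1 = 1 := by rw [hq, one_smul, hψ]
  obtain ⟨b, hb⟩ := exists_pow_of_mul q h1 (by
    intro s t hs ht
    rw [hq (s * t), mul_smul, hc s hs, hc t ht, map_smul, map_smul, hψ, smul_eq_mul, smul_eq_mul,
      mul_one])
  refine ⟨b, fun t a => ?_⟩
  by_cases ht : t = 0
  · subst ht
    rw [← sub_eq_zero, ← Module.forall_dual_apply_eq_zero_iff K]
    intro φ
    obtain ⟨r, hr⟩ := exists_line_poly hf φ a
    have hrp : r = Polynomial.X ^ b * Polynomial.C (φ (f a)) := by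
      apply Polynomial.eq_of_infinite_eval_eq
      refine Set.Infinite.mono ?_
        (Set.Infinite.sdiff Set.infinite_univ (Set.finite_singleton (0 : K)))
      rintro t ⟨_, ht⟩
      have ht : t ≠ 0 := ht
      change Polynomial.eval t _ = Polynomial.eval t _
      rw [hr, hc t ht, hb t ht, map_smul, smul_eq_mul, Polynomial.eval_mul, Polynomial.eval_pow,
        Polynomial.eval_X, Polynomial.eval_C]
    rw [map_sub, ← hr, hrp, map_smul, smul_eq_mul, Polynomial.eval_mul, Polynomial.eval_pow,
        Polynomial.eval_X, Polynomial.eval_C, sub_self]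
  · rw [hc t ht, hb t ht]

/-- A simple Lie algebra has a basis which is orthonormal for the Killing form. -/
theorem exists_orthonormal [IsAlgClosed K] [CharZero K] [FiniteDimensional K L]
    [LieAlgebra.IsSimple K L] :
    ∃ e : Basis (Fin (finrank K L)) K L,
      ∀ i j, killingForm K L (e i) (e j) = if i = j then 1 else 0 := by
  have : Invertible (2 : K) := invertibleOfNonzero two_ne_zero
  have hsymm : LinearMap.IsSymm (killingForm K L) := LieModule.traceForm_isSymm K L L
  obtain ⟨v, hv⟩ := LinearMap.BilinForm.exists_orthogonal_basis hsymm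
  have hnd := LieAlgebra.IsKilling.killingForm_nondegenerate K L
  have hv0 : ∀ i, killingForm K L (v i) (v i) ≠ 0 := by
    intro i hi
    have h1 : v i = 0 := by
      apply hnd.1
      intro y
      rw [← v.sum_repr y, map_sum]
      apply Finset.sum_eq_zero
      intro j _
      rw [map_smul]
      by_cases hij : i = j
      · subst hij
        rw [hi, smul_zero]
      · have : killingForm K L (v i) (v j) = 0 := hv hij
        rw [this, smul_zero]
    exact v.ne_zero i h1
  have hroot : ∀ i, ∃ c : K, c * c = killingForm K L (v i) (v i) := by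
    intro i
    obtain ⟨c, hc⟩ := IsAlgClosed.exists_pow_nat_eq (killingForm K L (v i) (v i)) two_pos
    exact ⟨c, by rw [← hc, sq]⟩
  choose c hc using hroot
  have hc0 : ∀ i, c i ≠ 0 := by
    intro i hi
    apply hv0 i
    rw [← hc, hi, mul_zero]
  refine ⟨v.isUnitSMul (w := fun i => (c i)⁻¹) fun i => (isUnit_iff_ne_zero.2 (inv_ne_zero (hc0 i))),
    fun i j => ?_⟩
  rw [Basis.isUnitSMul_apply, Basis.isUnitSMul_apply, map_smul, map_smul, LinearMap.smul_apply,
    smul_eq_mul, smul_eq_mul]
  split_ifs with h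
  · subst h
    rw [← hc i]
    have := hc0 i
    field_simp
  · have : killingForm K L (v i) (v j) = 0 := hv h
    rw [this, mul_zero, mul_zero]

theorem lift_zero {σ : Type*} (p : FreeLieAlgebra K σ) :
    FreeLieAlgebra.lift K (0 : σ → L) p = 0 := by
  have h : FreeLieAlgebra.lift K (0 : σ → L) = 0 := by
    apply FreeLieAlgebra.hom_ext
    intro i
    rw [FreeLieAlgebra.lift_of_apply]
    rfl
  rw [h]
  rfl

section coords

open DetTrick Zar

variable {n m : ℕ}

/-- Coordinates of tuples. -/
noncomputable def TE (e : Basis (Fin n) K L) (m : ℕ) : (Fin m → L) ≃ₗ[K] (Fin m × Fin n → K) :=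
  (LinearEquiv.piCongrRight fun _ => e.equivFun).trans (LinearEquiv.curry K K (Fin m) (Fin n)).symm

theorem TE_apply (e : Basis (Fin n) K L) (a : Fin m → L) (q : Fin m × Fin n) :
    TE e m a q = e.repr (a q.1) q.2 := rfl

theorem repr_TE_symm (e : Basis (Fin n) K L) (v : Fin m × Fin n → K) (i : Fin m) (k : Fin n) :
    e.repr ((TE e m).symm v i) k = v (i, k) := by
  have h := TE_apply e ((TE e m).symm v) (i, k)
  rw [LinearEquiv.apply_symm_apply] at h
  exact h.symm

theorem dotProduct_TE (e : Basis (Fin n) K L)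
    (he : ∀ i j, killingForm K L (e i) (e j) = if i = j then 1 else 0)
    (x y : Fin m × Fin n → K) :
    x ⬝ᵥ y = ∑ i, killingForm K L ((TE e m).symm x i) ((TE e m).symm y i) := by
  have h1 : ∀ u w : L, killingForm K L u w = ∑ k, e.repr u k * e.repr w k := by
    intro u w
    conv_lhs => rw [← e.sum_repr u, ← e.sum_repr w]
    rw [map_sum]
    refine Finset.sum_congr rfl fun k _ => ?_
    rw [map_smul, map_sum, LinearMap.sum_apply, Finset.sum_eq_single k]
    · rw [map_smul, LinearMap.smul_apply, he, if_pos rfl, smul_eq_mul, smul_eq_mul, mul_one,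
        mul_comm]
    · intro j _ hj
      rw [map_smul, LinearMap.smul_apply, he, if_neg hj, smul_zero]
    · intro h
      exact absurd (Finset.mem_univ k) h
  simp only [h1, repr_TE_symm, dotProduct]
  rw [Fintype.sum_prod_type]

theorem polys_of_isPolyMap (e : Basis (Fin n) K L) {f : (Fin m → L) → L} (hf : IsPolyMap K f)
    (ψ : Module.Dual K L) : (fun v => ψ (f ((TE e m).symm v))) ∈ polyAlg (Fin m × Fin n) K := by
  obtain ⟨P, hP⟩ := exists_mvPolynomial e _ (hf ψ)
  refine (mem_polyAlg _).2 ⟨P, fun v => ?_⟩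
  rw [hP]
  simp only [repr_TE_symm]

theorem polyOn_comp (B : Type*) {X : Type*} [Semiring B] (A : Subalgebra K (X → K)) (z : X → L)
    (hz : ∀ ψ : Module.Dual K L, (fun x => ψ (z x)) ∈ A) {g : L → K} (hg : g ∈ PolyOn K L) :
    (fun x => g (z x)) ∈ A := by
  induction hg using Algebra.adjoin_induction with
  | mem g hg =>
    obtain ⟨ψ, rfl⟩ := hg
    exact hz ψ
  | algebraMap c => exact A.algebraMap_mem c
  | add g h _ _ ihg ihh => exact A.add_mem ihg ihh
  | mul g h _ _ ihg ihh => exact A.mul_mem ihg ihh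

theorem eval_mem_polyOn (e : Basis (Fin n) K L) (P : MvPolynomial (Fin n) K) :
    (fun y : L => MvPolynomial.eval (e.equivFun y) P) ∈ PolyOn K L := by
  refine eval_mem (PolyOn K L) P (fun k y => e.equivFun y k) fun k => ?_
  exact Algebra.subset_adjoin ⟨e.coord k, rfl⟩

end coords

attribute [local instance] Zar.zar

/-- The preimage of a constructible set which is dense in the range of a polynomial map is
dense. -/
theorem dense_preimage [CharZero K] {n m : ℕ} (e : Basis (Fin n) K L) {f : (Fin m → L) → L}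
    (hf : IsPolyMap K f) {S : Set L} (hB : BoolComb (PolyOn K L : Set (L → K)) S)
    (hne : (Set.range f).Nonempty)
    (hsub : S ⊆ Set.range f)
    (hdense : ∀ g ∈ PolyOn K L, (∀ y ∈ S, g y = 0) → ∀ y ∈ Set.range f, g y = 0) :
    Dense {v : Fin m × Fin n → K | f ((TE e m).symm v) ∈ S} := by
  by_contra hcon
  rw [Zar.dense_iff_eval] at hcon
  push Not at hcon
  obtain ⟨P, hP, hP0⟩ := hcon
  have hBC : BoolComb (Zar.polys (Fin n) K) (e.equivFun.symm ⁻¹' S) := by
    refine hB.preimage _ fun g hg => ?_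
    have h1 := polyOn_comp K (DetTrick.polyAlg (Fin n) K) (fun v => e.equivFun.symm v) (by
      intro ψ
      refine (DetTrick.mem_polyAlg _).2
        ⟨∑ k, MvPolynomial.C (ψ (e k)) * MvPolynomial.X k, fun v => ?_⟩
      rw [Basis.equivFun_symm_apply, map_sum, map_sum]
      refine Finset.sum_congr rfl fun k _ => ?_
      rw [map_smul, map_mul, MvPolynomial.eval_C, MvPolynomial.eval_X, smul_eq_mul, mul_comm]) hg
    exact (DetTrick.mem_polyAlg _).1 h1
  let C : Set (Fin n → K) := e.equivFun '' Set.range f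
  refine Zar.not_both_dense (fun g hg => Zar.isClosed_polys g hg) hBC C (hne.image _) ?_ ?_
  · rintro _ ⟨y, hy, rfl⟩
    rw [Zar.mem_closure_iff_eval]
    intro p hp
    refine hdense _ (eval_mem_polyOn e p) (fun z hz => ?_) y hy
    refine hp _ ⟨⟨z, hsub hz, rfl⟩, ?_⟩
    change e.equivFun.symm (e.equivFun z) ∈ S
    rw [LinearEquiv.symm_apply_apply]
    exact hz
  · have hF : ∀ k, ∃ Q : MvPolynomial (Fin m × Fin n) K, ∀ v,
        e.equivFun (f ((TE e m).symm v)) k = MvPolynomial.eval v Q := fun k =>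
      (DetTrick.mem_polyAlg _).1 (polys_of_isPolyMap e hf (e.coord k))
    choose Q hQ using hF
    rintro _ ⟨y, hy, rfl⟩
    rw [Zar.mem_closure_iff_eval]
    intro h hh
    have hbind : ∀ v, MvPolynomial.eval v (MvPolynomial.bind₁ Q h) =
        MvPolynomial.eval (e.equivFun (f ((TE e m).symm v))) h := by
      intro v
      rw [Zar.eval_bind]
      congr 1
      congr 1
      funext k
      rw [hQ]
    have hzero : P * MvPolynomial.bind₁ Q h = 0 := by
      apply MvPolynomial.funext
      intro v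
      rw [map_mul, map_zero]
      by_cases hv : f ((TE e m).symm v) ∈ S
      · rw [hP v hv, zero_mul]
      · rw [hbind, hh _ ⟨⟨_, ⟨_, rfl⟩, rfl⟩, ?_⟩, mul_zero]
        intro h2
        apply hv
        have h3 : e.equivFun.symm (e.equivFun (f ((TE e m).symm v))) ∈ S := h2
        rwa [LinearEquiv.symm_apply_apply] at h3
    have h4 := (mul_eq_zero.1 hzero).resolve_left hP0
    obtain ⟨a, rfl⟩ := hy
    have h5 := hbind (TE e m a)
    rw [h4, map_zero, LinearEquiv.symm_apply_apply] at h5
    exact h5.symm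

/-- A constructible cone containing zero and stable under all automorphisms which is a dense part
of the image of a homogeneous Lie polynomial is itself the image of a homogeneous Lie
polynomial. -/
theorem exists_of_dense [IsAlgClosed K] [CharZero K] [FiniteDimensional K L]
    [LieAlgebra.IsSimple K L] {m d : ℕ} (p₀ : FreeLieAlgebra K (Fin m))
    (hp₀ : IsHomogeneousLie d p₀) (S : Set L) (h0 : (0 : L) ∈ S)
    (hcone : ∀ (t : K), ∀ x ∈ S, t • x ∈ S)
    (haut : ∀ φ : L ≃ₗ⁅K⁆ L, ∀ x ∈ S, φ x ∈ S)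
    (hB : BoolComb (PolyOn K L : Set (L → K)) S) (hsub : S ⊆ lieImage L p₀)
    (hdense : ∀ g ∈ PolyOn K L, (∀ y ∈ S, g y = 0) → ∀ y ∈ lieImage L p₀, g y = 0) :
    ∃ (m' d' : ℕ) (p : FreeLieAlgebra K (Fin m')), IsHomogeneousLie d' p ∧ S = lieImage L p := by
  classical
  obtain ⟨e, he⟩ := exists_orthonormal (K := K) (L := L)
  let n := finrank K L
  let f₀ : (Fin m → L) → L := fun a => FreeLieAlgebra.lift K a p₀
  have hf₀ : IsPolyMap K f₀ := isPolyMap_lift p₀
  let σ := Fin m × Fin n
  let T : (Fin m → L) ≃ₗ[K] (σ → K) := TE e m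
  let St : Set (σ → K) := {v | f₀ (T.symm v) ∈ S}
  have hf₀smul : ∀ (t : K) a, f₀ (t • a) = t ^ d • f₀ a := fun t a => hp₀.lift_smul t a
  have hSt0 : (0 : σ → K) ∈ St := by
    change FreeLieAlgebra.lift K (T.symm 0) p₀ ∈ S
    rw [map_zero, lift_zero]
    exact h0
  have hStc : ∀ (t : K) (x : σ → K), x ∈ St → t • x ∈ St := by
    intro t x hx
    change f₀ (T.symm (t • x)) ∈ S
    rw [map_smul, hf₀smul]
    exact hcone _ _ hx
  have hStB : BoolComb (Zar.polys σ K) St := by
    refine hB.preimage (fun v : σ → K => f₀ (T.symm v)) fun g hg => ?_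
    have h1 := polyOn_comp K (DetTrick.polyAlg σ K) (fun v => f₀ (T.symm v))
      (polys_of_isPolyMap e hf₀) hg
    exact (DetTrick.mem_polyAlg _).1 h1
  have hStd : Dense St := dense_preimage e hf₀ hB ⟨_, ⟨0, rfl⟩⟩ hsub hdense
  obtain ⟨ι, hι, val, hval, hvS, hvsurj, hv0, hvsemi⟩ := DenseCore.core hSt0 hStc hStB hStd
  have := Fintype.ofFinite ι
  let τ := (ι ⊕ Unit) × Fin m
  let r : τ ≃ Fin (Fintype.card τ) := Fintype.equivFin τ
  let q : (Fin (Fintype.card τ) → L) → (ι → σ → K) × (σ → K) := fun a =>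
    (fun i => T (fun j => a (r (Sum.inl i, j))), T (fun j => a (r (Sum.inr (), j))))
  let f : (Fin (Fintype.card τ) → L) → L := fun a => f₀ (T.symm (val (q a)))
  have hqsurj : ∀ z, ∃ a, q a = z := by
    intro z
    refine ⟨fun t => Sum.elim (fun i => T.symm (z.1 i) (r.symm t).2) (fun _ => T.symm z.2 (r.symm t).2)
      (r.symm t).1, ?_⟩
    simp only [q]
    refine Prod.ext ?_ ?_
    · funext i
      simp only [Equiv.symm_apply_apply, Sum.elim_inl]
      exact LinearEquiv.apply_symm_apply T (z.1 i)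
    · simp only [Equiv.symm_apply_apply, Sum.elim_inr]
      exact LinearEquiv.apply_symm_apply T z.2
  have hf : IsPolyMap K f := by
    intro ψ
    obtain ⟨P, hP⟩ := (DetTrick.mem_polyAlg _).1 (polys_of_isPolyMap e hf₀ ψ)
    have h1 : (fun a => ψ (f a)) = fun a => MvPolynomial.eval (fun k => val (q a) k) P := by
      funext a
      exact hP (val (q a))
    rw [h1]
    refine DetTrick.eval_mem _ P (fun k a => val (q a) k) fun k => ?_
    refine Step.Pol_comp (hval k) _ q ?_
    rintro (t | t)
    · exact PolyFun_coord (r (Sum.inl t.1, t.2.1)) (e.coord t.2.2)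
    · exact PolyFun_coord (r (Sum.inr (), t.1)) (e.coord t.2)
  have hrange : ∀ a, f a ∈ S := fun a => hvS (q a)
  have hsurj : ∀ x ∈ S, ∃ a, ∃ c : K, x = c ^ d • f a := by
    intro x hx
    obtain ⟨a, rfl⟩ := hsub hx
    obtain ⟨z, c, hz⟩ := hvsurj (T a) (by
      change f₀ (T.symm (T a)) ∈ S
      rw [LinearEquiv.symm_apply_apply]
      exact hx)
    obtain ⟨b, rfl⟩ := hqsurj z
    refine ⟨b, c, ?_⟩
    change f₀ a = c ^ d • f₀ (T.symm (val (q b)))
    rw [← hf₀smul, ← map_smul, ← hz, LinearEquiv.symm_apply_apply]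
  by_cases hzero : ∀ a, f a = 0
  · refine ⟨1, 0, 0, Submodule.zero_mem _, ?_⟩
    ext y
    constructor
    · intro hy
      obtain ⟨a, c, rfl⟩ := hsurj y hy
      refine ⟨0, ?_⟩
      simp only [map_zero, hzero, smul_zero]
    · rintro ⟨a, rfl⟩
      simp only [map_zero]
      exact h0
  push Not at hzero
  have hsemi : ∀ φ : L ≃ₗ⁅K⁆ L, ∃ c : K, c ≠ 0 ∧ ∀ a, f (fun i => φ (a i)) = c • φ (f a) := by
    intro φ
    let g : (σ → K) ≃ₗ[K] (σ → K) := T.symm.trans ((LinearEquiv.piCongrRight fun _ =>
      φ.toLinearEquiv).trans T)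
    have hg : ∀ v, T.symm (g v) = fun i => φ (T.symm v i) := by
      intro v
      change T.symm (T _) = _
      rw [LinearEquiv.symm_apply_apply]
      rfl
    have hfφ : ∀ a, f₀ (fun i => φ (a i)) = φ (f₀ a) := fun a => isAutEquivariant_lift p₀ φ a
    obtain ⟨c, hc0, hc⟩ := hvsemi g ⟨1, one_ne_zero, fun x y => by
      rw [one_mul, dotProduct_TE e he, dotProduct_TE e he]
      refine Finset.sum_congr rfl fun i _ => ?_
      change killingForm K L (T.symm (g x) i) (T.symm (g y) i) = _
      rw [hg, hg]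
      exact killingForm_of_equiv_apply φ _ _⟩ (by
      intro x
      change f₀ (T.symm (g x)) ∈ S ↔ f₀ (T.symm x) ∈ S
      rw [hg, hfφ]
      constructor
      · intro h
        have := haut φ.symm _ h
        rwa [LieEquiv.symm_apply_apply] at this
      · exact haut φ _)
    refine ⟨c ^ d, pow_ne_zero _ hc0, fun a => ?_⟩
    change f₀ (T.symm (val (q (fun i => φ (a i))))) = c ^ d • φ (f₀ (T.symm (val (q a))))
    have h1 : q (fun i => φ (a i)) = (fun i => g ((q a).1 i), g (q a).2) := by
      refine Prod.ext ?_ ?_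
      · funext i
        apply T.symm.injective
        rw [hg]
        simp only [q]
        rw [LinearEquiv.symm_apply_apply, LinearEquiv.symm_apply_apply]
      · apply T.symm.injective
        simp only [q]
        rw [hg, LinearEquiv.symm_apply_apply, LinearEquiv.symm_apply_apply]
    rw [h1, hc, map_smul, hf₀smul, hg, hfφ]
  have hscal : ∀ t : K, t ≠ 0 → ∃ c : K, ∀ a, f (t • a) = c • f a := by
    intro t ht
    let g : (σ → K) ≃ₗ[K] (σ → K) := LinearEquiv.smulOfNeZero K (σ → K) t ht
    have hg : ∀ v, g v = t • v := fun v => rfl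
    obtain ⟨c, hc0, hc⟩ := hvsemi g ⟨t * t, mul_ne_zero ht ht, fun x y => by
      rw [hg, hg, smul_dotProduct, dotProduct_smul, smul_eq_mul, smul_eq_mul, mul_assoc]⟩ (by
      intro x
      rw [hg]
      constructor
      · intro h
        have := hStc t⁻¹ _ h
        rwa [smul_smul, inv_mul_cancel₀ ht, one_smul] at this
      · exact hStc t x)
    refine ⟨(c * t) ^ d, fun a => ?_⟩
    change f₀ (T.symm (val (q (t • a)))) = (c * t) ^ d • f₀ (T.symm (val (q a)))
    have h1 : q (t • a) = (fun i => g ((q a).1 i), g (q a).2) := by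
      refine Prod.ext ?_ ?_
      · funext i
        rw [hg]
        exact map_smul T t _
      · rw [hg]
        exact map_smul T t _
    rw [h1, hc, hg, smul_smul, map_smul, hf₀smul]
  obtain ⟨b, hb⟩ := homogeneous_of_semi hf hscal hzero
  have hbpos : 0 < b := by
    rcases Nat.eq_zero_or_pos b with h | h
    · exfalso
      subst h
      obtain ⟨a, ha⟩ := hzero
      apply ha
      have h1 := hb 0 a
      rw [pow_zero, one_smul, zero_smul] at h1
      rw [← h1]
      change f₀ (T.symm (val (q 0))) = 0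
      have h2 : q 0 = 0 := by
        refine Prod.ext ?_ ?_
        · funext i
          exact map_zero T
        · exact map_zero T
      rw [h2, hv0, map_zero]
      exact lift_zero p₀
    · exact h
  obtain ⟨m', d', p, hp, hpr⟩ := exists_homogeneousS hbpos f hf hsemi hb
  refine ⟨m', d', p, hp, ?_⟩
  rw [← hpr]
  ext y
  constructor
  · intro hy
    obtain ⟨a, c, rfl⟩ := hsurj y hy
    obtain ⟨s, hs⟩ := exists_root hbpos (c ^ d)
    exact ⟨s • a, by rw [hb, hs]⟩
  · rintro ⟨a, rfl⟩
    exact hrange a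

end Pool.Agent.Lib.MP_d55432_al
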