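import Pool.Agent.Lib.MP_d55432_al.DenseCore

/-!
# Dense constructible cones in affine space
-/

namespace Pool.Agent.Lib.MP_d55432_al.DenseCore

open MvPolynomial DetTrick Zar Chow Step

attribute [local instance] zar

/-- The coordinate on the line. -/
def cU (K : Type*) : Unit → K → K := fun _ t => t

theorem surj_cU (K : Type*) : Surj (cU K) := fun a => ⟨a (), fun _ => rfl⟩

theorem zero_of_ne {K : Type*} [Field K] [Infinite K] {f : K → K} (hf : f ∈ Pol (cU K))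
    (h : ∀ t, t ≠ 0 → f t = 0) : ∀ t, f t = 0 := by
  by_contra hcon
  push Not at hcon
  obtain ⟨x, h1, h2⟩ := exists_ne (surj_cU K) hf (coord_mem (cU K) ()) hcon ⟨1, one_ne_zero⟩
  exact h1 (h x h2)

theorem scale_mem {K : Type*} [Field K] {τ Ω : Type*} [SMul K Ω] {c : τ → Ω → K} {f : Ω → K}
    (hc : ∀ i (t : K) x, c i (t • x) = t * c i x) (hf : f ∈ Pol c) (x : Ω) :
    (fun t : K => f (t • x)) ∈ Pol (cU K) := by
  refine Pol_comp hf _ (fun t : K => t • x) fun i => ?_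
  simp only [hc]
  exact Subalgebra.mul_mem _ (coord_mem (cU K) ()) (Subalgebra.algebraMap_mem _ (c i x))

variable {σ : Type} [Fintype σ] [DecidableEq σ] {K : Type*} [Field K]

/-- The vector part of a state vanishes at the origin. -/
theorem Y_zero [CharZero K] {G : Subgroup ((σ → K) ≃ₗ[K] (σ → K))} (hG : Sim G)
    {S : Set (σ → K)} {ι : Type} (st : State G S ι) : st.Y 0 = 0 := by
  obtain ⟨p₁, hp₁⟩ := st.H_ne
  funext j
  have key : ∀ t : K, st.Y (t • p₁) j * st.H p₁ - t * st.H (t • p₁) * st.Y p₁ j = 0 := by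
    refine zero_of_ne ?_ ?_
    · refine Subalgebra.sub_mem _ (Subalgebra.mul_mem _ ?_ (Subalgebra.algebraMap_mem _ _))
        (Subalgebra.mul_mem _ (Subalgebra.mul_mem _ (coord_mem (cU K) ()) ?_)
          (Subalgebra.algebraMap_mem _ _))
      · exact scale_mem (c := c1 ι σ K) (fun i t x => rfl) (st.hY j) p₁
      · exact scale_mem (c := c1 ι σ K) (fun i t x => rfl) st.hH p₁
    · intro t ht
      obtain ⟨g, hg, hgt⟩ := hG.scal t ht
      obtain ⟨a, b, _, _, h1, h2, _⟩ := st.semi g hg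
      have e0 : (fun i => g (p₁ i)) = t • p₁ := by
        funext i
        rw [hgt]
        rfl
      have e1 := h1 p₁
      have e2 := congrFun (h2 p₁) j
      rw [e0] at e1 e2
      rw [Pi.smul_apply, hgt, Pi.smul_apply] at e2
      simp only [smul_eq_mul] at e2
      rw [e1, e2]
      ring
  have h0 := key 0
  rw [zero_smul, zero_mul, zero_mul, sub_zero] at h0
  exact (mul_eq_zero.1 h0).resolve_right hp₁

/-- Similitudes preserving a set. -/
def simGroup (S : Set (σ → K)) : Subgroup ((σ → K) ≃ₗ[K] (σ → K)) where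
  carrier := {g | (∃ μ : K, μ ≠ 0 ∧ ∀ x y, g x ⬝ᵥ g y = μ * (x ⬝ᵥ y)) ∧ ∀ x, g x ∈ S ↔ x ∈ S}
  mul_mem' := by
    rintro g h ⟨⟨μ, hμ, h1⟩, h2⟩ ⟨⟨ν, hν, h3⟩, h4⟩
    refine ⟨⟨μ * ν, mul_ne_zero hμ hν, fun x y => ?_⟩, fun x => ?_⟩
    · change g (h x) ⬝ᵥ g (h y) = _
      rw [h1, h3, mul_assoc]
    · change g (h x) ∈ S ↔ _
      rw [h2, h4]
  one_mem' := ⟨⟨1, one_ne_zero, fun x y => (one_mul _).symm⟩, fun x => Iff.rfl⟩
  inv_mem' := by
    rintro g ⟨⟨μ, hμ, h1⟩, h2⟩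
    have hgg : ∀ x, g (g⁻¹ x) = x := fun x => LinearEquiv.apply_symm_apply g x
    refine ⟨⟨μ⁻¹, inv_ne_zero hμ, fun x y => ?_⟩, fun x => ?_⟩
    · have := h1 (g⁻¹ x) (g⁻¹ y)
      rw [hgg, hgg] at this
      rw [this, ← mul_assoc, inv_mul_cancel₀ hμ, one_mul]
    · rw [← h2 (g⁻¹ x), hgg]

theorem simGroup_sim [CharZero K] {S : Set (σ → K)} (hcone : ∀ (t : K) x, x ∈ S → t • x ∈ S) :
    Sim (simGroup S) where
  sim g hg := hg.1
  scal t ht := by
    refine ⟨LinearEquiv.smulOfNeZero K (σ → K) t ht, ⟨⟨t * t, mul_ne_zero ht ht, ?_⟩, ?_⟩, ?_⟩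
    · intro x y
      change (t • x) ⬝ᵥ (t • y) = _
      rw [smul_dotProduct, dotProduct_smul, smul_eq_mul, smul_eq_mul, mul_assoc]
    · intro x
      change t • x ∈ S ↔ _
      constructor
      · intro h
        have := hcone t⁻¹ _ h
        rwa [smul_smul, inv_mul_cancel₀ ht, one_smul] at this
      · exact hcone t x
    · intro x
      rfl

/-- Dense constructible cones are, up to scalars, ranges of polynomial maps which are
semi-equivariant with respect to all similitudes preserving the cone. -/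
theorem core [CharZero K] {S : Set (σ → K)} (hS0 : (0 : σ → K) ∈ S)
    (hcone : ∀ (t : K) x, x ∈ S → t • x ∈ S) (hSB : BoolComb (polys σ K) S) (hdense : Dense S) :
    ∃ (ι : Type) (_ : Finite ι) (val : (ι → σ → K) × (σ → K) → (σ → K)),
      (∀ j, (fun q => val q j) ∈ Pol (c2 ι σ K)) ∧ (∀ q, val q ∈ S) ∧
      (∀ x ∈ S, ∃ q, ∃ c : K, x = c • val q) ∧ val 0 = 0 ∧
      ∀ g : (σ → K) ≃ₗ[K] (σ → K), (∃ μ : K, μ ≠ 0 ∧ ∀ x y, g x ⬝ᵥ g y = μ * (x ⬝ᵥ y)) →
        (∀ x, g x ∈ S ↔ x ∈ S) →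
        ∃ c : K, c ≠ 0 ∧ ∀ q, val (fun i => g (q.1 i), g q.2) = c • g (val q) := by
  have hG := simGroup_sim hcone
  obtain ⟨ι, hι, st, hst⟩ := exists_state hG hS0 (fun g hg x hx => (hg.2 x).2 hx)
    (fun C hC h1 => not_both_dense (fun g hg => isClosed_polys g hg) hSB C hC h1) hdense
  refine ⟨ι, hι, fun q => st.Φ q • (st.Y q.1 + st.H q.1 • q.2), ?_, fun q => st.range q.1 q.2,
    ?_, ?_, ?_⟩
  · intro j
    have h1 : ∀ f ∈ Pol (c1 ι σ K), (fun q : (ι → σ → K) × (σ → K) => f q.1) ∈ Pol (c2 ι σ K) :=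
      fun f hf => Pol_comp hf _ (fun q : (ι → σ → K) × (σ → K) => q.1)
        (fun t => coord_mem (c2 ι σ K) (Sum.inl t))
    exact Subalgebra.mul_mem _ st.hΦ (Subalgebra.add_mem _ (h1 _ (st.hY j))
      (Subalgebra.mul_mem _ (h1 _ st.hH) (coord_mem (c2 ι σ K) (Sum.inr j))))
  · intro x hx
    obtain ⟨p, y, c, h⟩ := hst hx
    exact ⟨(p, y), c, h⟩
  · change st.Φ 0 • (st.Y 0 + st.H 0 • 0) = 0
    rw [Y_zero hG, smul_zero, add_zero, smul_zero]
  · intro g h1 h2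
    obtain ⟨a, b, ha, hb, k1, k2, k3⟩ := st.semi g ⟨h1, h2⟩
    refine ⟨b * a, mul_ne_zero hb ha, fun q => ?_⟩
    simp only [k1, k2]
    have := k3 q.1 q.2
    rw [this]
    simp only [map_smul, map_add, smul_smul, smul_add]
    congr 1
    · congr 1
      ring
    · congr 1
      ring

end Pool.Agent.Lib.MP_d55432_al.DenseCore
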