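import Pool.Agent.Lib.MP_d55432_al.Ops
import Pool.Agent.Lib.MP_d55432_al.Basic

/-!
# Polynomial functions on tuples and Lie polynomial functions
-/

namespace Pool.Agent.Lib.MP_d55432_al

open LieAlgebra Module

variable (K : Type*) [Field K] (L : Type*) [LieRing L] [LieAlgebra K L]

/-- The functions `(σ → L) → L` given by Lie polynomials in the letters `σ`. -/
def LP (σ : Type*) : Submodule K ((σ → L) → L) where
  carrier := {f | ∃ p : FreeLieAlgebra K σ, ∀ a, f a = FreeLieAlgebra.lift K a p}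
  add_mem' := by
    rintro f g ⟨p, hp⟩ ⟨q, hq⟩
    exact ⟨p + q, fun a => by rw [Pi.add_apply, hp, hq, map_add]⟩
  zero_mem' := ⟨0, fun a => by rw [map_zero]; rfl⟩
  smul_mem' := by
    rintro c f ⟨p, hp⟩
    exact ⟨c • p, fun a => by rw [Pi.smul_apply, hp, map_smul]⟩

variable {K L}

theorem LP_closed (σ : Type*) : Ops.LieClosed (LP K L σ) := by
  rintro f ⟨p, hp⟩ g ⟨q, hq⟩
  exact ⟨⁅p, q⁆, fun a => by
    change ⁅f a, g a⁆ = _
    rw [hp, hq, LieHom.map_lie]⟩

theorem LP_coord {σ : Type*} (i : σ) : (fun a => a i) ∈ LP K L σ :=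
  ⟨FreeLieAlgebra.of K i, fun a => by rw [FreeLieAlgebra.lift_of_apply]⟩

theorem lift_lift {σ τ : Type*} (q : σ → FreeLieAlgebra K τ) (p : FreeLieAlgebra K σ)
    (b : τ → L) :
    FreeLieAlgebra.lift K b (FreeLieAlgebra.lift K q p) =
      FreeLieAlgebra.lift K (fun i => FreeLieAlgebra.lift K b (q i)) p := by
  have : (FreeLieAlgebra.lift K b).comp (FreeLieAlgebra.lift K q) =
      FreeLieAlgebra.lift K (fun i => FreeLieAlgebra.lift K b (q i)) := by
    apply FreeLieAlgebra.hom_ext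
    intro i
    rw [LieHom.comp_apply, FreeLieAlgebra.lift_of_apply, FreeLieAlgebra.lift_of_apply]
  rw [← this]
  rfl

theorem LP_subst {σ τ : Type*} {f : (σ → L) → L} (hf : f ∈ LP K L σ) {g : σ → (τ → L) → L}
    (hg : ∀ i, g i ∈ LP K L τ) : (fun b => f (fun i => g i b)) ∈ LP K L τ := by
  obtain ⟨p, hp⟩ := hf
  choose q hq using hg
  refine ⟨FreeLieAlgebra.lift K q p, fun b => ?_⟩
  change f (fun i => g i b) = _
  rw [lift_lift, hp]
  congr 2
  funext i
  exact hq i b

theorem map_lift {L' : Type*} [LieRing L'] [LieAlgebra K L'] {σ : Type*} (φ : L →ₗ⁅K⁆ L')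
    (a : σ → L) (p : FreeLieAlgebra K σ) :
    FreeLieAlgebra.lift K (fun i => φ (a i)) p = φ (FreeLieAlgebra.lift K a p) := by
  have : FreeLieAlgebra.lift K (fun i => φ (a i)) = φ.comp (FreeLieAlgebra.lift K a) := by
    apply FreeLieAlgebra.hom_ext
    intro i
    rw [LieHom.comp_apply, FreeLieAlgebra.lift_of_apply, FreeLieAlgebra.lift_of_apply]
  rw [this]
  rfl

theorem PolyFun_coord {σ : Type*} (i : σ) (ψ : Module.Dual K L) :
    (fun a : σ → L => ψ (a i)) ∈ PolyFun K L σ :=
  Algebra.subset_adjoin ⟨i, ψ, rfl⟩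

/-- Composition of a polynomial function with a tuple of polynomial maps. -/
theorem PolyFun_comp {σ Y : Type*} (A : Subalgebra K (Y → K)) (g : (σ → L) → K)
    (hg : g ∈ PolyFun K L σ) (z : σ → Y → L) (hz : ∀ i (ψ : Module.Dual K L),
      (fun y => ψ (z i y)) ∈ A) : (fun y => g (fun i => z i y)) ∈ A := by
  induction hg using Algebra.adjoin_induction with
  | mem g hg =>
    obtain ⟨i, ψ, rfl⟩ := hg
    exact hz i ψ
  | algebraMap c => exact A.algebraMap_mem c
  | add g h _ _ ihg ihh => exact A.add_mem ihg ihh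
  | mul g h _ _ ihg ihh => exact A.mul_mem ihg ihh

theorem det_mem {Y : Type*} (A : Subalgebra K (Y → K)) {n : ℕ} (e : Basis (Fin n) K L)
    (z : Fin n → Y → L) (hz : ∀ i (ψ : Module.Dual K L), (fun y => ψ (z i y)) ∈ A) :
    (fun y => e.det (fun i => z i y)) ∈ A := by
  have h : (fun y => e.det (fun i => z i y)) = ∑ σ : Equiv.Perm (Fin n),
      ((Equiv.Perm.sign σ : ℤˣ) : ℤ) • ∏ i, fun y => e.coord (σ i) (z i y) := by
    funext y
    rw [Basis.det_apply, Matrix.det_apply, Finset.sum_apply]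
    refine Finset.sum_congr rfl fun σ _ => ?_
    rw [Pi.smul_apply, Finset.prod_apply, Units.smul_def]
    rfl
  rw [h]
  refine A.sum_mem fun σ _ => A.zsmul_mem ?_ _
  exact A.prod_mem fun i _ => hz i _

/-- Polynomial functions are given by polynomials in the coordinates. -/
theorem exists_mvPolynomial {n : ℕ} (e : Basis (Fin n) K L) {σ : Type*} (g : (σ → L) → K)
    (hg : g ∈ PolyFun K L σ) : ∃ p : MvPolynomial (σ × Fin n) K,
      ∀ a, g a = MvPolynomial.eval (fun ik => e.repr (a ik.1) ik.2) p := by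
  induction hg using Algebra.adjoin_induction with
  | mem g hg =>
    obtain ⟨i, ψ, rfl⟩ := hg
    refine ⟨∑ k, MvPolynomial.C (ψ (e k)) * MvPolynomial.X (i, k), fun a => ?_⟩
    rw [map_sum]
    simp only [map_mul, MvPolynomial.eval_C, MvPolynomial.eval_X]
    conv_lhs => rw [← e.sum_repr (a i), map_sum]
    refine Finset.sum_congr rfl fun k _ => ?_
    rw [map_smul, smul_eq_mul, mul_comm]
  | algebraMap c => exact ⟨MvPolynomial.C c, fun a => by simp⟩
  | add g h _ _ ihg ihh =>
    obtain ⟨p, hp⟩ := ihg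
    obtain ⟨q, hq⟩ := ihh
    exact ⟨p + q, fun a => by rw [Pi.add_apply, hp, hq, map_add]⟩
  | mul g h _ _ ihg ihh =>
    obtain ⟨p, hp⟩ := ihg
    obtain ⟨q, hq⟩ := ihh
    exact ⟨p * q, fun a => by rw [Pi.mul_apply, hp, hq, map_mul]⟩

theorem repr_mul_det {n : ℕ} (e : Basis (Fin n) K L) (b : Fin n → L)
    (t : L) (x : Fin n → K) (ht : t = ∑ i, x i • b i) (k : Fin n) :
    e.det (Function.update b k t) = x k * e.det b := by
  have h1 : e.det (Function.update b k t) = ∑ i, x i * e.det (Function.update b k (b i)) := by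
    have h2 : ∀ y : L, e.det (Function.update b k y) =
        (e.det.toMultilinearMap.toLinearMap b k) y := fun y => rfl
    rw [h2, ht, map_sum]
    refine Finset.sum_congr rfl fun i _ => ?_
    rw [map_smul, smul_eq_mul]
    rfl
  rw [h1, Finset.sum_eq_single k]
  · rw [Function.update_eq_self]
  · intro i _ hik
    rw [AlternatingMap.map_update_self e.det b (Ne.symm hik), mul_zero]
  · intro h
    exact absurd (Finset.mem_univ k) h

/-- Cramer's rule. -/
theorem cramer_smul {n : ℕ} (e : Basis (Fin n) K L) (b : Fin n → L) (hb : e.det b ≠ 0) (t : L) :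
    t = ∑ i, (e.det (Function.update b i t) / e.det b) • b i := by
  have hu : IsUnit (e.det b) := isUnit_iff_ne_zero.2 hb
  rw [← Basis.is_basis_iff_det] at hu
  let B : Basis (Fin n) K L := Basis.mk hu.1 (by rw [hu.2])
  have hB : ∀ i, B i = b i := fun i => by rw [Basis.mk_apply]
  have ht : t = ∑ i, B.repr t i • b i := by
    conv_lhs => rw [← B.sum_repr t]
    exact Finset.sum_congr rfl fun i _ => by rw [hB]
  conv_lhs => rw [ht]
  refine Finset.sum_congr rfl fun i _ => ?_
  rw [repr_mul_det e b t (fun i => B.repr t i) ht i, mul_div_assoc, div_self hb, mul_one]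

/-- Two bases with the same structure constants are related by an automorphism. -/
theorem exists_equiv {n : ℕ} (e : Basis (Fin n) K L) (b b' : Fin n → L) (hb : e.det b ≠ 0)
    (hb' : e.det b' ≠ 0)
    (h : ∀ i j k, e.det (Function.update b k ⁅b i, b j⁆) / e.det b =
      e.det (Function.update b' k ⁅b' i, b' j⁆) / e.det b') :
    ∃ φ : L ≃ₗ⁅K⁆ L, ∀ i, φ (b i) = b' i := by
  have hu : IsUnit (e.det b) := isUnit_iff_ne_zero.2 hb
  rw [← Basis.is_basis_iff_det] at hu
  have hu' : IsUnit (e.det b') := isUnit_iff_ne_zero.2 hb'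
  rw [← Basis.is_basis_iff_det] at hu'
  let B : Basis (Fin n) K L := Basis.mk hu.1 (by rw [hu.2])
  have hB : ∀ i, B i = b i := fun i => by rw [Basis.mk_apply]
  let B' : Basis (Fin n) K L := Basis.mk hu'.1 (by rw [hu'.2])
  have hB' : ∀ i, B' i = b' i := fun i => by rw [Basis.mk_apply]
  let φ : L ≃ₗ[K] L := B.equiv B' (Equiv.refl _)
  have hφ : ∀ i, φ (b i) = b' i := by
    intro i
    rw [← hB, ← hB', Basis.equiv_apply]
    rfl
  have hlie : ∀ x y, φ ⁅x, y⁆ = ⁅φ x, φ y⁆ := by
    have h1 : ∀ i j, φ ⁅b i, b j⁆ = ⁅φ (b i), φ (b j)⁆ := by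
      intro i j
      rw [hφ, hφ, cramer_smul e b hb ⁅b i, b j⁆, cramer_smul e b' hb' ⁅b' i, b' j⁆, map_sum]
      refine Finset.sum_congr rfl fun k _ => ?_
      rw [map_smul, hφ, h]
    let F₁ : L →ₗ[K] L →ₗ[K] L := (LieModule.toEnd K L L : L →ₗ[K] Module.End K L).compr₂
      φ.toLinearMap
    let F₂ : L →ₗ[K] L →ₗ[K] L := (LieModule.toEnd K L L : L →ₗ[K] Module.End K L).compl₁₂
      φ.toLinearMap φ.toLinearMap
    have hF : F₁ = F₂ := by
      apply B.ext
      intro i
      apply B.ext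
      intro j
      rw [hB, hB]
      exact h1 i j
    intro x y
    exact congrArg (fun F : L →ₗ[K] L →ₗ[K] L => F x y) hF
  exact ⟨{ φ with map_lie' := by intro x y; exact hlie x y }, fun i => hφ i⟩

end Pool.Agent.Lib.MP_d55432_al
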