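import Mathlib

/-!
# Leading exponents of sums of signed squares and algebraic independence
-/

namespace Pool.Agent.Lib.MP_d55432_al.Degrees

open MvPolynomial

variable {τ : Type*} {K : Type*} [Field K] (m : MonomialOrder τ)

/-- A finite sum of nonzero polynomials with pairwise distinct leading exponents is nonzero, and
its leading exponent is that of one of the terms. -/
theorem degree_sum_distinct {ι : Type*} (s : Finset ι) (g : ι → MvPolynomial τ K)
    (hg : ∀ i ∈ s, g i ≠ 0)
    (hd : ∀ i ∈ s, ∀ j ∈ s, i ≠ j → m.degree (g i) ≠ m.degree (g j)) (hs : s.Nonempty) :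
    ∃ i ∈ s, m.degree (∑ j ∈ s, g j) = m.degree (g i) ∧ ∑ j ∈ s, g j ≠ 0 := by
  classical
  induction s using Finset.induction_on with
  | empty => exact absurd hs (by simp)
  | insert a s ha ih =>
    rw [Finset.sum_insert ha]
    rcases s.eq_empty_or_nonempty with h0 | h0
    · subst h0
      exact ⟨a, by simp, by simp, by simpa using hg a (by simp)⟩
    · obtain ⟨i, hi, hdi, hne⟩ := ih (fun i hi => hg i (Finset.mem_insert_of_mem hi))
        (fun i hi j hj => hd i (Finset.mem_insert_of_mem hi) j (Finset.mem_insert_of_mem hj)) h0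
      have hai : a ≠ i := fun h => ha (h ▸ hi)
      have hdd : m.degree (g a) ≠ m.degree (∑ j ∈ s, g j) := by
        rw [hdi]
        exact hd a (Finset.mem_insert_self _ _) i (Finset.mem_insert_of_mem hi) hai
      have hne' : m.toSyn (m.degree (g a)) ≠ m.toSyn (m.degree (∑ j ∈ s, g j)) :=
        fun h => hdd (m.toSyn.injective h)
      rcases lt_or_gt_of_ne hne' with hlt | hlt
      · refine ⟨i, Finset.mem_insert_of_mem hi, ?_, ?_⟩
        · rw [m.degree_add_eq_right_of_lt hlt, hdi]
        · intro h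
          have h1 := m.degree_add_eq_right_of_lt hlt
          rw [h, m.degree_zero] at h1
          rw [← h1] at hlt
          exact absurd hlt (not_lt.2 (by simp only [map_zero]; exact bot_le))
      · refine ⟨a, Finset.mem_insert_self _ _, m.degree_add_of_lt hlt, ?_⟩
        intro h
        have h1 := m.degree_add_of_lt hlt
        rw [h, m.degree_zero] at h1
        rw [← h1] at hlt
        exact absurd hlt (not_lt.2 (by simp only [map_zero]; exact bot_le))

/-- Signed sums of squares. -/
theorem degree_sum_squares {ι : Type*} [Fintype ι] (ε : ι → K) (hε : ∀ i, ε i ≠ 0)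
    (g : ι → MvPolynomial τ K)
    (hd : ∀ i j, g i ≠ 0 → g j ≠ 0 → i ≠ j → m.degree (g i) ≠ m.degree (g j))
    (hs : ∃ i, g i ≠ 0) :
    ∃ i, g i ≠ 0 ∧ m.degree (∑ j, C (ε j) * g j ^ 2) = 2 • m.degree (g i) ∧
      ∑ j, C (ε j) * g j ^ 2 ≠ 0 := by
  classical
  let s : Finset ι := Finset.univ.filter (fun i => g i ≠ 0)
  have hsum : ∑ j, C (ε j) * g j ^ 2 = ∑ j ∈ s, C (ε j) * g j ^ 2 := by
    symm
    apply Finset.sum_subset (Finset.subset_univ _)
    intro i _ hi
    have : g i = 0 := by
      by_contra h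
      exact hi (Finset.mem_filter.2 ⟨Finset.mem_univ _, h⟩)
    rw [this]; ring
  have hdeg : ∀ i, g i ≠ 0 → m.degree (C (ε i) * g i ^ 2) = 2 • m.degree (g i) := by
    intro i hi
    rw [← smul_eq_C_mul, m.degree_smul_of_mem_nonZeroDivisors
      (mem_nonZeroDivisors_of_ne_zero (hε i)), m.degree_pow]
  have hmem : ∀ i ∈ s, g i ≠ 0 := fun i hi => (Finset.mem_filter.1 hi).2
  obtain ⟨i, hi, h1, h2⟩ := degree_sum_distinct m s (fun j => C (ε j) * g j ^ 2)
    (fun i hi => mul_ne_zero (by rw [ne_eq, C_eq_zero]; exact hε i) (pow_ne_zero _ (hmem i hi)))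
    (by
      intro i hi j hj hij h
      rw [hdeg i (hmem i hi), hdeg j (hmem j hj)] at h
      apply hd i j (hmem i hi) (hmem j hj) hij
      ext t
      have := DFunLike.congr_fun h t
      simp only [Finsupp.smul_apply, smul_eq_mul] at this
      omega)
    (by obtain ⟨i, hi⟩ := hs; exact ⟨i, Finset.mem_filter.2 ⟨Finset.mem_univ _, hi⟩⟩)
  rw [hsum]
  exact ⟨i, hmem i hi, by rw [h1, hdeg i (hmem i hi)], h2⟩

/-- If the exponents `i • μ + j • ν` are pairwise distinct then polynomials with leading exponents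
`2 • μ` and `2 • ν` are algebraically independent. -/
theorem aeval_ne_zero (f g : MvPolynomial τ K) (hf : f ≠ 0) (hg : g ≠ 0) (μ ν : τ →₀ ℕ)
    (hfd : m.degree f = 2 • μ) (hgd : m.degree g = 2 • ν)
    (hind : ∀ i j i' j' : ℕ, i • μ + j • ν = i' • μ + j' • ν → i = i' ∧ j = j')
    (Φ : MvPolynomial (Fin 2) K) (hΦ : Φ ≠ 0) : aeval ![f, g] Φ ≠ 0 := by
  classical
  rw [aeval_def, eval₂_eq']
  have hs : Φ.support.Nonempty := by rwa [Finset.nonempty_iff_ne_empty, ne_eq, support_eq_empty]
  have hterm : ∀ d ∈ Φ.support, m.degree (algebraMap K (MvPolynomial τ K) (coeff d Φ) *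
      ∏ i, ![f, g] i ^ d i) = 2 • (d 0 • μ + d 1 • ν) := by
    intro d hd
    rw [Fin.prod_univ_two]
    change m.degree (C (coeff d Φ) * (f ^ d 0 * g ^ d 1)) = _
    rw [← smul_eq_C_mul, m.degree_smul_of_mem_nonZeroDivisors
      (mem_nonZeroDivisors_of_ne_zero (mem_support_iff.1 hd)),
      m.degree_mul (pow_ne_zero _ hf) (pow_ne_zero _ hg), m.degree_pow, m.degree_pow, hfd, hgd]
    ext t
    simp only [Finsupp.add_apply, Finsupp.smul_apply, smul_eq_mul]
    ring
  obtain ⟨i, _, _, h⟩ := degree_sum_distinct m Φ.support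
    (fun d => algebraMap K (MvPolynomial τ K) (coeff d Φ) * ∏ i, ![f, g] i ^ d i)
    (by
      intro d hd
      refine mul_ne_zero ?_ ?_
      · change C (coeff d Φ) ≠ 0
        rw [ne_eq, C_eq_zero]
        exact mem_support_iff.1 hd
      · rw [Fin.prod_univ_two]
        exact mul_ne_zero (pow_ne_zero _ hf) (pow_ne_zero _ hg))
    (by
      intro d hd d' hd' hne h
      rw [hterm d hd, hterm d' hd'] at h
      have h2 : d 0 • μ + d 1 • ν = d' 0 • μ + d' 1 • ν := by
        ext t
        have := DFunLike.congr_fun h t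
        simp only [Finsupp.smul_apply, smul_eq_mul, Finsupp.add_apply] at this ⊢
        omega
      obtain ⟨h0, h1⟩ := hind _ _ _ _ h2
      apply hne
      ext t
      fin_cases t
      · exact h0
      · exact h1) hs
  exact h

/-- The sign of an exponent. -/
def sgn {τ : Type*} (ε : τ → ℤ) (d : τ →₀ ℕ) : ℤ := d.prod fun t k => ε t ^ k

theorem sgn_add (ε : τ → ℤ) (d d' : τ →₀ ℕ) : sgn ε (d + d') = sgn ε d * sgn ε d' := by
  classical
  exact Finsupp.prod_add_index' (fun _ => pow_zero _) (fun _ _ _ => pow_add _ _ _)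

theorem sgn_smul (ε : τ → ℤ) (a : ℕ) (d : τ →₀ ℕ) : sgn ε (a • d) = sgn ε d ^ a := by
  induction a with
  | zero => simp [sgn]
  | succ a ih => rw [succ_nsmul, sgn_add, ih, pow_succ]

theorem sgn_sq (ε : τ → ℤ) (hε : ∀ t, ε t = 1 ∨ ε t = -1) (d : τ →₀ ℕ) :
    sgn ε d = 1 ∨ sgn ε d = -1 := by
  classical
  induction d using Finsupp.induction with
  | zero => left; simp [sgn]
  | single_add t b f _ _ ih =>
    rw [sgn_add]
    have h1 : sgn ε (Finsupp.single t b) = ε t ^ b :=
      Finsupp.prod_single_index (pow_zero _)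
    rw [h1]
    rcases hε t with h | h <;> rcases ih with h' | h' <;> rw [h, h'] <;>
      rcases neg_one_pow_eq_or ℤ b with h'' | h'' <;> simp [h'']

/-- The sign automorphism of the polynomial ring. -/
noncomputable def sgnHom (K : Type*) [Field K] (ε : τ → ℤ) :
    MvPolynomial τ K →ₐ[K] MvPolynomial τ K :=
  aeval fun t => C ((ε t : ℤ) : K) * X t

theorem sgnHom_monomial (ε : τ → ℤ) (d : τ →₀ ℕ) (c : K) :
    sgnHom K ε (monomial d c) = monomial d (((sgn ε d : ℤ) : K) * c) := by
  rw [sgnHom, aeval_monomial, Finsupp.prod]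
  simp only [mul_pow]
  rw [Finset.prod_mul_distrib]
  have h1 : ∏ x ∈ d.support, (C ((ε x : ℤ) : K) : MvPolynomial τ K) ^ d x =
      C (((sgn ε d : ℤ) : K)) := by
    rw [sgn, Finsupp.prod, Int.cast_prod, map_prod]
    exact Finset.prod_congr rfl fun x _ => by push_cast; rw [map_pow]
  rw [h1, monomial_eq (s := d), ← mul_assoc]
  congr 1
  rw [map_mul, mul_comm]
  rfl

theorem coeff_sgnHom (ε : τ → ℤ) (f : MvPolynomial τ K) (d : τ →₀ ℕ) :
    coeff d (sgnHom K ε f) = ((sgn ε d : ℤ) : K) * coeff d f := by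
  classical
  induction f using MvPolynomial.monomial_add_induction_on with
  | C a =>
    have := sgnHom_monomial (K := K) ε 0 a
    rw [← C_apply] at this
    rw [this, coeff_monomial, coeff_C]
    split_ifs with h
    · subst h; rfl
    · simp
  | monomial_add a b f _ _ ih =>
    rw [map_add, coeff_add, coeff_add, ih, sgnHom_monomial, coeff_monomial, coeff_monomial]
    split_ifs with h
    · subst h; ring
    · ring

/-- If `f` is an eigenvector of the sign automorphism then its leading exponent has the same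
sign. -/
theorem sgn_degree [CharZero K] (ε : τ → ℤ) (f : MvPolynomial τ K) (hf : f ≠ 0)
    (δ : ℤ) (h : sgnHom K ε f = C ((δ : ℤ) : K) * f) : sgn ε (m.degree f) = δ := by
  have h1 := congrArg (coeff (m.degree f)) h
  rw [coeff_sgnHom, coeff_C_mul] at h1
  have h2 : coeff (m.degree f) f ≠ 0 := (m.coeff_degree_ne_zero_iff).2 hf
  have h3 := mul_right_cancel₀ h2 h1
  exact_mod_cast h3

/-- Independence of exponents with different sign patterns. -/
theorem exponents_independent {J : Type*} (ε : J → τ → ℤ)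
    (hε : ∀ j t, ε j t = 1 ∨ ε j t = -1)
    (μ ν : τ →₀ ℕ) (hμ : ∃ j, sgn (ε j) μ = -1) (hν : ∃ j, sgn (ε j) ν = -1)
    (hμν : ∃ j, sgn (ε j) μ ≠ sgn (ε j) ν)
    (i j i' j' : ℕ) (h : i • μ + j • ν = i' • μ + j' • ν) : i = i' ∧ j = j' := by
  have hμ0 : μ ≠ 0 := by
    rintro rfl
    obtain ⟨j, hj⟩ := hμ
    simp [sgn] at hj
  have hν0 : ν ≠ 0 := by
    rintro rfl
    obtain ⟨j, hj⟩ := hν
    simp [sgn] at hj
  have hsmul0 : ∀ (b : ℕ) (ρ : τ →₀ ℕ), ρ ≠ 0 → b • ρ = 0 → b = 0 := by
    intro b ρ hρ hb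
    by_contra hb0
    apply hρ
    ext t
    have := DFunLike.congr_fun hb t
    simp only [Finsupp.smul_apply, smul_eq_mul, Finsupp.coe_zero, Pi.zero_apply,
      mul_eq_zero] at this
    rcases this with h | h
    · exact absurd h hb0
    · exact h
  -- the basic relation
  have key : ∀ a b : ℕ, a • μ = b • ν → a = 0 ∧ b = 0 := by
    intro a b hab
    by_contra hcon
    have ha : a ≠ 0 := by
      rintro rfl
      rw [zero_smul] at hab
      exact hcon ⟨rfl, hsmul0 b ν hν0 hab.symm⟩
    obtain ⟨a', b', hcop, ha', hb'⟩ := Nat.exists_coprime a b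
    have hg : 0 < a.gcd b := Nat.gcd_pos_of_pos_left b (Nat.pos_of_ne_zero ha)
    have hab' : a' • μ = b' • ν := by
      ext t
      have := DFunLike.congr_fun hab t
      simp only [Finsupp.smul_apply, smul_eq_mul] at this ⊢
      apply Nat.eq_of_mul_eq_mul_left hg
      calc a.gcd b * (a' * μ t) = (a' * a.gcd b) * μ t := by ring
        _ = a * μ t := by rw [← ha']
        _ = b * ν t := this
        _ = (b' * a.gcd b) * ν t := by rw [← hb']
        _ = _ := by ring
    have hs : ∀ j, sgn (ε j) μ ^ a' = sgn (ε j) ν ^ b' := by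
      intro j
      rw [← sgn_smul, ← sgn_smul, hab']
    rcases Nat.even_or_odd a' with hea | hoa
    · rcases Nat.even_or_odd b' with heb | hob
      · have h2 : 2 ∣ Nat.gcd a' b' := Nat.dvd_gcd hea.two_dvd heb.two_dvd
        rw [hcop] at h2
        omega
      · obtain ⟨j, hj⟩ := hν
        have := hs j
        rw [hj, hob.neg_one_pow] at this
        rcases sgn_sq (ε j) (hε j) μ with h1 | h1
        · rw [h1, one_pow] at this; omega
        · rw [h1, hea.neg_one_pow] at this; omega
    · rcases Nat.even_or_odd b' with heb | hob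
      · obtain ⟨j, hj⟩ := hμ
        have := hs j
        rw [hj, hoa.neg_one_pow] at this
        rcases sgn_sq (ε j) (hε j) ν with h1 | h1
        · rw [h1, one_pow] at this; omega
        · rw [h1, heb.neg_one_pow] at this; omega
      · obtain ⟨j, hj⟩ := hμν
        apply hj
        have := hs j
        rcases sgn_sq (ε j) (hε j) μ with h1 | h1 <;>
          rcases sgn_sq (ε j) (hε j) ν with h2 | h2 <;>
          rw [h1, h2] at this ⊢ <;>
          simp [hoa.neg_one_pow, hob.neg_one_pow] at this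
  -- reduce to the basic relation
  have hpt : ∀ t, i * μ t + j * ν t = i' * μ t + j' * ν t := by
    intro t
    have := DFunLike.congr_fun h t
    simpa only [Finsupp.add_apply, Finsupp.smul_apply, smul_eq_mul] using this
  rcases le_total i i' with hi | hi <;> rcases le_total j j' with hj | hj
  · obtain ⟨a, rfl⟩ := Nat.exists_eq_add_of_le hi
    obtain ⟨b, rfl⟩ := Nat.exists_eq_add_of_le hj
    have h1 : a • μ = 0 := by
      ext t
      have := hpt t
      simp only [Finsupp.smul_apply, smul_eq_mul, Finsupp.coe_zero, Pi.zero_apply]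
      nlinarith [Nat.zero_le (a * μ t), Nat.zero_le (b * ν t)]
    have h2 : b • ν = 0 := by
      ext t
      have := hpt t
      simp only [Finsupp.smul_apply, smul_eq_mul, Finsupp.coe_zero, Pi.zero_apply]
      nlinarith [Nat.zero_le (a * μ t), Nat.zero_le (b * ν t)]
    have h3 := hsmul0 a μ hμ0 h1
    have h4 := hsmul0 b ν hν0 h2
    omega
  · obtain ⟨a, rfl⟩ := Nat.exists_eq_add_of_le hi
    obtain ⟨b, rfl⟩ := Nat.exists_eq_add_of_le hj
    have h1 : a • μ = b • ν := by
      ext t
      have := hpt t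
      simp only [Finsupp.smul_apply, smul_eq_mul]
      nlinarith
    obtain ⟨h3, h4⟩ := key a b h1
    omega
  · obtain ⟨a, rfl⟩ := Nat.exists_eq_add_of_le hi
    obtain ⟨b, rfl⟩ := Nat.exists_eq_add_of_le hj
    have h1 : a • μ = b • ν := by
      ext t
      have := hpt t
      simp only [Finsupp.smul_apply, smul_eq_mul]
      nlinarith
    obtain ⟨h3, h4⟩ := key a b h1
    omega
  · obtain ⟨a, rfl⟩ := Nat.exists_eq_add_of_le hi
    obtain ⟨b, rfl⟩ := Nat.exists_eq_add_of_le hj
    have h1 : a • μ = 0 := by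
      ext t
      have := hpt t
      simp only [Finsupp.smul_apply, smul_eq_mul, Finsupp.coe_zero, Pi.zero_apply]
      nlinarith [Nat.zero_le (a * μ t), Nat.zero_le (b * ν t)]
    have h2 : b • ν = 0 := by
      ext t
      have := hpt t
      simp only [Finsupp.smul_apply, smul_eq_mul, Finsupp.coe_zero, Pi.zero_apply]
      nlinarith [Nat.zero_le (a * μ t), Nat.zero_le (b * ν t)]
    have h3 := hsmul0 a μ hμ0 h1
    have h4 := hsmul0 b ν hν0 h2
    omega

end Pool.Agent.Lib.MP_d55432_al.Degrees
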