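import Pool.Agent.Lib.MP_d55432_al.Step2

/-!
# Dense stable constructible cones are ranges of semi-equivariant polynomial maps
-/

namespace Pool.Agent.Lib.MP_d55432_al.DenseCore

open MvPolynomial DetTrick Zar Chow Step

attribute [local instance] zar

variable {σ : Type} [Fintype σ] [DecidableEq σ] {K : Type*} [Field K]

theorem stable_inter {G : Subgroup ((σ → K) ≃ₗ[K] (σ → K))} {A B : Set (σ → K)}
    (hA : Stable G A) (hB : Stable G B) : Stable G (A ∩ B) :=
  fun g hg x hx => ⟨hA g hg x hx.1, hB g hg x hx.2⟩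

theorem stable_compl {G : Subgroup ((σ → K) ≃ₗ[K] (σ → K))} {A : Set (σ → K)}
    (hA : Stable G A) : Stable G Aᶜ := by
  intro g hg x hx hgx
  apply hx
  have := hA g⁻¹ (G.inv_mem hg) _ hgx
  have h2 : g⁻¹ (g x) = x := LinearEquiv.symm_apply_apply g x
  rwa [h2] at this

/-- Noetherian induction. -/
theorem induction [CharZero K] {G : Subgroup ((σ → K) ≃ₗ[K] (σ → K))} (hG : Sim G)
    {S : Set (σ → K)} (hS0 : (0 : σ → K) ∈ S) (hSst : Stable G S)
    (hSd : ∀ C : Set (σ → K), C.Nonempty → C ⊆ closure (C ∩ S) → ¬ C ⊆ closure (C ∩ Sᶜ))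
    (B : TopologicalSpace.Closeds (σ → K)) :
    Stable G (B : Set (σ → K)) → (B : Set (σ → K)) ≠ Set.univ →
    ∀ (ι : Type) [Finite ι] (st : State G S ι), ∃ (ι' : Type) (_ : Finite ι') (st' : State G S ι'),
      st.Att ⊆ st'.Att ∧ S ∩ B ⊆ st'.Att := by
  classical
  have hnoeth : TopologicalSpace.NoetherianSpace (σ → K) := noetherian
  have hwf' : WellFoundedLT (TopologicalSpace.Closeds (σ → K)) :=
    ((TopologicalSpace.noetherianSpace_TFAE (σ → K)).out 0 1).1 hnoeth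
  have hwf : WellFounded fun s t : TopologicalSpace.Closeds (σ → K) => s < t := hwf'.wf
  induction B using hwf.induction with
  | _ B ih =>
    intro hB hBu ι _ st
    have hsub : ∀ {B' : Set (σ → K)}, IsClosed B' → Stable G B' → B' ⊆ B → ¬ (B : Set _) ⊆ B' →
        ∀ (ι : Type) [Finite ι] (st : State G S ι), ∃ (ι' : Type) (_ : Finite ι')
          (st' : State G S ι'), st.Att ⊆ st'.Att ∧ S ∩ B' ⊆ st'.Att := by
      intro B' hc hs hle hnle ι _ st
      refine ih ⟨B', hc⟩ ?_ hs ?_ ι st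
      · exact lt_of_le_not_ge (fun x hx => hle hx) (fun h => hnle fun x hx => h hx)
      · rintro rfl
        exact hnle fun x _ => trivial
    by_cases hempty : (B : Set (σ → K)) = ∅
    · exact ⟨ι, inferInstance, st, le_rfl, by rw [hempty]; simp⟩
    have hne : (B : Set (σ → K)).Nonempty := Set.nonempty_iff_ne_empty.2 hempty
    by_cases hd : (B : Set (σ → K)) ⊆ closure ((B : Set (σ → K)) ∩ S)
    swap
    · obtain ⟨ι', h1, st', h2, h3⟩ := hsub (B' := closure ((B : Set (σ → K)) ∩ S))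
        isClosed_closure (stable_closure (stable_inter hB hSst))
        (closure_minimal Set.inter_subset_left B.isClosed) hd ι st
      exact ⟨ι', h1, st', h2, fun x hx => h3 ⟨hx.1, subset_closure ⟨hx.2, hx.1⟩⟩⟩
    by_cases hirr : Irr G (B : Set (σ → K))
    · obtain ⟨d, st₁, E, hEc, hEs, hEB, ha1, ha2⟩ := step hG hS0 hSst st B.isClosed hB hirr hBu
        (hSd _ hne hd)
      obtain ⟨ι', h1, st', h2, h3⟩ := hsub (B' := (B : Set (σ → K)) ∩ E)
        (B.isClosed.inter hEc) (stable_inter hB hEs) Set.inter_subset_left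
        (fun h => hEB fun x hx => (h hx).2) _ st₁
      refine ⟨ι', h1, st', ha1.trans h2, ?_⟩
      rintro x ⟨hxS, hxB⟩
      by_cases hxE : x ∈ E
      · exact h3 ⟨hxS, hxB, hxE⟩
      · exact h2 (ha2 ⟨⟨hxB, hxS⟩, hxE⟩)
    · have : ∃ C₁ C₂ : Set (σ → K), IsClosed C₁ ∧ IsClosed C₂ ∧ Stable G C₁ ∧ Stable G C₂ ∧
          (B : Set (σ → K)) ⊆ C₁ ∪ C₂ ∧ ¬ (B : Set (σ → K)) ⊆ C₁ ∧ ¬ (B : Set (σ → K)) ⊆ C₂ := by
        by_contra hcon
        apply hirr
        refine ⟨hne, fun C₁ C₂ h1 h2 h3 h4 h5 => ?_⟩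
        by_contra h6
        rw [not_or] at h6
        exact hcon ⟨C₁, C₂, h1, h2, h3, h4, h5, h6.1, h6.2⟩
      obtain ⟨C₁, C₂, h1, h2, h3, h4, h5, h6, h7⟩ := this
      obtain ⟨ι₁, i1, st₁, k1, k2⟩ := hsub (B' := (B : Set (σ → K)) ∩ C₁)
        (B.isClosed.inter h1) (stable_inter hB h3) Set.inter_subset_left
        (fun h => h6 fun x hx => (h hx).2) ι st
      obtain ⟨ι₂, i2, st₂, k3, k4⟩ := hsub (B' := (B : Set (σ → K)) ∩ C₂)
        (B.isClosed.inter h2) (stable_inter hB h4) Set.inter_subset_left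
        (fun h => h7 fun x hx => (h hx).2) ι₁ st₁
      refine ⟨ι₂, i2, st₂, k1.trans k3, ?_⟩
      rintro x ⟨hxS, hxB⟩
      rcases h5 hxB with hx | hx
      · exact k3 (k2 ⟨hxS, hxB, hx⟩)
      · exact k4 ⟨hxS, hxB, hx⟩

/-- The core theorem in terms of states. -/
theorem exists_state [CharZero K] {G : Subgroup ((σ → K) ≃ₗ[K] (σ → K))} (hG : Sim G)
    {S : Set (σ → K)} (hS0 : (0 : σ → K) ∈ S) (hSst : Stable G S)
    (hSd : ∀ C : Set (σ → K), C.Nonempty → C ⊆ closure (C ∩ S) → ¬ C ⊆ closure (C ∩ Sᶜ))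
    (hdense : Dense S) :
    ∃ (ι : Type) (_ : Finite ι) (st : State G S ι), S ⊆ st.Att := by
  classical
  have h1 : ¬ (Set.univ : Set (σ → K)) ⊆ closure (Set.univ ∩ Sᶜ) :=
    hSd Set.univ ⟨0, trivial⟩ (by rw [Set.univ_inter]; exact fun x _ => hdense x)
  rw [Set.univ_inter] at h1
  obtain ⟨z₁, _, hz₁⟩ := Set.not_subset.1 h1
  rw [mem_closure_iff_eval] at hz₁
  push Not at hz₁
  obtain ⟨P₁, hP₁, hP₁z⟩ := hz₁
  have hScst : Stable G Sᶜ := stable_compl hSst
  obtain ⟨r, P₂, hP₂h, hP₂, hP₂z⟩ := exists_homogeneous_sep Sᶜ (by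
    intro t ht x hx
    obtain ⟨g, hg, hgt⟩ := hG.scal t ht
    rw [← hgt]
    exact hScst g hg x hx) z₁ P₁ hP₁ hP₁z
  obtain ⟨d, F, hF, hF0, hF1, hFs, hFr⟩ := det_trick G Sᶜ hScst r P₂ hP₂h hP₂
  have hSsmul : ∀ (t : K) (x : σ → K), x ∈ S → t • x ∈ S := by
    intro t x hx
    by_cases ht : t = 0
    · rw [ht, zero_smul]; exact hS0
    · obtain ⟨g, hg, hgt⟩ := hG.scal t ht
      rw [← hgt]; exact hSst g hg x hx
  let st : State G S (Fin d) :=
    { H := fun _ => 1
      Y := fun _ => 0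
      Φ := F
      hH := Subalgebra.one_mem _
      hY := fun j => Subalgebra.zero_mem _
      hΦ := hF
      H_ne := ⟨0, one_ne_zero⟩
      Φ_ne := by
        obtain ⟨u, hu⟩ := hF1 z₁ hP₂z
        exact ⟨(u, z₁), hu⟩
      semi := by
        intro g hg
        obtain ⟨c, hc0, hc⟩ := hFs g hg
        exact ⟨1, c, one_ne_zero, hc0, fun p => (mul_one _).symm, fun p => by simp, hc⟩
      range := by
        intro p x
        rw [zero_add, one_smul]
        by_cases hx : x ∈ S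
        · exact hSsmul _ _ hx
        · rw [hF0 x hx, zero_smul]
          exact hS0 }
  have hst : ∀ z, (∃ u, F (u, z) ≠ 0) → z ∈ st.Att := by
    rintro z ⟨u, hu⟩
    refine ⟨u, z, (F (u, z))⁻¹, ?_⟩
    change z = (F (u, z))⁻¹ • (F (u, z) • (0 + (1 : K) • z))
    rw [zero_add, one_smul, smul_smul, inv_mul_cancel₀ hu, one_smul]
  let B : Set (σ → K) := {z | ∀ u, F (u, z) = 0}
  have hBc : IsClosed B := by
    have h1 : B = ⋂ u, {z | F (u, z) = 0} := by
      ext z; simp only [Set.mem_iInter]; rfl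
    rw [h1]
    refine isClosed_iInter fun u => ?_
    have h2 : (fun z => F (u, z)) ∈ polyAlg σ K := by
      refine Pol_comp hF (polyAlg σ K) (fun z => (u, z)) ?_
      rintro (t | t)
      · exact (polyAlg σ K).algebraMap_mem (c2 (Fin d) σ K (Sum.inl t) (u, 0))
      · exact (mem_polyAlg _).2 ⟨X t, fun x => by simp [c2]⟩
    exact isClosed_polys _ ((mem_polyAlg _).1 h2)
  have hBs : Stable G B := by
    intro g hg z hz u
    obtain ⟨c, _, hc⟩ := hFs g hg
    have h1 := hc (fun i => g⁻¹ (u i)) z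
    have hginv' : ∀ x : σ → K, g (g⁻¹ x) = x := fun x => LinearEquiv.apply_symm_apply g x
    simp only [hginv'] at h1
    rw [h1, hz _, mul_zero]
  obtain ⟨ι', h2, st', h3, h4⟩ := induction hG hS0 hSst hSd ⟨B, hBc⟩ hBs (by
    intro h
    obtain ⟨u, hu⟩ := hF1 z₁ hP₂z
    have : z₁ ∈ B := by
      have h5 : (B : Set (σ → K)) = Set.univ := h
      rw [h5]; trivial
    exact hu (this u)) (Fin d) st
  refine ⟨ι', h2, st', fun x hx => ?_⟩
  by_cases hxB : x ∈ B
  · exact h4 ⟨hx, hxB⟩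
  · apply h3
    apply hst
    by_contra hcon
    push Not at hcon
    exact hxB hcon

end Pool.Agent.Lib.MP_d55432_al.DenseCore
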