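import Pool.Agent.Lib.MP_d55432_al.Connect
import Pool.Agent.Lib.MP_d55432_al.Chevalley

/-!
# Characterisation of the images of homogeneous Lie polynomials up to Zariski density
-/

namespace Pool.Agent.Lib.MP_d55432_al

open LieAlgebra Module

variable {K : Type*} [Field K] {L : Type*} [LieRing L] [LieAlgebra K L]

theorem boolComb_lieImage [IsAlgClosed K] [FiniteDimensional K L] {m : ℕ}
    (p : FreeLieAlgebra K (Fin m)) : BoolComb (PolyOn K L : Set (L → K)) (lieImage L p) := by
  let e := Module.finBasis K L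
  have hF : ∀ k, ∃ Q : MvPolynomial (Fin m × Fin (finrank K L)) K, ∀ v,
      e.equivFun (FreeLieAlgebra.lift K ((TE e m).symm v) p) k = MvPolynomial.eval v Q := fun k =>
    (DetTrick.mem_polyAlg _).1 (polys_of_isPolyMap e (isPolyMap_lift p) (e.coord k))
  choose Q hQ using hF
  have h := (boolComb_range Q).preimage (B := (PolyOn K L : Set (L → K))) e.equivFun (by
    rintro g ⟨P, hP⟩
    have h1 := eval_mem_polyOn e P
    have h2 : (fun y : L => g (e.equivFun y)) = fun y => MvPolynomial.eval (e.equivFun y) P := by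
      funext y
      rw [hP]
    rw [h2]
    exact h1)
  have hset : e.equivFun ⁻¹' (Set.range fun (x : Fin m × Fin (finrank K L) → K)
      (j : Fin (finrank K L)) => MvPolynomial.eval x (Q j)) = lieImage L p := by
    ext y
    constructor
    · rintro ⟨v, hv⟩
      refine ⟨(TE e m).symm v, ?_⟩
      apply e.equivFun.injective
      funext k
      simp only
      rw [hQ]
      exact congrFun hv k
    · rintro ⟨a, rfl⟩
      refine ⟨TE e m a, ?_⟩
      funext k
      simp only
      rw [← hQ, LinearEquiv.symm_apply_apply]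
  rwa [hset] at h

theorem smul_mem_lieImage [IsAlgClosed K] {σ : Type*} {d : ℕ} {p : FreeLieAlgebra K σ}
    (hp : IsHomogeneousLie d p) (t : K) (x : L) (hx : x ∈ lieImage L p) :
    t • x ∈ lieImage L p := by
  obtain ⟨a, rfl⟩ := hx
  rcases Nat.eq_zero_or_pos d with hd | hd
  · subst hd
    have hp0 := hp.eq_zero
    subst hp0
    exact ⟨a, by simp only [map_zero, smul_zero]⟩
  · obtain ⟨s, hs⟩ := exists_root hd t
    exact ⟨s • a, by simp only; rw [hp.lift_smul, hs]⟩

theorem aut_mem_lieImage {σ : Type*} {p : FreeLieAlgebra K σ} (φ : L ≃ₗ⁅K⁆ L) (x : L)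
    (hx : x ∈ lieImage L p) : φ x ∈ lieImage L p := by
  obtain ⟨a, rfl⟩ := hx
  exact ⟨fun i => φ (a i), isAutEquivariant_lift p φ a⟩

/-- The images of homogeneous Lie polynomials on a simple Lie algebra: constructible cones stable
under all automorphisms which are Zariski dense in the image of some homogeneous Lie polynomial. -/
theorem images_iff [IsAlgClosed K] [CharZero K] [FiniteDimensional K L]
    [LieAlgebra.IsSimple K L] (S : Set L) :
    (∃ (m d : ℕ) (p : FreeLieAlgebra K (Fin m)), IsHomogeneousLie d p ∧ S = lieImage L p) ↔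
      ((0 : L) ∈ S ∧ (∀ (t : K), ∀ x ∈ S, t • x ∈ S) ∧ (∀ φ : L ≃ₗ⁅K⁆ L, ∀ x ∈ S, φ x ∈ S) ∧
        BoolComb (PolyOn K L : Set (L → K)) S ∧
        ∃ (m d : ℕ) (p : FreeLieAlgebra K (Fin m)), IsHomogeneousLie d p ∧ S ⊆ lieImage L p ∧
          ∀ g ∈ PolyOn K L, (∀ y ∈ S, g y = 0) → ∀ y ∈ lieImage L p, g y = 0) := by
  constructor
  · rintro ⟨m, d, p, hp, rfl⟩
    exact ⟨⟨0, lift_zero p⟩, smul_mem_lieImage hp, aut_mem_lieImage, boolComb_lieImage p,
      m, d, p, hp, subset_rfl, fun g _ h => h⟩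
  · rintro ⟨h0, h1, h2, h3, m, d, p, hp, h4, h5⟩
    exact exists_of_dense p hp S h0 h1 h2 h3 h4 h5

/-- The Zariski dense images of homogeneous Lie polynomials on a simple Lie algebra are exactly the
Zariski dense constructible cones stable under all automorphisms. -/
theorem dense_images_iff [IsAlgClosed K] [CharZero K] [FiniteDimensional K L]
    [LieAlgebra.IsSimple K L] (S : Set L)
    (hS : ∀ g ∈ PolyOn K L, (∀ y ∈ S, g y = 0) → ∀ y, g y = 0) :
    (∃ (m d : ℕ) (p : FreeLieAlgebra K (Fin m)), IsHomogeneousLie d p ∧ S = lieImage L p) ↔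
      ((0 : L) ∈ S ∧ (∀ (t : K), ∀ x ∈ S, t • x ∈ S) ∧ (∀ φ : L ≃ₗ⁅K⁆ L, ∀ x ∈ S, φ x ∈ S) ∧
        BoolComb (PolyOn K L : Set (L → K)) S) := by
  rw [images_iff]
  constructor
  · rintro ⟨h0, h1, h2, h3, _⟩
    exact ⟨h0, h1, h2, h3⟩
  · rintro ⟨h0, h1, h2, h3⟩
    refine ⟨h0, h1, h2, h3, 1, 1, FreeLieAlgebra.of K 0, ?_, ?_, fun g hg h y _ => hS g hg h y⟩
    · exact Submodule.subset_span ⟨{0}, by simp, IsLieWord.letter 0⟩
    · intro x _
      exact ⟨fun _ => x, by simp only [FreeLieAlgebra.lift_of_apply]⟩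

end Pool.Agent.Lib.MP_d55432_al
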