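import Pool.Agent.Lib.MP_d55432_al.Zar

/-!
# Semi-invariant functions defining a stable closed set
-/

namespace Pool.Agent.Lib.MP_d55432_al.DetTrick

open MvPolynomial Module

/-- Linearly independent functions have a nonzero evaluation determinant. -/
theorem exists_points {K X : Type*} [Field K] {d : ℕ} (g : Fin d → X → K)
    (hg : LinearIndependent K g) : ∃ u : Fin d → X, (Matrix.of fun i j => g i (u j)).det ≠ 0 := by
  classical
  let v : X → (Fin d → K) := fun x i => g i x
  have htop : Submodule.span K (Set.range v) = ⊤ := by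
    by_contra hne
    obtain ⟨f, hf0, hf⟩ := Submodule.exists_dual_map_eq_bot_of_lt_top (lt_top_iff_ne_top.2 hne)
      inferInstance
    apply hf0
    have h1 : ∑ i, f (Pi.single i 1) • g i = 0 := by
      funext x
      have h2 : f (v x) = 0 := by
        have : f (v x) ∈ Submodule.map f (Submodule.span K (Set.range v)) :=
          ⟨v x, Submodule.subset_span ⟨x, rfl⟩, rfl⟩
        rw [hf] at this
        exact (Submodule.mem_bot K).1 this
      rw [Finset.sum_apply]
      conv_rhs => rw [Pi.zero_apply, ← h2, ← Finset.univ_sum_single (v x), map_sum]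
      refine Finset.sum_congr rfl fun i _ => ?_
      have : (Pi.single i (v x i) : Fin d → K) = v x i • Pi.single i 1 := by
        rw [← Pi.single_smul, smul_eq_mul, mul_one]
      rw [this, map_smul, Pi.smul_apply, smul_eq_mul, smul_eq_mul, mul_comm]
    have h3 := Fintype.linearIndependent_iff.1 hg _ h1
    apply LinearMap.pi_ext'
    intro i
    ext
    simp [h3 i]
  obtain ⟨f, hf, hspan, hli⟩ := Submodule.exists_fun_fin_finrank_span_eq K (Set.range v)
  have hcard : Module.finrank K (Submodule.span K (Set.range v)) = d := by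
    rw [htop, finrank_top, Module.finrank_fin_fun]
  choose w hw using hf
  refine ⟨fun j => w (finCongr hcard.symm j), ?_⟩
  have hM : (Matrix.of fun i j => g i (w (finCongr hcard.symm j))) =
      (Matrix.of fun j => f (finCongr hcard.symm j)).transpose := by
    ext i j
    rw [Matrix.of_apply, Matrix.transpose_apply, Matrix.of_apply, ← hw]
  rw [hM, Matrix.det_transpose]
  have hli' : LinearIndependent K (Matrix.of fun j => f (finCongr hcard.symm j)).row :=
    hli.comp _ (finCongr hcard.symm).injective
  rw [Matrix.linearIndependent_rows_iff_isUnit] at hli'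
  exact ((Matrix.isUnit_iff_isUnit_det _).1 hli').ne_zero

variable {σ K : Type*} [Field K]

/-- Polynomial functions as a subalgebra. -/
noncomputable def polyAlg (σ K : Type*) [Field K] : Subalgebra K ((σ → K) → K) :=
  (aeval (R := K) (fun (i : σ) (x : σ → K) => x i)).range

theorem aeval_coord (p : MvPolynomial σ K) (x : σ → K) :
    aeval (R := K) (fun (i : σ) (x : σ → K) => x i) p x = eval x p := by
  induction p using MvPolynomial.induction_on with
  | C a => simp
  | add p q hp hq => rw [map_add, map_add, Pi.add_apply, hp, hq]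
  | mul_X p i hp => rw [map_mul, map_mul, Pi.mul_apply, hp, aeval_X, eval_X]

theorem mem_polyAlg (f : (σ → K) → K) :
    f ∈ polyAlg σ K ↔ ∃ p : MvPolynomial σ K, ∀ x, f x = eval x p := by
  constructor
  · rintro ⟨p, rfl⟩
    exact ⟨p, aeval_coord p⟩
  · rintro ⟨p, hp⟩
    exact ⟨p, funext fun x => (aeval_coord p x).trans (hp x).symm⟩

/-- The space of affine functions. -/
def affine (σ K : Type*) [Field K] : Submodule K ((σ → K) → K) :=
  Submodule.span K (insert 1 (Set.range fun (i : σ) (x : σ → K) => x i))

theorem one_mem_affine : (1 : (σ → K) → K) ∈ affine σ K :=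
  Submodule.subset_span (Set.mem_insert _ _)

theorem affine_pow_succ (q : ℕ) : affine σ K ^ q ≤ affine σ K ^ (q + 1) := by
  intro f hf
  rw [pow_succ, ← mul_one f]
  exact Submodule.mul_mem_mul hf one_mem_affine

theorem affine_pow_mono {q r : ℕ} (h : q ≤ r) : affine σ K ^ q ≤ affine σ K ^ r := by
  induction r, h using Nat.le_induction with
  | base => exact le_rfl
  | succ r _ ih => exact ih.trans (affine_pow_succ r)

theorem exists_mem_pow (p : MvPolynomial σ K) :
    ∃ q, (fun x : σ → K => eval x p) ∈ affine σ K ^ q := by
  induction p using MvPolynomial.induction_on with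
  | C a =>
    refine ⟨0, ?_⟩
    rw [pow_zero, Submodule.mem_one]
    exact ⟨a, by funext x; simp⟩
  | add p q hp hq =>
    obtain ⟨m, hm⟩ := hp
    obtain ⟨n, hn⟩ := hq
    refine ⟨max m n, ?_⟩
    have h := (affine σ K ^ max m n).add_mem (affine_pow_mono (le_max_left m n) hm)
      (affine_pow_mono (le_max_right m n) hn)
    convert h using 1
    funext x
    simp
  | mul_X p i hp =>
    obtain ⟨m, hm⟩ := hp
    refine ⟨m + 1, ?_⟩
    rw [pow_succ]
    have hX : (fun x : σ → K => x i) ∈ affine σ K :=
      Submodule.subset_span (Set.mem_insert_of_mem _ ⟨i, rfl⟩)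
    have h := Submodule.mul_mem_mul hm hX
    have he : (fun x : σ → K => eval x (p * X i)) = (fun x => eval x p) * fun x => x i := by
      funext x
      simp
    rw [he]
    exact h

theorem affine_pow_le (q : ℕ) : affine σ K ^ q ≤ Subalgebra.toSubmodule (polyAlg σ K) := by
  induction q with
  | zero =>
    rw [pow_zero, Submodule.one_le]
    exact (polyAlg σ K).one_mem
  | succ q ih =>
    rw [pow_succ, Submodule.mul_le]
    intro f hf g hg
    refine (polyAlg σ K).mul_mem (ih hf) ?_
    have : affine σ K ≤ Subalgebra.toSubmodule (polyAlg σ K) := by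
      rw [affine, Submodule.span_le]
      rintro _ (rfl | ⟨i, rfl⟩)
      · exact (polyAlg σ K).one_mem
      · exact (mem_polyAlg _).2 ⟨X i, fun x => by simp⟩
    exact this hg

theorem affine_fg [Finite σ] : (affine σ K).FG :=
  Submodule.fg_span ((Set.finite_range _).insert _)

/-- Composition with a map as an algebra homomorphism. -/
def compHom (g : (σ → K) → (σ → K)) : ((σ → K) → K) →ₐ[K] ((σ → K) → K) where
  toFun f := fun x => f (g x)
  map_one' := rfl
  map_mul' _ _ := rfl
  map_zero' := rfl
  map_add' _ _ := rfl
  commutes' _ := rfl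

theorem affine_comp [Finite σ] (g : (σ → K) →ₗ[K] (σ → K)) (q : ℕ) (f : (σ → K) → K)
    (hf : f ∈ affine σ K ^ q) : (fun x => f (g x)) ∈ affine σ K ^ q := by
  classical
  have := Fintype.ofFinite σ
  have h1 : (affine σ K).map (compHom g).toLinearMap ≤ affine σ K := by
    rw [affine, Submodule.map_span, Submodule.span_le]
    rintro _ ⟨_, rfl | ⟨i, rfl⟩, rfl⟩
    · exact one_mem_affine
    · have h2 : (compHom g).toLinearMap (fun x : σ → K => x i) =
          ∑ j, (g (Pi.single j 1) i) • (fun x : σ → K => x j) := by
        funext x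
        change g x i = _
        conv_lhs => rw [← Finset.univ_sum_single x]
        rw [map_sum, Finset.sum_apply, Finset.sum_apply]
        refine Finset.sum_congr rfl fun j _ => ?_
        have : (Pi.single j (x j) : σ → K) = x j • Pi.single j 1 := by
          rw [← Pi.single_smul, smul_eq_mul, mul_one]
        rw [this, map_smul, Pi.smul_apply, Pi.smul_apply, smul_eq_mul, smul_eq_mul, mul_comm]
      rw [SetLike.mem_coe, h2]
      exact Submodule.sum_mem _ fun j _ => Submodule.smul_mem _ _
        (Submodule.subset_span (Set.mem_insert_of_mem _ ⟨j, rfl⟩))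
  have h3 : (affine σ K ^ q).map (compHom g).toLinearMap ≤ affine σ K ^ q := by
    rw [Submodule.map_pow]
    exact pow_le_pow_left' h1 q
  exact h3 ⟨f, hf, rfl⟩

section pol

variable {Ω τ : Type*}

/-- The algebra of polynomial functions in given coordinate functions. -/
noncomputable def Pol (c : τ → Ω → K) : Subalgebra K (Ω → K) := (aeval (R := K) c).range

theorem aeval_apply (c : τ → Ω → K) (P : MvPolynomial τ K) (x : Ω) :
    aeval (R := K) c P x = eval (fun t => c t x) P := by
  induction P using MvPolynomial.induction_on with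
  | C a => simp
  | add p q hp hq => rw [map_add, map_add, Pi.add_apply, hp, hq]
  | mul_X p i hp => rw [map_mul, map_mul, Pi.mul_apply, hp, aeval_X, eval_X]

theorem mem_Pol {c : τ → Ω → K} {f : Ω → K} :
    f ∈ Pol c ↔ ∃ P : MvPolynomial τ K, ∀ x, f x = eval (fun t => c t x) P := by
  constructor
  · rintro ⟨p, rfl⟩
    exact ⟨p, aeval_apply c p⟩
  · rintro ⟨p, hp⟩
    have h : aeval (R := K) c p = f := by funext x; rw [aeval_apply, hp]
    exact ⟨p, h⟩

theorem coord_mem (c : τ → Ω → K) (t : τ) : c t ∈ Pol c :=
  mem_Pol.2 ⟨X t, fun x => by rw [eval_X]⟩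

theorem eval_mem (B : Subalgebra K (Ω → K)) (P : MvPolynomial τ K) (u : τ → Ω → K)
    (hu : ∀ t, u t ∈ B) : (fun x => eval (fun t => u t x) P) ∈ B := by
  have : (fun x => eval (fun t => u t x) P) = aeval (R := K) u P := by
    funext x
    rw [aeval_apply]
  rw [this]
  induction P using MvPolynomial.induction_on with
  | C a => rw [aeval_C]; exact B.algebraMap_mem a
  | add p q hp hq =>
    rw [map_add]
    exact B.add_mem (hp (by funext x; rw [aeval_apply])) (hq (by funext x; rw [aeval_apply]))
  | mul_X p i hp =>
    rw [map_mul, aeval_X]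
    exact B.mul_mem (hp (by funext x; rw [aeval_apply])) (hu i)

theorem det_mem_alg (B : Subalgebra K (Ω → K)) {n : Type*} [Fintype n] [DecidableEq n]
    (M : n → n → Ω → K)
    (hM : ∀ i j, M i j ∈ B) : (fun x => (Matrix.of fun i j => M i j x).det) ∈ B := by
  have h : (fun x => (Matrix.of fun i j => M i j x).det) = ∑ π : Equiv.Perm n,
      ((Equiv.Perm.sign π : ℤˣ) : ℤ) • ∏ i, M (π i) i := by
    funext x
    rw [Matrix.det_apply, Finset.sum_apply]
    refine Finset.sum_congr rfl fun π _ => ?_
    rw [Pi.smul_apply, Finset.prod_apply, Units.smul_def]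
    rfl
  rw [h]
  exact B.sum_mem fun π _ => B.zsmul_mem (B.prod_mem fun i _ => hM _ _) _

end pol

/-- Coordinates on pairs consisting of a tuple of vectors and a vector. -/
def c2 (ι σ K : Type*) : (ι × σ) ⊕ σ → (ι → σ → K) × (σ → K) → K :=
  Sum.elim (fun q a => a.1 q.1 q.2) (fun k a => a.2 k)

theorem eval_smul_homogeneous {p : MvPolynomial σ K} {r : ℕ} (hp : p.IsHomogeneous r) (t : K)
    (x : σ → K) : eval (t • x) p = t ^ r * eval x p := by
  classical
  rw [eval_eq, eval_eq, Finset.mul_sum]
  refine Finset.sum_congr rfl fun d hd => ?_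
  have h1 : ∏ i ∈ d.support, (t • x) i ^ d i = t ^ r * ∏ i ∈ d.support, x i ^ d i := by
    simp only [Pi.smul_apply, smul_eq_mul, mul_pow]
    rw [Finset.prod_mul_distrib, Finset.prod_pow_eq_pow_sum]
    have h2 := hp (mem_support_iff.1 hd)
    have h3 : ∑ i ∈ d.support, d i = r := by
      rw [← h2, Finsupp.weight_apply, Finsupp.sum]
      simp
    rw [h3]
  rw [h1]
  ring

/-- A point outside the closure of a cone is separated from it by a homogeneous polynomial. -/
theorem exists_homogeneous_sep [Infinite K] (A : Set (σ → K))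
    (hA : ∀ t : K, t ≠ 0 → ∀ x ∈ A, t • x ∈ A) (z : σ → K) (P : MvPolynomial σ K)
    (hP : ∀ x ∈ A, eval x P = 0) (hz : eval z P ≠ 0) :
    ∃ (r : ℕ) (p : MvPolynomial σ K), p.IsHomogeneous r ∧ (∀ x ∈ A, eval x p = 0) ∧
      eval z p ≠ 0 := by
  classical
  by_contra hcon
  push Not at hcon
  apply hz
  conv_lhs => rw [← sum_homogeneousComponent P]
  rw [map_sum]
  apply Finset.sum_eq_zero
  intro r _
  apply hcon r _ (homogeneousComponent_isHomogeneous r P)
  intro x hx
  -- the polynomial in `t`
  let Q : Polynomial K := ∑ i ∈ Finset.range (P.totalDegree + 1),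
    Polynomial.monomial i (eval x (homogeneousComponent i P))
  have hQ : ∀ t : K, Polynomial.eval t Q = eval (t • x) P := by
    intro t
    conv_rhs => rw [← sum_homogeneousComponent P]
    rw [map_sum, Polynomial.eval_finset_sum]
    refine Finset.sum_congr rfl fun i _ => ?_
    rw [Polynomial.eval_monomial,
      eval_smul_homogeneous (homogeneousComponent_isHomogeneous i P), mul_comm]
  have hQ0 : Q = 0 := by
    have h3 : Polynomial.X * Q = 0 := by
      apply Polynomial.funext
      intro t
      rw [Polynomial.eval_mul, Polynomial.eval_X, Polynomial.eval_zero]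
      by_cases ht : t = 0
      · rw [ht, zero_mul]
      · rw [hQ, hP _ (hA t ht x hx), mul_zero]
    rcases mul_eq_zero.1 h3 with h | h
    · exact absurd h Polynomial.X_ne_zero
    · exact h
  by_cases hr : r < P.totalDegree + 1
  · have h1 := congrArg (fun q => Polynomial.coeff q r) hQ0
    simp only [Q, Polynomial.finset_sum_coeff, Polynomial.coeff_monomial,
      Polynomial.coeff_zero] at h1
    rw [Finset.sum_ite_eq' (Finset.range (P.totalDegree + 1)) r, if_pos (Finset.mem_range.2 hr)]
      at h1
    exact h1
  · rw [homogeneousComponent_eq_zero r P (by omega), map_zero]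

/-- Existence of a semi-invariant family of functions defining a stable closed set which contains a
given stable set and avoids points where a given polynomial does not vanish. -/
theorem det_trick [Finite σ] (G : Subgroup ((σ → K) ≃ₗ[K] (σ → K))) (A : Set (σ → K))
    (hA : ∀ g ∈ G, ∀ x ∈ A, g x ∈ A) (r : ℕ) (p : MvPolynomial σ K) (hph : p.IsHomogeneous r)
    (hp : ∀ x ∈ A, eval x p = 0) :
    ∃ (d : ℕ) (F : (Fin d → σ → K) × (σ → K) → K), F ∈ Pol (c2 (Fin d) σ K) ∧
      (∀ z ∈ A, ∀ u, F (u, z) = 0) ∧ (∀ z, eval z p ≠ 0 → ∃ u, F (u, z) ≠ 0) ∧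
      (∀ g ∈ G, ∃ c : K, c ≠ 0 ∧ ∀ u z, F (fun i => g (u i), g z) = c * F (u, z)) ∧
      (∀ u z (t : K), F (u, t • z) = t ^ r * F (u, z)) := by
  classical
  obtain ⟨q, hq⟩ := exists_mem_pow p
  let N : Submodule K ((σ → K) → K) :=
    { carrier := {f | (∀ a ∈ A, f a = 0) ∧ ∀ (t : K) (x : σ → K), f (t • x) = t ^ r * f x}
      add_mem' := fun {f g} hf hg => ⟨fun a ha => by
        rw [Pi.add_apply, hf.1 a ha, hg.1 a ha, add_zero], fun t x => by
        rw [Pi.add_apply, hf.2, hg.2, Pi.add_apply, mul_add]⟩
      zero_mem' := ⟨fun a _ => rfl, fun t x => by simp⟩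
      smul_mem' := fun c f hf => ⟨fun a ha => by rw [Pi.smul_apply, hf.1 a ha, smul_zero],
        fun t x => by rw [Pi.smul_apply, hf.2, Pi.smul_apply, smul_eq_mul, smul_eq_mul]; ring⟩ }
  let W : Submodule K ((σ → K) → K) := affine σ K ^ q ⊓ N
  have hfg : (affine σ K ^ q).FG := Submodule.FG.pow affine_fg q
  have : FiniteDimensional K (affine σ K ^ q : Submodule K ((σ → K) → K)) :=
    Module.Finite.iff_fg.2 hfg
  have : FiniteDimensional K W := Submodule.finiteDimensional_of_le inf_le_left
  let b := Module.finBasis K W
  have hpW : (fun x : σ → K => eval x p) ∈ W :=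
    ⟨hq, hp, fun t x => eval_smul_homogeneous hph t x⟩
  rcases Nat.eq_zero_or_pos (Module.finrank K W) with h0 | hpos
  · -- the zero case
    refine ⟨0, fun _ => 0, (Pol _).zero_mem, fun _ _ _ => rfl, ?_, fun g _ => ⟨1, one_ne_zero,
      fun _ _ => by rw [mul_zero]⟩, fun _ _ _ => by rw [mul_zero]⟩
    intro z hz
    exfalso
    have hbot : W = ⊥ := Submodule.finrank_eq_zero.1 h0
    rw [hbot, Submodule.mem_bot] at hpW
    exact hz (congrFun hpW z)
  · obtain ⟨n, hn⟩ : ∃ n, Module.finrank K W = n + 1 := ⟨_, (Nat.succ_pred_eq_of_pos hpos).symm⟩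
    let b' : Basis (Fin (n + 1)) K W := b.reindex (finCongr hn)
    have hb'A : ∀ i, ∀ a ∈ A, (b' i : (σ → K) → K) a = 0 := fun i => (b' i).2.2.1
    have hb'r : ∀ i (t : K) (x : σ → K), (b' i : (σ → K) → K) (t • x) =
        t ^ r * (b' i : (σ → K) → K) x := fun i => (b' i).2.2.2
    have hb'P : ∀ i, ∃ P : MvPolynomial σ K, ∀ x, (b' i : (σ → K) → K) x = eval x P := fun i =>
      (mem_polyAlg _).1 (affine_pow_le q (b' i).2.1)
    choose P hP using hb'P
    refine ⟨n + 1, fun a : (Fin (n + 1) → σ → K) × (σ → K) => (Matrix.of fun i j : Fin (n + 1) =>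
      (b' i : (σ → K) → K) (Function.update a.1 0 a.2 j)).det, ?_, ?_, ?_, ?_, ?_⟩
    · refine det_mem_alg _ (fun i j (a : (Fin (n + 1) → σ → K) × (σ → K)) =>
        (b' i : (σ → K) → K) (Function.update a.1 0 a.2 j)) ?_
      intro i j
      simp only [hP]
      refine eval_mem _ (P i) (fun t (a : (Fin (n + 1) → σ → K) × (σ → K)) =>
        Function.update a.1 0 a.2 j t) ?_
      intro t
      by_cases h : j = 0
      · subst h
        simp only [Function.update_self]
        exact coord_mem (c2 (Fin (n + 1)) σ K) (Sum.inr t)
      · simp only [Function.update_of_ne h]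
        exact coord_mem (c2 (Fin (n + 1)) σ K) (Sum.inl (j, t))
    · intro z hz u
      apply Matrix.det_eq_zero_of_column_eq_zero 0
      intro i
      rw [Matrix.of_apply, Function.update_self]
      exact hb'A i z hz
    · intro z hz
      have hli : LinearIndependent K fun i => (b' i : (σ → K) → K) :=
        b'.linearIndependent.map' W.subtype (Submodule.ker_subtype W)
      obtain ⟨u₀, hu₀⟩ := exists_points (fun i => (b' i : (σ → K) → K)) hli
      let M : Matrix (Fin (n + 1)) (Fin (n + 1)) K :=
        Matrix.of fun i j => (b' i : (σ → K) → K) (u₀ j)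
      let v : Fin (n + 1) → K := fun i => (b' i : (σ → K) → K) z
      have hv : v ≠ 0 := by
        intro hv0
        apply hz
        have h1 := b'.sum_repr ⟨_, hpW⟩
        have h2 : ∑ i, b'.repr ⟨_, hpW⟩ i • (b' i : (σ → K) → K) =
            fun x : σ → K => eval x p := by
          have := congrArg (W.subtype) h1
          rw [map_sum] at this
          simpa using this
        have h3 := congrFun h2 z
        rw [Finset.sum_apply] at h3
        rw [← h3]
        apply Finset.sum_eq_zero
        intro i _
        rw [Pi.smul_apply]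
        have : (b' i : (σ → K) → K) z = 0 := congrFun hv0 i
        rw [this, smul_zero]
      obtain ⟨j, hj⟩ : ∃ j, (M.updateCol j v).det ≠ 0 := by
        by_contra hcon
        push Not at hcon
        have h1 : M.cramer v = 0 := by
          funext j
          rw [Matrix.cramer_apply]
          exact hcon j
        have h2 := Matrix.mulVec_cramer M v
        rw [h1, Matrix.mulVec_zero] at h2
        rcases smul_eq_zero.1 h2.symm with h | h
        · exact hu₀ h
        · exact hv h
      refine ⟨fun k => u₀ (Equiv.swap 0 j k), ?_⟩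
      have hM : (Matrix.of fun i k : Fin (n + 1) => (b' i : (σ → K) → K)
          (Function.update (fun k => u₀ (Equiv.swap 0 j k)) 0 z k)) =
          (M.updateCol j v).submatrix id (Equiv.swap 0 j) := by
        ext i k
        rw [Matrix.of_apply, Matrix.submatrix_apply, id]
        by_cases hk : k = 0
        · subst hk
          rw [Function.update_self, Equiv.swap_apply_left, Matrix.updateCol_self]
        · rw [Function.update_of_ne hk, Matrix.updateCol_ne]
          · rfl
          · intro h
            apply hk
            have := (Equiv.swap 0 j).injective (h.trans (Equiv.swap_apply_left 0 j).symm)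
            exact this
      simp only
      rw [hM, Matrix.det_permute']
      refine mul_ne_zero ?_ hj
      rcases Int.units_eq_one_or (Equiv.Perm.sign (Equiv.swap 0 j)) with h | h <;> rw [h] <;> simp
    · intro g hg
      have hstab : ∀ g ∈ G, ∀ f ∈ W, (fun x => f (g x)) ∈ W := fun g hg f hf =>
        ⟨affine_comp (g : (σ → K) →ₗ[K] (σ → K)) q f hf.1, fun a ha => hf.2.1 _ (hA g hg a ha),
          fun t x => by
            change f (g (t • x)) = _
            rw [map_smul, hf.2.2]⟩
      let T : W →ₗ[K] W :=
        { toFun := fun f => ⟨fun x => (f : (σ → K) → K) (g x), hstab g hg _ f.2⟩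
          map_add' := fun _ _ => rfl
          map_smul' := fun _ _ => rfl }
      let T' : W →ₗ[K] W :=
        { toFun := fun f => ⟨fun x => (f : (σ → K) → K) (g.symm x),
            hstab g⁻¹ (G.inv_mem hg) _ f.2⟩
          map_add' := fun _ _ => rfl
          map_smul' := fun _ _ => rfl }
      have hTT : T * T' = 1 := by
        ext f : 1
        apply Subtype.ext
        funext x
        change (f : (σ → K) → K) (g.symm (g x)) = _
        rw [LinearEquiv.symm_apply_apply]
        rfl
      have hdet : LinearMap.det T ≠ 0 := by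
        intro h0
        have := congrArg LinearMap.det hTT
        rw [map_mul, h0, zero_mul, map_one] at this
        exact zero_ne_one this
      refine ⟨LinearMap.det T, hdet, ?_⟩
      intro u z
      have hM : (Matrix.of fun i j : Fin (n + 1) => (b' i : (σ → K) → K)
          (Function.update (fun i => g (u i)) 0 (g z) j)) =
          (LinearMap.toMatrix b' b' T).transpose * (Matrix.of fun i j : Fin (n + 1) =>
            (b' i : (σ → K) → K) (Function.update u 0 z j)) := by
        ext i j
        rw [Matrix.of_apply, Matrix.mul_apply]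
        have h1 : Function.update (fun i => g (u i)) 0 (g z) j = g (Function.update u 0 z j) := by
          by_cases h : j = 0
          · subst h; simp
          · simp [h]
        have h2 : T (b' i) = ∑ k, LinearMap.toMatrix b' b' T k i • b' k := by
          conv_lhs => rw [← b'.sum_repr (T (b' i))]
          refine Finset.sum_congr rfl fun k _ => ?_
          rw [LinearMap.toMatrix_apply]
        have h3 := congrArg (fun f : W => (f : (σ → K) → K) (Function.update u 0 z j)) h2
        change (b' i : (σ → K) → K) (g (Function.update u 0 z j)) = _ at h3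
        rw [h1, h3]
        have h4 : ∀ (s : Finset (Fin (n + 1))) (φ : Fin (n + 1) → W) (y : σ → K),
            ((∑ k ∈ s, φ k : W) : (σ → K) → K) y = ∑ k ∈ s, (φ k : (σ → K) → K) y := by
          intro s φ y
          rw [Submodule.coe_sum, Finset.sum_apply]
        rw [h4]
        refine Finset.sum_congr rfl fun k _ => ?_
        rw [Matrix.transpose_apply, Matrix.of_apply]
        rfl
      beta_reduce
      rw [hM, Matrix.det_mul, Matrix.det_transpose, LinearMap.det_toMatrix]
    · intro u z t
      beta_reduce
      have hM : (Matrix.of fun i j : Fin (n + 1) => (b' i : (σ → K) → K)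
          (Function.update u 0 (t • z) j)) = Matrix.updateCol (Matrix.of fun i j : Fin (n + 1) =>
            (b' i : (σ → K) → K) (Function.update u 0 z j)) 0
            (t ^ r • fun i => (b' i : (σ → K) → K) z) := by
        ext i j
        by_cases h : j = 0
        · subst h
          rw [Matrix.updateCol_self, Matrix.of_apply, Function.update_self, hb'r]
          rfl
        · rw [Matrix.updateCol_ne h, Matrix.of_apply, Matrix.of_apply, Function.update_of_ne h,
            Function.update_of_ne h]
      rw [hM, Matrix.det_updateCol_smul]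
      congr 2
      ext i j
      by_cases h : j = 0
      · subst h
        rw [Matrix.updateCol_self, Matrix.of_apply, Function.update_self]
      · rw [Matrix.updateCol_ne h]

end Pool.Agent.Lib.MP_d55432_al.DetTrick
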