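import Mathlib

/-!
# Rational functions constant on the fibres of a rational map

Over an algebraically closed field of characteristic zero, a rational function which is constant
on the fibres of a rational map is a rational function of the components of that map.
-/

namespace Pool.Agent.Lib.MP_d55432_al.FieldGen

open MvPolynomial TensorProduct

universe u v w

/-- In characteristic zero an element `r` outside the base field `F` gives a non-nilpotent
element `r ⊗ 1 - 1 ⊗ r`. -/
theorem exists_algHom_ne {F E : Type u} [Field F] [Field E] [Algebra F E] [CharZero F]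
    (r : E) (hr : r ∉ (⊥ : IntermediateField F E)) :
    ∃ σ : Algebra.adjoin F {r} →ₐ[F] AlgebraicClosure E,
      σ ⟨r, Algebra.self_mem_adjoin_singleton F r⟩ ≠ algebraMap E (AlgebraicClosure E) r := by
  by_cases h : IsIntegral F r
  · have hsep : (minpoly F r).Separable := (minpoly.irreducible h).separable
    have hspl : ((minpoly F r).map (algebraMap F (AlgebraicClosure E))).Splits :=
      IsAlgClosed.splits _
    have hdeg : 2 ≤ (minpoly F r).natDegree := by
      by_contra hlt
      push Not at hlt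
      have h1 : 0 < (minpoly F r).natDegree := minpoly.natDegree_pos h
      have h2 : (minpoly F r).natDegree = 1 := by omega
      apply hr
      rw [IntermediateField.mem_bot]
      exact minpoly.mem_range_of_degree_eq_one F r (by
        rw [Polynomial.degree_eq_natDegree (minpoly.ne_zero h), h2]; rfl)
    have hcard : Fintype.card ((minpoly F r).rootSet (AlgebraicClosure E)) =
        (minpoly F r).natDegree := Polynomial.card_rootSet_eq_natDegree hsep hspl
    have hex : ∃ y ∈ (minpoly F r).rootSet (AlgebraicClosure E),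
        y ≠ algebraMap E (AlgebraicClosure E) r := by
      by_contra hcon
      push Not at hcon
      have : Fintype.card ((minpoly F r).rootSet (AlgebraicClosure E)) ≤ 1 := by
        rw [Fintype.card_le_one_iff_subsingleton]
        exact ⟨fun a b => Subtype.ext ((hcon a a.2).trans (hcon b b.2).symm)⟩
      omega
    obtain ⟨y, hy, hne⟩ := hex
    rw [Polynomial.mem_rootSet] at hy
    refine ⟨Algebra.adjoin.liftSingleton F r y hy.2, ?_⟩
    convert hne
    have hgen : (AlgEquiv.adjoinSingletonEquivAdjoinRootMinpoly F r)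
        ⟨r, Algebra.self_mem_adjoin_singleton F r⟩ = AdjoinRoot.root (minpoly F r) := by
      apply (AlgEquiv.adjoinSingletonEquivAdjoinRootMinpoly F r).symm.injective
      rw [AlgEquiv.symm_apply_apply, AlgEquiv.coe_adjoinSingletonEquivAdjoinRootMinpoly_symm]
      simp
    simp only [Algebra.adjoin.liftSingleton, AlgHom.comp_apply]
    change AdjoinRoot.liftAlgHom _ _ _ _ ((AlgEquiv.adjoinSingletonEquivAdjoinRootMinpoly F r)
        ⟨r, Algebra.self_mem_adjoin_singleton F r⟩) = y
    rw [hgen]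
    exact AdjoinRoot.lift_root (by exact hy.2)
  · have htr : Transcendental F r := fun halg => h halg.isIntegral
    refine ⟨((Polynomial.aeval (0 : AlgebraicClosure E)) : Polynomial F →ₐ[F] _).comp
      (Polynomial.algEquivOfTranscendental F r htr).symm.toAlgHom, ?_⟩
    rw [AlgHom.comp_apply]
    change Polynomial.aeval 0 ((Polynomial.algEquivOfTranscendental F r htr).symm
      ⟨r, Algebra.self_mem_adjoin_singleton F r⟩) ≠ _
    rw [Polynomial.algEquivOfTranscendental_symm_gen]
    simp only [Polynomial.aeval_X]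
    intro h0
    have h1 : r = 0 := by
      have := h0.symm
      simpa using this
    apply h
    rw [h1]
    exact isIntegral_zero

theorem not_isNilpotent {F E : Type u} [Field F] [Field E] [Algebra F E] [CharZero F]
    (r : E) (hr : r ∉ (⊥ : IntermediateField F E)) :
    ¬ IsNilpotent ((r ⊗ₜ[F] (1 : E)) - ((1 : E) ⊗ₜ[F] r)) := by
  obtain ⟨σ, hσ⟩ := exists_algHom_ne r hr
  intro hnil
  let A := Algebra.adjoin F {r}
  let g : A := ⟨r, Algebra.self_mem_adjoin_singleton F r⟩
  let m : A ⊗[F] A →ₐ[F] E ⊗[F] E := Algebra.TensorProduct.map A.val A.val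
  have hinj : Function.Injective m := by
    have h1 : Function.Injective (A.val.toLinearMap) := Subtype.val_injective
    exact TensorProduct.map_injective_of_flat_flat _ _ h1 h1
  have hm : m (g ⊗ₜ 1 - 1 ⊗ₜ g) = (r ⊗ₜ[F] (1 : E)) - ((1 : E) ⊗ₜ[F] r) := by
    simp [m, g]
  rw [← hm] at hnil
  obtain ⟨k, hk⟩ := hnil
  have hk' : (g ⊗ₜ[F] (1 : A) - (1 : A) ⊗ₜ[F] g) ^ k = 0 := by
    apply hinj
    rw [map_pow, hk, map_zero]
  let ι : A →ₐ[F] AlgebraicClosure E :=
    ((IsScalarTower.toAlgHom F E (AlgebraicClosure E)).comp A.val)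
  let pm : A ⊗[F] A →ₐ[F] AlgebraicClosure E := Algebra.TensorProduct.productMap ι σ
  have h2 : pm (g ⊗ₜ[F] (1 : A) - (1 : A) ⊗ₜ[F] g) ^ k = 0 := by
    rw [← map_pow, hk', map_zero]
  have h3 : pm (g ⊗ₜ[F] (1 : A) - (1 : A) ⊗ₜ[F] g) = 0 := by
    exact eq_zero_of_pow_eq_zero h2
  apply hσ
  have h4 : pm (g ⊗ₜ[F] (1 : A) - (1 : A) ⊗ₜ[F] g) = algebraMap E (AlgebraicClosure E) r - σ g := by
    simp [pm, ι, g]
  rw [h4] at h3
  exact (sub_eq_zero.1 h3).symm

/-- For `r` outside the base field (characteristic zero) there are two homomorphisms to a field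
which agree on the base field and differ at `r`. -/
theorem exists_two_homs {F E : Type u} [Field F] [Field E] [Algebra F E] [CharZero F]
    (r : E) (hr : r ∉ (⊥ : IntermediateField F E)) :
    ∃ (Ω : Type u) (_ : Field Ω) (φ₁ φ₂ : E →+* Ω),
      (∀ x : F, φ₁ (algebraMap F E x) = φ₂ (algebraMap F E x)) ∧ φ₁ r ≠ φ₂ r := by
  have hnil := not_isNilpotent r hr
  rw [nilpotent_iff_mem_prime] at hnil
  push Not at hnil
  obtain ⟨J, hJ, hrJ⟩ := hnil
  have : IsDomain ((E ⊗[F] E) ⧸ J) := Ideal.Quotient.isDomain J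
  refine ⟨FractionRing ((E ⊗[F] E) ⧸ J), inferInstance,
    ((algebraMap ((E ⊗[F] E) ⧸ J) (FractionRing ((E ⊗[F] E) ⧸ J))).comp
      (Ideal.Quotient.mk J)).comp
      (Algebra.TensorProduct.includeLeft : E →ₐ[F] E ⊗[F] E).toRingHom,
    ((algebraMap ((E ⊗[F] E) ⧸ J) (FractionRing ((E ⊗[F] E) ⧸ J))).comp
      (Ideal.Quotient.mk J)).comp
      (Algebra.TensorProduct.includeRight : E →ₐ[F] E ⊗[F] E).toRingHom, ?_, ?_⟩
  · intro x
    have h1 : (Algebra.TensorProduct.includeLeft : E →ₐ[F] E ⊗[F] E) (algebraMap F E x)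
      = (Algebra.TensorProduct.includeRight : E →ₐ[F] E ⊗[F] E) (algebraMap F E x) := by
      rw [AlgHom.commutes, AlgHom.commutes]
    exact congrArg ((algebraMap ((E ⊗[F] E) ⧸ J) (FractionRing ((E ⊗[F] E) ⧸ J))).comp
      (Ideal.Quotient.mk J)) h1
  · intro h
    apply hrJ
    have h1 : (algebraMap ((E ⊗[F] E) ⧸ J) (FractionRing ((E ⊗[F] E) ⧸ J)))
        ((Ideal.Quotient.mk J) (r ⊗ₜ[F] (1 : E))) =
        (algebraMap ((E ⊗[F] E) ⧸ J) (FractionRing ((E ⊗[F] E) ⧸ J)))
        ((Ideal.Quotient.mk J) ((1 : E) ⊗ₜ[F] r)) := h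
    have h2 := IsFractionRing.injective ((E ⊗[F] E) ⧸ J) (FractionRing ((E ⊗[F] E) ⧸ J)) h1
    exact Ideal.Quotient.eq.1 h2

/-- Two points in a common fibre which are separated by `r`. -/
theorem exists_points {K : Type u} [Field K] [IsAlgClosed K] [CharZero K] {σ : Type v}
    {α : Type w}
    [Finite σ] (N : α → MvPolynomial σ K) (Δ R : MvPolynomial σ K) (hΔ : Δ ≠ 0)
    (hR : algebraMap (MvPolynomial σ K) (FractionRing (MvPolynomial σ K)) R /
        algebraMap (MvPolynomial σ K) (FractionRing (MvPolynomial σ K)) Δ ∉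
      IntermediateField.adjoin K (Set.range fun i =>
        algebraMap (MvPolynomial σ K) (FractionRing (MvPolynomial σ K)) (N i) /
        algebraMap (MvPolynomial σ K) (FractionRing (MvPolynomial σ K)) Δ)) :
    ∃ v v' : σ → K, eval v Δ ≠ 0 ∧ eval v' Δ ≠ 0 ∧
      (∀ i, eval v (N i) / eval v Δ = eval v' (N i) / eval v' Δ) ∧
      eval v R / eval v Δ ≠ eval v' R / eval v' Δ := by
  classical
  let B := MvPolynomial σ K
  let E := FractionRing B
  let a : B →ₐ[K] E := IsScalarTower.toAlgHom K B E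
  have ha : Function.Injective a := IsFractionRing.injective B E
  let F : IntermediateField K E := IntermediateField.adjoin K (Set.range fun i => a (N i) / a Δ)
  let r : E := a R / a Δ
  have hrF : r ∉ F := hR
  have hr' : r ∉ (⊥ : IntermediateField F E) := by
    rw [IntermediateField.mem_bot]
    rintro ⟨x, hx⟩
    apply hrF
    rw [← hx]
    exact x.2
  obtain ⟨Ω, _, φ₁, φ₂, hagree', hne⟩ := exists_two_homs r hr'
  have hagree : ∀ x ∈ F, φ₁ x = φ₂ x := fun x hx => hagree' ⟨x, hx⟩
  let Φ : MvPolynomial (σ ⊕ σ) K →+* Ω :=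
    MvPolynomial.eval₂Hom (φ₁.comp (algebraMap K E))
      (Sum.elim (fun i => φ₁ (a (X i))) (fun i => φ₂ (a (X i))))
  have hΦ1 : ∀ p : B, Φ (rename Sum.inl p) = φ₁ (a p) := by
    intro p
    simp only [Φ, coe_eval₂Hom, eval₂_rename]
    change eval₂ _ (fun i => φ₁ (a (X i))) p = _
    have : (φ₁.comp a.toRingHom) = eval₂Hom (φ₁.comp (algebraMap K E)) (fun i => φ₁ (a (X i))) := by
      apply MvPolynomial.ringHom_ext
      · intro c
        simp only [eval₂Hom_C, RingHom.comp_apply]
        congr 1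
      · intro i
        simp only [eval₂Hom_X', RingHom.comp_apply]
        rfl
    exact (congrArg (fun g => g p) (congrArg DFunLike.coe this)).symm
  have hΦ2 : ∀ p : B, Φ (rename Sum.inr p) = φ₂ (a p) := by
    intro p
    simp only [Φ, coe_eval₂Hom, eval₂_rename]
    change eval₂ _ (fun i => φ₂ (a (X i))) p = _
    have : (φ₂.comp a.toRingHom) = eval₂Hom (φ₁.comp (algebraMap K E)) (fun i => φ₂ (a (X i))) := by
      apply MvPolynomial.ringHom_ext
      · intro c
        simp only [eval₂Hom_C, RingHom.comp_apply]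
        rw [hagree _ (IntermediateField.algebraMap_mem F c)]
        congr 1
      · intro i
        simp only [eval₂Hom_X', RingHom.comp_apply]
        rfl
    exact (congrArg (fun g => g p) (congrArg DFunLike.coe this)).symm
  let P : Ideal (MvPolynomial (σ ⊕ σ) K) := RingHom.ker Φ
  have : P.IsPrime := RingHom.ker_isPrime Φ
  let H : MvPolynomial (σ ⊕ σ) K := rename Sum.inl Δ * rename Sum.inr Δ *
    (rename Sum.inl R * rename Sum.inr Δ - rename Sum.inr R * rename Sum.inl Δ)
  have haΔ : a Δ ≠ 0 := fun h => hΔ (ha (by rw [h, map_zero]))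
  have h1Δ : φ₁ (a Δ) ≠ 0 := fun h => haΔ (φ₁.injective (by rw [h, map_zero]))
  have h2Δ : φ₂ (a Δ) ≠ 0 := fun h => haΔ (φ₂.injective (by rw [h, map_zero]))
  have hH : H ∉ P := by
    rw [RingHom.mem_ker]
    simp only [H, map_mul, map_sub, hΦ1, hΦ2]
    refine mul_ne_zero (mul_ne_zero h1Δ h2Δ) ?_
    intro h
    apply hne
    simp only [r, map_div₀]
    rw [div_eq_div_iff h1Δ h2Δ]
    exact sub_eq_zero.1 h
  have hH' : H ∉ vanishingIdeal K (zeroLocus K P) := by
    rw [IsPrime.vanishingIdeal_zeroLocus]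
    exact hH
  rw [mem_vanishingIdeal_iff] at hH'
  push Not at hH'
  obtain ⟨w, hw, hHw⟩ := hH'
  have hHw' : eval w H ≠ 0 := by
    simpa [MvPolynomial.aeval_eq_eval] using hHw
  simp only [H, map_mul, map_sub, eval_rename] at hHw'
  have hA := (mul_ne_zero_iff.1 (mul_ne_zero_iff.1 hHw').1).1
  have hB := (mul_ne_zero_iff.1 (mul_ne_zero_iff.1 hHw').1).2
  have hC := (mul_ne_zero_iff.1 hHw').2
  refine ⟨w ∘ Sum.inl, w ∘ Sum.inr, hA, hB, ?_, ?_⟩
  · intro i
    have hmem : rename Sum.inl (N i) * rename Sum.inr Δ - rename Sum.inr (N i) * rename Sum.inl Δ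
        ∈ P := by
      rw [RingHom.mem_ker]
      simp only [map_mul, map_sub, hΦ1, hΦ2]
      have := hagree (a (N i) / a Δ) (IntermediateField.subset_adjoin K _ ⟨i, rfl⟩)
      rw [map_div₀, map_div₀, div_eq_div_iff h1Δ h2Δ] at this
      rw [this, sub_self]
    have := (mem_zeroLocus_iff.1 hw) _ hmem
    rw [MvPolynomial.aeval_eq_eval, map_sub, map_mul, map_mul] at this
    simp only [eval_rename] at this
    rw [div_eq_div_iff hA hB]
    exact sub_eq_zero.1 this
  · rw [ne_eq, div_eq_div_iff hA hB]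
    intro h
    exact hC (sub_eq_zero.2 h)

theorem exists_homogenize {K : Type u} [Field K] {σ : Type v} {α : Type w}
    (N : α → MvPolynomial σ K) (Δ : MvPolynomial σ K) (Q : MvPolynomial α K) :
    ∃ (D : ℕ) (Q' : MvPolynomial σ K),
      (∀ (A : Type (max u v)) [Field A] [Algebra K A] (g : MvPolynomial σ K →ₐ[K] A), g Δ ≠ 0 →
        g Q' = g Δ ^ D * aeval (fun i => g (N i) / g Δ) Q) ∧
      (∀ (v : σ → K), eval v Δ ≠ 0 →
        eval v Q' = eval v Δ ^ D * eval (fun i => eval v (N i) / eval v Δ) Q) := by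
  induction Q using MvPolynomial.induction_on with
  | C c =>
    refine ⟨0, C c, ?_, ?_⟩
    · intro A _ _ g _
      rw [pow_zero, one_mul, aeval_C]
      exact g.commutes c
    · intro v _
      simp
  | add p q hp hq =>
    obtain ⟨D₁, p', hp1, hp2⟩ := hp
    obtain ⟨D₂, q', hq1, hq2⟩ := hq
    refine ⟨D₁ + D₂, p' * Δ ^ D₂ + q' * Δ ^ D₁, ?_, ?_⟩
    · intro A _ _ g hg
      rw [map_add, map_mul, map_mul, map_pow, map_pow, hp1 A g hg, hq1 A g hg, map_add]
      ring
    · intro v hv
      rw [map_add, map_mul, map_mul, map_pow, map_pow, hp2 v hv, hq2 v hv, map_add]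
      ring
  | mul_X p i hp =>
    obtain ⟨D₁, p', hp1, hp2⟩ := hp
    refine ⟨D₁ + 1, p' * N i, ?_, ?_⟩
    · intro A _ _ g hg
      rw [map_mul, hp1 A g hg, map_mul, aeval_X, pow_succ]
      field_simp
    · intro v hv
      rw [map_mul, hp2 v hv, map_mul, eval_X, pow_succ]
      field_simp

theorem rational_of_fibre_const {K : Type u} [Field K] [IsAlgClosed K] [CharZero K]
    {σ : Type v} {α : Type w} {J : Type*} [Finite J] [Finite σ]
    (N : α → MvPolynomial σ K) (Δ : MvPolynomial σ K) (hΔ : Δ ≠ 0) (R : J → MvPolynomial σ K)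
    (h : ∀ v v' : σ → K, eval v Δ ≠ 0 → eval v' Δ ≠ 0 →
      (∀ i, eval v (N i) / eval v Δ = eval v' (N i) / eval v' Δ) →
      ∀ j, eval v (R j) / eval v Δ = eval v' (R j) / eval v' Δ) :
    ∃ (Q : MvPolynomial α K) (P : J → MvPolynomial α K),
      (∃ v, eval v Δ ≠ 0 ∧ eval (fun i => eval v (N i) / eval v Δ) Q ≠ 0) ∧
      ∀ j v, eval v Δ ≠ 0 →
        eval (fun i => eval v (N i) / eval v Δ) Q * (eval v (R j) / eval v Δ) =
        eval (fun i => eval v (N i) / eval v Δ) (P j) := by
  classical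
  have := Fintype.ofFinite J
  let B := MvPolynomial σ K
  let E := FractionRing B
  let a : B →ₐ[K] E := IsScalarTower.toAlgHom K B E
  have ha : Function.Injective a := IsFractionRing.injective B E
  have haΔ : a Δ ≠ 0 := fun h => hΔ (ha (by rw [h, map_zero]))
  have hmem : ∀ j, a (R j) / a Δ ∈
      IntermediateField.adjoin K (Set.range fun i => a (N i) / a Δ) := by
    intro j
    by_contra hcon
    obtain ⟨v, v', h1, h2, h3, h4⟩ := exists_points N Δ (R j) hΔ hcon
    exact h4 (h v v' h1 h2 h3 j)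
  have hex : ∀ j, ∃ p q : MvPolynomial α K, aeval (fun i => a (N i) / a Δ) q ≠ 0 ∧
      aeval (fun i => a (N i) / a Δ) q * (a (R j) / a Δ) = aeval (fun i => a (N i) / a Δ) p := by
    intro j
    obtain ⟨p, q, hpq⟩ := (IntermediateField.mem_adjoin_range_iff K _ _).1 (hmem j)
    by_cases hq : aeval (fun i => a (N i) / a Δ) q = 0
    · refine ⟨0, 1, by simp, ?_⟩
      rw [hpq, hq, div_zero, mul_zero, map_zero]
    · refine ⟨p, q, hq, ?_⟩
      rw [hpq]
      exact mul_div_cancel₀ _ hq
  choose p q hq hpq using hex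
  let Q : MvPolynomial α K := ∏ j, q j
  let P : J → MvPolynomial α K := fun j => p j * ∏ i ∈ Finset.univ.erase j, q i
  have hQ : aeval (fun i => a (N i) / a Δ) Q ≠ 0 := by
    rw [map_prod]
    exact Finset.prod_ne_zero_iff.2 fun j _ => hq j
  have hPQ : ∀ j, aeval (fun i => a (N i) / a Δ) Q * (a (R j) / a Δ) =
      aeval (fun i => a (N i) / a Δ) (P j) := by
    intro j
    simp only [Q, P]
    rw [← Finset.mul_prod_erase Finset.univ q (Finset.mem_univ j), map_mul, map_mul, ← hpq j]
    ring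
  refine ⟨Q, P, ?_, ?_⟩
  · obtain ⟨D, Q', hQ1, hQ2⟩ := exists_homogenize N Δ Q
    have h1 : a Q' ≠ 0 := by
      rw [hQ1 E a haΔ]
      exact mul_ne_zero (pow_ne_zero _ haΔ) hQ
    have h2 : Q' * Δ ≠ 0 := by
      refine mul_ne_zero ?_ hΔ
      intro h0
      exact h1 (by rw [h0, map_zero])
    have h3 : ∃ v, eval v (Q' * Δ) ≠ 0 := by
      by_contra hcon
      push Not at hcon
      exact h2 (MvPolynomial.funext fun v => by rw [hcon v, map_zero])
    obtain ⟨v, hv⟩ := h3
    rw [map_mul] at hv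
    have hvΔ := (mul_ne_zero_iff.1 hv).2
    have hvQ := (mul_ne_zero_iff.1 hv).1
    refine ⟨v, hvΔ, ?_⟩
    rw [hQ2 v hvΔ] at hvQ
    exact (mul_ne_zero_iff.1 hvQ).2
  · intro j v hv
    obtain ⟨D₁, Q', hQ1, hQ2⟩ := exists_homogenize N Δ Q
    obtain ⟨D₂, P', hP1, hP2⟩ := exists_homogenize N Δ (P j)
    have key : Q' * R j * Δ ^ D₂ = P' * Δ ^ (D₁ + 1) := by
      apply ha
      rw [map_mul, map_mul, map_mul, map_pow, map_pow, hQ1 E a haΔ, hP1 E a haΔ, ← hPQ j]
      have h5 : a (R j) / a Δ * a Δ = a (R j) := div_mul_cancel₀ _ haΔ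
      calc _ = a Δ ^ D₁ * aeval (fun i => a (N i) / a Δ) Q * (a (R j) / a Δ * a Δ) *
            a Δ ^ D₂ := by rw [h5]
        _ = _ := by ring
    have := congrArg (eval v) key
    rw [map_mul, map_mul, map_mul, map_pow, map_pow, hQ2 v hv, hP2 v hv] at this
    have hne : eval v Δ ^ (D₁ + D₂ + 1) ≠ 0 := pow_ne_zero _ hv
    apply mul_left_cancel₀ hne
    have h5 : eval v (R j) / eval v Δ * eval v Δ = eval v (R j) := div_mul_cancel₀ _ hv
    calc _ = eval v Δ ^ D₁ * eval (fun i => eval v (N i) / eval v Δ) Q *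
          (eval v (R j) / eval v Δ * eval v Δ) * eval v Δ ^ D₂ := by ring
      _ = _ := by rw [h5, this]; ring

end Pool.Agent.Lib.MP_d55432_al.FieldGen
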