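import Pool.Agent.Lib.MP_d55432_al.Words

/-!
# Extraction of multihomogeneous components and polarization
-/

namespace Pool.Agent.Lib.MP_d55432_al

open LieAlgebra Module

variable {K : Type*} [Field K] {L : Type*} [LieRing L] [LieAlgebra K L]

theorem sum_pi_prod {σ : Type*} [Fintype σ] {ι : σ → Type*} [∀ v, Fintype (ι v)]
    [DecidableEq σ] (F : ∀ v, ι v → K) :
    ∑ j : ∀ v, ι v, ∏ v, F v (j v) = ∏ v, ∑ i, F v i := by
  rw [Finset.prod_univ_sum (fun _ => Finset.univ) F, Fintype.piFinset_univ]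

theorem ext_component {σ : Type*} [Fintype σ] [DecidableEq σ] {N : ℕ} (s : Fin (N + 1) → K)
    (μ : σ → Fin (N + 1) → K) (c₀ : Multiset σ)
    (hμ : ∀ v l, l ≤ N → ∑ j, μ v j * s j ^ l = if l = c₀.count v then 1 else 0)
    (P : Multiset σ →₀ FreeLieAlgebra K σ) (hP : ∀ c, P c ∈ W K c)
    (hN : ∀ c ∈ P.support, c.card ≤ N) (a : σ → L) :
    ∑ j : σ → Fin (N + 1), (∏ v, μ v (j v)) •
      FreeLieAlgebra.lift K (fun v => s (j v) • a v) (P.sum fun _ x => x) =
      FreeLieAlgebra.lift K a (P c₀) := by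
  have h1 : ∀ j : σ → Fin (N + 1), (∏ v, μ v (j v)) •
      FreeLieAlgebra.lift K (fun v => s (j v) • a v) (P.sum fun _ x => x) =
      ∑ c ∈ P.support, (∏ v, (μ v (j v) * s (j v) ^ (c.count v))) •
        FreeLieAlgebra.lift K a (P c) := by
    intro j
    rw [Finsupp.sum, map_sum, Finset.smul_sum]
    refine Finset.sum_congr rfl fun c _ => ?_
    rw [lift_scale (hP c) (fun v => s (j v)) a, smul_smul, Finset.prod_mul_distrib]
    congr 2
    rw [Finset.prod_multiset_map_count]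
    refine Finset.prod_subset (Finset.subset_univ _) ?_
    intro v _ hv
    rw [Multiset.mem_toFinset, ← Multiset.count_eq_zero] at hv
    rw [hv, pow_zero]
  rw [Finset.sum_congr rfl fun j _ => h1 j, Finset.sum_comm]
  have h2 : ∀ c ∈ P.support, ∑ j : σ → Fin (N + 1),
      (∏ v, (μ v (j v) * s (j v) ^ (c.count v))) • FreeLieAlgebra.lift K a (P c) =
      if c = c₀ then FreeLieAlgebra.lift K a (P c) else 0 := by
    intro c hc
    rw [← Finset.sum_smul, sum_pi_prod (fun v i => μ v i * s i ^ (c.count v))]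
    have hle : ∀ v, c.count v ≤ N := fun v => (Multiset.count_le_card v c).trans (hN c hc)
    rw [Finset.prod_congr rfl fun v _ => hμ v _ (hle v)]
    by_cases h : c = c₀
    · rw [if_pos h]
      subst h
      simp
    · rw [if_neg h]
      have h3 : ∃ v, c.count v ≠ c₀.count v := by
        by_contra hcon
        push Not at hcon
        exact h (Multiset.ext.2 hcon)
      obtain ⟨v, hv⟩ := h3
      rw [Finset.prod_eq_zero (Finset.mem_univ v) (by rw [if_neg hv]), zero_smul]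
  rw [Finset.sum_congr rfl h2, Finset.sum_ite_eq' P.support c₀]
  split_ifs with h
  · rfl
  · rw [Finsupp.notMem_support_iff.1 h, map_zero]

theorem umbral_one {N : ℕ} (s μ : Fin (N + 1) → K)
    (hμ : ∀ l, l ≤ N → ∑ j, μ j * s j ^ l = if l = 1 then 1 else 0) (r : ℕ) (hr : r ≤ N) (t : K) :
    ∑ j, μ j * (t + s j) ^ r = (r : K) * t ^ (r - 1) := by
  have h1 : ∀ j, μ j * (t + s j) ^ r =
      ∑ l ∈ Finset.range (r + 1), (μ j * s j ^ l) * (t ^ (r - l) * (r.choose l : K)) := by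
    intro j
    rw [add_comm, add_pow, Finset.mul_sum]
    exact Finset.sum_congr rfl fun l _ => by ring
  rw [Finset.sum_congr rfl fun j _ => h1 j, Finset.sum_comm]
  have h2 : ∀ l ∈ Finset.range (r + 1),
      ∑ j, (μ j * s j ^ l) * (t ^ (r - l) * (r.choose l : K)) =
      if l = 1 then (t ^ (r - l) * (r.choose l : K)) else 0 := by
    intro l hl
    rw [← Finset.sum_mul, hμ l (by rw [Finset.mem_range] at hl; omega)]
    split_ifs <;> simp
  rw [Finset.sum_congr rfl h2, Finset.sum_ite_eq']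
  split_ifs with h
  · rw [Nat.choose_one_right, mul_comm]
  · have : r = 0 := by
      rw [Finset.mem_range] at h
      omega
    subst this
    simp

theorem umbral {N : ℕ} (s μ : Fin (N + 1) → K)
    (hμ : ∀ l, l ≤ N → ∑ j, μ j * s j ^ l = if l = 1 then 1 else 0) (q : ℕ) (hq : q ≤ N) :
    ∀ (k : ℕ) (t : K), ∑ j : Fin k → Fin (N + 1), (∏ i, μ (j i)) * (t + ∑ i, s (j i)) ^ q =
      (q.descFactorial k : K) * t ^ (q - k) := by
  intro k
  induction k with
  | zero => intro t; simp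
  | succ k ih =>
    intro t
    rw [← (Fin.consEquiv (fun _ => Fin (N + 1))).sum_comp, Fintype.sum_prod_type]
    have h1 : ∀ j₀ : Fin (N + 1), ∑ j' : Fin k → Fin (N + 1),
        (∏ i, μ ((Fin.consEquiv (fun _ => Fin (N + 1))) (j₀, j') i)) *
          (t + ∑ i, s ((Fin.consEquiv (fun _ => Fin (N + 1))) (j₀, j') i)) ^ q =
        (q.descFactorial k : K) * (μ j₀ * (t + s j₀) ^ (q - k)) := by
      intro j₀
      have h2 := ih (t + s j₀)
      calc _ = μ j₀ * ∑ j : Fin k → Fin (N + 1),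
            (∏ i, μ (j i)) * (t + s j₀ + ∑ i, s (j i)) ^ q := by
            rw [Finset.mul_sum]
            refine Finset.sum_congr rfl fun j' _ => ?_
            rw [Fin.prod_univ_succ, Fin.sum_univ_succ]
            simp only [Fin.consEquiv_apply, Fin.cons_zero, Fin.cons_succ]
            ring
        _ = _ := by rw [h2]; ring
    rw [Finset.sum_congr rfl fun j₀ _ => h1 j₀, ← Finset.mul_sum,
      umbral_one s μ hμ (q - k) (by omega), Nat.descFactorial_succ]
    push_cast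
    rw [Nat.sub_sub]
    ring

/-- The polarization constant. -/
theorem umbral_total {N m : ℕ} {B : Type*} [Fintype B] [DecidableEq B] (α : B → ℕ)
    (hα : ∀ i, α i ≤ N) (hN : 1 ≤ N) (s μ : Fin (N + 1) → K)
    (hμ : ∀ l, l ≤ N → ∑ j, μ j * s j ^ l = if l = 1 then 1 else 0) :
    ∑ j : (Fin m ⊕ (Σ i : B, Fin (α i))) → Fin (N + 1), (∏ v, μ (j v)) *
      ((∏ i : Fin m, s (j (Sum.inl i))) *
        ∏ i : B, (∑ i', s (j (Sum.inr ⟨i, i'⟩))) ^ (α i)) =
      ∏ i, ((α i).factorial : K) := by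
  classical
  rw [← (Equiv.sumArrowEquivProdArrow (Fin m) (Σ i : B, Fin (α i)) (Fin (N + 1))).symm.sum_comp,
    Fintype.sum_prod_type]
  have h0 : ∀ (j₁ : Fin m → Fin (N + 1)) (j₂ : (Σ i : B, Fin (α i)) → Fin (N + 1)),
      (Equiv.sumArrowEquivProdArrow (Fin m) (Σ i : B, Fin (α i)) (Fin (N + 1))).symm (j₁, j₂) =
        Sum.elim j₁ j₂ := fun _ _ => rfl
  simp only [h0, Sum.elim_inl, Sum.elim_inr, Fintype.prod_sum_type]
  have h1 : ∀ (j₁ : Fin m → Fin (N + 1)), ∑ j₂ : (Σ i : B, Fin (α i)) → Fin (N + 1),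
      ((∏ i, μ (j₁ i)) * ∏ v, μ (j₂ v)) * ((∏ i, s (j₁ i)) *
        ∏ i : B, (∑ i', s (j₂ ⟨i, i'⟩)) ^ (α i)) =
      (∏ i, (μ (j₁ i) * s (j₁ i))) * ∑ j₂ : (Σ i : B, Fin (α i)) → Fin (N + 1),
        ((∏ v, μ (j₂ v)) * ∏ i : B, (∑ i', s (j₂ ⟨i, i'⟩)) ^ (α i)) := by
    intro j₁
    rw [Finset.mul_sum, Finset.prod_mul_distrib]
    exact Finset.sum_congr rfl fun j₂ _ => by ring
  rw [Finset.sum_congr rfl fun j₁ _ => h1 j₁, ← Finset.sum_mul,
    sum_pi_prod (fun (_ : Fin m) i => μ i * s i)]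
  have h2 : ∑ i, μ i * s i = 1 := by
    have := hμ 1 hN
    simpa using this
  rw [h2, Finset.prod_const_one, one_mul]
  rw [← (Equiv.piCurry (fun (_ : B) (_ : Fin (α _)) => Fin (N + 1))).symm.sum_comp]
  have h3 : ∀ j₃ : ∀ i : B, Fin (α i) → Fin (N + 1),
      (∏ v, μ ((Equiv.piCurry (fun (_ : B) (_ : Fin (α _)) => Fin (N + 1))).symm j₃ v)) *
        ∏ i : B, (∑ i', s ((Equiv.piCurry (fun (_ : B) (_ : Fin (α _)) =>
          Fin (N + 1))).symm j₃ ⟨i, i'⟩)) ^ (α i) =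
      ∏ i, ((∏ i', μ (j₃ i i')) * (0 + ∑ i', s (j₃ i i')) ^ (α i)) := by
    intro j₃
    rw [Finset.prod_mul_distrib, Fintype.prod_sigma]
    simp only [zero_add]
    rfl
  rw [Finset.sum_congr rfl fun j₃ _ => h3 j₃,
    sum_pi_prod (fun i (x : Fin (α i) → Fin (N + 1)) =>
      ((∏ i', μ (x i')) * (0 + ∑ i', s (x i')) ^ (α i)))]
  refine Finset.prod_congr rfl fun i _ => ?_
  rw [umbral s μ hμ (α i) (hα i) (α i) 0, Nat.descFactorial_self]
  simp

end Pool.Agent.Lib.MP_d55432_al
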