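import Pool.Agent.Lib.MP_d55432_al.Homog
import Pool.Agent.Lib.MP_d55432_al.Umbral

/-!
# Images of multilinear Lie polynomials
-/

namespace Pool.Agent.Lib.MP_d55432_al

open LieAlgebra Module

variable {K : Type*} [Field K] {L : Type*} [LieRing L] [LieAlgebra K L]

theorem prod_map_eq {σ : Type*} [Fintype σ] [DecidableEq σ] (c : Multiset σ) (t : σ → K) :
    (c.map t).prod = ∏ v, t v ^ c.count v := by
  rw [Finset.prod_multiset_map_count]
  refine Finset.prod_subset (Finset.subset_univ _) ?_
  intro v _ hv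
  rw [Multiset.mem_toFinset, ← Multiset.count_eq_zero] at hv
  rw [hv, pow_zero]

theorem isPolyMap_multilinear [FiniteDimensional K L] {m : ℕ}
    (f : MultilinearMap K (fun _ : Fin m => L) L) : IsPolyMap K (f : (Fin m → L) → L) := by
  classical
  intro ψ
  let e := Module.finBasis K L
  have h : (fun a : Fin m → L => ψ (f a)) =
      ∑ r : Fin m → Fin (Module.finrank K L), ψ (f (fun i => e (r i))) •
        ∏ i, (fun a : Fin m → L => e.coord (r i) (a i)) := by
    funext a
    have h1 : a = fun i => ∑ k, e.repr (a i) k • e k := by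
      funext i
      exact (e.sum_repr (a i)).symm
    conv_lhs => rw [h1, MultilinearMap.map_sum, map_sum]
    rw [Finset.sum_apply]
    refine Finset.sum_congr rfl fun r _ => ?_
    rw [MultilinearMap.map_smul_univ, map_smul, Pi.smul_apply, Finset.prod_apply, smul_eq_mul,
      smul_eq_mul, mul_comm]
    rfl
  rw [h]
  exact Subalgebra.sum_mem _ fun r _ => Subalgebra.smul_mem _
    (Subalgebra.prod_mem _ fun i _ => PolyFun_coord i _) _

/-- A multihomogeneous version of `stageB`. -/
theorem exists_multihomogeneous [IsAlgClosed K] [CharZero K] [FiniteDimensional K L]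
    [LieAlgebra.IsSimple K L] {m : ℕ} (f : MultilinearMap K (fun _ : Fin m => L) L)
    (heq : IsAutEquivariant K (f : (Fin m → L) → L)) (x₀ : Fin m → L) (hx₀ : f x₀ ≠ 0) :
    ∃ (n : ℕ) (c₁ : (Aux n → L) → K) (w₀ : Aux n → L) (α : Aux n → ℕ)
      (p : FreeLieAlgebra K (Fin m ⊕ Aux n)), c₁ w₀ ≠ 0 ∧
      (∀ a : (Fin m ⊕ Aux n) → L, FreeLieAlgebra.lift K a p =
        c₁ (fun i => a (Sum.inr i)) • f (fun i => a (Sum.inl i))) ∧
      (∀ (t : Aux n → K) (w : Aux n → L), c₁ (fun i => t i • w i) =
        (∏ i, t i ^ α i) * c₁ w) := by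
  classical
  obtain ⟨n, c, ⟨w₀, hw₀⟩, p, hp⟩ := stageB (f : (Fin m → L) → L) (isPolyMap_multilinear f) heq
  obtain ⟨P, hPW, hPsum⟩ := exists_decomposition p
  obtain ⟨N, hN⟩ : ∃ N, ∀ c ∈ P.support, c.card ≤ N :=
    ⟨P.support.sup Multiset.card, fun c hc => Finset.le_sup hc⟩
  have hne : FreeLieAlgebra.lift K (Sum.elim x₀ w₀) p ≠ 0 := by
    rw [← hp (Sum.elim x₀ w₀)]
    exact smul_ne_zero hw₀ hx₀
  have hex : ∃ c₀ ∈ P.support, FreeLieAlgebra.lift K (Sum.elim x₀ w₀) (P c₀) ≠ 0 := by
    by_contra hcon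
    push Not at hcon
    apply hne
    rw [← hPsum, Finsupp.sum, map_sum]
    exact Finset.sum_eq_zero hcon
  obtain ⟨c₀, hc₀, hc₀'⟩ := hex
  obtain ⟨s, hs⟩ := exists_weights (K := K) N
  have hcount : ∀ v, c₀.count v ≤ N := fun v =>
    (Multiset.count_le_card v c₀).trans (hN c₀ hc₀)
  have hμ := fun v => hs (c₀.count v) (hcount v)
  choose μ hμ using hμ
  have hfs : ∀ (t : Fin m → K) (x : Fin m → L), f (fun i => t i • x i) = (∏ i, t i) • f x :=
    fun t x => f.map_smul_univ t x
  obtain ⟨c₁, hc₁def⟩ : ∃ c₁ : (Aux n → L) → K, ∀ w, c₁ w =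
      ∑ j : (Fin m ⊕ Aux n) → Fin (N + 1),
    (∏ v, μ v (j v)) * (c (fun i => s (j (Sum.inr i)) • w i) * ∏ i, s (j (Sum.inl i))) :=
    ⟨_, fun _ => rfl⟩
  have hc₁ : ∀ a : (Fin m ⊕ Aux n) → L, FreeLieAlgebra.lift K a (P c₀) =
      c₁ (fun i => a (Sum.inr i)) • f (fun i => a (Sum.inl i)) := by
    intro a
    rw [← ext_component s μ c₀ hμ P hPW hN a, hPsum, hc₁def, Finset.sum_smul]
    refine Finset.sum_congr rfl fun j _ => ?_
    rw [← hp]
    change (∏ v, μ v (j v)) • (c (fun i => s (j (Sum.inr i)) • a (Sum.inr i)) •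
      f (fun i => s (j (Sum.inl i)) • a (Sum.inl i))) = _
    rw [hfs, smul_smul, smul_smul, mul_assoc]
  refine ⟨n, c₁, w₀, fun i => c₀.count (Sum.inr i), P c₀, ?_, hc₁, ?_⟩
  · intro h0
    apply hc₀'
    rw [hc₁ (Sum.elim x₀ w₀)]
    have : c₁ (fun i => (Sum.elim x₀ w₀ : (Fin m ⊕ Aux n) → L) (Sum.inr i)) = 0 := h0
    rw [this, zero_smul]
  · intro t w
    have h1 := lift_scale (hPW c₀) (Sum.elim (fun _ => 1) t) (Sum.elim x₀ w)
    rw [prod_map_eq, Fintype.prod_sum_type, hc₁, hc₁] at h1
    simp only [Sum.elim_inl, Sum.elim_inr, one_pow, Finset.prod_const_one, one_mul, one_smul,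
      smul_smul] at h1
    exact smul_left_injective K hx₀ h1

/-- Polarization of the scalar factor. -/
theorem exists_polarized [CharZero K] {m : ℕ} {A : Type} [Fintype A] [DecidableEq A]
    (f : MultilinearMap K (fun _ : Fin m => L) L) (c₁ : (A → L) → K) (w₀ : A → L) (α : A → ℕ)
    (p : FreeLieAlgebra K (Fin m ⊕ A)) (hc₁0 : c₁ w₀ ≠ 0)
    (hc₁ : ∀ a : (Fin m ⊕ A) → L, FreeLieAlgebra.lift K a p =
        c₁ (fun i => a (Sum.inr i)) • f (fun i => a (Sum.inl i)))
    (hscale : ∀ (t : A → K) (w : A → L), c₁ (fun i => t i • w i) =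
        (∏ i, t i ^ α i) * c₁ w) :
    ∃ (q : FreeLieAlgebra K (Fin m ⊕ (Σ i : A, Fin (α i))))
      (c₂ : ((Σ i : A, Fin (α i)) → L) → K) (w₁ : (Σ i : A, Fin (α i)) → L), c₂ w₁ ≠ 0 ∧
      IsMultilinearLie q ∧
      (∀ a : (Fin m ⊕ (Σ i : A, Fin (α i))) → L, FreeLieAlgebra.lift K a q =
        c₂ (fun i => a (Sum.inr i)) • f (fun i => a (Sum.inl i))) := by
  classical
  have hfs : ∀ (t : Fin m → K) (x : Fin m → L), f (fun i => t i • x i) = (∏ i, t i) • f x :=
    fun t x => f.map_smul_univ t x
  obtain ⟨p₁, hp₁⟩ : ∃ p₁ : FreeLieAlgebra K (Fin m ⊕ (Σ i : A, Fin (α i))),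
      ∀ a : (Fin m ⊕ (Σ i : A, Fin (α i))) → L, FreeLieAlgebra.lift K a p₁ =
      c₁ (fun i => ∑ j, a (Sum.inr ⟨i, j⟩)) • f (fun i => a (Sum.inl i)) := by
    refine ⟨FreeLieAlgebra.lift K (Sum.elim (fun i => FreeLieAlgebra.of K (Sum.inl i))
      (fun i => ∑ j, FreeLieAlgebra.of K (Sum.inr ⟨i, j⟩))) p, ?_⟩
    intro a
    rw [lift_lift, hc₁]
    simp only [Sum.elim_inl, Sum.elim_inr, map_sum, FreeLieAlgebra.lift_of_apply]
  obtain ⟨P', hPW', hPsum'⟩ := exists_decomposition p₁
  obtain ⟨N', hN', hα, h1N'⟩ : ∃ N', (∀ c ∈ P'.support, c.card ≤ N') ∧ (∀ i, α i ≤ N') ∧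
      1 ≤ N' := by
    refine ⟨max (P'.support.sup Multiset.card) (max (Finset.univ.sup α) 1), fun c hc =>
      (Finset.le_sup (f := Multiset.card) hc).trans (le_max_left _ _), fun i =>
      (Finset.le_sup (f := α) (Finset.mem_univ i)).trans
        ((le_max_left _ _).trans (le_max_right _ _)),
      (le_max_right _ _).trans (le_max_right _ _)⟩
  obtain ⟨s', hs'⟩ := exists_weights (K := K) N'
  obtain ⟨μ', hμ'⟩ := hs' 1 h1N'
  obtain ⟨c₂, hc₂def⟩ : ∃ c₂ : ((Σ i : A, Fin (α i)) → L) → K, ∀ w, c₂ w =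
    ∑ j : (Fin m ⊕ (Σ i : A, Fin (α i))) → Fin (N' + 1),
    (∏ v, μ' (j v)) * (c₁ (fun i => ∑ j', s' (j (Sum.inr ⟨i, j'⟩)) • w ⟨i, j'⟩) *
      ∏ i, s' (j (Sum.inl i))) := ⟨_, fun _ => rfl⟩
  refine ⟨P' (Finset.univ : Finset (Fin m ⊕ (Σ i : A, Fin (α i)))).val, c₂,
    fun b => w₀ b.1, ?_, hPW' _, ?_⟩
  · have h1 : c₂ (fun b => w₀ b.1) = (∏ i, ((α i).factorial : K)) * c₁ w₀ := by
      rw [hc₂def, ← umbral_total (m := m) α hα h1N' s' μ' hμ', Finset.sum_mul]
      refine Finset.sum_congr rfl fun j _ => ?_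
      have h2 : (fun i => ∑ j', s' (j (Sum.inr ⟨i, j'⟩)) • w₀ i) =
          fun i => (∑ j', s' (j (Sum.inr ⟨i, j'⟩))) • w₀ i := by
        funext i
        rw [Finset.sum_smul]
      rw [h2, hscale]
      ring
    rw [h1]
    refine mul_ne_zero (Finset.prod_ne_zero_iff.2 fun i _ => ?_) hc₁0
    exact_mod_cast (α i).factorial_ne_zero
  · intro a
    have h1 := ext_component s' (fun _ => μ')
      (Finset.univ : Finset (Fin m ⊕ (Σ i : A, Fin (α i)))).val (by
      intro v l hl
      rw [Multiset.count_univ, hμ' l hl]) P' hPW' hN' a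
    rw [← h1, hPsum', hc₂def, Finset.sum_smul]
    refine Finset.sum_congr rfl fun j _ => ?_
    rw [hp₁, hfs, smul_smul, smul_smul, mul_assoc]

theorem exists_multilinear [IsAlgClosed K] [CharZero K] [FiniteDimensional K L]
    [LieAlgebra.IsSimple K L] {m : ℕ} (hm : 0 < m) (f : MultilinearMap K (fun _ : Fin m => L) L)
    (heq : IsAutEquivariant K (f : (Fin m → L) → L)) :
    ∃ (m' : ℕ) (p : FreeLieAlgebra K (Fin m')), IsMultilinearLie p ∧
      Set.range f = lieImage L p := by
  classical
  by_cases hzero : ∀ x, f x = 0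
  · refine ⟨1, 0, Submodule.zero_mem _, ?_⟩
    ext y
    constructor
    · rintro ⟨x, rfl⟩
      exact ⟨0, by rw [hzero]; simp only [map_zero]⟩
    · rintro ⟨x, rfl⟩
      exact ⟨0, by rw [hzero]; simp only [map_zero]⟩
  push Not at hzero
  obtain ⟨x₀, hx₀⟩ := hzero
  obtain ⟨n, c₁, w₀, α, p, h1, h2, h3⟩ := exists_multihomogeneous f heq x₀ hx₀
  obtain ⟨q, c₂, w₁, h4, hqM, h6⟩ := exists_polarized f c₁ w₀ α p h1 h2 h3
  have hfb : ∀ (t : K) (a : Fin m → L), f (t • a) = t ^ m • f a := by
    intro t a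
    have := f.map_smul_univ (fun _ => t) a
    rw [Finset.prod_const, Finset.card_univ, Fintype.card_fin] at this
    exact this
  refine ⟨_, relabel (Fintype.equivFin _) q, hqM.relabel (Fintype.equivFin _), ?_⟩
  rw [lieImage_relabel, ← range_smul_eq hm (f : (Fin m → L) → L) hfb c₂ _ h4, lieImage]
  ext y
  constructor
  · rintro ⟨⟨x, w⟩, rfl⟩
    exact ⟨Sum.elim x w, by simp only [h6]; rfl⟩
  · rintro ⟨a, rfl⟩
    exact ⟨(fun i => a (Sum.inl i), fun i => a (Sum.inr i)), (h6 a).symm⟩

theorem lift_update_word {σ : Type*} [DecidableEq σ] {c : Multiset σ} {w : FreeLieAlgebra K σ}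
    (hw : IsLieWord K c w) (i : σ) (a : σ → L) :
    (c.count i = 0 → ∀ y, FreeLieAlgebra.lift K (Function.update a i y) w =
      FreeLieAlgebra.lift K a w) ∧
    (c.count i = 1 → ∀ x y, FreeLieAlgebra.lift K (Function.update a i (x + y)) w =
      FreeLieAlgebra.lift K (Function.update a i x) w +
      FreeLieAlgebra.lift K (Function.update a i y) w) := by
  induction hw with
  | letter j =>
    constructor
    · intro h y
      rw [FreeLieAlgebra.lift_of_apply, FreeLieAlgebra.lift_of_apply, Function.update_of_ne]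
      rintro rfl
      rw [Multiset.count_singleton_self] at h
      exact one_ne_zero h
    · intro h x y
      have hij : i = j := by
        by_contra hne
        rw [Multiset.count_singleton, if_neg hne] at h
        exact zero_ne_one h
      subst hij
      simp only [FreeLieAlgebra.lift_of_apply, Function.update_self]
  | bracket _ _ hu hv =>
    constructor
    · intro h y
      rw [Multiset.count_add] at h
      rw [LieHom.map_lie, LieHom.map_lie, hu.1 (by omega), hv.1 (by omega)]
    · intro h x y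
      rw [Multiset.count_add] at h
      simp only [LieHom.map_lie]
      rcases Nat.eq_zero_or_pos (Multiset.count i _) with h0 | h0
      · rw [hu.1 h0, hu.1 h0, hu.1 h0, hv.2 (by omega), lie_add]
      · rw [hu.2 (by omega), hv.1 (by omega), hv.1 (by omega), hv.1 (by omega), add_lie]

/-- The multilinear map given by a multilinear Lie polynomial. -/
theorem exists_multilinearMap {m : ℕ} (p : FreeLieAlgebra K (Fin m)) (hp : IsMultilinearLie p) :
    ∃ f : MultilinearMap K (fun _ : Fin m => L) L, ∀ a, f a = FreeLieAlgebra.lift K a p := by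
  have hadd : ∀ [DecidableEq (Fin m)] (a : Fin m → L) (i : Fin m) (x y : L),
      FreeLieAlgebra.lift K (Function.update a i (x + y)) p =
      FreeLieAlgebra.lift K (Function.update a i x) p +
      FreeLieAlgebra.lift K (Function.update a i y) p := by
    intro inst a i x y
    induction hp using Submodule.span_induction with
    | mem w hw => exact (lift_update_word hw i a).2 (Multiset.count_univ i) x y
    | zero => simp only [map_zero, add_zero]
    | add u v _ _ hu hv => rw [map_add, map_add, map_add, hu, hv]; abel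
    | smul r u _ hu =>
      have hh : ∀ b : Fin m → L, FreeLieAlgebra.lift K b (r • u) =
        r • FreeLieAlgebra.lift K b u := fun b => map_smul _ r u
      rw [hh, hh, hh, hu, smul_add]
  have hsmul : ∀ [DecidableEq (Fin m)] (a : Fin m → L) (i : Fin m) (t : K) (x : L),
      FreeLieAlgebra.lift K (Function.update a i (t • x)) p =
      t • FreeLieAlgebra.lift K (Function.update a i x) p := by
    intro inst a i t x
    have h1 : Function.update a i (t • x) = fun v => (Function.update (fun _ => (1 : K)) i t) v •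
        (Function.update a i x) v := by
      funext v
      by_cases h : v = i
      · subst h; simp
      · simp [Function.update_of_ne h]
    rw [h1, lift_scale (c := (Finset.univ : Finset (Fin m)).val) hp, prod_map_eq]
    congr 1
    rw [Finset.prod_eq_single i]
    · rw [Function.update_self, Multiset.count_univ, pow_one]
    · intro v _ hv
      rw [Function.update_of_ne hv, one_pow]
    · intro h; exact absurd (Finset.mem_univ _) h
  exact ⟨MultilinearMap.mk (fun a => FreeLieAlgebra.lift K a p) (@hadd) (@hsmul),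
    fun a => rfl⟩

/-- The images of multilinear Lie polynomials on a simple Lie algebra are the images of
multilinear `Aut L`-equivariant maps. -/
theorem multilinear_images [IsAlgClosed K] [CharZero K] [FiniteDimensional K L]
    [LieAlgebra.IsSimple K L] (S : Set L) :
    (∃ (m : ℕ) (p : FreeLieAlgebra K (Fin m)), IsMultilinearLie p ∧ S = lieImage L p) ↔
    (∃ (m : ℕ) (f : MultilinearMap K (fun _ : Fin m => L) L), 0 < m ∧
      IsAutEquivariant K (f : (Fin m → L) → L) ∧ S = Set.range f) := by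
  constructor
  · rintro ⟨m, p, hp, rfl⟩
    rcases Nat.eq_zero_or_pos m with hm | hm
    · subst hm
      refine ⟨1, 0, one_pos, ?_, ?_⟩
      · intro φ a
        simp only [zero_apply, map_zero]
      · have hp0 : p = 0 := by
          have h : {w : FreeLieAlgebra K (Fin 0) |
              IsLieWord K (Finset.univ : Finset (Fin 0)).val w} = ∅ := by
            ext w
            simp only [Set.mem_ofPred_eq, Set.mem_empty_iff_false, iff_false]
            intro hw
            have := card_pos_of_word hw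
            simp at this
          rw [IsMultilinearLie, h, Submodule.span_empty] at hp
          simpa using hp
        ext y
        rw [hp0]
        simp only [lieImage, map_zero, Set.mem_range, exists_const, zero_apply]
    · obtain ⟨f, hf⟩ := exists_multilinearMap (L := L) p hp
      refine ⟨m, f, hm, ?_, ?_⟩
      · intro φ a
        rw [hf, hf]
        exact isAutEquivariant_lift p φ a
      · rw [lieImage]
        congr 1
        funext a
        exact (hf a).symm
  · rintro ⟨m, f, hm, heq, rfl⟩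
    exact exists_multilinear hm f heq

end Pool.Agent.Lib.MP_d55432_al
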