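import Pool.Agent.Lib.MP_d55432_al.Sp4Generic

/-!
# Algebraic independence of the invariants of a Lie polynomial on `sp₄`
-/

namespace Pool.Agent.Lib.MP_d55432_al.Sp4

open Matrix MvPolynomial

attribute [local instance 100] LieRing.ofAssociativeRing

variable {K : Type*} [Field K] [CharZero K]

theorem exists_monomialOrder.{u} (τ : Type u) [Finite τ] :
    Nonempty (MonomialOrder.{u, u} τ) := by
  classical
  have := Fintype.ofFinite τ
  let _ : LinearOrder τ := LinearOrder.lift' (Fintype.equivFin τ) (Equiv.injective _)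
  exact ⟨MonomialOrder.lex⟩

theorem sgn_eq_of_eigen {m : ℕ} (mo : MonomialOrder (Fin m × Fin 10)) (j : Fin 4)
    (f : R10 K m) (hf : f ≠ 0) (δ : ℤ)
    (h : Degrees.sgnHom K (εv j) f = C ((δ : ℤ) : K) * f) :
    Degrees.sgn (εv j) (mo.degree f) = δ :=
  Degrees.sgn_degree mo (εv j) f hf δ h

theorem dichotomy {m : ℕ} (f : Fin 10 → R10 K m)
    (hf : ∀ j k, Degrees.sgnHom K (εv j) (f k) = C ((sg j k : ℤ) : K) * f k) :
    (∀ l, wS f l = 0) ∨ ∀ Φ : MvPolynomial (Fin 2) K, Φ ≠ 0 →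
      aeval ![sS f, qS (wS f)] Φ ≠ 0 := by
  classical
  obtain ⟨mo⟩ := exists_monomialOrder (Fin m × Fin 10)
  by_cases hw : ∀ l, wS f l = 0
  · exact Or.inl hw
  right
  push Not at hw
  -- the eigenvalues of the coordinates of the square
  have hw' : ∀ j l, Degrees.sgnHom K (εv j) (wS f l) = C ((sv j l : ℤ) : K) * wS f l := by
    intro j l
    have h1 : Degrees.sgnHom K (εv j) (wS f l) =
        wS (fun k => Degrees.sgnHom K (εv j) (f k)) l := by
      have h2 : (Degrees.sgnHom K (εv j)) (2 : R10 K m) = 2 := map_ofNat _ 2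
      fin_cases l <;> simp only [wS, Fin.zero_eta, Fin.mk_one, Fin.reduceFinMk,
        Matrix.cons_val_zero, Matrix.cons_val_one, Matrix.cons_val, map_mul, map_add, map_sub, h2]
    rw [h1]
    have h2 : (fun k => Degrees.sgnHom K (εv j) (f k)) =
        fun k => ((sg j k : ℤ) : R10 K m) * f k := by
      funext k
      rw [hf]
      simp
    rw [h2, wS_sign]
    simp
  have hsome : ∃ k, f k ≠ 0 := by
    by_contra hcon
    push Not at hcon
    obtain ⟨l, hl⟩ := hw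
    apply hl
    fin_cases l <;> simp [wS, hcon]
  have hs : sS f = ∑ j, C ((![1, 1, 1, -1, 1, 1, 1, -1, -1, -1] : Fin 10 → K) j) * f j ^ 2 := by
    simp [sS, Fin.sum_univ_succ]
    ring
  have hq : qS (wS f) = ∑ j, C ((![1, 1, -1, -1, 1] : Fin 5 → K) j) * wS f j ^ 2 := by
    simp [qS, Fin.sum_univ_succ]
    ring
  obtain ⟨k₀, hk₀, hd1, hne1⟩ := Degrees.degree_sum_squares mo
    (![1, 1, 1, -1, 1, 1, 1, -1, -1, -1] : Fin 10 → K)
    (by intro i; fin_cases i <;> simp) f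
    (by
      intro i j hi hj hij h
      obtain ⟨t, ht⟩ := sg_ne i j hij
      apply ht
      rw [← sgn_eq_of_eigen mo t (f i) hi _ (hf t i), ← sgn_eq_of_eigen mo t (f j) hj _ (hf t j),
        h]) hsome
  obtain ⟨l₀, hl₀, hd2, hne2⟩ := Degrees.degree_sum_squares mo
    (![1, 1, -1, -1, 1] : Fin 5 → K)
    (by intro i; fin_cases i <;> simp) (wS f)
    (by
      intro i j hi hj hij h
      obtain ⟨t, ht⟩ := sv_ne i j hij
      apply ht
      rw [← sgn_eq_of_eigen mo t (wS f i) hi _ (hw' t i),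
        ← sgn_eq_of_eigen mo t (wS f j) hj _ (hw' t j), h]) hw
  intro Φ hΦ
  rw [← hs] at hd1 hne1
  rw [← hq] at hd2 hne2
  refine Degrees.aeval_ne_zero mo (sS f) (qS (wS f)) hne1 hne2 _ _ hd1 hd2 ?_ Φ hΦ
  refine Degrees.exponents_independent (J := Fin 4) εv ?_ _ _ ?_ ?_ ?_
  · intro j t
    exact sg_or j t.2
  · obtain ⟨j, hj⟩ := sg_neg k₀
    exact ⟨j, by rw [sgn_eq_of_eigen mo j (f k₀) hk₀ _ (hf j k₀), hj]⟩
  · obtain ⟨j, hj⟩ := sv_neg l₀
    exact ⟨j, by rw [sgn_eq_of_eigen mo j (wS f l₀) hl₀ _ (hw' j l₀), hj]⟩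
  · obtain ⟨j, hj⟩ := sg_sv_ne k₀ l₀
    exact ⟨j, by rw [sgn_eq_of_eigen mo j (f k₀) hk₀ _ (hf j k₀),
      sgn_eq_of_eigen mo j (wS f l₀) hl₀ _ (hw' j l₀)]; exact hj⟩

/-- In the scalar-square case the scalar is nonzero unless the polynomial vanishes. -/
theorem sS_ne_zero {m : ℕ} (f : Fin 10 → R10 K m)
    (hf : ∀ j k, Degrees.sgnHom K (εv j) (f k) = C ((sg j k : ℤ) : K) * f k)
    (h : ∃ k, f k ≠ 0) : sS f ≠ 0 := by
  obtain ⟨mo⟩ := exists_monomialOrder (Fin m × Fin 10)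
  have hs : sS f = ∑ j, C ((![1, 1, 1, -1, 1, 1, 1, -1, -1, -1] : Fin 10 → K) j) * f j ^ 2 := by
    simp [sS, Fin.sum_univ_succ]
    ring
  obtain ⟨k₀, hk₀, hd1, hne1⟩ := Degrees.degree_sum_squares mo
    (![1, 1, 1, -1, 1, 1, 1, -1, -1, -1] : Fin 10 → K)
    (by intro i; fin_cases i <;> simp) f
    (by
      intro i j hi hj hij h
      obtain ⟨t, ht⟩ := sg_ne i j hij
      apply ht
      rw [← sgn_eq_of_eigen mo t (f i) hi _ (hf t i), ← sgn_eq_of_eigen mo t (f j) hj _ (hf t j),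
        h]) h
  rwa [hs]

end Pool.Agent.Lib.MP_d55432_al.Sp4
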