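import Pool.Agent.Lib.MP_d55432_al.Words
import Pool.Agent.Lib.MP_d55432_al.Degrees

/-!
# Coordinates on the symplectic Lie algebra of rank two
-/

namespace Pool.Agent.Lib.MP_d55432_al.Sp4

open Matrix

/-- Index type of `4 × 4` matrices in block form. -/
abbrev N4 : Type := Fin 2 ⊕ Fin 2

variable {A : Type*} [CommRing A]

/-- General element of `sp₄` in coordinates with respect to the ten skew Pauli matrices. -/
def spM (f : Fin 10 → A) : Matrix N4 N4 A :=
  Matrix.fromBlocks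
    !![f 0 + f 1, f 2 + f 3; f 2 - f 3, f 0 - f 1]
    !![f 4 + f 7 + f 5 + f 8, f 6 + f 9; f 6 + f 9, f 4 + f 7 - f 5 - f 8]
    !![f 4 - f 7 + f 5 - f 8, f 6 - f 9; f 6 - f 9, f 4 - f 7 - f 5 + f 8]
    !![-(f 0 + f 1), -(f 2 - f 3); -(f 2 + f 3), -(f 0 - f 1)]

/-- General element of the five-dimensional representation. -/
def vM (w : Fin 5 → A) : Matrix N4 N4 A :=
  Matrix.fromBlocks
    !![w 0, w 1 + w 2; w 1 - w 2, -w 0]
    !![0, w 3 + w 4; -(w 3 + w 4), 0]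
    !![0, w 3 - w 4; -(w 3 - w 4), 0]
    !![w 0, w 1 - w 2; w 1 + w 2, -w 0]

/-- The scalar part of the square. -/
def sS (f : Fin 10 → A) : A :=
  f 0 ^ 2 + f 1 ^ 2 + f 2 ^ 2 - f 3 ^ 2 + f 4 ^ 2 + f 5 ^ 2 + f 6 ^ 2 - f 7 ^ 2 - f 8 ^ 2 - f 9 ^ 2

/-- The coordinates of the traceless part of the square. -/
def wS (f : Fin 10 → A) : Fin 5 → A :=
  ![2 * (f 0 * f 1 + f 4 * f 5 - f 7 * f 8), 2 * (f 0 * f 2 + f 4 * f 6 - f 7 * f 9),
    2 * (f 0 * f 3 - f 5 * f 9 + f 6 * f 8), 2 * (f 3 * f 4 + f 1 * f 9 - f 2 * f 8),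
    2 * (f 3 * f 7 + f 1 * f 6 - f 2 * f 5)]

/-- The quadratic form on the five-dimensional representation. -/
def qS (w : Fin 5 → A) : A := w 0 ^ 2 + w 1 ^ 2 - w 2 ^ 2 - w 3 ^ 2 + w 4 ^ 2

theorem spM_sq (f : Fin 10 → A) : spM f * spM f = sS f • (1 : Matrix N4 N4 A) + vM (wS f) := by
  ext (i | i) (j | j) <;> fin_cases i <;> fin_cases j <;>
    simp [spM, vM, sS, wS, Matrix.mul_apply, Fin.sum_univ_two] <;> ring

theorem vM_sq (w : Fin 5 → A) : vM w * vM w = qS w • (1 : Matrix N4 N4 A) := by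
  ext (i | i) (j | j) <;> fin_cases i <;> fin_cases j <;>
    simp [vM, qS, Matrix.mul_apply, Fin.sum_univ_two] <;> ring

theorem trace_vM (w : Fin 5 → A) : (vM w).trace = 0 := by
  simp [vM, Matrix.trace, Fin.sum_univ_two]

/-- Signs of the ten coordinates under the four generators of the Pauli group. -/
def sg : Fin 4 → Fin 10 → ℤ :=
  ![![1, 1, 1, 1, -1, -1, -1, -1, -1, -1],
    ![-1, -1, -1, 1, 1, 1, 1, -1, -1, -1],
    ![1, 1, -1, -1, 1, 1, -1, 1, 1, -1],
    ![1, -1, 1, -1, 1, -1, 1, 1, -1, 1]]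

/-- Signs of the five coordinates under the four generators of the Pauli group. -/
def sv : Fin 4 → Fin 5 → ℤ :=
  ![![1, 1, 1, -1, -1],
    ![1, 1, -1, 1, -1],
    ![1, -1, -1, -1, -1],
    ![-1, 1, -1, -1, -1]]

/-- Generators of the Pauli group. -/
def gP : Fin 4 → Matrix N4 N4 A :=
  ![Matrix.fromBlocks 1 0 0 (-1), Matrix.fromBlocks 0 1 1 0,
    Matrix.fromBlocks !![1, 0; 0, -1] 0 0 !![1, 0; 0, -1],
    Matrix.fromBlocks !![0, 1; 1, 0] 0 0 !![0, 1; 1, 0]]

theorem gP_sq (j : Fin 4) : (gP j : Matrix N4 N4 A) * gP j = 1 := by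
  fin_cases j <;>
  · ext (i | i) (k | k) <;> fin_cases i <;> fin_cases k <;>
      simp [gP, Matrix.mul_apply, Fin.sum_univ_two, Matrix.one_apply]

theorem gP_comm (j : Fin 4) (f : Fin 10 → A) :
    gP j * spM f = spM (fun k => ((sg j k : ℤ) : A) * f k) * gP j := by
  fin_cases j
  · simp only [gP, spM, sg, Fin.zero_eta, Matrix.cons_val_zero, Matrix.cons_val,
      Matrix.fromBlocks_multiply]
    congr 1 <;> ext a b <;> fin_cases a <;> fin_cases b <;> simp <;> ring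
  · simp only [gP, spM, sg, Fin.mk_one, Matrix.cons_val_one, Matrix.cons_val,
      Matrix.fromBlocks_multiply]
    congr 1 <;> ext a b <;> fin_cases a <;> fin_cases b <;> simp <;> ring
  · simp only [gP, spM, sg, Fin.reduceFinMk, Matrix.cons_val,
      Matrix.fromBlocks_multiply]
    congr 1 <;> ext a b <;> fin_cases a <;> fin_cases b <;>
      simp <;> ring
  · simp only [gP, spM, sg, Fin.reduceFinMk, Matrix.cons_val,
      Matrix.fromBlocks_multiply]
    congr 1 <;> ext a b <;> fin_cases a <;> fin_cases b <;>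
      simp <;> ring

theorem gP_conj (j : Fin 4) (f : Fin 10 → A) :
    gP j * spM f * gP j = spM (fun k => ((sg j k : ℤ) : A) * f k) := by
  rw [gP_comm, Matrix.mul_assoc, gP_sq, Matrix.mul_one]

theorem wS_sign (j : Fin 4) (f : Fin 10 → A) (l : Fin 5) :
    wS (fun k => ((sg j k : ℤ) : A) * f k) l = ((sv j l : ℤ) : A) * wS f l := by
  fin_cases j <;> fin_cases l <;> simp [wS, sg, sv] <;> ring

theorem sg_or (j : Fin 4) (k : Fin 10) : sg j k = 1 ∨ sg j k = -1 := by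
  revert j k; decide

theorem sg_ne (k k' : Fin 10) (h : k ≠ k') : ∃ j, sg j k ≠ sg j k' := by
  revert k k'; decide

theorem sv_ne (k k' : Fin 5) (h : k ≠ k') : ∃ j, sv j k ≠ sv j k' := by
  revert k k'; decide

theorem sg_neg (k : Fin 10) : ∃ j, sg j k = -1 := by
  revert k; decide

theorem sv_neg (k : Fin 5) : ∃ j, sv j k = -1 := by
  revert k; decide

theorem sg_sv_ne (k : Fin 10) (l : Fin 5) : ∃ j, sg j k ≠ sv j l := by
  revert k l; decide

end Pool.Agent.Lib.MP_d55432_al.Sp4
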