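import Pool.Agent.Lib.MP_d55432_al.Sp4

/-!
# The generic value of a Lie polynomial on `sp₄`
-/

namespace Pool.Agent.Lib.MP_d55432_al.Sp4

open Matrix MvPolynomial

attribute [local instance 100] LieRing.ofAssociativeRing

theorem mem_sp_iff {A : Type*} [CommRing A] (M : Matrix N4 N4 A) :
    M ∈ LieAlgebra.Symplectic.sp (Fin 2) A ↔
      Mᵀ * Matrix.J (Fin 2) A = -(Matrix.J (Fin 2) A * M) := by
  rw [LieAlgebra.Symplectic.sp, mem_skewAdjointMatricesLieSubalgebra,
    mem_skewAdjointMatricesSubmodule]
  simp only [Matrix.IsSkewAdjoint, Matrix.IsAdjointPair, Matrix.mul_neg]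

theorem spM_mem {A : Type*} [CommRing A] (f : Fin 10 → A) :
    spM f ∈ LieAlgebra.Symplectic.sp (Fin 2) A := by
  rw [mem_sp_iff, spM, Matrix.J, Matrix.fromBlocks_transpose, Matrix.fromBlocks_multiply,
    Matrix.fromBlocks_multiply, Matrix.fromBlocks_neg]
  congr 1 <;> ext a b <;> fin_cases a <;> fin_cases b <;> simp

theorem exists_spM {A : Type*} [CommRing A] (h : A) (hh : 2 * h = 1) (M : Matrix N4 N4 A)
    (hM : M ∈ LieAlgebra.Symplectic.sp (Fin 2) A) : ∃ f : Fin 10 → A, M = spM f := by
  rw [mem_sp_iff] at hM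
  obtain ⟨a, b, c, d, rfl⟩ : ∃ a b c d : Matrix (Fin 2) (Fin 2) A,
      M = Matrix.fromBlocks a b c d :=
    ⟨_, _, _, _, (Matrix.fromBlocks_toBlocks M).symm⟩
  rw [Matrix.J, Matrix.fromBlocks_transpose, Matrix.fromBlocks_multiply,
    Matrix.fromBlocks_multiply, Matrix.fromBlocks_neg, Matrix.fromBlocks_inj] at hM
  simp only [Matrix.mul_zero, Matrix.mul_one, zero_add, Matrix.mul_neg, add_zero,
    Matrix.zero_mul, Matrix.neg_mul, Matrix.one_mul, neg_neg] at hM
  obtain ⟨h1, h2, h3, h4⟩ := hM
  have hd : ∀ i j, d i j = -a j i := by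
    intro i j
    have := congrFun (congrFun h2 i) j
    simp only [Matrix.neg_apply, Matrix.transpose_apply] at this
    rw [← this]
  have hc : c 1 0 = c 0 1 := congrFun (congrFun h1 0) 1
  have hb : b 1 0 = b 0 1 := by
    have := congrFun (congrFun h4 0) 1
    simpa using this
  refine ⟨![h * (a 0 0 + a 1 1), h * (a 0 0 - a 1 1), h * (a 0 1 + a 1 0), h * (a 0 1 - a 1 0),
    h * h * (b 0 0 + b 1 1 + c 0 0 + c 1 1), h * h * (b 0 0 - b 1 1 + c 0 0 - c 1 1),
    h * (b 0 1 + c 0 1), h * h * (b 0 0 + b 1 1 - c 0 0 - c 1 1),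
    h * h * (b 0 0 - b 1 1 - c 0 0 + c 1 1), h * (b 0 1 - c 0 1)], ?_⟩
  rw [spM]
  congr 1
  · ext i j
    fin_cases i <;> fin_cases j <;> simp <;>
    first
    | linear_combination (-(a 0 0)) * hh
    | linear_combination (-(a 0 1)) * hh
    | linear_combination (-(a 1 0)) * hh
    | linear_combination (-(a 1 1)) * hh
  · ext i j
    fin_cases i <;> fin_cases j <;> simp <;>
    first
    | linear_combination (-(b 0 0)) * (2 * h + 1) * hh
    | linear_combination (-(b 0 1)) * hh
    | linear_combination hb - (b 0 1) * hh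
    | linear_combination (-(b 1 1)) * (2 * h + 1) * hh
  · ext i j
    fin_cases i <;> fin_cases j <;> simp <;>
    first
    | linear_combination (-(c 0 0)) * (2 * h + 1) * hh
    | linear_combination (-(c 0 1)) * hh
    | linear_combination hc - (c 0 1) * hh
    | linear_combination (-(c 1 1)) * (2 * h + 1) * hh
  · ext i j
    fin_cases i <;> fin_cases j <;> simp [hd] <;>
    first
    | linear_combination ((a 0 0)) * hh
    | linear_combination ((a 0 1)) * hh
    | linear_combination ((a 1 0)) * hh
    | linear_combination ((a 1 1)) * hh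

variable {K : Type*} [Field K]

/-- A Lie polynomial maps a Lie subalgebra into itself. -/
theorem lift_mem {L : Type*} [LieRing L] [LieAlgebra K L] (S : LieSubalgebra K L) {σ : Type*}
    (a : σ → L) (ha : ∀ i, a i ∈ S) (p : FreeLieAlgebra K σ) : FreeLieAlgebra.lift K a p ∈ S := by
  have h := map_lift S.incl (fun i => (⟨a i, ha i⟩ : S)) p
  have h2 : (fun i => S.incl (⟨a i, ha i⟩ : S)) = a := rfl
  rw [h2] at h
  rw [h]
  exact (FreeLieAlgebra.lift K (fun i => (⟨a i, ha i⟩ : S)) p).2

/-- `sp₄` over a commutative `K`-algebra as a Lie subalgebra over `K`. -/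
def spK (K : Type*) [Field K] (A : Type*) [CommRing A] [Algebra K A] :
    LieSubalgebra K (Matrix N4 N4 A) where
  carrier := {M | M ∈ LieAlgebra.Symplectic.sp (Fin 2) A}
  add_mem' := fun ha hb => (LieAlgebra.Symplectic.sp (Fin 2) A).add_mem ha hb
  zero_mem' := (LieAlgebra.Symplectic.sp (Fin 2) A).zero_mem
  smul_mem' := by
    intro c M hM
    have h : c • M = algebraMap K A c • M := by rw [algebraMap_smul]
    rw [h]
    exact (LieAlgebra.Symplectic.sp (Fin 2) A).smul_mem _ hM
  lie_mem' := fun ha hb => (LieAlgebra.Symplectic.sp (Fin 2) A).lie_mem ha hb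

theorem spM_injective {A : Type*} [CommRing A] (h : A) (hh : 2 * h = 1) (f g : Fin 10 → A)
    (hfg : spM f = spM g) : f = g := by
  rw [spM, spM, Matrix.fromBlocks_inj] at hfg
  obtain ⟨ha, hb, hc, _⟩ := hfg
  have a00 := congrFun (congrFun ha 0) 0
  have a01 := congrFun (congrFun ha 0) 1
  have a10 := congrFun (congrFun ha 1) 0
  have a11 := congrFun (congrFun ha 1) 1
  have b00 := congrFun (congrFun hb 0) 0
  have b01 := congrFun (congrFun hb 0) 1
  have b11 := congrFun (congrFun hb 1) 1
  have c00 := congrFun (congrFun hc 0) 0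
  have c01 := congrFun (congrFun hc 0) 1
  have c11 := congrFun (congrFun hc 1) 1
  simp at a00 a01 a10 a11 b00 b01 b11 c00 c01 c11
  funext k
  fin_cases k
  · change f 0 = g 0
    linear_combination h * a00 + h * a11 - (f 0 - g 0) * hh
  · change f 1 = g 1
    linear_combination h * a00 - h * a11 - (f 1 - g 1) * hh
  · change f 2 = g 2
    linear_combination h * a01 + h * a10 - (f 2 - g 2) * hh
  · change f 3 = g 3
    linear_combination h * a01 - h * a10 - (f 3 - g 3) * hh
  · change f 4 = g 4
    linear_combination h * h * (b00 + b11 + c00 + c11) - (f 4 - g 4) * (2 * h + 1) * hh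
  · change f 5 = g 5
    linear_combination h * h * (b00 - b11 + c00 - c11) - (f 5 - g 5) * (2 * h + 1) * hh
  · change f 6 = g 6
    linear_combination h * b01 + h * c01 - (f 6 - g 6) * hh
  · change f 7 = g 7
    linear_combination h * h * (b00 + b11 - c00 - c11) - (f 7 - g 7) * (2 * h + 1) * hh
  · change f 8 = g 8
    linear_combination h * h * (b00 - b11 - c00 + c11) - (f 8 - g 8) * (2 * h + 1) * hh
  · change f 9 = g 9
    linear_combination h * b01 - h * c01 - (f 9 - g 9) * hh

theorem map_spM {A B : Type*} [CommRing A] [CommRing B] (φ : A →+* B) (f : Fin 10 → A) :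
    (spM f).map φ = spM (fun k => φ (f k)) := by
  rw [spM, spM, Matrix.fromBlocks_map]
  congr 1 <;> ext a b <;> fin_cases a <;> fin_cases b <;> simp

section generic

variable [CharZero K]

variable (K) (m : ℕ)

/-- The polynomial ring in the coordinates of the variables. -/
abbrev R10 : Type _ := MvPolynomial (Fin m × Fin 10) K

/-- Signs of the variables. -/
def εv {m : ℕ} (j : Fin 4) (t : Fin m × Fin 10) : ℤ := sg j t.2

variable {K m}

/-- The generic value of a Lie polynomial. -/
theorem exists_generic (p : FreeLieAlgebra K (Fin m)) :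
    ∃ f : Fin 10 → R10 K m,
      (∀ v : Fin m × Fin 10 → K, FreeLieAlgebra.lift K
        (fun i => (spM (fun k => v (i, k)) : Matrix N4 N4 K)) p =
          spM (fun k => MvPolynomial.eval v (f k))) ∧
      (∀ j k, Degrees.sgnHom K (εv j) (f k) = C ((sg j k : ℤ) : K) * f k) := by
  have hh : (2 : R10 K m) * C (1 / 2) = 1 := by
    have : (2 : R10 K m) = C 2 := (map_ofNat C 2).symm
    rw [this, ← C_mul, ← C_1]
    congr 1
    norm_num
  let Xg : Fin m → Matrix N4 N4 (R10 K m) := fun i => spM (fun k => X (i, k))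
  have hmem : FreeLieAlgebra.lift K Xg p ∈ spK K (R10 K m) :=
    lift_mem (spK K (R10 K m)) Xg (fun i => spM_mem (fun k => X (i, k))) p
  obtain ⟨f, hf⟩ := exists_spM _ hh _ hmem
  refine ⟨f, ?_, ?_⟩
  · intro v
    have h1 := map_lift (MvPolynomial.aeval (R := K) v).mapMatrix.toLieHom Xg p
    rw [hf] at h1
    have h2 : ∀ M : Matrix N4 N4 (R10 K m),
        (MvPolynomial.aeval (R := K) v).mapMatrix.toLieHom M =
          M.map (MvPolynomial.eval v) := by
      intro M
      ext i j
      simp only [Matrix.map_apply, ← MvPolynomial.aeval_eq_eval]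
      rfl
    rw [h2, map_spM] at h1
    rw [← h1]
    congr 2
    funext i
    rw [h2, map_spM]
    congr 1
    funext k
    simp
  · intro j k
    have h1 := map_lift (Degrees.sgnHom K (εv j)).mapMatrix.toLieHom Xg p
    rw [hf] at h1
    have h2 : ∀ M : Matrix N4 N4 (R10 K m),
        (Degrees.sgnHom K (εv j)).mapMatrix.toLieHom M =
          M.map (Degrees.sgnHom K (εv j)).toRingHom := by
      intro M
      rfl
    rw [h2, map_spM] at h1
    -- conjugation
    let conj : Matrix N4 N4 (R10 K m) →ₗ⁅K⁆ Matrix N4 N4 (R10 K m) :=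
      { toFun := fun M => gP j * M * gP j
        map_add' := fun M N => by rw [Matrix.mul_add, Matrix.add_mul]
        map_smul' := fun c M => by
          rw [Matrix.mul_smul, Matrix.smul_mul]; rfl
        map_lie' := by
          intro M N
          have h3 : ∀ P Q : Matrix N4 N4 (R10 K m), gP j * (P * Q) * gP j =
              (gP j * P * gP j) * (gP j * Q * gP j) := by
            intro P Q
            calc gP j * (P * Q) * gP j = gP j * P * 1 * Q * gP j := by
                  rw [Matrix.mul_one]; simp only [Matrix.mul_assoc]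
              _ = _ := by
                  rw [← gP_sq j]; simp only [Matrix.mul_assoc]
          change gP j * (M * N - N * M) * gP j = _
          rw [Matrix.mul_sub, Matrix.sub_mul, h3, h3]
          rfl }
    have h4 := map_lift conj Xg p
    have h5 : (fun i => conj (Xg i)) =
        (fun i => (Degrees.sgnHom K (εv j)).mapMatrix.toLieHom (Xg i)) := by
      funext i
      rw [h2, map_spM]
      have h7 : conj (Xg i) = gP j * spM (fun k => X (i, k)) * gP j := rfl
      rw [h7, gP_conj]
      congr 1
      funext k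
      change _ = Degrees.sgnHom K (εv j) (X (i, k))
      rw [Degrees.sgnHom, aeval_X]
      simp [εv]
    rw [h5, h1, hf] at h4
    have h8 : conj (spM f) = gP j * spM f * gP j := rfl
    rw [h8, gP_conj] at h4
    have h6 := congrFun (spM_injective _ hh _ _ h4) k
    change Degrees.sgnHom K (εv j) (f k) = _ at h6
    rw [h6]
    simp

end generic

end Pool.Agent.Lib.MP_d55432_al.Sp4
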