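import Pool.Agent.Lib.MP_d55432_al.DetTrick

/-!
# Restriction of polynomials to lines
-/

namespace Pool.Agent.Lib.MP_d55432_al.Line

open MvPolynomial

variable {τ K : Type*} [Field K]

/-- Restriction of polynomials to the line `a + ε v`. -/
noncomputable def line (a v : τ → K) : MvPolynomial τ K →ₐ[K] Polynomial K :=
  aeval fun t => Polynomial.C (a t) + Polynomial.X * Polynomial.C (v t)

theorem eval_line (a v : τ → K) (P : MvPolynomial τ K) (ε : K) :
    Polynomial.eval ε (line a v P) = eval (a + ε • v) P := by
  induction P using MvPolynomial.induction_on with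
  | C c => simp [line]
  | add p q hp hq => rw [map_add, Polynomial.eval_add, hp, hq, map_add]
  | mul_X p i hp =>
    rw [map_mul, Polynomial.eval_mul, hp, map_mul]
    simp [line]
    left
    ring

theorem deriv_line (a v : τ → K) [Fintype τ] (P : MvPolynomial τ K) :
    Polynomial.eval 0 (Polynomial.derivative (line a v P)) = ∑ t, v t * eval a (pderiv t P) := by
  classical
  induction P using MvPolynomial.induction_on with
  | C c => simp [line]
  | add p q hp hq =>
    rw [map_add, Polynomial.derivative_add, Polynomial.eval_add, hp, hq, ← Finset.sum_add_distrib]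
    exact Finset.sum_congr rfl fun t _ => by rw [map_add, map_add, mul_add]
  | mul_X p i hp =>
    have h1 : Polynomial.eval 0 (line a v (X i)) = a i := by simp [line]
    have h2 : Polynomial.eval 0 (Polynomial.derivative (line a v (X i))) = v i := by simp [line]
    rw [map_mul, Polynomial.derivative_mul, Polynomial.eval_add, Polynomial.eval_mul,
      Polynomial.eval_mul, hp, h1, h2, eval_line, zero_smul, add_zero]
    have h3 : ∀ t, v t * eval a (pderiv t (p * X i)) =
        v t * eval a (pderiv t p) * a i + (if t = i then v t * eval a p else 0) := by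
      intro t
      rw [Derivation.leibniz, map_add, smul_eq_mul, smul_eq_mul, map_mul, map_mul, eval_X]
      by_cases h : t = i
      · subst h
        rw [pderiv_X_self, map_one, if_pos rfl]
        ring
      · rw [pderiv_X_of_ne (Ne.symm h), map_zero, if_neg h]
        ring
    simp only [h3]
    rw [Finset.sum_add_distrib, ← Finset.sum_mul, Finset.sum_ite_eq' Finset.univ i,
      if_pos (Finset.mem_univ i)]
    ring

/-- The derivative of a polynomial which vanishes on a line. -/
theorem deriv_zero [Infinite K] [Fintype τ] (a v : τ → K) (P : MvPolynomial τ K)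
    (h : ∀ ε : K, eval (a + ε • v) P = 0) : ∑ t, v t * eval a (pderiv t P) = 0 := by
  have h1 : line a v P = 0 := by
    apply Polynomial.funext
    intro ε
    rw [eval_line, h, Polynomial.eval_zero]
  rw [← deriv_line, h1, Polynomial.derivative_zero, Polynomial.eval_zero]

/-- Transformation of derivatives under a linear substitution which multiplies `P` by a
constant. -/
theorem deriv_subst [Infinite K] [Fintype τ] (Λ : (τ → K) →ₗ[K] (τ → K)) (c : K)
    (P : MvPolynomial τ K) (h : ∀ a, eval (Λ a) P = c * eval a P) (a v : τ → K) :
    ∑ t, Λ v t * eval (Λ a) (pderiv t P) = c * ∑ t, v t * eval a (pderiv t P) := by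
  have h1 : line (Λ a) (Λ v) P = Polynomial.C c * line a v P := by
    apply Polynomial.funext
    intro ε
    rw [eval_line, Polynomial.eval_mul, Polynomial.eval_C, eval_line, ← h, map_add, map_smul]
  rw [← deriv_line, h1, Polynomial.derivative_C_mul, Polynomial.eval_mul, Polynomial.eval_C,
    deriv_line]

/-- A polynomial divisible by and dividing its linear transform. -/
theorem exists_const_of_dvd (P Q : MvPolynomial τ K) (h1 : P ∣ Q) (h2 : Q ∣ P) :
    ∃ c : K, c ≠ 0 ∧ Q = C c * P := by
  obtain ⟨u, hu⟩ := associated_of_dvd_dvd h1 h2
  obtain ⟨r, hr, hru⟩ := MvPolynomial.isUnit_iff_eq_C_of_isReduced.1 u.isUnit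
  refine ⟨r, hr.ne_zero, ?_⟩
  rw [← hu, hru, mul_comm]

end Pool.Agent.Lib.MP_d55432_al.Line
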