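import Pool.Agent.Lib.MP_d55432_al.Burnside

/-!
# Operators on spaces of functions closed under brackets, and multipliers
-/

namespace Pool.Agent.Lib.MP_d55432_al.Ops

open LieAlgebra Module

variable {K : Type*} [Field K] {L : Type*} [LieRing L] [LieAlgebra K L]

section closed

variable {X : Type*}

/-- A space of `L`-valued functions closed under pointwise brackets. -/
def LieClosed (M : Submodule K (X → L)) : Prop :=
  ∀ f ∈ M, ∀ g ∈ M, (fun x => ⁅f x, g x⁆) ∈ M

variable (M : Submodule K (X → L))

/-- Operator-valued functions which preserve `M` together with a Killing adjoint. -/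
def Op : Subalgebra K (X → Module.End K L) where
  carrier := {T | (∀ f ∈ M, (fun x => T x (f x)) ∈ M) ∧ ∃ T' : X → Module.End K L,
    (∀ x u v, killingForm K L (T x u) v = killingForm K L u (T' x v)) ∧
    ∀ f ∈ M, (fun x => T' x (f x)) ∈ M}
  mul_mem' := by
    rintro S T ⟨hS, S', hS', hS''⟩ ⟨hT, T', hT', hT''⟩
    refine ⟨fun f hf => hS _ (hT f hf), fun x => T' x * S' x, ?_, fun f hf => hT'' _ (hS'' f hf)⟩
    intro x u v
    rw [Pi.mul_apply, Module.End.mul_apply, Module.End.mul_apply, hS', hT']
  add_mem' := by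
    rintro S T ⟨hS, S', hS', hS''⟩ ⟨hT, T', hT', hT''⟩
    refine ⟨fun f hf => M.add_mem (hS f hf) (hT f hf), fun x => S' x + T' x, ?_,
      fun f hf => M.add_mem (hS'' f hf) (hT'' f hf)⟩
    intro x u v
    rw [Pi.add_apply, LinearMap.add_apply, LinearMap.add_apply, map_add, LinearMap.add_apply,
      map_add, hS', hT']
  algebraMap_mem' := by
    intro c
    have h : ∀ f ∈ M, (fun x => (algebraMap K (X → Module.End K L) c) x (f x)) ∈ M := by
      intro f hf
      exact M.smul_mem c hf
    refine ⟨h, algebraMap K (X → Module.End K L) c, ?_, h⟩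
    intro x u v
    change killingForm K L (c • u) v = killingForm K L u (c • v)
    rw [map_smul, map_smul, LinearMap.smul_apply]

variable {M}

theorem Op.apply_mem {T : X → Module.End K L} (hT : T ∈ Op M) {f : X → L} (hf : f ∈ M) :
    (fun x => T x (f x)) ∈ M := hT.1 f hf

theorem ad_mem (hM : LieClosed M) {f : X → L} (hf : f ∈ M) :
    (fun x => ad K L (f x)) ∈ Op M := by
  refine ⟨fun g hg => hM f hf g hg, fun x => -ad K L (f x), ?_, ?_⟩
  · intro x u v
    rw [LieAlgebra.ad_apply, LinearMap.neg_apply, LieAlgebra.ad_apply, ← lie_skew, map_neg,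
      map_neg, LinearMap.neg_apply, killingForm, LieModule.traceForm_apply_lie_apply]
  · intro g hg
    have := M.neg_mem (hM f hf g hg)
    exact this

theorem freeAlgebra_mem (hM : LieClosed M) {ι : Type*} {a : ι → X → L} (ha : ∀ i, a i ∈ M)
    (P : FreeAlgebra K ι) :
    (fun x => FreeAlgebra.lift K (fun i => ad K L (a i x)) P) ∈ Op M := by
  induction P using FreeAlgebra.induction with
  | grade0 r =>
    convert (Op M).algebraMap_mem r using 1
    funext x
    rw [AlgHom.commutes]
    rfl
  | grade1 i =>
    simp only [FreeAlgebra.lift_ι_apply]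
    exact ad_mem hM (ha i)
  | mul p q hp hq =>
    convert (Op M).mul_mem hp hq using 1
    funext x
    rw [map_mul]
    rfl
  | add p q hp hq =>
    convert (Op M).add_mem hp hq using 1
    funext x
    rw [map_add]
    rfl

end closed

section Phi

/-- The iterated bracket `[T₀ z₀, S [T₁ z₁, S [… , S c]]]`. -/
noncomputable def PhiM (S : Module.End K L) (c : L) :
    (k : ℕ) → (T : Fin k → Module.End K L) → MultilinearMap K (fun _ : Fin k => L) L
  | 0, _ => MultilinearMap.constOfIsEmpty K _ c
  | (k + 1), T =>
    LinearMap.uncurryLeft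
      { toFun := fun t => ((ad K L (T 0 t) : Module.End K L) ∘ₗ S).compMultilinearMap
          (PhiM S c k (fun i => T i.succ))
        map_add' := by
          intro s t
          ext z
          simp
        map_smul' := by
          intro r t
          ext z
          simp }

theorem PhiM_succ (S : Module.End K L) (c : L) (k : ℕ) (T : Fin (k + 1) → Module.End K L)
    (z : Fin (k + 1) → L) :
    PhiM S c (k + 1) T z = ⁅T 0 (z 0), S (PhiM S c k (fun i => T i.succ) (Fin.tail z))⁆ := by
  rw [PhiM]
  rfl

theorem PhiM_value (S : Module.End K L) (c v b : L) (hS : S c = b) (hvb : ⁅v, b⁆ = c) :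
    ∀ (k : ℕ) (T : Fin k → Module.End K L) (θ : Fin k → Module.Dual K L)
      (_ : ∀ j t, T j t = θ j t • v) (z : Fin k → L),
      PhiM S c k T z = (∏ j, θ j (z j)) • c := by
  intro k
  induction k with
  | zero => intro T θ _ z; simp [PhiM]
  | succ k ih =>
    intro T θ hT z
    rw [PhiM_succ, ih (fun i => T i.succ) (fun i => θ i.succ) (fun j t => hT _ _) (Fin.tail z),
      map_smul, hS, hT, smul_lie, lie_smul, hvb, Fin.prod_univ_succ, smul_smul]
    rfl

variable {X : Type*} {M : Submodule K (X → L)}

theorem PhiM_mem (hM : LieClosed M) {S : X → Module.End K L} (hS : S ∈ Op M) {c : X → L}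
    (hc : c ∈ M) : ∀ (k : ℕ) (T : Fin k → X → Module.End K L) (_ : ∀ j, T j ∈ Op M)
      (z : Fin k → X → L) (_ : ∀ j, z j ∈ M),
      (fun x => PhiM (S x) (c x) k (fun j => T j x) (fun j => z j x)) ∈ M := by
  intro k
  induction k with
  | zero =>
    intro T _ z _
    exact hc
  | succ k ih =>
    intro T hT z hz
    simp only [PhiM_succ]
    exact hM _ ((hT 0).1 _ (hz 0)) _ (hS.1 _ (ih (fun i => T i.succ) (fun i => hT _)
      (fun i => z i.succ) (fun i => hz _)))

theorem PhiM_slot (hM : LieClosed M) {S : X → Module.End K L} (hS : S ∈ Op M) {c : X → L}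
    (hc : c ∈ M) : ∀ (k : ℕ) (T : Fin k → X → Module.End K L) (_ : ∀ j, T j ∈ Op M)
      (z : Fin k → X → L) (_ : ∀ j, z j ∈ M) (i : Fin k),
      ∃ O ∈ Op M, ∀ x t, PhiM (S x) (c x) k (fun j => T j x)
        (Function.update (fun j => z j x) i t) = O x t := by
  intro k
  induction k with
  | zero => intro T _ z _ i; exact i.elim0
  | succ k ih =>
    intro T hT z hz i
    refine Fin.cases ?_ (fun j => ?_) i
    · have h1 : (fun x => S x (PhiM (S x) (c x) k (fun j => T j.succ x) (fun j => z j.succ x)))
          ∈ M := hS.1 _ (PhiM_mem hM hS hc k (fun i => T i.succ) (fun i => hT _)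
          (fun i => z i.succ) (fun i => hz _))
      refine ⟨(fun x => -ad K L (S x (PhiM (S x) (c x) k (fun j => T j.succ x)
        (fun j => z j.succ x)))) * T 0, (Op M).mul_mem ((Op M).neg_mem (ad_mem hM h1)) (hT 0), ?_⟩
      intro x t
      rw [PhiM_succ, Function.update_self]
      have h2 : Fin.tail (Function.update (fun j => z j x) 0 t) = fun j => z j.succ x := by
        funext j
        simp [Fin.tail]
      rw [h2, ← lie_skew]
      rfl
    · obtain ⟨O, hO, hO'⟩ := ih (fun i => T i.succ) (fun i => hT _)
          (fun i => z i.succ) (fun i => hz _) j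
      refine ⟨(fun x => ad K L (T 0 x (z 0 x))) * S * O,
        (Op M).mul_mem ((Op M).mul_mem (ad_mem hM ((hT 0).1 _ (hz 0))) hS) hO, ?_⟩
      intro x t
      rw [PhiM_succ]
      have h2 : Fin.tail (Function.update (fun j => z j x) j.succ t) =
          Function.update (fun j => z j.succ x) j t := by
        funext i
        simp only [Fin.tail, Function.update_apply, Fin.succ_inj]
      have h3 : Function.update (fun j => z j x) j.succ t 0 = z 0 x := by
        rw [Function.update_of_ne (Fin.succ_ne_zero j).symm]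
      rw [h2, hO', h3]
      rfl

/-- The alternatization of `PhiM`. -/
noncomputable def DM (S : Module.End K L) (c : L) (n : ℕ) (T : Fin n → Module.End K L) :
    L [⋀^Fin n]→ₗ[K] L :=
  MultilinearMap.alternatization (PhiM S c n T)

theorem DM_mem (hM : LieClosed M) {S : X → Module.End K L} (hS : S ∈ Op M) {c : X → L}
    (hc : c ∈ M) (n : ℕ) (T : Fin n → X → Module.End K L) (hT : ∀ j, T j ∈ Op M)
      (z : Fin n → X → L) (hz : ∀ j, z j ∈ M) :
      (fun x => DM (S x) (c x) n (fun j => T j x) (fun j => z j x)) ∈ M := by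
  simp only [DM, MultilinearMap.alternatization_apply]
  have : ∀ σ : Equiv.Perm (Fin n), (fun x => (Equiv.Perm.sign σ) •
      (PhiM (S x) (c x) n (fun j => T j x)).domDomCongr σ (fun j => z j x)) ∈ M := by
    intro σ
    have h1 := PhiM_mem hM hS hc n T hT (fun j => z (σ j)) (fun j => hz _)
    have h2 := M.smul_mem ((Equiv.Perm.sign σ : ℤˣ) : K) h1
    convert h2 using 1
    funext x
    rw [Pi.smul_apply, Int.cast_smul_eq_zsmul, Units.smul_def, MultilinearMap.domDomCongr_apply]
  have h3 := M.sum_mem (t := Finset.univ) (fun σ _ => this σ)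
  convert h3 using 1
  funext x
  simp

theorem DM_slot (hM : LieClosed M) {S : X → Module.End K L} (hS : S ∈ Op M) {c : X → L}
    (hc : c ∈ M) (n : ℕ) (T : Fin n → X → Module.End K L) (hT : ∀ j, T j ∈ Op M)
      (z : Fin n → X → L) (hz : ∀ j, z j ∈ M) (i : Fin n) :
      ∃ O ∈ Op M, ∀ x t, DM (S x) (c x) n (fun j => T j x)
        (Function.update (fun j => z j x) i t) = O x t := by
  have : ∀ σ : Equiv.Perm (Fin n), ∃ O ∈ Op M, ∀ x t, (Equiv.Perm.sign σ) •
      (PhiM (S x) (c x) n (fun j => T j x)).domDomCongr σ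
        (Function.update (fun j => z j x) i t) = O x t := by
    intro σ
    obtain ⟨O, hO, hO'⟩ := PhiM_slot hM hS hc n T hT (fun j => z (σ j)) (fun j => hz _)
      (σ.symm i)
    refine ⟨((Equiv.Perm.sign σ : ℤˣ) : K) • O, (Op M).smul_mem hO _, ?_⟩
    intro x t
    rw [MultilinearMap.domDomCongr_apply]
    have h1 : (fun j => Function.update (fun j => z j x) i t (σ j)) =
        Function.update (fun j => z (σ j) x) (σ.symm i) t := by
      funext j
      simp only [Function.update_apply, Equiv.eq_symm_apply]
    rw [h1, hO', Pi.smul_apply, LinearMap.smul_apply, Units.smul_def, Int.cast_smul_eq_zsmul]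
  choose O hO hO' using this
  refine ⟨∑ σ, O σ, (Op M).sum_mem fun σ _ => hO σ, ?_⟩
  intro x t
  rw [DM, MultilinearMap.alternatization_apply, Finset.sum_apply, LinearMap.sum_apply]
  exact Finset.sum_congr rfl fun σ _ => hO' σ x t

end Phi

section det

/-- An alternating map is determined by its value on a basis. -/
theorem alternating_eq_det_smul {n : ℕ} (e : Basis (Fin n) K L) (g : L [⋀^Fin n]→ₗ[K] L)
    (z : Fin n → L) : g z = e.det z • g e := by
  have h : g = (LinearMap.toSpanSingleton K L (g e)).compAlternatingMap e.det := by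
    refine Basis.ext_alternating e ?_
    intro v hv
    let σ : Equiv.Perm (Fin n) := Equiv.ofBijective v (Finite.injective_iff_bijective.1 hv)
    have h1 : (fun i => e (v i)) = e ∘ σ := rfl
    rw [h1, AlternatingMap.map_perm, LinearMap.compAlternatingMap_apply, AlternatingMap.map_perm,
      Basis.det_self]
    simp only [Units.smul_def, LinearMap.toSpanSingleton_apply]
    rw [← Int.cast_smul_eq_zsmul K, ← Int.cast_smul_eq_zsmul K]
    simp
  conv_lhs => rw [h]
  simp

theorem sum_det_update {n : ℕ} (e : Basis (Fin n) K L) (Y : Module.End K L) (z : Fin n → L) :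
    ∑ i, e.det (Function.update z i (Y (z i))) = LinearMap.trace K L Y * e.det z := by
  classical
  have h1 : ∀ i, e.det (Function.update z i (Y (z i))) =
      ((e.toMatrix z).adjugate * (LinearMap.toMatrix e e Y * e.toMatrix z)) i i := by
    intro i
    rw [Basis.det_apply, Basis.toMatrix_update, ← Matrix.cramer_apply,
      Matrix.cramer_eq_adjugate_mulVec, Matrix.mul_apply_eq_vecMul]
    have h2 : e.repr (Y (z i)) = (LinearMap.toMatrix e e Y).mulVec (fun k => e.toMatrix z k i) := by
      have := LinearMap.toMatrix_mulVec_repr e e Y (z i)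
      exact this.symm
    rw [h2]
    rfl
  rw [Finset.sum_congr rfl fun i _ => h1 i]
  change Matrix.trace _ = _
  rw [Matrix.trace_mul_comm, Matrix.mul_assoc, Matrix.mul_adjugate, LinearMap.trace_eq_matrix_trace K e Y,
    Matrix.mul_smul, Matrix.mul_one, Matrix.trace_smul, Basis.det_apply]
  rw [smul_eq_mul, mul_comm]

end det

section multiplier

variable {X : Type*} {M : Submodule K (X → L)}
  [LieAlgebra.IsKilling K L]

theorem multiplier_mem (hM : LieClosed M) {n : ℕ} (e : Basis (Fin n) K L)
    {S : X → Module.End K L} (hS : S ∈ Op M) {c : X → L}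
    (hc : c ∈ M) (T : Fin n → X → Module.End K L) (hT : ∀ j, T j ∈ Op M)
    (z : Fin n → X → L) (hz : ∀ j, z j ∈ M) (s : X → L) (hs : s ∈ M) (f : X → L) (hf : f ∈ M) :
    (fun x => (killingForm K L (DM (S x) (c x) n (fun j => T j x) e) (s x) *
      e.det (fun j => z j x)) • f x) ∈ M := by
  have h1 := fun i => DM_slot hM hS hc n T hT z hz i
  choose O hO hO' using h1
  choose hOM O' hO'' hOM' using hO
  have h2 : ∀ x, (killingForm K L (DM (S x) (c x) n (fun j => T j x) e) (s x) *
      e.det (fun j => z j x)) • f x = ∑ i, ⁅z i x, ⁅O' i x (s x), f x⁆⁆ := by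
    intro x
    have hnd := LieAlgebra.IsKilling.killingForm_nondegenerate K L
    have hnd' : ∀ a b : L, (∀ v, killingForm K L a v = killingForm K L b v) → a = b := by
      intro a b hab
      rw [← sub_eq_zero]
      apply hnd.1
      intro v
      rw [map_sub, LinearMap.sub_apply, hab, sub_self]
    apply hnd'
    intro v
    rw [map_sum, LinearMap.sum_apply]
    have h3 : ∀ i, killingForm K L ⁅z i x, ⁅O' i x (s x), f x⁆⁆ v =
        killingForm K L (DM (S x) (c x) n (fun j => T j x) e) (s x) *
        e.det (Function.update (fun j => z j x) i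
          (((ad K L (f x)) * (ad K L v) : Module.End K L) (z i x))) := by
      intro i
      have h4 : killingForm K L ⁅z i x, ⁅O' i x (s x), f x⁆⁆ v =
          killingForm K L ⁅f x, ⁅v, z i x⁆⁆ (O' i x (s x)) := by
        have e1 : killingForm K L ⁅z i x, ⁅O' i x (s x), f x⁆⁆ v =
            - killingForm K L ⁅⁅O' i x (s x), f x⁆, z i x⁆ v := by
          rw [← lie_skew, map_neg, LinearMap.neg_apply]
        rw [e1, killingForm, LieModule.traceForm_apply_lie_apply,
          LieModule.traceForm_apply_lie_apply, LieModule.traceForm_comm, ← lie_skew v (z i x),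
          lie_neg, map_neg, LinearMap.neg_apply]
      rw [h4, ← hO'', ← hO', alternating_eq_det_smul e, map_smul, LinearMap.smul_apply,
        smul_eq_mul, mul_comm]
      rfl
    rw [Finset.sum_congr rfl fun i _ => h3 i, ← Finset.mul_sum, sum_det_update, map_smul,
      LinearMap.smul_apply, smul_eq_mul, mul_assoc, mul_comm (e.det _)]
    rfl
  have h5 : (fun x => (killingForm K L (DM (S x) (c x) n (fun j => T j x) e) (s x) *
      e.det (fun j => z j x)) • f x) = ∑ i, fun x => ⁅z i x, ⁅O' i x (s x), f x⁆⁆ := by
    funext x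
    rw [h2, Finset.sum_apply]
  rw [h5]
  exact M.sum_mem fun i _ => hM _ (hz i) _ (hM _ (hOM' i s hs) _ hf)

end multiplier

end Pool.Agent.Lib.MP_d55432_al.Ops
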