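import Pool.Agent.Lib.MP_d55432_al.Defs
import Pool.Agent.Lib.MP_d55432_al.FieldGen

/-!
# Equivariant polynomial maps in coordinates with respect to a generic basis
-/

namespace Pool.Agent.Lib.MP_d55432_al

open LieAlgebra Module

variable {K : Type*} [Field K] {L : Type*} [LieRing L] [LieAlgebra K L]

section twolayer

variable {n m : ℕ}

/-- The tuple with coordinates `ξ` with respect to `y`. -/
def comb (ξ : Fin n × Fin m → K) (y : Fin n → L) : Fin m → L := fun j => ∑ l, ξ (l, j) • y l

/-- Evaluation at a point, as a ring homomorphism on polynomial functions. -/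
def evPoint (y : Fin n → L) : PolyFun K L (Fin n) →+* K :=
  (Pi.evalRingHom (fun _ => K) y).comp (PolyFun K L (Fin n)).val.toRingHom

/-- Two-layer polynomial functions of `(ξ, y)`. -/
def TwoLayer (K L : Type*) [Field K] [LieRing L] [LieAlgebra K L] (n m : ℕ) :
    Subalgebra K ((Fin n × Fin m → K) × (Fin n → L) → K) where
  carrier := {F | ∃ G : MvPolynomial (Fin n × Fin m) (PolyFun K L (Fin n)), ∀ ξ y,
    F (ξ, y) = MvPolynomial.eval ξ (MvPolynomial.map (evPoint y) G)}
  mul_mem' := by
    rintro F F' ⟨G, hG⟩ ⟨G', hG'⟩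
    exact ⟨G * G', fun ξ y => by rw [Pi.mul_apply, hG, hG', map_mul, map_mul]⟩
  add_mem' := by
    rintro F F' ⟨G, hG⟩ ⟨G', hG'⟩
    exact ⟨G + G', fun ξ y => by rw [Pi.add_apply, hG, hG', map_add, map_add]⟩
  algebraMap_mem' := by
    intro c
    refine ⟨MvPolynomial.C (algebraMap K (PolyFun K L (Fin n)) c), fun ξ y => ?_⟩
    rw [MvPolynomial.map_C, MvPolynomial.eval_C]
    rfl

theorem twoLayer_y (l : Fin n) (ψ : Module.Dual K L) :
    (fun p : (Fin n × Fin m → K) × (Fin n → L) => ψ (p.2 l)) ∈ TwoLayer K L n m := by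
  refine ⟨MvPolynomial.C ⟨_, PolyFun_coord l ψ⟩, fun ξ y => ?_⟩
  rw [MvPolynomial.map_C, MvPolynomial.eval_C]
  rfl

theorem twoLayer_ξ (q : Fin n × Fin m) :
    (fun p : (Fin n × Fin m → K) × (Fin n → L) => p.1 q) ∈ TwoLayer K L n m := by
  refine ⟨MvPolynomial.X q, fun ξ y => ?_⟩
  rw [MvPolynomial.map_X, MvPolynomial.eval_X]

theorem twoLayer_comb (g : (Fin m → L) → K) (hg : g ∈ PolyFun K L (Fin m)) :
    (fun p : (Fin n × Fin m → K) × (Fin n → L) => g (comb p.1 p.2)) ∈ TwoLayer K L n m := by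
  refine PolyFun_comp (TwoLayer K L n m) g hg (fun j p => comb p.1 p.2 j) ?_
  intro j ψ
  have h : (fun p : (Fin n × Fin m → K) × (Fin n → L) => ψ (comb p.1 p.2 j)) =
      ∑ l, (fun p : (Fin n × Fin m → K) × (Fin n → L) => p.1 (l, j)) *
        (fun p : (Fin n × Fin m → K) × (Fin n → L) => ψ (p.2 l)) := by
    funext p
    rw [Finset.sum_apply]
    simp only [comb, map_sum, map_smul, smul_eq_mul, Pi.mul_apply]
  rw [h]
  exact (TwoLayer K L n m).sum_mem fun l _ =>
    (TwoLayer K L n m).mul_mem (twoLayer_ξ _) (twoLayer_y _ _)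

theorem twoLayer_det (e : Basis (Fin n) K L) (f : (Fin m → L) → L)
    (hf : ∀ ψ : Module.Dual K L, (fun a => ψ (f a)) ∈ PolyFun K L (Fin m)) (i : Fin n) :
    (fun p : (Fin n × Fin m → K) × (Fin n → L) =>
      e.det (Function.update p.2 i (f (comb p.1 p.2)))) ∈ TwoLayer K L n m := by
  refine det_mem (TwoLayer K L n m) e (fun l p => Function.update p.2 i (f (comb p.1 p.2)) l) ?_
  intro l ψ
  by_cases h : l = i
  · subst h
    simp only [Function.update_self]
    exact twoLayer_comb (fun a => ψ (f a)) (hf ψ)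
  · simp only [Function.update_of_ne h]
    exact twoLayer_y l ψ

end twolayer

section stageA

variable {n m : ℕ}

/-- The structure constants with respect to `y`. -/
noncomputable def gam (e : Basis (Fin n) K L) (y : Fin n → L) (q : Fin n × Fin n × Fin n) : K :=
  e.det (Function.update y q.2.2 ⁅y q.1, y q.2.1⁆) / e.det y

/-- The coordinates with respect to `y`. -/
noncomputable def crd (e : Basis (Fin n) K L) (y : Fin n → L) (x : Fin m → L)
    (q : Fin n × Fin m) : K :=
  e.det (Function.update y q.1 (x q.2)) / e.det y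

theorem comb_crd (e : Basis (Fin n) K L) (y : Fin n → L) (hy : e.det y ≠ 0) (x : Fin m → L) :
    comb (crd e y x) y = x := by
  funext j
  exact (cramer_smul e y hy (x j)).symm

theorem gam_num_mem (e : Basis (Fin n) K L) (q : Fin n × Fin n × Fin n) :
    (fun y : Fin n → L => e.det (Function.update y q.2.2 ⁅y q.1, y q.2.1⁆)) ∈
      PolyFun K L (Fin n) := by
  refine det_mem (PolyFun K L (Fin n)) e
    (fun l y => Function.update y q.2.2 ⁅y q.1, y q.2.1⁆ l) ?_
  intro l ψ
  by_cases h : l = q.2.2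
  · subst h
    simp only [Function.update_self]
    have h1 : (fun y : Fin n → L => ψ ⁅y q.1, y q.2.1⁆) =
        ∑ i, ∑ j, ψ ⁅e i, e j⁆ • ((fun y : Fin n → L => e.coord i (y q.1)) *
          (fun y : Fin n → L => e.coord j (y q.2.1))) := by
      funext y
      conv_lhs => rw [← e.sum_repr (y q.1), ← e.sum_repr (y q.2.1), sum_lie, map_sum]
      rw [Finset.sum_apply]
      refine Finset.sum_congr rfl fun i _ => ?_
      rw [lie_sum, map_sum, Finset.sum_apply]
      refine Finset.sum_congr rfl fun j _ => ?_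
      rw [smul_lie, lie_smul, map_smul, map_smul, smul_eq_mul, smul_eq_mul, Pi.smul_apply,
        Pi.mul_apply, smul_eq_mul, Basis.coord_apply, Basis.coord_apply]
      ring
    rw [h1]
    exact Subalgebra.sum_mem _ fun i _ => Subalgebra.sum_mem _ fun j _ =>
      Subalgebra.smul_mem _ (Subalgebra.mul_mem _ (PolyFun_coord _ _) (PolyFun_coord _ _)) _
  · simp only [Function.update_of_ne h]
    exact PolyFun_coord l ψ

theorem stageA [IsAlgClosed K] [CharZero K] (e : Basis (Fin n) K L) (f : (Fin m → L) → L)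
    (hf : ∀ ψ : Module.Dual K L, (fun a => ψ (f a)) ∈ PolyFun K L (Fin m))
    (heq : ∀ (φ : L ≃ₗ⁅K⁆ L) a, f (fun i => φ (a i)) = φ (f a)) :
    ∃ (Q : MvPolynomial (Fin n × Fin n × Fin n) K)
      (P : Fin n → MvPolynomial ((Fin n × Fin n × Fin n) ⊕ (Fin n × Fin m)) K),
      (∃ y : Fin n → L, e.det y ≠ 0 ∧ MvPolynomial.eval (gam e y) Q ≠ 0) ∧
      ∀ (y : Fin n → L) (x : Fin m → L), e.det y ≠ 0 →
        MvPolynomial.eval (gam e y) Q • f x =
          ∑ i, MvPolynomial.eval (Sum.elim (gam e y) (crd e y x)) (P i) • y i := by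
  classical
  have hG := fun i => twoLayer_det (m := m) e f hf i
  choose G hG using hG
  -- coordinates
  let tup : (Fin n × Fin n → K) → (Fin n → L) := fun v i => ∑ k, v (i, k) • e k
  have htup : ∀ v, (fun ik : Fin n × Fin n => e.repr (tup v ik.1) ik.2) = v := by
    intro v
    funext ⟨i, k⟩
    simp only [tup, e.repr_sum_self]
  have htup' : ∀ y : Fin n → L, tup (fun ik : Fin n × Fin n => e.repr (y ik.1) ik.2) = y := by
    intro y
    funext i
    exact e.sum_repr (y i)
  -- polynomials
  obtain ⟨Δ, hΔ⟩ := exists_mvPolynomial e (fun y => e.det y)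
    (det_mem (PolyFun K L (Fin n)) e (fun l y => y l) (fun l ψ => PolyFun_coord l ψ))
  have hN := fun q => exists_mvPolynomial e _ (gam_num_mem e q)
  choose N hN using hN
  have hR := fun (j : Σ i : Fin n, {β // β ∈ (G i).support}) =>
    exists_mvPolynomial e _ (MvPolynomial.coeff j.2.1 (G j.1)).2
  choose R hR using hR
  have hΔv : ∀ v, MvPolynomial.eval v Δ = e.det (tup v) := by
    intro v; rw [hΔ, htup]
  have hNv : ∀ v q, MvPolynomial.eval v (N q) =
      e.det (Function.update (tup v) q.2.2 ⁅(tup v) q.1, (tup v) q.2.1⁆) := by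
    intro v q; rw [hN, htup]
  have hRv : ∀ v j, MvPolynomial.eval v (R j) =
      (MvPolynomial.coeff j.2.1 (G j.1)).1 (tup v) := by
    intro v j; rw [hR, htup]
  have hΔ0 : Δ ≠ 0 := by
    intro h0
    have := hΔ e
    rw [h0, map_zero, Basis.det_self] at this
    exact one_ne_zero this
  obtain ⟨Q, P, ⟨v₀, hv₀, hQ₀⟩, hPQ⟩ := FieldGen.rational_of_fibre_const N Δ hΔ0 R (by
    intro v v' hv hv' hγ j
    rw [hΔv] at hv hv'
    have hγ' : ∀ i j k, e.det (Function.update (tup v) k ⁅(tup v) i, (tup v) j⁆) / e.det (tup v) =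
        e.det (Function.update (tup v') k ⁅(tup v') i, (tup v') j⁆) / e.det (tup v') := by
      intro i j k
      have := hγ (i, j, k)
      rwa [hNv, hNv, hΔv, hΔv] at this
    obtain ⟨φ, hφ⟩ := exists_equiv e (tup v) (tup v') hv hv' hγ'
    rw [hRv, hRv, hΔv, hΔv]
    -- compare the polynomials in ξ
    have hpol : ∀ i, MvPolynomial.C (e.det (tup v))⁻¹ *
        MvPolynomial.map (evPoint (tup v)) (G i) =
        MvPolynomial.C (e.det (tup v'))⁻¹ * MvPolynomial.map (evPoint (tup v')) (G i) := by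
      intro i
      apply MvPolynomial.funext
      intro ξ
      rw [map_mul, map_mul, MvPolynomial.eval_C, MvPolynomial.eval_C, ← hG, ← hG]
      simp only
      have hcomb : comb ξ (tup v') = fun j => φ (comb ξ (tup v) j) := by
        funext j
        simp only [comb, map_sum, map_smul, hφ]
      rw [hcomb, heq]
      set t := f (comb ξ (tup v)) with ht
      have h1 := cramer_smul e (tup v) hv t
      have h2 : φ t = ∑ i, (e.det (Function.update (tup v) i t) / e.det (tup v)) • (tup v') i := by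
        conv_lhs => rw [h1]
        rw [map_sum]
        exact Finset.sum_congr rfl fun i _ => by rw [map_smul, hφ]
      rw [repr_mul_det e (tup v') (φ t) _ h2 i]
      field_simp
    have := congrArg (MvPolynomial.coeff j.2.1) (hpol j.1)
    rw [MvPolynomial.coeff_C_mul, MvPolynomial.coeff_C_mul, MvPolynomial.coeff_map,
      MvPolynomial.coeff_map] at this
    rw [div_eq_inv_mul, div_eq_inv_mul]
    exact this)
  have hgam : ∀ v, (fun q => MvPolynomial.eval v (N q) / MvPolynomial.eval v Δ) =
      gam e (tup v) := by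
    intro v
    funext q
    rw [hNv, hΔv]
    rfl
  refine ⟨Q, fun i => ∑ β : {β // β ∈ (G i).support}, MvPolynomial.rename Sum.inl (P ⟨i, β⟩) *
    ∏ q, MvPolynomial.X (Sum.inr q) ^ (β.1 q), ⟨tup v₀, ?_, ?_⟩, ?_⟩
  · rwa [← hΔv]
  · rwa [← hgam]
  · intro y x hy
    let v : Fin n × Fin n → K := fun ik => e.repr (y ik.1) ik.2
    have hv : tup v = y := htup' y
    have hf' : f x = ∑ i, (e.det (Function.update y i (f x)) / e.det y) • y i :=
      cramer_smul e y hy (f x)
    conv_lhs => rw [hf']
    rw [Finset.smul_sum]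
    refine Finset.sum_congr rfl fun i _ => ?_
    rw [smul_smul]
    congr 1
    have h1 : e.det (Function.update y i (f x)) =
        ∑ β : {β // β ∈ (G i).support}, (MvPolynomial.coeff β.1 (G i)).1 y *
          ∏ q, crd e y x q ^ (β.1 q) := by
      have h2 := hG i (crd e y x) y
      simp only [comb_crd e y hy x] at h2
      rw [h2, MvPolynomial.eval_map, MvPolynomial.eval₂_eq', ← Finset.sum_attach]
      rfl
    rw [h1, map_sum, Finset.sum_div, Finset.mul_sum]
    refine Finset.sum_congr rfl fun β _ => ?_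
    rw [map_mul, MvPolynomial.eval_rename, map_prod]
    simp only [map_pow, MvPolynomial.eval_X, Sum.elim_inr, Sum.elim_comp_inl]
    have h3 := hPQ ⟨i, β⟩ v (by rw [hΔv, hv]; exact hy)
    rw [hgam, hv, hRv, hΔv, hv] at h3
    rw [← h3]
    ring

end stageA

end Pool.Agent.Lib.MP_d55432_al
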