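import Pool.Agent.Lib.MP_d55432_al.StageA

/-!
# Equivariant polynomial maps become Lie polynomials after multiplication by a scalar function
-/

namespace Pool.Agent.Lib.MP_d55432_al

open LieAlgebra Module

variable {K : Type*} [Field K] {L : Type*} [LieRing L] [LieAlgebra K L]

/-- Scalar functions which preserve a space of `L`-valued functions. -/
def Mult {X : Type*} (M : Submodule K (X → L)) : Subalgebra K (X → K) where
  carrier := {c | ∀ f ∈ M, (fun x => c x • f x) ∈ M}
  mul_mem' := by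
    intro c d hc hd f hf
    have := hc _ (hd f hf)
    simpa [mul_smul] using this
  add_mem' := by
    intro c d hc hd f hf
    have := M.add_mem (hc f hf) (hd f hf)
    convert this using 1
    funext x
    simp [add_smul]
  algebraMap_mem' := by
    intro c f hf
    exact M.smul_mem c hf

theorem exists_good {X : Type*} (A : Subalgebra K (X → K)) {α : Type*} (u₀ : X → K)
    (hu₀ : u₀ ∈ A) (u : α → X → K) (hu : ∀ i, u i ∈ A) (Q : MvPolynomial α K) :
    ∃ (D : ℕ), ∃ w ∈ A, ∀ x, w x = u₀ x ^ (D + 1) *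
      MvPolynomial.eval (fun i => u i x / u₀ x) Q := by
  induction Q using MvPolynomial.induction_on with
  | C c =>
    refine ⟨0, c • u₀, A.smul_mem hu₀ c, fun x => ?_⟩
    rw [Pi.smul_apply, smul_eq_mul, MvPolynomial.eval_C]
    ring
  | add p q hp hq =>
    obtain ⟨D₁, w₁, hw₁, h₁⟩ := hp
    obtain ⟨D₂, w₂, hw₂, h₂⟩ := hq
    refine ⟨D₁ + D₂ + 1, w₁ * u₀ ^ (D₂ + 1) + w₂ * u₀ ^ (D₁ + 1),
      A.add_mem (A.mul_mem hw₁ (A.pow_mem hu₀ _)) (A.mul_mem hw₂ (A.pow_mem hu₀ _)), fun x => ?_⟩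
    rw [Pi.add_apply, Pi.mul_apply, Pi.mul_apply, Pi.pow_apply, Pi.pow_apply, h₁, h₂, map_add]
    ring
  | mul_X p i hp =>
    obtain ⟨D₁, w₁, hw₁, h₁⟩ := hp
    refine ⟨D₁ + 1, w₁ * u i, A.mul_mem hw₁ (hu i), fun x => ?_⟩
    rw [Pi.mul_apply, h₁, map_mul, MvPolynomial.eval_X]
    by_cases h : u₀ x = 0
    · rw [h]; simp
    · rw [pow_succ (u₀ x) (D₁ + 1)]
      field_simp

theorem DM_value {n : ℕ} (e : Basis (Fin n) K L) (S : Module.End K L) (c v b : L)
    (hS : S c = b) (hvb : ⁅v, b⁆ = c) (T : Fin n → Module.End K L)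
    (hT : ∀ j t, T j t = e.coord j t • v) : Ops.DM S c n T e = c := by
  classical
  rw [Ops.DM, MultilinearMap.alternatization_apply, Finset.sum_eq_single 1]
  · rw [MultilinearMap.domDomCongr_apply,
      Ops.PhiM_value S c v b hS hvb n T (fun j => e.coord j) hT]
    simp
  · intro σ _ hσ
    rw [MultilinearMap.domDomCongr_apply,
      Ops.PhiM_value S c v b hS hvb n T (fun j => e.coord j) hT]
    have h1 : ∃ j, σ j ≠ j := by
      by_contra hcon
      push Not at hcon
      exact hσ (Equiv.ext hcon)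
    obtain ⟨j, hj⟩ := h1
    have h2 : (∏ j, e.coord j (e (σ j))) = 0 := by
      apply Finset.prod_eq_zero (Finset.mem_univ j)
      rw [Basis.coord_apply, Basis.repr_self, Finsupp.single_apply, if_neg hj]
    rw [h2, zero_smul, smul_zero]
  · intro h
    exact absurd (Finset.mem_univ _) h

/-- The auxiliary letters. -/
abbrev Aux (n : ℕ) : Type := Fin n ⊕ (Fin n ⊕ Unit)

theorem stageB [IsAlgClosed K] [CharZero K] [FiniteDimensional K L] [LieAlgebra.IsSimple K L]
    {m : ℕ} (f : (Fin m → L) → L)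
    (hf : ∀ ψ : Module.Dual K L, (fun a => ψ (f a)) ∈ PolyFun K L (Fin m))
    (heq : ∀ (φ : L ≃ₗ⁅K⁆ L) a, f (fun i => φ (a i)) = φ (f a)) :
    ∃ (n : ℕ) (c : (Aux n → L) → K), (∃ w, c w ≠ 0) ∧
      (fun a : (Fin m ⊕ Aux n) → L =>
        c (fun i => a (Sum.inr i)) • f (fun i => a (Sum.inl i))) ∈ LP K L (Fin m ⊕ Aux n) := by
  classical
  let n := Module.finrank K L
  let e : Basis (Fin n) K L := Module.finBasis K L
  obtain ⟨Q, P, ⟨y₁, hy₁, hQ₁⟩, hQP⟩ := stageA (n := n) (m := m) e f hf heq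
  -- nonabelian
  have hna : ∃ v b : L, ⁅v, b⁆ ≠ 0 := by
    by_contra hcon
    push Not at hcon
    exact LieAlgebra.IsSimple.non_abelian (R := K) (L := L) ⟨hcon⟩
  obtain ⟨v, b, hvb⟩ := hna
  obtain ⟨θ, hθ⟩ : ∃ θ : Module.Dual K L, θ ⁅v, b⁆ = 1 := by
    have h1 : ∃ θ : Module.Dual K L, θ ⁅v, b⁆ ≠ 0 := by
      by_contra hcon
      push Not at hcon
      exact hvb ((Module.forall_dual_apply_eq_zero_iff K _).1 hcon)
    obtain ⟨θ, hθ⟩ := h1
    exact ⟨(θ ⁅v, b⁆)⁻¹ • θ, by simp [inv_mul_cancel₀ hθ]⟩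
  -- operators
  obtain ⟨PS, hPS⟩ := Burnside.exists_freeAlgebra e (LinearMap.toSpanSingleton K L b ∘ₗ θ)
  have hPT := fun j : Fin n =>
    Burnside.exists_freeAlgebra e (LinearMap.toSpanSingleton K L v ∘ₗ (e.coord j))
  choose PT hPT using hPT
  -- functions of the auxiliary letters
  let yW : (Aux n → L) → Fin n → L := fun w i => w (Sum.inl i)
  let aW : (Aux n → L) → Fin n → L := fun w i => w (Sum.inr (Sum.inl i))
  let sW : (Aux n → L) → L := fun w => w (Sum.inr (Sum.inr ()))
  let SW : (Aux n → L) → Module.End K L :=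
    fun w => FreeAlgebra.lift K (fun i => ad K L (aW w i)) PS
  let TW : Fin n → (Aux n → L) → Module.End K L :=
    fun j w => FreeAlgebra.lift K (fun i => ad K L (aW w i)) (PT j)
  let cW : (Aux n → L) → L := fun w => ∑ i, e.repr ⁅v, b⁆ i • aW w i
  let κW : (Aux n → L) → K := fun w =>
    killingForm K L (Ops.DM (SW w) (cW w) n (fun j => TW j w) e) (sW w)
  let uW : (Aux n → L) → K := fun w => κW w * e.det (yW w)
  -- pulled back to all letters
  let σ := Fin m ⊕ Aux n
  let M := LP K L σ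
  let pr : (σ → L) → (Aux n → L) := fun a i => a (Sum.inr i)
  let xx : (σ → L) → Fin m → L := fun a i => a (Sum.inl i)
  have hM : Ops.LieClosed M := LP_closed σ
  have hyM : ∀ i, (fun a : σ → L => yW (pr a) i) ∈ M := fun i => LP_coord _
  have haM : ∀ i, (fun a : σ → L => aW (pr a) i) ∈ M := fun i => LP_coord _
  have hsM : (fun a : σ → L => sW (pr a)) ∈ M := LP_coord _
  have hxM : ∀ i, (fun a : σ → L => xx a i) ∈ M := fun i => LP_coord _
  have hSM : (fun a : σ → L => SW (pr a)) ∈ Ops.Op M := Ops.freeAlgebra_mem hM haM PS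
  have hTM : ∀ j, (fun a : σ → L => TW j (pr a)) ∈ Ops.Op M := fun j =>
    Ops.freeAlgebra_mem hM haM (PT j)
  have hcM : (fun a : σ → L => cW (pr a)) ∈ M := by
    have h1 : (fun a : σ → L => cW (pr a)) =
        ∑ i, e.repr ⁅v, b⁆ i • (fun a : σ → L => aW (pr a) i) := by
      funext a
      rw [Finset.sum_apply]
      rfl
    rw [h1]
    exact M.sum_mem fun i _ => M.smul_mem _ (haM i)
  have hmult : ∀ (z : Fin n → (σ → L) → L) (_ : ∀ j, z j ∈ M),
      (fun a : σ → L => κW (pr a) * e.det (fun j => z j a)) ∈ Mult M := by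
    intro z hz g hg
    exact Ops.multiplier_mem hM e hSM hcM (fun j a => TW j (pr a)) hTM z hz _ hsM g hg
  -- the multipliers
  let u₀ : (σ → L) → K := fun a => uW (pr a)
  have hu₀ : u₀ ∈ Mult M := hmult (fun j a => yW (pr a) j) hyM
  let u : ((Fin n × Fin n × Fin n) ⊕ (Fin n × Fin m)) → (σ → L) → K := fun q a =>
    Sum.elim (fun q : Fin n × Fin n × Fin n => κW (pr a) *
        e.det (Function.update (yW (pr a)) q.2.2 ⁅yW (pr a) q.1, yW (pr a) q.2.1⁆))
      (fun q : Fin n × Fin m => κW (pr a) *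
        e.det (Function.update (yW (pr a)) q.1 (xx a q.2))) q
  have hu : ∀ q, u q ∈ Mult M := by
    rintro (q | q)
    · refine hmult (fun j a => Function.update (yW (pr a)) q.2.2
        ⁅yW (pr a) q.1, yW (pr a) q.2.1⁆ j) ?_
      intro j
      by_cases h : j = q.2.2
      · subst h
        simp only [Function.update_self]
        exact hM _ (hyM _) _ (hyM _)
      · simp only [Function.update_of_ne h]
        exact hyM j
    · refine hmult (fun j a => Function.update (yW (pr a)) q.1 (xx a q.2) j) ?_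
      intro j
      by_cases h : j = q.1
      · subst h
        simp only [Function.update_self]
        exact hxM _
      · simp only [Function.update_of_ne h]
        exact hyM j
  have hratio : ∀ a, u₀ a ≠ 0 → (fun q => u q a / u₀ a) =
      Sum.elim (gam e (yW (pr a))) (crd e (yW (pr a)) (xx a)) := by
    intro a ha
    have h1 : κW (pr a) ≠ 0 := (mul_ne_zero_iff.1 ha).1
    have h2 : e.det (yW (pr a)) ≠ 0 := (mul_ne_zero_iff.1 ha).2
    funext q
    rcases q with q | q
    · change κW (pr a) * _ / (κW (pr a) * e.det (yW (pr a))) = gam e (yW (pr a)) q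
      rw [mul_div_mul_left _ _ h1]
      rfl
    · change κW (pr a) * _ / (κW (pr a) * e.det (yW (pr a))) = crd e (yW (pr a)) (xx a) q
      rw [mul_div_mul_left _ _ h1]
      rfl
  have hw := fun i => exists_good (Mult M) u₀ hu₀ u hu (P i)
  choose D w hwM hw using hw
  let E : ℕ := (∑ i, (D i + 1)) + 1
  have hE : ∀ i, D i + 1 + (E - (D i + 1)) = E := by
    intro i
    have : D i + 1 ≤ ∑ i, (D i + 1) :=
      Finset.single_le_sum (f := fun i => D i + 1) (fun _ _ => Nat.zero_le _) (Finset.mem_univ i)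
    omega
  refine ⟨n, fun w => uW w ^ E * MvPolynomial.eval (gam e (yW w)) Q, ?_, ?_⟩
  · -- nonvanishing
    have hDM : ∀ w : Aux n → L, aW w = e → Ops.DM (SW w) (cW w) n (fun j => TW j w) e = ⁅v, b⁆ := by
      intro w hw
      have h1 : cW w = ⁅v, b⁆ := by
        simp only [cW, hw]
        exact e.sum_repr _
      rw [h1]
      refine DM_value e (SW w) ⁅v, b⁆ v b ?_ rfl _ ?_
      · simp only [SW, hw]
        rw [hPS, LinearMap.comp_apply, hθ, LinearMap.toSpanSingleton_apply, one_smul]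
      · intro j t
        simp only [TW, hw]
        rw [hPT, LinearMap.comp_apply, LinearMap.toSpanSingleton_apply]
    obtain ⟨s₀, hs₀⟩ : ∃ s₀, killingForm K L ⁅v, b⁆ s₀ ≠ 0 := by
      by_contra hcon
      push Not at hcon
      exact hvb ((LieAlgebra.IsKilling.killingForm_nondegenerate K L).1 _ hcon)
    refine ⟨Sum.elim y₁ (Sum.elim e (fun _ => s₀)), ?_⟩
    refine mul_ne_zero (pow_ne_zero _ (mul_ne_zero ?_ hy₁)) hQ₁
    simp only [κW]
    rw [hDM _ rfl]
    exact hs₀
  · have hfin : (fun a : σ → L => (uW (pr a) ^ E * MvPolynomial.eval (gam e (yW (pr a))) Q) •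
        f (xx a)) = ∑ i, fun a => (w i * u₀ ^ (E - (D i + 1))) a • yW (pr a) i := by
      funext a
      rw [Finset.sum_apply]
      by_cases h : u₀ a = 0
      · have h1 : uW (pr a) ^ E = 0 := by
          change u₀ a ^ E = 0
          rw [h]
          exact zero_pow (Nat.succ_ne_zero _)
        rw [h1, zero_mul, zero_smul]
        symm
        apply Finset.sum_eq_zero
        intro i _
        rw [Pi.mul_apply, hw i a, h, zero_pow (Nat.succ_ne_zero _), zero_mul, zero_mul, zero_smul]
      · have h2 : e.det (yW (pr a)) ≠ 0 := (mul_ne_zero_iff.1 h).2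
        rw [mul_smul, hQP (yW (pr a)) (xx a) h2, Finset.smul_sum]
        refine Finset.sum_congr rfl fun i _ => ?_
        rw [Pi.mul_apply, Pi.pow_apply, hw i a, hratio a h, smul_smul]
        congr 1
        change u₀ a ^ E * _ = _
        conv_lhs => rw [← hE i, pow_add]
        ring
    change (fun a : σ → L => (uW (pr a) ^ E * MvPolynomial.eval (gam e (yW (pr a))) Q) •
        f (xx a)) ∈ M
    rw [hfin]
    exact M.sum_mem fun i _ =>
      (Mult M).mul_mem (hwM i) ((Mult M).pow_mem hu₀ _) _ (hyM i)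

end Pool.Agent.Lib.MP_d55432_al
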