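import Pool.Agent.Lib.MP_d55432_al.StageB

/-!
# Semi-equivariant polynomial maps in coordinates with respect to a generic basis
-/

namespace Pool.Agent.Lib.MP_d55432_al

open LieAlgebra Module

variable {K : Type*} [Field K] {L : Type*} [LieRing L] [LieAlgebra K L]

variable {n m : ℕ}

/-- A product of two polynomial functions which vanishes identically has a vanishing factor. -/
theorem polyFun_domain [Infinite K] (e : Basis (Fin n) K L) {σ : Type*} {f g : (σ → L) → K}
    (hf : f ∈ PolyFun K L σ) (hg : g ∈ PolyFun K L σ) (hf0 : ∃ a, f a ≠ 0)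
    (h : ∀ a, f a * g a = 0) : ∀ a, g a = 0 := by
  obtain ⟨P, hP⟩ := exists_mvPolynomial e f hf
  obtain ⟨Q, hQ⟩ := exists_mvPolynomial e g hg
  have hPQ : P * Q = 0 := by
    apply MvPolynomial.funext
    intro v
    have h1 := h (fun i => ∑ k, v (i, k) • e k)
    have h2 : (fun ik : σ × Fin n => e.repr (∑ k, v (ik.1, k) • e k) ik.2) = v := by
      funext ⟨i, k⟩
      simp only [e.repr_sum_self]
    rw [hP, hQ, h2] at h1
    rw [map_mul, map_zero]
    exact h1
  obtain ⟨a, ha⟩ := hf0
  rcases mul_eq_zero.1 hPQ with h1 | h1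
  · exfalso
    apply ha
    rw [hP, h1, map_zero]
  · intro b
    rw [hQ, h1, map_zero]

/-- The value of the coordinate expression as a polynomial function after multiplication by a
power of the determinant. -/
theorem exists_scaled (e : Basis (Fin n) K L)
    (P : Fin n → MvPolynomial ((Fin n × Fin n × Fin n) ⊕ (Fin n × Fin m)) K) (x : Fin m → L) :
    ∃ M : ℕ, ∀ ψ : Module.Dual K L, ∃ w ∈ PolyFun K L (Fin n), ∀ y,
      w y = e.det y ^ (M + 1) * ψ (∑ i, MvPolynomial.eval
        (Sum.elim (gam e y) (crd e y x)) (P i) • y i) := by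
  classical
  have hdet : (fun y : Fin n → L => e.det y) ∈ PolyFun K L (Fin n) :=
    det_mem (PolyFun K L (Fin n)) e (fun l y => y l) (fun l ψ => PolyFun_coord l ψ)
  let u : ((Fin n × Fin n × Fin n) ⊕ (Fin n × Fin m)) → (Fin n → L) → K := fun q y =>
    Sum.elim (fun q : Fin n × Fin n × Fin n =>
        e.det (Function.update y q.2.2 ⁅y q.1, y q.2.1⁆))
      (fun q : Fin n × Fin m => e.det (Function.update y q.1 (x q.2))) q
  have hu : ∀ q, u q ∈ PolyFun K L (Fin n) := by
    rintro (q | q)
    · exact gam_num_mem e q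
    · refine det_mem (PolyFun K L (Fin n)) e
        (fun l y => Function.update y q.1 (x q.2) l) ?_
      intro l ψ
      by_cases h : l = q.1
      · subst h
        simp only [Function.update_self]
        exact Subalgebra.algebraMap_mem _ _
      · simp only [Function.update_of_ne h]
        exact PolyFun_coord l ψ
  have hratio : ∀ y, (fun q => u q y / e.det y) = Sum.elim (gam e y) (crd e y x) := by
    intro y
    funext q
    rcases q with q | q <;> rfl
  have hw := fun i => exists_good (PolyFun K L (Fin n)) _ hdet u hu (P i)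
  choose D w hwM hw using hw
  let E : ℕ := ∑ i, (D i + 1)
  have hE : ∀ i, D i + 1 + (E - (D i + 1)) = E := by
    intro i
    have : D i + 1 ≤ ∑ i, (D i + 1) :=
      Finset.single_le_sum (f := fun i => D i + 1) (fun _ _ => Nat.zero_le _) (Finset.mem_univ i)
    omega
  refine ⟨E, fun ψ => ⟨∑ i, w i * (fun y : Fin n → L => e.det y) ^ (E - (D i + 1) + 1) *
    (fun y => ψ (y i)), ?_, ?_⟩⟩
  · exact Subalgebra.sum_mem _ fun i _ => Subalgebra.mul_mem _ (Subalgebra.mul_mem _ (hwM i)
      (Subalgebra.pow_mem _ hdet _)) (PolyFun_coord _ _)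
  · intro y
    rw [Finset.sum_apply, map_sum, Finset.mul_sum]
    refine Finset.sum_congr rfl fun i _ => ?_
    rw [Pi.mul_apply, Pi.mul_apply, Pi.pow_apply, hw i y, hratio, map_smul, smul_eq_mul]
    have h1 : e.det y ^ (E + 1) = e.det y ^ (D i + 1) * e.det y ^ (E - (D i + 1) + 1) := by
      rw [← pow_add, ← add_assoc, hE]
    rw [h1]
    ring

theorem stageS [IsAlgClosed K] [CharZero K] (e : Basis (Fin n) K L) (f : (Fin m → L) → L)
    (hf : ∀ ψ : Module.Dual K L, (fun a => ψ (f a)) ∈ PolyFun K L (Fin m))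
    (heq : ∀ φ : L ≃ₗ⁅K⁆ L, ∃ c : K, c ≠ 0 ∧ ∀ a, f (fun i => φ (a i)) = c • φ (f a))
    (hne : ∃ x, f x ≠ 0) :
    ∃ (ρ : (Fin n → L) → K)
      (P : Fin n → MvPolynomial ((Fin n × Fin n × Fin n) ⊕ (Fin n × Fin m)) K),
      (∃ y : Fin n → L, e.det y ≠ 0 ∧ ρ y ≠ 0) ∧
      ∀ (y : Fin n → L) (x : Fin m → L), e.det y ≠ 0 →
        ρ y • f x = ∑ i, MvPolynomial.eval (Sum.elim (gam e y) (crd e y x)) (P i) • y i := by
  classical
  obtain ⟨x₀, hx₀⟩ := hne
  have hG := fun i => twoLayer_det (m := m) e f hf i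
  choose G hG using hG
  -- coordinates
  let tup : (Fin n × Fin n → K) → (Fin n → L) := fun v i => ∑ k, v (i, k) • e k
  have htup : ∀ v, (fun ik : Fin n × Fin n => e.repr (tup v ik.1) ik.2) = v := by
    intro v
    funext ⟨i, k⟩
    simp only [tup, e.repr_sum_self]
  have htup' : ∀ y : Fin n → L, tup (fun ik : Fin n × Fin n => e.repr (y ik.1) ik.2) = y := by
    intro y
    funext i
    exact e.sum_repr (y i)
  -- polynomials
  obtain ⟨Δ, hΔ⟩ := exists_mvPolynomial e (fun y => e.det y)
    (det_mem (PolyFun K L (Fin n)) e (fun l y => y l) (fun l ψ => PolyFun_coord l ψ))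
  have hN := fun q => exists_mvPolynomial e _ (gam_num_mem e q)
  choose N hN using hN
  have hR := fun (j : Σ i : Fin n, {β // β ∈ (G i).support}) =>
    exists_mvPolynomial e _ (MvPolynomial.coeff j.2.1 (G j.1)).2
  choose R hR using hR
  have hΔv : ∀ v, MvPolynomial.eval v Δ = e.det (tup v) := by
    intro v; rw [hΔ, htup]
  have hNv : ∀ v q, MvPolynomial.eval v (N q) =
      e.det (Function.update (tup v) q.2.2 ⁅(tup v) q.1, (tup v) q.2.1⁆) := by
    intro v q; rw [hN, htup]
  have hRv : ∀ v j, MvPolynomial.eval v (R j) =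
      (MvPolynomial.coeff j.2.1 (G j.1)).1 (tup v) := by
    intro v j; rw [hR, htup]
  have hΔ0 : Δ ≠ 0 := by
    intro h0
    have := hΔ e
    rw [h0, map_zero, Basis.det_self] at this
    exact one_ne_zero this
  -- expansion of the coordinates of `f`
  have hexp : ∀ (y : Fin n → L) (x : Fin m → L), e.det y ≠ 0 → ∀ i,
      e.det (Function.update y i (f x)) =
        ∑ β : {β // β ∈ (G i).support}, (MvPolynomial.coeff β.1 (G i)).1 y *
          ∏ q, crd e y x q ^ (β.1 q) := by
    intro y x hy i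
    have h2 := hG i (crd e y x) y
    simp only [comb_crd e y hy x] at h2
    rw [h2, MvPolynomial.eval_map, MvPolynomial.eval₂_eq', ← Finset.sum_attach]
    rfl
  obtain ⟨j₀, hj₀⟩ : ∃ j, R j ≠ 0 := by
    by_contra hcon
    push Not at hcon
    apply hx₀
    have he : e.det e ≠ 0 := by rw [Basis.det_self]; exact one_ne_zero
    have h1 := cramer_smul e e he (f x₀)
    rw [h1]
    apply Finset.sum_eq_zero
    intro i _
    have h2 := hexp e x₀ he i
    have h3 : e.det (Function.update (⇑e) i (f x₀)) = 0 := by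
      rw [h2]
      apply Finset.sum_eq_zero
      intro β _
      have h4 := hRv (fun ik => e.repr (e ik.1) ik.2) ⟨i, β⟩
      rw [hcon, map_zero, htup' e] at h4
      simp only at h4
      rw [← h4, zero_mul]
    rw [h3, zero_div, zero_smul]
  obtain ⟨Q, P, ⟨v₀, hv₀, hQ₀⟩, hPQ⟩ := FieldGen.rational_of_fibre_const
    (fun q => N q * R j₀) (Δ * R j₀) (mul_ne_zero hΔ0 hj₀) (fun j => R j * Δ) (by
    intro v v' hv hv' hγ j
    rw [map_mul] at hv hv'
    have hR0 := (mul_ne_zero_iff.1 hv).2
    have hR0' := (mul_ne_zero_iff.1 hv').2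
    have hv := (mul_ne_zero_iff.1 hv).1
    have hv' := (mul_ne_zero_iff.1 hv').1
    simp only [map_mul] at hγ ⊢
    rw [mul_comm (MvPolynomial.eval v (R j)), mul_comm (MvPolynomial.eval v' (R j)),
      mul_div_mul_left _ _ hv, mul_div_mul_left _ _ hv']
    have hγ0 : ∀ q, MvPolynomial.eval v (N q) / MvPolynomial.eval v Δ =
        MvPolynomial.eval v' (N q) / MvPolynomial.eval v' Δ := by
      intro q
      have := hγ q
      rwa [mul_div_mul_right _ _ hR0, mul_div_mul_right _ _ hR0'] at this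
    rw [hΔv] at hv hv'
    have hγ' : ∀ i j k, e.det (Function.update (tup v) k ⁅(tup v) i, (tup v) j⁆) / e.det (tup v) =
        e.det (Function.update (tup v') k ⁅(tup v') i, (tup v') j⁆) / e.det (tup v') := by
      intro i j k
      have := hγ0 (i, j, k)
      rwa [hNv, hNv, hΔv, hΔv] at this
    obtain ⟨φ, hφ⟩ := exists_equiv e (tup v) (tup v') hv hv' hγ'
    obtain ⟨c, hc0, hc⟩ := heq φ
    -- compare the polynomials in ξ
    have hpol : ∀ i, MvPolynomial.C (c * (e.det (tup v))⁻¹) *
        MvPolynomial.map (evPoint (tup v)) (G i) =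
        MvPolynomial.C (e.det (tup v'))⁻¹ * MvPolynomial.map (evPoint (tup v')) (G i) := by
      intro i
      apply MvPolynomial.funext
      intro ξ
      rw [MvPolynomial.eval_mul, MvPolynomial.eval_mul, MvPolynomial.eval_C, MvPolynomial.eval_C,
        ← hG, ← hG]
      simp only
      have hcomb : comb ξ (tup v') = fun j => φ (comb ξ (tup v) j) := by
        funext j
        simp only [comb, map_sum, map_smul, hφ]
      rw [hcomb, hc]
      set t := f (comb ξ (tup v)) with ht
      have h1 := cramer_smul e (tup v) hv t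
      have h2 : c • φ t = ∑ i, (c * (e.det (Function.update (tup v) i t) / e.det (tup v))) •
          (tup v') i := by
        conv_lhs => rw [h1]
        rw [map_sum, Finset.smul_sum]
        exact Finset.sum_congr rfl fun i _ => by rw [map_smul, hφ, smul_smul]
      rw [repr_mul_det e (tup v') (c • φ t) _ h2 i]
      field_simp
    have hco : ∀ j : Σ i : Fin n, {β // β ∈ (G i).support},
        c * (e.det (tup v))⁻¹ * (MvPolynomial.coeff j.2.1 (G j.1)).1 (tup v) =
        (e.det (tup v'))⁻¹ * (MvPolynomial.coeff j.2.1 (G j.1)).1 (tup v') := by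
      intro j
      have := congrArg (MvPolynomial.coeff j.2.1) (hpol j.1)
      rw [MvPolynomial.coeff_C_mul, MvPolynomial.coeff_C_mul, MvPolynomial.coeff_map,
        MvPolynomial.coeff_map] at this
      exact this
    rw [hRv] at hR0 hR0'
    rw [hRv, hRv, hRv, hRv, div_eq_div_iff hR0 hR0']
    have e1 := hco j
    have e2 := hco j₀
    have hv1 := inv_ne_zero hv
    have hv2 := inv_ne_zero hv'
    have e3 : (c * (e.det (tup v))⁻¹ * (e.det (tup v'))⁻¹) *
        ((MvPolynomial.coeff j.2.1 (G j.1)).1 (tup v) *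
          (MvPolynomial.coeff j₀.2.1 (G j₀.1)).1 (tup v')) =
        (c * (e.det (tup v))⁻¹ * (e.det (tup v'))⁻¹) *
        ((MvPolynomial.coeff j.2.1 (G j.1)).1 (tup v') *
          (MvPolynomial.coeff j₀.2.1 (G j₀.1)).1 (tup v)) := by
      linear_combination ((e.det (tup v'))⁻¹ *
        (MvPolynomial.coeff j₀.2.1 (G j₀.1)).1 (tup v')) * e1 -
        ((e.det (tup v'))⁻¹ * (MvPolynomial.coeff j.2.1 (G j.1)).1 (tup v')) * e2
    exact mul_left_cancel₀ (mul_ne_zero (mul_ne_zero hc0 hv1) hv2) e3)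
  have hgam : ∀ v, MvPolynomial.eval v (R j₀) ≠ 0 →
      (fun q => MvPolynomial.eval v (N q * R j₀) / MvPolynomial.eval v (Δ * R j₀)) =
      gam e (tup v) := by
    intro v hv
    funext q
    rw [map_mul, map_mul, mul_div_mul_right _ _ hv, hNv, hΔv]
    rfl
  let PP : Fin n → MvPolynomial ((Fin n × Fin n × Fin n) ⊕ (Fin n × Fin m)) K := fun i =>
    ∑ β : {β // β ∈ (G i).support}, MvPolynomial.rename Sum.inl (P ⟨i, β⟩) *
    ∏ q, MvPolynomial.X (Sum.inr q) ^ (β.1 q)
  let T : (Fin n → L) → (Fin m → L) → L := fun y x =>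
    ∑ i, MvPolynomial.eval (Sum.elim (gam e y) (crd e y x)) (PP i) • y i
  let R₀ : (Fin n → L) → K := fun y =>
    (MvPolynomial.coeff j₀.2.1 (G j₀.1)).1 y
  have hT : ∀ y x, e.det y ≠ 0 → R₀ y ≠ 0 →
      T y x = (MvPolynomial.eval (gam e y) Q * e.det y / R₀ y) • f x := by
    intro y x hy hRy
    let v : Fin n × Fin n → K := fun ik => e.repr (y ik.1) ik.2
    have hv : tup v = y := htup' y
    have hRv0 : MvPolynomial.eval v (R j₀) = R₀ y := by rw [hRv, hv]
    have hf' : f x = ∑ i, (e.det (Function.update y i (f x)) / e.det y) • y i :=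
      cramer_smul e y hy (f x)
    conv_rhs => rw [hf']
    rw [Finset.smul_sum]
    refine Finset.sum_congr rfl fun i _ => ?_
    rw [smul_smul]
    congr 1
    rw [hexp y x hy i, map_sum, Finset.sum_div, Finset.mul_sum]
    refine Finset.sum_congr rfl fun β _ => ?_
    rw [map_mul, MvPolynomial.eval_rename, map_prod]
    simp only [map_pow, MvPolynomial.eval_X, Sum.elim_inr, Sum.elim_comp_inl]
    have h3 := hPQ ⟨i, β⟩ v (by
      rw [map_mul]
      exact mul_ne_zero (by rw [hΔv, hv]; exact hy) (by rw [hRv0]; exact hRy))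
    rw [hgam v (by rw [hRv0]; exact hRy), hv, map_mul, map_mul, hRv, hΔv, hv, hRv0] at h3
    rw [← h3]
    field_simp
  obtain ⟨k, hk⟩ : ∃ k, e.coord k (f x₀) ≠ 0 := by
    by_contra hcon
    push Not at hcon
    apply hx₀
    rw [← e.sum_repr (f x₀)]
    apply Finset.sum_eq_zero
    intro i _
    have := hcon i
    rw [Basis.coord_apply] at this
    rw [this, zero_smul]
  refine ⟨fun y => e.coord k (T y x₀) / e.coord k (f x₀), PP, ?_, ?_⟩
  · have hv₀' := mul_ne_zero_iff.1 (by rw [← map_mul]; exact hv₀ :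
      MvPolynomial.eval v₀ Δ * MvPolynomial.eval v₀ (R j₀) ≠ 0)
    have h1 : e.det (tup v₀) ≠ 0 := by rw [← hΔv]; exact hv₀'.1
    have h2 : R₀ (tup v₀) ≠ 0 := by
      have := hv₀'.2
      rwa [hRv] at this
    refine ⟨tup v₀, h1, ?_⟩
    rw [hgam v₀ hv₀'.2] at hQ₀
    change e.coord k (T (tup v₀) x₀) / e.coord k (f x₀) ≠ 0
    rw [hT _ _ h1 h2, map_smul, smul_eq_mul, mul_div_assoc, div_self hk, mul_one]
    exact div_ne_zero (mul_ne_zero hQ₀ h1) h2
  · intro y x hy
    change _ = T y x
    -- compare coordinates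
    have key : ∀ l, e.coord k (T y x₀) * e.coord l (f x) = e.coord k (f x₀) * e.coord l (T y x) := by
      intro l
      obtain ⟨M₁, hM₁⟩ := exists_scaled e PP x₀
      obtain ⟨w₁, hw₁, hw₁e⟩ := hM₁ (e.coord k)
      obtain ⟨M₂, hM₂⟩ := exists_scaled e PP x
      obtain ⟨w₂, hw₂, hw₂e⟩ := hM₂ (e.coord l)
      have hdet : (fun y : Fin n → L => e.det y) ∈ PolyFun K L (Fin n) :=
        det_mem (PolyFun K L (Fin n)) e (fun l y => y l) (fun l ψ => PolyFun_coord l ψ)
      let g : (Fin n → L) → K := (e.coord l (f x)) • (w₁ * (fun y => e.det y) ^ (M₂ + 1)) -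
        (e.coord k (f x₀)) • (w₂ * (fun y => e.det y) ^ (M₁ + 1))
      have hg : g ∈ PolyFun K L (Fin n) := Subalgebra.sub_mem _
        (Subalgebra.smul_mem _ (Subalgebra.mul_mem _ hw₁ (Subalgebra.pow_mem _ hdet _)) _)
        (Subalgebra.smul_mem _ (Subalgebra.mul_mem _ hw₂ (Subalgebra.pow_mem _ hdet _)) _)
      have hge : ∀ y, g y = e.det y ^ (M₁ + 1) * e.det y ^ (M₂ + 1) *
          (e.coord k (T y x₀) * e.coord l (f x) - e.coord k (f x₀) * e.coord l (T y x)) := by
        intro y
        simp only [g, Pi.sub_apply, Pi.smul_apply, Pi.mul_apply, Pi.pow_apply, hw₁e, hw₂e,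
          smul_eq_mul]
        change _ = e.det y ^ (M₁ + 1) * e.det y ^ (M₂ + 1) *
          (e.coord k (∑ i, MvPolynomial.eval (Sum.elim (gam e y) (crd e y x₀)) (PP i) • y i) *
            e.coord l (f x) - e.coord k (f x₀) *
            e.coord l (∑ i, MvPolynomial.eval (Sum.elim (gam e y) (crd e y x)) (PP i) • y i))
        ring
      have hR₀mem : R₀ ∈ PolyFun K L (Fin n) := (MvPolynomial.coeff j₀.2.1 (G j₀.1)).2
      have hR₀ne : ∃ y, R₀ y ≠ 0 := by
        have hv₀' := mul_ne_zero_iff.1 (by rw [← map_mul]; exact hv₀ :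
          MvPolynomial.eval v₀ Δ * MvPolynomial.eval v₀ (R j₀) ≠ 0)
        refine ⟨tup v₀, ?_⟩
        have := hv₀'.2
        rwa [hRv] at this
      have hzero := polyFun_domain e hR₀mem hg hR₀ne (by
        intro y
        by_cases hRy : R₀ y = 0
        · rw [hRy, zero_mul]
        · by_cases hdy : e.det y = 0
          · rw [hge, hdy, zero_pow (Nat.succ_ne_zero _)]
            ring
          · rw [hge, hT y x₀ hdy hRy, hT y x hdy hRy, map_smul, map_smul, smul_eq_mul,
              smul_eq_mul]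
            ring)
      have h0 := hzero y
      rw [hge] at h0
      have h1 := (mul_eq_zero.1 h0).resolve_left
        (mul_ne_zero (pow_ne_zero _ hy) (pow_ne_zero _ hy))
      exact sub_eq_zero.1 h1
    apply e.ext_elem
    intro l
    have h1 := key l
    have h2 : (e.coord k (T y x₀) / e.coord k (f x₀)) * e.coord l (f x) = e.coord l (T y x) := by
      rw [div_mul_eq_mul_div, h1, mul_comm, mul_div_assoc, div_self hk, mul_one]
    rw [map_smul, Finsupp.smul_apply, smul_eq_mul]
    exact h2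

end Pool.Agent.Lib.MP_d55432_al
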