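import Pool.Agent.Lib.MP_d55432_al.Chow
import Pool.Agent.Lib.MP_d55432_al.StageB

/-!
# Adding a stratum to the image of a semi-equivariant map
-/

namespace Pool.Agent.Lib.MP_d55432_al.Step

open MvPolynomial DetTrick Zar Chow

attribute [local instance] zar

section util

variable {K : Type*} [Field K] {τ Ω Ω' : Type*}

theorem Pol_comp {c : τ → Ω → K} {f : Ω → K} (hf : f ∈ Pol c) (B : Subalgebra K (Ω' → K))
    (φ : Ω' → Ω) (h : ∀ t, (fun x => c t (φ x)) ∈ B) : (fun x => f (φ x)) ∈ B := by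
  obtain ⟨P, hP⟩ := mem_Pol.1 hf
  simp only [hP]
  exact eval_mem B P (fun t x => c t (φ x)) h

/-- The coordinate functions take arbitrary values. -/
def Surj (c : τ → Ω → K) : Prop := ∀ a : τ → K, ∃ x, ∀ t, c t x = a t

theorem Pol_eq_zero [Infinite K] {c : τ → Ω → K} (hc : Surj c) (P : MvPolynomial τ K)
    (h : ∀ x, eval (fun t => c t x) P = 0) : P = 0 := by
  apply MvPolynomial.funext
  intro a
  obtain ⟨x, hx⟩ := hc a
  have := h x
  simp only [hx] at this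
  rw [map_zero]
  exact this

theorem exists_ne [Infinite K] {c : τ → Ω → K} (hc : Surj c) {f g : Ω → K} (hf : f ∈ Pol c)
    (hg : g ∈ Pol c) (hf0 : ∃ x, f x ≠ 0) (hg0 : ∃ x, g x ≠ 0) : ∃ x, f x ≠ 0 ∧ g x ≠ 0 := by
  obtain ⟨P, hP⟩ := mem_Pol.1 hf
  obtain ⟨Q, hQ⟩ := mem_Pol.1 hg
  by_contra hcon
  push Not at hcon
  have h1 : P * Q = 0 := by
    apply Pol_eq_zero hc
    intro x
    rw [map_mul, ← hP, ← hQ]
    by_cases h : f x = 0
    · rw [h, zero_mul]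
    · rw [hcon x h, mul_zero]
  obtain ⟨x, hx⟩ := hf0
  obtain ⟨y, hy⟩ := hg0
  rcases mul_eq_zero.1 h1 with h | h
  · exact hx (by rw [hP, h, map_zero])
  · exact hy (by rw [hQ, h, map_zero])

theorem eq_of_mul_eq [Infinite K] {c : τ → Ω → K} (hc : Surj c) {f g g' : Ω → K}
    (hf : f ∈ Pol c) (hg : g ∈ Pol c) (hg' : g' ∈ Pol c) (hf0 : ∃ x, f x ≠ 0)
    (h : ∀ x, f x * g x = f x * g' x) : ∀ x, g x = g' x := by
  intro x
  by_contra hne
  obtain ⟨y, hy1, hy2⟩ := exists_ne hc hf (Subalgebra.sub_mem _ hg hg') hf0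
    ⟨x, sub_ne_zero.2 hne⟩
  have := h y
  have h2 := mul_left_cancel₀ hy1 this
  exact hy2 (by rw [Pi.sub_apply, h2, sub_self])

end util

variable {σ : Type*} [Fintype σ] [DecidableEq σ] {K : Type*} [Field K]

/-- Coordinates on tuples of vectors. -/
def c1 (ι σ K : Type*) : ι × σ → (ι → σ → K) → K := fun q p => p q.1 q.2

/-- The big parameter space. -/
abbrev Xb (ι σ K : Type*) : Type _ :=
  ((σ → σ → K) × (σ → K)) × (K × ((ι → σ → K) × (σ → K)))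

/-- Coordinates on the big parameter space. -/
def cb (ι σ K : Type*) : (Unit ⊕ ((ι × σ) ⊕ σ)) ⊕ ((σ × σ) ⊕ σ) → Xb ι σ K → K :=
  Sum.elim (Sum.elim (fun _ X => X.2.1) (fun t X => c2 ι σ K t X.2.2))
    (fun t X => c2 σ σ K t X.1)

theorem surj_c2 (ι σ K : Type*) [Field K] : Surj (c2 ι σ K) := by
  intro a
  refine ⟨(fun i k => a (Sum.inl (i, k)), fun k => a (Sum.inr k)), ?_⟩
  rintro (t | t) <;> rfl

theorem surj_cb (ι σ K : Type*) [Field K] : Surj (cb ι σ K) := by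
  intro a
  refine ⟨((fun i k => a (Sum.inr (Sum.inl (i, k))), fun k => a (Sum.inr (Sum.inr k))),
    (a (Sum.inl (Sum.inl ())), (fun i k => a (Sum.inl (Sum.inr (Sum.inl (i, k)))),
      fun k => a (Sum.inl (Sum.inr (Sum.inr k)))))), ?_⟩
  rintro ((t | (t | t)) | (t | t)) <;> rfl

/-- A semi-equivariant polynomial map with range in `S`, affine in the last variable up to a
scalar factor. -/
structure State (G : Subgroup ((σ → K) ≃ₗ[K] (σ → K))) (S : Set (σ → K)) (ι : Type*) where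
  /-- coefficient of the last variable -/
  H : (ι → σ → K) → K
  /-- vector part -/
  Y : (ι → σ → K) → (σ → K)
  /-- scalar factor -/
  Φ : (ι → σ → K) × (σ → K) → K
  hH : H ∈ Pol (c1 ι σ K)
  hY : ∀ j, (fun p => Y p j) ∈ Pol (c1 ι σ K)
  hΦ : Φ ∈ Pol (c2 ι σ K)
  H_ne : ∃ p, H p ≠ 0
  Φ_ne : ∃ p, Φ p ≠ 0
  semi : ∀ g ∈ G, ∃ a b : K, a ≠ 0 ∧ b ≠ 0 ∧ (∀ p, H (fun i => g (p i)) = a * H p) ∧
    (∀ p, Y (fun i => g (p i)) = a • g (Y p)) ∧
    (∀ p x, Φ (fun i => g (p i), g x) = b * Φ (p, x))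
  range : ∀ p x, Φ (p, x) • (Y p + H p • x) ∈ S

/-- The cone over the range of a state. -/
def State.Att {G : Subgroup ((σ → K) ≃ₗ[K] (σ → K))} {S : Set (σ → K)} {ι : Type*}
    (st : State G S ι) : Set (σ → K) :=
  {z | ∃ p x, ∃ c : K, z = c • (st.Φ (p, x) • (st.Y p + st.H p • x))}

section hat

variable {ι : Type*}

/-- The substitution `x ↦ x + (δ / h) e` with cleared denominators. -/
theorem exists_hat (h : MvPolynomial ((σ × σ) ⊕ σ) K) (i₀ : σ)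
    {Φ : (ι → σ → K) × (σ → K) → K} (hΦ : Φ ∈ Pol (c2 ι σ K)) :
    ∃ (D : ℕ) (P : MvPolynomial ((Unit ⊕ ((ι × σ) ⊕ σ)) ⊕ ((σ × σ) ⊕ σ)) K), ∀ X : Xb ι σ K,
      eval (fun t => cb ι σ K t X) P = ef h X.1 ^ (D + 1) *
        Φ (X.2.2.1, X.2.2.2 + (X.2.1 / ef h X.1) • evec i₀ h X.1) := by
  obtain ⟨Q, hQ⟩ := mem_Pol.1 hΦ
  have h1 : ∀ f ∈ Pol (c2 σ σ K), (fun X : Xb ι σ K => f X.1) ∈ Pol (cb ι σ K) := fun f hf =>
    Pol_comp hf _ (fun X : Xb ι σ K => X.1) (fun t => coord_mem (cb ι σ K) (Sum.inr t))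
  have hu₀ : (fun X : Xb ι σ K => ef h X.1) ∈ Pol (cb ι σ K) := h1 _ (ef_mem h)
  let u : (ι × σ) ⊕ σ → Xb ι σ K → K := Sum.elim (fun q X => ef h X.1 * X.2.2.1 q.1 q.2)
    (fun k X => ef h X.1 * X.2.2.2 k + X.2.1 * evec i₀ h X.1 k)
  have hu : ∀ t, u t ∈ Pol (cb ι σ K) := by
    rintro (t | t)
    · exact Subalgebra.mul_mem _ hu₀ (coord_mem (cb ι σ K) (Sum.inl (Sum.inr (Sum.inl t))))
    · exact Subalgebra.add_mem _
        (Subalgebra.mul_mem _ hu₀ (coord_mem (cb ι σ K) (Sum.inl (Sum.inr (Sum.inr t)))))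
        (Subalgebra.mul_mem _ (coord_mem (cb ι σ K) (Sum.inl (Sum.inl ())))
          (h1 _ (evec_mem_pol i₀ h t)))
  obtain ⟨D, w, hw, hwe⟩ := exists_good (Pol (cb ι σ K)) _ hu₀ u hu Q
  obtain ⟨P, hP⟩ := mem_Pol.1 hw
  refine ⟨D, P, fun X => ?_⟩
  rw [← hP, hwe]
  by_cases h0 : ef h X.1 = 0
  · rw [h0, zero_pow (Nat.succ_ne_zero _), zero_mul, zero_mul]
  · congr 1
    rw [hQ]
    congr 1
    congr 1
    funext t
    rcases t with t | t
    · change ef h X.1 * X.2.2.1 t.1 t.2 / ef h X.1 = X.2.2.1 t.1 t.2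
      field_simp
    · change (ef h X.1 * X.2.2.2 t + X.2.1 * evec i₀ h X.1 t) / ef h X.1 =
        X.2.2.2 t + X.2.1 / ef h X.1 * evec i₀ h X.1 t
      field_simp

theorem eval_sum {τ₁ τ₂ : Type*} (P : MvPolynomial (τ₂ ⊕ τ₁) K) (a : τ₂ → K) (b : τ₁ → K) :
    eval (Sum.elim a b) P = eval a (map (eval b) (sumAlgEquiv K τ₂ τ₁ P)) := by
  induction P using MvPolynomial.induction_on with
  | C c => rw [sumAlgEquiv_C_inl, eval_C, map_C, eval_C, eval_C]
  | add p q hp hq => simp only [map_add, hp, hq]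
  | mul_X p i hp =>
    rw [map_mul, map_mul, map_mul, map_mul, hp]
    congr 1
    rcases i with i | i
    · rw [sumAlgEquiv_X_inl, eval_X, map_X, eval_X]; rfl
    · rw [sumAlgEquiv_X_inr, eval_X, map_C, eval_C, eval_X]; rfl

/-- Divisibility by the elimination form is detected on the fibres over `C`. -/
theorem dvd_of_van [Infinite K] {C : Set (σ → K)} {A : Finset σ}
    {h : MvPolynomial ((σ × σ) ⊕ σ) K}
    (hd : ∀ Q, (∀ z ∈ C, Van A (ef Q) z) → h ∣ Q) {τ₂ : Type*}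
    (P : MvPolynomial (τ₂ ⊕ ((σ × σ) ⊕ σ)) K)
    (hP : ∀ a : τ₂ → K, ∀ z ∈ C, Van A (fun q => eval (Sum.elim a (pt q)) P) z) :
    rename Sum.inr h ∣ P := by
  have h1 : ∀ m, h ∣ coeff m (sumAlgEquiv K τ₂ ((σ × σ) ⊕ σ) P) := by
    intro m
    apply hd
    intro z hz q
    have h2 : map (eval (pt (fill A z q))) (sumAlgEquiv K τ₂ ((σ × σ) ⊕ σ) P) = 0 := by
      apply MvPolynomial.funext
      intro a
      rw [← eval_sum, map_zero]
      exact hP a z hz q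
    have h3 := congrArg (coeff m) h2
    rw [coeff_map, coeff_zero] at h3
    exact h3
  have h4 : MvPolynomial.C h ∣ sumAlgEquiv K τ₂ ((σ × σ) ⊕ σ) P := (C_dvd_iff_dvd_coeff h _).2 h1
  obtain ⟨R, hR⟩ := h4
  refine ⟨(sumAlgEquiv K τ₂ ((σ × σ) ⊕ σ)).symm R, ?_⟩
  apply (sumAlgEquiv K τ₂ ((σ × σ) ⊕ σ)).injective
  rw [hR, map_mul, AlgEquiv.apply_symm_apply]
  congr 1
  have h5 := sumAlgEquiv_comp_rename_inr K τ₂ ((σ × σ) ⊕ σ)
  exact (DFunLike.congr_fun h5 h).symm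

end hat

/-- The action on the big parameter space. -/
def actb {ι : Type*} (g : (σ → K) ≃ₗ[K] (σ → K)) (μ : K) (X : Xb ι σ K) : Xb ι σ K :=
  (act g μ X.1, (μ * X.2.1, (fun i => g (X.2.2.1 i), g X.2.2.2)))

theorem linear_mem {Ω : Type*} (B : Subalgebra K (Ω → K)) (g : (σ → K) →ₗ[K] (σ → K))
    (v : Ω → σ → K) (hv : ∀ j, (fun x => v x j) ∈ B) (k : σ) : (fun x => g (v x) k) ∈ B := by
  have : (fun x => g (v x) k) = ∑ j, g (Pi.single j 1) k • (fun x => v x j) := by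
    funext x
    conv_lhs => rw [← Finset.univ_sum_single (v x)]
    rw [map_sum, Finset.sum_apply, Finset.sum_apply]
    refine Finset.sum_congr rfl fun j _ => ?_
    have : (Pi.single j (v x j) : σ → K) = v x j • Pi.single j 1 := by
      rw [← Pi.single_smul, smul_eq_mul, mul_one]
    rw [this, map_smul, Pi.smul_apply, Pi.smul_apply, smul_eq_mul, smul_eq_mul, mul_comm]
  rw [this]
  exact Subalgebra.sum_mem _ fun j _ => Subalgebra.smul_mem _ (hv j) _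

theorem actb_mem {ι : Type*} (g : (σ → K) ≃ₗ[K] (σ → K)) (μ : K) {f : Xb ι σ K → K}
    (hf : f ∈ Pol (cb ι σ K)) : (fun X => f (actb g μ X)) ∈ Pol (cb ι σ K) := by
  refine Pol_comp hf _ _ ?_
  rintro ((t | (t | t)) | (t | t))
  · exact Subalgebra.smul_mem _ (coord_mem (cb ι σ K) (Sum.inl (Sum.inl ()))) μ
  · exact linear_mem _ (g : (σ → K) →ₗ[K] (σ → K)) (fun X : Xb ι σ K => X.2.2.1 t.1)
      (fun j => coord_mem (cb ι σ K) (Sum.inl (Sum.inr (Sum.inl (t.1, j))))) t.2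
  · exact linear_mem _ (g : (σ → K) →ₗ[K] (σ → K)) (fun X : Xb ι σ K => X.2.2.2)
      (fun j => coord_mem (cb ι σ K) (Sum.inl (Sum.inr (Sum.inr j)))) t
  · exact linear_mem _ (g : (σ → K) →ₗ[K] (σ → K)) (fun X : Xb ι σ K => X.1.1 t.1)
      (fun j => coord_mem (cb ι σ K) (Sum.inr (Sum.inl (t.1, j)))) t.2
  · exact Subalgebra.smul_mem _ (coord_mem (cb ι σ K) (Sum.inr (Sum.inr t))) μ

theorem fst_mem {ι : Type*} {f : (σ → σ → K) × (σ → K) → K} (hf : f ∈ Pol (c2 σ σ K)) :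
    (fun X : Xb ι σ K => f X.1) ∈ Pol (cb ι σ K) :=
  Pol_comp hf _ (fun X : Xb ι σ K => X.1) (fun t => coord_mem (cb ι σ K) (Sum.inr t))

/-- The reduced scalar factor. -/
theorem exists_psi [CharZero K] {ι : Type*} [Finite ι] {G : Subgroup ((σ → K) ≃ₗ[K] (σ → K))}
    {S : Set (σ → K)} (st : State G S ι) {C : Set (σ → K)} (hst : Stable G C) {A : Finset σ}
    {i₀ : σ} {h : MvPolynomial ((σ × σ) ⊕ σ) K} (hne : C.Nonempty) (h0 : h ≠ 0)
    (hv : ∀ z ∈ C, Van A (ef h) z) (hd : ∀ Q, (∀ z ∈ C, Van A (ef Q) z) → h ∣ Q) :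
    ∃ (Ψ : Xb ι σ K → K) (k D : ℕ), Ψ ∈ Pol (cb ι σ K) ∧
      (∀ X : Xb ι σ K, ef h X.1 ^ k * Ψ X = ef h X.1 ^ (D + 1) *
        st.Φ (X.2.2.1, X.2.2.2 + (X.2.1 / ef h X.1) • evec i₀ h X.1)) ∧
      (∃ z ∈ C, ∃ a₂, ¬ Van A (fun q => Ψ (q, a₂)) z) ∧
      (∀ g ∈ G, ∀ μ : K, μ ≠ 0 → (∀ x y, g x ⬝ᵥ g y = μ * (x ⬝ᵥ y)) →
        ∃ c : K, c ≠ 0 ∧ ∀ X, Ψ (actb g μ X) = c * Ψ X) := by
  classical
  have := Fintype.ofFinite ι
  obtain ⟨D, P, hP⟩ := exists_hat h i₀ st.hΦ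
  obtain ⟨q₀, hq₀⟩ : ∃ q, ef h q ≠ 0 := by
    by_contra hcon
    push Not at hcon
    exact h0 (ef_eq_zero h hcon)
  obtain ⟨px, hpx⟩ := st.Φ_ne
  have hP0 : P ≠ 0 := by
    intro hP0
    have h1 := hP (q₀, (0, px))
    rw [hP0, map_zero] at h1
    simp only [zero_div, zero_smul, add_zero] at h1
    exact mul_ne_zero (pow_ne_zero _ hq₀) hpx h1.symm
  have hunit : ¬ IsUnit (rename Sum.inr h :
      MvPolynomial ((Unit ⊕ ((ι × σ) ⊕ σ)) ⊕ ((σ × σ) ⊕ σ)) K) := by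
    intro hu
    obtain ⟨z, hz⟩ := hne
    have h1 := hv z hz q₀
    have h2 := hu.map (eval (fun t => cb ι σ K t (fill A z q₀, (0, px))))
    rw [eval_rename] at h2
    have h3 : ((fun t => cb ι σ K t (fill A z q₀, (0, px))) ∘ Sum.inr) = pt (fill A z q₀) := by
      rw [← pt_eq]
      rfl
    rw [h3] at h2
    exact h2.ne_zero h1
  obtain ⟨k, R, hR, hPR⟩ := WfDvdMonoid.max_power_factor' hP0 hunit
  have hcbr : ∀ X : Xb ι σ K, eval (fun t => cb ι σ K t X) (rename Sum.inr h) = ef h X.1 := by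
    intro X
    rw [eval_rename]
    have h3 : ((fun t => cb ι σ K t X) ∘ Sum.inr) = pt X.1 := by
      rw [← pt_eq]
      rfl
    rw [h3]
    rfl
  have hΨmem : (fun X => eval (fun t => cb ι σ K t X) R) ∈ Pol (cb ι σ K) :=
    mem_Pol.2 ⟨R, fun X => rfl⟩
  have hrel : ∀ X : Xb ι σ K, ef h X.1 ^ k * eval (fun t => cb ι σ K t X) R =
      ef h X.1 ^ (D + 1) *
        st.Φ (X.2.2.1, X.2.2.2 + (X.2.1 / ef h X.1) • evec i₀ h X.1) := by
    intro X
    rw [← hP, hPR, map_mul, map_pow, hcbr]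
  refine ⟨fun X => eval (fun t => cb ι σ K t X) R, k, D, hΨmem, hrel, ?_, ?_⟩
  · by_contra hcon
    push Not at hcon
    apply hR
    apply dvd_of_van hd
    intro a z hz
    have h1 := hcon z hz (a (Sum.inl ()), (fun i k => a (Sum.inr (Sum.inl (i, k))),
      fun k => a (Sum.inr (Sum.inr k))))
    intro q
    have h2 := h1 q
    change eval (Sum.elim a (pt (fill A z q))) R = 0
    have h3 : (Sum.elim a (pt (fill A z q))) = (fun t => cb ι σ K t (fill A z q,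
        (a (Sum.inl ()), (fun i k => a (Sum.inr (Sum.inl (i, k))),
          fun k => a (Sum.inr (Sum.inr k)))))) := by
      funext t
      rcases t with (t | (t | t)) | (t | t) <;> rfl
    rw [h3]
    exact h2
  · intro g hg μ hμ0 hμ
    obtain ⟨c, hc0, hc⟩ := chow_semi hst hv hd g hg μ hμ0 hμ
    obtain ⟨a, b, ha, hb, _, _, hΦ⟩ := st.semi g hg
    refine ⟨c ^ (D + 1) * b / c ^ k, div_ne_zero (mul_ne_zero (pow_ne_zero _ hc0) hb)
      (pow_ne_zero _ hc0), ?_⟩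
    have hpow : (fun X : Xb ι σ K => ef h X.1 ^ k) ∈ Pol (cb ι σ K) :=
      Subalgebra.pow_mem _ (fst_mem (ef_mem h)) k
    refine eq_of_mul_eq (surj_cb ι σ K) hpow (actb_mem g μ hΨmem)
      (Subalgebra.smul_mem _ hΨmem _) ⟨(q₀, (0, px)), pow_ne_zero _ hq₀⟩ ?_
    intro X
    have h1 := hrel (actb g μ X)
    have h2 := hrel X
    have e1 : ef h (actb g μ X).1 = c * ef h X.1 := hc _
    rw [e1] at h1
    have e2 : evec i₀ h (actb g μ X).1 = (c * μ⁻¹) • g (evec i₀ h X.1) :=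
      evec_semi i₀ g μ hμ0 hμ c hc X.1
    rw [e2] at h1
    simp only [actb] at h1 ⊢
    change ef h X.1 ^ k * _ = ef h X.1 ^ k * ((c ^ (D + 1) * b / c ^ k) * _)
    by_cases hX : ef h X.1 = 0
    · rw [hX, zero_pow (Nat.succ_ne_zero _), zero_mul] at h2
      rw [hX, mul_zero, zero_pow (Nat.succ_ne_zero _), zero_mul] at h1
      by_cases hk : k = 0
      · subst hk
        rw [pow_zero, one_mul] at h1 h2 ⊢
        rw [h1]
        rw [h2]
        ring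
      · rw [hX, zero_pow hk, zero_mul, zero_mul]
    · have e3 : g X.2.2.2 + (μ * X.2.1 / (c * ef h X.1)) • (c * μ⁻¹) • g (evec i₀ h X.1) =
          g (X.2.2.2 + (X.2.1 / ef h X.1) • evec i₀ h X.1) := by
        rw [map_add, map_smul, smul_smul]
        congr 2
        field_simp
      rw [e3, hΦ] at h1
      have hck : c ^ k ≠ 0 := pow_ne_zero _ hc0
      rw [mul_pow, mul_pow] at h1
      have h3 : c ^ k * (ef h X.1 ^ k * eval (fun t => cb ι σ K t (act g μ X.1,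
          (μ * X.2.1, (fun i => g (X.2.2.1 i), g X.2.2.2)))) R) = c ^ (D + 1) * b *
          (ef h X.1 ^ k * eval (fun t => cb ι σ K t X) R) := by
        rw [h2, ← mul_assoc, h1]
        ring
      apply mul_left_cancel₀ hck
      rw [h3]
      field_simp

end Pool.Agent.Lib.MP_d55432_al.Step
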