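import Pool.Agent.Lib.MP_d55432_al.Step

/-!
# Adding a stratum to the image of a semi-equivariant map: the step
-/

namespace Pool.Agent.Lib.MP_d55432_al.Step

open MvPolynomial DetTrick Zar Chow

attribute [local instance] zar

variable {σ : Type*} [Fintype σ] [DecidableEq σ] {K : Type*} [Field K]

theorem hy_semi [Infinite K] {h : MvPolynomial ((σ × σ) ⊕ σ) K} (i₀ : σ)
    (g : (σ → K) ≃ₗ[K] (σ → K)) (μ : K) (c : K)
    (hc : ∀ p, ef h (act g μ p) = c * ef h p) (p : (σ → σ → K) × (σ → K)) :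
    μ * ef (pderiv (Sum.inr i₀) h) (act g μ p) = c * ef (pderiv (Sum.inr i₀) h) p := by
  have hΛ : ∀ a, eval (actL g μ a) h = c * eval a h := by
    intro a
    have := hc (unpt a)
    rw [ef, ef, pt_unpt] at this
    exact this
  have hsum : ∀ (q : (σ → σ → K) × (σ → K)) (ν : K),
      ∑ t, pt ((0, Pi.single i₀ ν) : (σ → σ → K) × (σ → K)) t * eval (pt q) (pderiv t h) =
      ν * ef (pderiv (Sum.inr i₀) h) q := by
    intro q ν
    rw [Fintype.sum_sum_type]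
    have h6 : ∑ x : σ × σ, pt ((0, Pi.single i₀ ν) : (σ → σ → K) × (σ → K)) (Sum.inl x) *
        eval (pt q) (pderiv (Sum.inl x) h) = 0 := by
      apply Finset.sum_eq_zero
      intro x _
      simp [pt]
    rw [h6, zero_add, Finset.sum_eq_single i₀]
    · simp only [pt, Sum.elim_inr, Pi.single_eq_same, ef]
    · intro a _ ha
      simp only [pt, Sum.elim_inr, Pi.single_eq_of_ne ha, zero_mul]
    · intro hn
      exact absurd (Finset.mem_univ _) hn
  have h1 := Line.deriv_subst (actL g μ) c h hΛ (pt p)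
    (pt ((0, Pi.single i₀ 1) : (σ → σ → K) × (σ → K)))
  rw [actL_pt, actL_pt] at h1
  have h2 : act g μ ((0, Pi.single i₀ 1) : (σ → σ → K) × (σ → K)) =
      (0, Pi.single i₀ μ) := by
    refine Prod.ext ?_ ?_
    · funext i
      simp [act]
    · simp only [act]
      rw [← Pi.single_smul, smul_eq_mul, mul_one]
  rw [h2, hsum, hsum, one_mul] at h1
  exact h1

theorem dot_mem {Ω : Type*} (B : Subalgebra K (Ω → K)) (v w : Ω → σ → K)
    (hv : ∀ j, (fun x => v x j) ∈ B) (hw : ∀ j, (fun x => w x j) ∈ B) :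
    (fun x => v x ⬝ᵥ w x) ∈ B := by
  have : (fun x => v x ⬝ᵥ w x) = ∑ j, (fun x => v x j) * (fun x => w x j) := by
    funext x
    rw [Finset.sum_apply]
    rfl
  rw [this]
  exact Subalgebra.sum_mem _ fun j _ => Subalgebra.mul_mem _ (hv j) (hw j)

section

variable {ι : Type*} {d : ℕ}

/-- The new index type. -/
abbrev NI (σ ι : Type*) (d : ℕ) : Type _ := (σ ⊕ Fin 3) ⊕ (Fin d ⊕ ι)

/-- The matrix and vector parts. -/
def qq (P : NI σ ι d → σ → K) : (σ → σ → K) × (σ → K) :=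
  (fun i => P (Sum.inl (Sum.inl i)), fun i => P (Sum.inl (Sum.inl i)) ⬝ᵥ P (Sum.inl (Sum.inr 0)))

/-- The scalar part. -/
def dd (P : NI σ ι d → σ → K) : K := P (Sum.inl (Sum.inr 1)) ⬝ᵥ P (Sum.inl (Sum.inr 2))

/-- The auxiliary vectors. -/
def au (P : NI σ ι d → σ → K) : Fin d → σ → K := fun k => P (Sum.inr (Sum.inl k))

/-- The old vectors. -/
def pp (P : NI σ ι d → σ → K) : ι → σ → K := fun k => P (Sum.inr (Sum.inr k))

theorem qq_act (g : (σ → K) ≃ₗ[K] (σ → K)) (μ : K)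
    (hμ : ∀ x y, g x ⬝ᵥ g y = μ * (x ⬝ᵥ y)) (P : NI σ ι d → σ → K) :
    qq (fun i => g (P i)) = act g μ (qq P) := by
  refine Prod.ext rfl ?_
  funext i
  exact hμ _ _

theorem qq_mem {Ω : Type*} (B : Subalgebra K (Ω → K)) (P : Ω → NI σ ι d → σ → K)
    (hP : ∀ i j, (fun x => P x i j) ∈ B) {f : (σ → σ → K) × (σ → K) → K}
    (hf : f ∈ Pol (c2 σ σ K)) : (fun x => f (qq (P x))) ∈ B := by
  refine Pol_comp hf B (fun x => qq (P x)) ?_
  rintro (t | t)
  · exact hP _ _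
  · exact dot_mem B (fun x => P x (Sum.inl (Sum.inl t))) (fun x => P x (Sum.inl (Sum.inr 0)))
      (hP _) (hP _)

theorem dd_mem {Ω : Type*} (B : Subalgebra K (Ω → K)) (P : Ω → NI σ ι d → σ → K)
    (hP : ∀ i j, (fun x => P x i j) ∈ B) : (fun x => dd (P x)) ∈ B :=
  dot_mem B (fun x => P x (Sum.inl (Sum.inr 1))) (fun x => P x (Sum.inl (Sum.inr 2)))
      (hP _) (hP _)

theorem pp_mem {Ω : Type*} (B : Subalgebra K (Ω → K)) (P : Ω → NI σ ι d → σ → K)
    (hP : ∀ i j, (fun x => P x i j) ∈ B) {f : (ι → σ → K) → K}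
    (hf : f ∈ Pol (c1 ι σ K)) : (fun x => f (pp (P x))) ∈ B :=
  Pol_comp hf B (fun x => pp (P x)) (fun _ => hP _ _)

/-- Every point with invertible matrix part is attained by the new variables. -/
theorem realize (i₀ : σ) (q : (σ → σ → K) × (σ → K)) (hq : (Matrix.of q.1).det ≠ 0) (δ : K)
    (u : Fin d → σ → K) (p : ι → σ → K) :
    ∃ P : NI σ ι d → σ → K, qq P = q ∧ dd P = δ ∧ au P = u ∧ pp P = p := by
  refine ⟨Sum.elim (Sum.elim q.1 ![(Matrix.of q.1)⁻¹.mulVec q.2, Pi.single i₀ δ,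
    Pi.single i₀ 1]) (Sum.elim u p), ?_, ?_, rfl, rfl⟩
  · refine Prod.ext rfl ?_
    have h1 : (Matrix.of q.1).mulVec ((Matrix.of q.1)⁻¹.mulVec q.2) = q.2 := by
      rw [Matrix.mulVec_mulVec, Matrix.mul_nonsing_inv _ (isUnit_iff_ne_zero.2 hq),
        Matrix.one_mulVec]
    exact h1
  · change Pi.single i₀ δ ⬝ᵥ (Pi.single i₀ 1 : σ → K) = δ
    rw [single_dotProduct, Pi.single_eq_same, mul_one]

theorem det_mem_fst {Ω : Type*} (B : Subalgebra K (Ω → K)) (b : Ω → σ → σ → K)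
    (hb : ∀ i j, (fun x => b x i j) ∈ B) : (fun x => (Matrix.of (b x)).det) ∈ B :=
  det_mem_alg B (fun i j x => b x i j) hb

/-- Coordinates on the parameter space with auxiliary vectors. -/
def cm (ι σ K : Type*) (d : ℕ) :
    ((Unit ⊕ ((ι × σ) ⊕ σ)) ⊕ ((σ × σ) ⊕ σ)) ⊕ (Fin d × σ) →
      Xb ι σ K × (Fin d → σ → K) → K :=
  Sum.elim (fun t X => cb ι σ K t X.1) (fun t X => X.2 t.1 t.2)

theorem surj_cm (ι σ K : Type*) [Field K] (d : ℕ) : Surj (cm ι σ K d) := by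
  intro a
  obtain ⟨X, hX⟩ := surj_cb ι σ K (fun t => a (Sum.inl t))
  refine ⟨(X, fun i k => a (Sum.inr (i, k))), ?_⟩
  rintro (t | t)
  · exact hX t
  · rfl

theorem fst_mem_cm {ι : Type*} {d : ℕ} {f : Xb ι σ K → K} (hf : f ∈ Pol (cb ι σ K)) :
    (fun X : Xb ι σ K × (Fin d → σ → K) => f X.1) ∈ Pol (cm ι σ K d) :=
  Pol_comp hf _ (fun X : Xb ι σ K × (Fin d → σ → K) => X.1)
    (fun t => coord_mem (cm ι σ K d) (Sum.inl t))

theorem F_mem {ι : Type*} {d : ℕ} {F : (Fin d → σ → K) × (σ → K) → K}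
    (hF : F ∈ Pol (c2 (Fin d) σ K)) (i₀ : σ) (h : MvPolynomial ((σ × σ) ⊕ σ) K) :
    (fun X : Xb ι σ K × (Fin d → σ → K) => F (X.2, evec i₀ h X.1.1)) ∈ Pol (cm ι σ K d) := by
  refine Pol_comp hF _ (fun X : Xb ι σ K × (Fin d → σ → K) => (X.2, evec i₀ h X.1.1)) ?_
  rintro (t | t)
  · exact coord_mem (cm ι σ K d) (Sum.inr t)
  · exact fst_mem_cm (fst_mem (evec_mem_pol i₀ h t))

theorem det_cm {ι : Type*} {d : ℕ} :
    (fun X : Xb ι σ K × (Fin d → σ → K) => (Matrix.of X.1.1.1).det) ∈ Pol (cm ι σ K d) :=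
  det_mem_fst _ (fun X : Xb ι σ K × (Fin d → σ → K) => X.1.1.1)
    (fun i j => coord_mem (cm ι σ K d) (Sum.inl (Sum.inr (Sum.inl (i, j)))))

theorem one_point {ι : Type*} {d : ℕ} : ∃ X : Xb ι σ K × (Fin d → σ → K),
    (Matrix.of X.1.1.1).det ≠ 0 :=
  ⟨((((1 : Matrix σ σ K), 0), (0, (0, 0))), 0), by
    change (1 : Matrix σ σ K).det ≠ 0
    rw [Matrix.det_one]
    exact one_ne_zero⟩

/-- The step: one more stratum is attained. -/
theorem step [CharZero K] {ι : Type*} [Finite ι] {G : Subgroup ((σ → K) ≃ₗ[K] (σ → K))}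
    (hG : Sim G) {S : Set (σ → K)} (hS0 : (0 : σ → K) ∈ S) (hSst : Stable G S) (st : State G S ι)
    {C : Set (σ → K)} (hC : IsClosed C) (hst : Stable G C) (hirr : Irr G C) (hne : C ≠ Set.univ)
    (hdense : ¬ C ⊆ closure (C ∩ Sᶜ)) :
    ∃ (d : ℕ) (st' : State G S (NI σ ι d)) (E : Set (σ → K)), IsClosed E ∧ Stable G E ∧
      ¬ C ⊆ E ∧ st.Att ⊆ st'.Att ∧ (C ∩ S) \ E ⊆ st'.Att := by
  classical
  obtain ⟨A, i₀, h, hi₀, h0, hv, hd, hy⟩ := exists_chow hG hC hst hirr hne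
  obtain ⟨Ψ, k, D, hΨ, hrel, hΨ2, hΨs⟩ := exists_psi st hst hirr.1 h0 hv hd
  -- stability under scalars
  have hSsmul : ∀ (t : K) (x : σ → K), x ∈ S → t • x ∈ S := by
    intro t x hx
    by_cases ht : t = 0
    · rw [ht, zero_smul]; exact hS0
    · obtain ⟨g, hg, hgt⟩ := hG.scal t ht
      rw [← hgt]; exact hSst g hg x hx
  have hginv : ∀ (g : (σ → K) ≃ₗ[K] (σ → K)) (x : σ → K), g⁻¹ (g x) = x := fun g x =>
    LinearEquiv.symm_apply_apply g x
  have hginv' : ∀ (g : (σ → K) ≃ₗ[K] (σ → K)) (x : σ → K), g (g⁻¹ x) = x := fun g x =>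
    LinearEquiv.apply_symm_apply g x
  have hScst : Stable G (C ∩ Sᶜ) := by
    rintro g hg x ⟨hxC, hxS⟩
    refine ⟨hst g hg x hxC, fun hgx => hxS ?_⟩
    have := hSst g⁻¹ (G.inv_mem hg) _ hgx
    rwa [hginv] at this
  -- the semi-invariant family vanishing outside `S`
  obtain ⟨z₁, hz₁, hz₁'⟩ := Set.not_subset.1 hdense
  rw [mem_closure_iff_eval] at hz₁'
  push Not at hz₁'
  obtain ⟨P₁, hP₁, hP₁z⟩ := hz₁'
  obtain ⟨r, P₂, hP₂h, hP₂, hP₂z⟩ := exists_homogeneous_sep (C ∩ Sᶜ) (by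
    intro t ht x hx
    obtain ⟨g, hg, hgt⟩ := hG.scal t ht
    rw [← hgt]
    exact hScst g hg x hx) z₁ P₁ hP₁ hP₁z
  obtain ⟨d, F, hF, hF0, hF1, hFs, hFr⟩ := det_trick G (C ∩ Sᶜ) hScst r P₂ hP₂h hP₂
  -- the exceptional sets
  let E₁ : Set (σ → K) := {z | ∀ u, F (u, z) = 0}
  let E₂ : Set (σ → K) := {z | ∀ a₂, Van A (fun q => Ψ (q, a₂)) z}
  let E₃ : Set (σ → K) := {z | Van A (ef (pderiv (Sum.inr i₀) h)) z}
  have hE₁c : IsClosed E₁ := by
    have h1 : E₁ = ⋂ u, {z | F (u, z) = 0} := by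
      ext z; simp only [Set.mem_iInter]; rfl
    rw [h1]
    refine isClosed_iInter fun u => ?_
    have h2 : (fun z => F (u, z)) ∈ polyAlg σ K := by
      refine Pol_comp hF (polyAlg σ K) (fun z => (u, z)) ?_
      rintro (t | t)
      · exact (polyAlg σ K).algebraMap_mem (c2 (Fin d) σ K (Sum.inl t) (u, 0))
      · exact (mem_polyAlg _).2 ⟨X t, fun x => by simp [c2]⟩
    exact isClosed_polys _ ((mem_polyAlg _).1 h2)
  have hΨq : ∀ a₂, (fun q => Ψ (q, a₂)) ∈ Pol (c2 σ σ K) := by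
    intro a₂
    refine Pol_comp hΨ _ (fun q => (q, a₂)) ?_
    rintro ((t | t) | t)
    · exact (Pol (c2 σ σ K)).algebraMap_mem a₂.1
    · exact (Pol (c2 σ σ K)).algebraMap_mem (c2 ι σ K t a₂.2)
    · exact coord_mem (c2 σ σ K) t
  have hE₂c : IsClosed E₂ := by
    have h1 : E₂ = ⋂ a₂, {z | Van A (fun q => Ψ (q, a₂)) z} := by
      ext z; simp only [Set.mem_iInter]; rfl
    rw [h1]
    exact isClosed_iInter fun a₂ => van_closed A (hΨq a₂)
  have hE₃c : IsClosed E₃ := van_closed A (ef_mem _)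
  have hE₁s : Stable G E₁ := by
    intro g hg z hz u
    obtain ⟨c, _, hc⟩ := hFs g hg
    have h1 := hc (fun i => g⁻¹ (u i)) z
    simp only [hginv'] at h1
    rw [h1, hz _, mul_zero]
  have hE₂s : Stable G E₂ := by
    intro g hg z hz a₂ q
    obtain ⟨μ, hμ0, hμ⟩ := hG.sim g hg
    obtain ⟨c, _, hc⟩ := hΨs g hg μ hμ0 hμ
    obtain ⟨q', rfl⟩ := act_surj g μ hμ0 q
    rw [← act_fill g μ hμ]
    have h1 := hc (fill A z q', (μ⁻¹ * a₂.1, (fun i => g⁻¹ (a₂.2.1 i), g⁻¹ a₂.2.2)))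
    have h2 : actb g μ (fill A z q', (μ⁻¹ * a₂.1, (fun i => g⁻¹ (a₂.2.1 i), g⁻¹ a₂.2.2))) =
        (act g μ (fill A z q'), a₂) := by
      refine Prod.ext rfl (Prod.ext ?_ (Prod.ext ?_ ?_))
      · change μ * (μ⁻¹ * a₂.1) = a₂.1
        rw [← mul_assoc, mul_inv_cancel₀ hμ0, one_mul]
      · funext i
        exact hginv' g _
      · exact hginv' g _
    rw [h2] at h1
    change Ψ (act g μ (fill A z q'), a₂) = 0
    rw [h1]
    have h3 := hz (μ⁻¹ * a₂.1, (fun i => g⁻¹ (a₂.2.1 i), g⁻¹ a₂.2.2)) q'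
    change Ψ _ = 0 at h3
    rw [h3, mul_zero]
  have hE₃s : Stable G E₃ := by
    intro g hg z hz q
    obtain ⟨μ, hμ0, hμ⟩ := hG.sim g hg
    obtain ⟨c, _, hc⟩ := chow_semi hst hv hd g hg μ hμ0 hμ
    obtain ⟨q', rfl⟩ := act_surj g μ hμ0 q
    rw [← act_fill g μ hμ]
    have h1 := hy_semi i₀ g μ c hc (fill A z q')
    rw [hz q', mul_zero] at h1
    exact (mul_eq_zero.1 h1).resolve_left hμ0
  have hCE₁ : ¬ C ⊆ E₁ := by
    intro hsub
    obtain ⟨u, hu⟩ := hF1 z₁ hP₂z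
    exact hu (hsub hz₁ u)
  have hCE₂ : ¬ C ⊆ E₂ := by
    intro hsub
    obtain ⟨z, hz, a₂, ha₂⟩ := hΨ2
    exact ha₂ (hsub hz a₂)
  have hCE₃ : ¬ C ⊆ E₃ := fun hsub => hy fun z hz => hsub hz
  have hE : ¬ C ⊆ E₁ ∪ (E₂ ∪ E₃) := by
    intro hsub
    rcases hirr.2 E₁ (E₂ ∪ E₃) hE₁c (hE₂c.union hE₃c) hE₁s (by
      rintro g hg z (hz | hz)
      · exact Or.inl (hE₂s g hg z hz)
      · exact Or.inr (hE₃s g hg z hz)) hsub with h1 | h1
    · exact hCE₁ h1
    · rcases hirr.2 E₂ E₃ hE₂c hE₃c hE₂s hE₃s h1 with h2 | h2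
      · exact hCE₂ h2
      · exact hCE₃ h2
  -- nonvanishing points
  have hdet1 : ∃ X : Xb ι σ K × (Fin d → σ → K), (Matrix.of X.1.1.1).det ≠ 0 := one_point
  obtain ⟨q₀, hq₀⟩ : ∃ q, ef h q ≠ 0 := by
    by_contra hcon
    push Not at hcon
    exact h0 (ef_eq_zero h hcon)
  obtain ⟨p₀, hp₀⟩ := st.H_ne
  -- `F` is nonzero at values of the companion
  obtain ⟨q₁, u₁, hq₁⟩ : ∃ q u, F (u, evec i₀ h q) ≠ 0 := by
    have h13 : ¬ C ⊆ E₁ ∪ E₃ := by
      intro hsub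
      rcases hirr.2 E₁ E₃ hE₁c hE₃c hE₁s hE₃s hsub with h1 | h1
      · exact hCE₁ h1
      · exact hCE₃ h1
    obtain ⟨z, hz, hz'⟩ := Set.not_subset.1 h13
    have hz1 : ∃ u, F (u, z) ≠ 0 := by
      by_contra hcon
      push Not at hcon
      exact hz' (Or.inl hcon)
    have hz3 : ∃ q, ef (pderiv (Sum.inr i₀) h) (fill A z q) ≠ 0 := by
      by_contra hcon
      push Not at hcon
      exact hz' (Or.inr hcon)
    obtain ⟨u, hu⟩ := hz1
    obtain ⟨q, hq⟩ := hz3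
    refine ⟨fill A z q, u, ?_⟩
    rw [evec_eq hi₀ (hv z hz), hFr]
    exact mul_ne_zero (pow_ne_zero _ hq) hu
  have mdet := det_cm (σ := σ) (K := K) (ι := ι) (d := d)
  have mef : (fun X : Xb ι σ K × (Fin d → σ → K) => ef h X.1.1) ∈ Pol (cm ι σ K d) :=
    fst_mem_cm (fst_mem (ef_mem h))
  have mF := F_mem (ι := ι) hF i₀ h
  have mΨ : (fun X : Xb ι σ K × (Fin d → σ → K) => Ψ X.1) ∈ Pol (cm ι σ K d) := fst_mem_cm hΨ
  have hΨne : ∃ X : Xb ι σ K, Ψ X ≠ 0 := by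
    by_contra hcon
    push Not at hcon
    obtain ⟨z, _, a₂, ha₂⟩ := hΨ2
    exact ha₂ fun q => hcon _
  have hsurj := surj_cm ι σ K d
  -- polynomiality in the new variables
  have hP1 : ∀ (i : NI σ ι d) (j : σ), (fun P : NI σ ι d → σ → K => P i j) ∈
      Pol (c1 (NI σ ι d) σ K) := fun i j => coord_mem (c1 (NI σ ι d) σ K) (i, j)
  have hP2 : ∀ (i : NI σ ι d) (j : σ), (fun P : (NI σ ι d → σ → K) × (σ → K) => P.1 i j) ∈
      Pol (c2 (NI σ ι d) σ K) := fun i j => coord_mem (c2 (NI σ ι d) σ K) (Sum.inl (i, j))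
  let XX : (NI σ ι d → σ → K) × (σ → K) → Xb ι σ K := fun a => (qq a.1, (dd a.1, (pp a.1, a.2)))
  -- the key identity off the hypersurface
  have hoff : ∀ a : (NI σ ι d → σ → K) × (σ → K), ef h (qq a.1) ≠ 0 →
      (F (au a.1, evec i₀ h (qq a.1)) * Ψ (XX a)) •
        ((ef h (qq a.1) • st.Y (pp a.1) + (st.H (pp a.1) * dd a.1) • evec i₀ h (qq a.1)) +
          (ef h (qq a.1) * st.H (pp a.1)) • a.2) =
      (F (au a.1, evec i₀ h (qq a.1)) * (ef h (qq a.1) ^ (D + 1) / ef h (qq a.1) ^ k) *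
        ef h (qq a.1)) •
        (st.Φ (pp a.1, a.2 + (dd a.1 / ef h (qq a.1)) • evec i₀ h (qq a.1)) •
          (st.Y (pp a.1) + st.H (pp a.1) •
            (a.2 + (dd a.1 / ef h (qq a.1)) • evec i₀ h (qq a.1)))) := by
    intro a ha
    have h1 : Ψ (XX a) = ef h (qq a.1) ^ (D + 1) / ef h (qq a.1) ^ k *
        st.Φ (pp a.1, a.2 + (dd a.1 / ef h (qq a.1)) • evec i₀ h (qq a.1)) := by
      have h2 := hrel (XX a)
      rw [div_mul_eq_mul_div, eq_div_iff (pow_ne_zero _ ha), mul_comm]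
      exact h2
    have h3 : (ef h (qq a.1) • st.Y (pp a.1) + (st.H (pp a.1) * dd a.1) • evec i₀ h (qq a.1)) +
          (ef h (qq a.1) * st.H (pp a.1)) • a.2 = ef h (qq a.1) • (st.Y (pp a.1) +
            st.H (pp a.1) • (a.2 + (dd a.1 / ef h (qq a.1)) • evec i₀ h (qq a.1))) := by
      rw [smul_add, smul_smul, smul_add, smul_smul]
      have : ef h (qq a.1) * st.H (pp a.1) * (dd a.1 / ef h (qq a.1)) =
          st.H (pp a.1) * dd a.1 := by field_simp
      rw [this]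
      abel
    rw [h1, h3, smul_smul, smul_smul]
    congr 1
    ring
  let st' : State G S (NI σ ι d) :=
    { H := fun P => ef h (qq P) * st.H (pp P)
      Y := fun P => ef h (qq P) • st.Y (pp P) + (st.H (pp P) * dd P) • evec i₀ h (qq P)
      Φ := fun a => F (au a.1, evec i₀ h (qq a.1)) * Ψ (XX a)
      hH := Subalgebra.mul_mem _ (qq_mem _ (fun P => P) hP1 (ef_mem h))
        (pp_mem _ (fun P => P) hP1 st.hH)
      hY := by
        intro j
        exact Subalgebra.add_mem _ (Subalgebra.mul_mem _ (qq_mem _ (fun P => P) hP1 (ef_mem h))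
            (pp_mem _ (fun P => P) hP1 (st.hY j)))
          (Subalgebra.mul_mem _ (Subalgebra.mul_mem _ (pp_mem _ (fun P => P) hP1 st.hH)
            (dd_mem _ (fun P => P) hP1)) (qq_mem _ (fun P => P) hP1 (evec_mem_pol i₀ h j)))
      hΦ := by
        refine Subalgebra.mul_mem _ ?_ ?_
        · refine Pol_comp hF _ (fun a : (NI σ ι d → σ → K) × (σ → K) =>
            (au a.1, evec i₀ h (qq a.1))) ?_
          rintro (t | t)
          · exact hP2 _ _
          · exact qq_mem _ (fun a : (NI σ ι d → σ → K) × (σ → K) => a.1) hP2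
              (evec_mem_pol i₀ h t)
        · refine Pol_comp hΨ _ XX ?_
          rintro ((t | (t | t)) | t)
          · exact dd_mem _ (fun a : (NI σ ι d → σ → K) × (σ → K) => a.1) hP2
          · exact hP2 _ _
          · exact coord_mem (c2 (NI σ ι d) σ K) (Sum.inr t)
          · exact qq_mem _ (fun a : (NI σ ι d → σ → K) × (σ → K) => a.1) hP2
              (coord_mem (c2 σ σ K) t)
      H_ne := by
        obtain ⟨X, hX1, hX2⟩ := exists_ne hsurj mdet mef hdet1 ⟨((q₀, (0, (p₀, 0))), 0), hq₀⟩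
        obtain ⟨P, hPq, _, _, hPp⟩ := realize i₀ X.1.1 hX1 0 X.2 p₀
        refine ⟨P, ?_⟩
        rw [hPq, hPp]
        exact mul_ne_zero hX2 hp₀
      Φ_ne := by
        obtain ⟨XΨ, hXΨ⟩ := hΨne
        obtain ⟨Y₁, hY1, hY2⟩ := exists_ne hsurj mdet mF hdet1 ⟨((q₁, (0, (p₀, 0))), u₁), hq₁⟩
        obtain ⟨X, hX1, hX2⟩ := exists_ne hsurj (Subalgebra.mul_mem _ mdet mF) mΨ
          ⟨Y₁, mul_ne_zero hY1 hY2⟩ ⟨(XΨ, 0), hXΨ⟩
        have hX3 := mul_ne_zero_iff.1 hX1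
        obtain ⟨P, hPq, hPd, hPu, hPp⟩ := realize i₀ X.1.1 hX3.1 X.1.2.1 X.2 X.1.2.2.1
        refine ⟨(P, X.1.2.2.2), ?_⟩
        have hXX : XX (P, X.1.2.2.2) = X.1 := by
          change (qq P, (dd P, (pp P, X.1.2.2.2))) = X.1
          rw [hPq, hPd, hPp]
        change F (au P, evec i₀ h (qq P)) * Ψ (XX (P, X.1.2.2.2)) ≠ 0
        rw [hXX, hPu, hPq]
        exact mul_ne_zero hX3.2 hX2
      semi := by
        intro g hg
        obtain ⟨μ, hμ0, hμ⟩ := hG.sim g hg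
        obtain ⟨c, hc0, hc⟩ := chow_semi hst hv hd g hg μ hμ0 hμ
        obtain ⟨a, b, ha, hb, hsH, hsY, hsΦ⟩ := st.semi g hg
        obtain ⟨c₁, hc₁0, hc₁⟩ := hFs g hg
        obtain ⟨c₂, hc₂0, hc₂⟩ := hΨs g hg μ hμ0 hμ
        have e2 : ∀ q, evec i₀ h (act g μ q) = (c * μ⁻¹) • g (evec i₀ h q) := fun q =>
          evec_semi i₀ g μ hμ0 hμ c hc q
        refine ⟨c * a, (c * μ⁻¹) ^ r * c₁ * c₂, mul_ne_zero hc0 ha, mul_ne_zero (mul_ne_zero
          (pow_ne_zero _ (mul_ne_zero hc0 (inv_ne_zero hμ0))) hc₁0) hc₂0, ?_, ?_, ?_⟩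
        · intro P
          change ef h (qq fun i => g (P i)) * st.H (fun i => g (pp P i)) = _
          rw [qq_act g μ hμ, hc, hsH]
          ring
        · intro P
          change ef h (qq fun i => g (P i)) • st.Y (fun i => g (pp P i)) +
            (st.H (fun i => g (pp P i)) * dd (fun i => g (P i))) •
              evec i₀ h (qq fun i => g (P i)) = _
          have e3 : dd (fun i => g (P i)) = μ * dd P := hμ _ _
          rw [qq_act g μ hμ, hc, hsH, hsY, e2, e3, map_add, map_smul, map_smul, smul_add,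
            smul_smul, smul_smul, smul_smul, smul_smul]
          congr 2
          · ring
          · field_simp
        · intro P x
          change F (fun i => g (au P i), evec i₀ h (qq fun i => g (P i))) *
            Ψ (qq (fun i => g (P i)), (dd (fun i => g (P i)), ((fun i => g (pp P i)), g x))) = _
          have e3 : dd (fun i => g (P i)) = μ * dd P := hμ _ _
          rw [qq_act g μ hμ, e2, hFr, hc₁, e3]
          have e4 : (act g μ (qq P), (μ * dd P, ((fun i => g (pp P i)), g x))) =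
              actb g μ (XX (P, x)) := rfl
          rw [e4, hc₂]
          ring
      range := by
        intro P x
        by_cases ha : ef h (qq P) = 0
        · have heC : evec i₀ h (qq P) ∈ C := evec_mem hG hC hst hi₀ hv hd _ ha
          change (F (au P, evec i₀ h (qq P)) * Ψ (XX (P, x))) •
            ((ef h (qq P) • st.Y (pp P) + (st.H (pp P) * dd P) • evec i₀ h (qq P)) +
              (ef h (qq P) * st.H (pp P)) • x) ∈ S
          rw [ha, zero_smul, zero_mul, zero_smul, zero_add, add_zero]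
          by_cases heS : evec i₀ h (qq P) ∈ S
          · exact hSsmul _ _ (hSsmul _ _ heS)
          · rw [hF0 _ ⟨heC, heS⟩, zero_mul, zero_smul]
            exact hS0
        · have := hoff (P, x) ha
          change (F (au P, evec i₀ h (qq P)) * Ψ (XX (P, x))) •
            ((ef h (qq P) • st.Y (pp P) + (st.H (pp P) * dd P) • evec i₀ h (qq P)) +
              (ef h (qq P) * st.H (pp P)) • x) ∈ S
          rw [this]
          exact hSsmul _ _ (st.range _ _) }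
  refine ⟨d, st', E₁ ∪ (E₂ ∪ E₃), hE₁c.union (hE₂c.union hE₃c), ?_, hE, ?_, ?_⟩
  · rintro g hg z (hz | hz | hz)
    · exact Or.inl (hE₁s g hg z hz)
    · exact Or.inr (Or.inl (hE₂s g hg z hz))
    · exact Or.inr (Or.inr (hE₃s g hg z hz))
  · rintro w ⟨p, x, c, rfl⟩
    obtain ⟨Y₁, hY1, hY2⟩ := exists_ne hsurj mdet mef hdet1 ⟨((q₀, (0, (p₀, 0))), 0), hq₀⟩
    obtain ⟨X, hX1, hX2⟩ := exists_ne hsurj (Subalgebra.mul_mem _ mdet mef) mF
      ⟨Y₁, mul_ne_zero hY1 hY2⟩ ⟨((q₁, (0, (p₀, 0))), u₁), hq₁⟩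
    have hX3 := mul_ne_zero_iff.1 hX1
    obtain ⟨P, hPq, hPd, hPu, hPp⟩ := realize i₀ X.1.1 hX3.1 0 X.2 p
    have ha : ef h (qq P) ≠ 0 := by rw [hPq]; exact hX3.2
    have hF' : F (au P, evec i₀ h (qq P)) ≠ 0 := by rw [hPq, hPu]; exact hX2
    have h1 := hoff (P, x) ha
    simp only [hPd, zero_div, zero_smul, add_zero, hPp, mul_zero] at h1
    have hne0 : F (au P, evec i₀ h (qq P)) * (ef h (qq P) ^ (D + 1) / ef h (qq P) ^ k) *
        ef h (qq P) ≠ 0 :=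
      mul_ne_zero (mul_ne_zero hF' (div_ne_zero (pow_ne_zero _ ha) (pow_ne_zero _ ha))) ha
    refine ⟨P, x, c * (F (au P, evec i₀ h (qq P)) * (ef h (qq P) ^ (D + 1) /
      ef h (qq P) ^ k) * ef h (qq P))⁻¹, ?_⟩
    change _ = _ • ((F (au P, evec i₀ h (qq P)) * Ψ (XX (P, x))) •
            ((ef h (qq P) • st.Y (pp P) + (st.H (pp P) * dd P) • evec i₀ h (qq P)) +
              (ef h (qq P) * st.H (pp P)) • x))
    rw [hPd, mul_zero, zero_smul, add_zero, hPp, h1]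
    rw [smul_smul (c * _)]
    congr 1
    rw [mul_assoc, inv_mul_cancel₀ hne0, mul_one]
  · rintro z ⟨⟨hzC, hzS⟩, hzE⟩
    have hz1 : ∃ u, F (u, z) ≠ 0 := by
      by_contra hcon
      push Not at hcon
      exact hzE (Or.inl hcon)
    have hz2 : ∃ X : Xb ι σ K, Ψ (fill A z X.1, X.2) ≠ 0 := by
      by_contra hcon
      push Not at hcon
      exact hzE (Or.inr (Or.inl fun a₂ q => hcon (q, a₂)))
    have hz3 : ∃ X : Xb ι σ K, ef (pderiv (Sum.inr i₀) h) (fill A z X.1) ≠ 0 := by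
      by_contra hcon
      push Not at hcon
      exact hzE (Or.inr (Or.inr fun q => hcon (q, (0, (p₀, 0)))))
    obtain ⟨u, hu⟩ := hz1
    have hsb := surj_cb ι σ K
    have m1 : (fun X : Xb ι σ K => Ψ (fill A z X.1, X.2)) ∈ Pol (cb ι σ K) := by
      refine Pol_comp hΨ _ (fun X : Xb ι σ K => (fill A z X.1, X.2)) ?_
      rintro ((t | t) | t)
      · exact coord_mem (cb ι σ K) (Sum.inl (Sum.inl t))
      · exact coord_mem (cb ι σ K) (Sum.inl (Sum.inr t))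
      · exact fst_mem (fill_mem' A z (coord_mem (c2 σ σ K) t))
    have m2 : (fun X : Xb ι σ K => ef (pderiv (Sum.inr i₀) h) (fill A z X.1)) ∈
        Pol (cb ι σ K) := fst_mem (fill_mem' A z (ef_mem _))
    have m3 : (fun X : Xb ι σ K => (Matrix.of X.1.1).det) ∈ Pol (cb ι σ K) :=
      det_mem_fst _ (fun X : Xb ι σ K => X.1.1)
        (fun i j => coord_mem (cb ι σ K) (Sum.inr (Sum.inl (i, j))))
    have m4 : (fun X : Xb ι σ K => X.2.1) ∈ Pol (cb ι σ K) :=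
      coord_mem (cb ι σ K) (Sum.inl (Sum.inl ()))
    have m5 : (fun X : Xb ι σ K => st.H X.2.2.1) ∈ Pol (cb ι σ K) :=
      Pol_comp st.hH _ (fun X : Xb ι σ K => X.2.2.1)
        (fun t => coord_mem (cb ι σ K) (Sum.inl (Sum.inr (Sum.inl t))))
    obtain ⟨X₁, h11, h12⟩ := exists_ne hsb m1 m2 hz2 hz3
    obtain ⟨X₂, h21, h22⟩ := exists_ne hsb m3 m4
      ⟨((((1 : Matrix σ σ K), 0), (0, (0, 0))) : Xb ι σ K), by
        change (1 : Matrix σ σ K).det ≠ 0
        rw [Matrix.det_one]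
        exact one_ne_zero⟩ ⟨((0, (1, (0, 0))) : Xb ι σ K), one_ne_zero⟩
    obtain ⟨X₃, h31, h32⟩ := exists_ne hsb (Subalgebra.mul_mem _ m1 m2)
      (Subalgebra.mul_mem _ m3 m4) ⟨X₁, mul_ne_zero h11 h12⟩ ⟨X₂, mul_ne_zero h21 h22⟩
    obtain ⟨X, h41, h42⟩ := exists_ne hsb (Subalgebra.mul_mem _ (Subalgebra.mul_mem _ m1 m2)
      (Subalgebra.mul_mem _ m3 m4)) m5 ⟨X₃, mul_ne_zero h31 h32⟩ ⟨(0, (0, (p₀, 0))), hp₀⟩
    have h5 := mul_ne_zero_iff.1 h41
    have h51 := mul_ne_zero_iff.1 h5.1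
    have h52 := mul_ne_zero_iff.1 h5.2
    obtain ⟨P, hPq, hPd, hPu, hPp⟩ := realize i₀ (fill A z X.1) h52.1 X.2.1 u X.2.2.1
    have hXX : XX (P, X.2.2.2) = (fill A z X.1, X.2) := by
      change (qq P, (dd P, (pp P, X.2.2.2))) = _
      rw [hPq, hPd, hPp]
    have hh0 : ef h (fill A z X.1) = 0 := hv z hzC _
    have hev : evec i₀ h (fill A z X.1) = ef (pderiv (Sum.inr i₀) h) (fill A z X.1) • z :=
      evec_eq hi₀ (hv z hzC) _
    have hFne : F (au P, evec i₀ h (qq P)) ≠ 0 := by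
      rw [hPq, hPu, hev, hFr]
      exact mul_ne_zero (pow_ne_zero _ h51.2) hu
    refine ⟨P, X.2.2.2, (F (au P, evec i₀ h (qq P)) * Ψ (fill A z X.1, X.2) *
      (st.H X.2.2.1 * X.2.1 * ef (pderiv (Sum.inr i₀) h) (fill A z X.1)))⁻¹, ?_⟩
    change _ = _ • ((F (au P, evec i₀ h (qq P)) * Ψ (XX (P, X.2.2.2))) •
            ((ef h (qq P) • st.Y (pp P) + (st.H (pp P) * dd P) • evec i₀ h (qq P)) +
              (ef h (qq P) * st.H (pp P)) • X.2.2.2))
    have hne0 : F (au P, evec i₀ h (qq P)) * Ψ (fill A z X.1, X.2) *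
      (st.H X.2.2.1 * X.2.1 * ef (pderiv (Sum.inr i₀) h) (fill A z X.1)) ≠ 0 :=
      mul_ne_zero (mul_ne_zero hFne h51.1) (mul_ne_zero (mul_ne_zero h42 h52.2) h51.2)
    have e1 : (ef h (qq P) • st.Y (pp P) + (st.H (pp P) * dd P) • evec i₀ h (qq P)) +
              (ef h (qq P) * st.H (pp P)) • X.2.2.2 =
        (st.H X.2.2.1 * X.2.1 * ef (pderiv (Sum.inr i₀) h) (fill A z X.1)) • z := by
      rw [hPq, hh0, hPp, hPd, hev, zero_smul, zero_mul, zero_smul, zero_add, add_zero, smul_smul]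
    rw [e1, hXX, smul_smul, smul_smul, mul_assoc, inv_mul_cancel₀ hne0, one_smul]

end

end Pool.Agent.Lib.MP_d55432_al.Step
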