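import Mathlib

/-!
# Zariski topology on affine space and finite Boolean combinations of zero sets
-/

namespace Pool.Agent.Lib.MP_d55432_al

/-- Finite Boolean combinations of zero sets of functions from `A`. -/
inductive BoolComb {X K : Type*} [Zero K] (A : Set (X → K)) : Set X → Prop
  | zeros (g : X → K) (hg : g ∈ A) : BoolComb A {x | g x = 0}
  | compl {S : Set X} : BoolComb A S → BoolComb A Sᶜ
  | inter {S T : Set X} : BoolComb A S → BoolComb A T → BoolComb A (S ∩ T)

theorem BoolComb.preimage {X Y K : Type*} [Zero K] {A : Set (X → K)} {B : Set (Y → K)}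
    (f : Y → X) (hf : ∀ g ∈ A, (fun y => g (f y)) ∈ B) {S : Set X} (hS : BoolComb A S) :
    BoolComb B (f ⁻¹' S) := by
  induction hS with
  | zeros g hg => exact BoolComb.zeros (fun y => g (f y)) (hf g hg)
  | compl _ ih => exact BoolComb.compl ih
  | inter _ _ ih1 ih2 => exact BoolComb.inter ih1 ih2

theorem BoolComb.union {X K : Type*} [Zero K] {A : Set (X → K)} {S T : Set X}
    (hS : BoolComb A S) (hT : BoolComb A T) : BoolComb A (S ∪ T) := by
  have h := (hS.compl.inter hT.compl).compl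
  have : (Sᶜ ∩ Tᶜ)ᶜ = S ∪ T := by rw [Set.compl_inter, compl_compl, compl_compl]
  rwa [this] at h

namespace Zar

section top

variable {X : Type*} [TopologicalSpace X]

/-- Boolean combinations of closed sets are, inside every closed set `C`, locally constant on a
relatively open dense subset. -/
theorem exists_open {K : Type*} [Zero K] {A : Set (X → K)} (hA : ∀ g ∈ A, IsClosed {x | g x = 0})
    {S : Set X} (hS : BoolComb A S) (C : Set X) :
    ∃ U₁ U₂ : Set X, IsOpen U₁ ∧ IsOpen U₂ ∧ U₁ ∩ C ⊆ S ∧ U₂ ∩ C ⊆ Sᶜ ∧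
      C ⊆ closure ((U₁ ∪ U₂) ∩ C) := by
  induction hS with
  | zeros g hg =>
    refine ⟨(closure (C ∩ {x | g x = 0}ᶜ))ᶜ, {x | g x = 0}ᶜ, isClosed_closure.isOpen_compl,
      (hA g hg).isOpen_compl, ?_, ?_, ?_⟩
    · rintro x ⟨hx, hxC⟩
      by_contra h
      exact hx (subset_closure ⟨hxC, h⟩)
    · rintro x ⟨hx, _⟩
      exact hx
    · intro x hx
      by_cases h : x ∈ closure (C ∩ {x | g x = 0}ᶜ)
      · refine closure_mono ?_ h
        rintro y ⟨hy1, hy2⟩
        exact ⟨Or.inr hy2, hy1⟩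
      · exact subset_closure ⟨Or.inl h, hx⟩
  | compl _ ih =>
    obtain ⟨U₁, U₂, h1, h2, h3, h4, h5⟩ := ih
    refine ⟨U₂, U₁, h2, h1, h4, ?_, ?_⟩
    · rwa [compl_compl]
    · rwa [Set.union_comm]
  | inter _ _ ih ih' =>
    obtain ⟨U₁, U₂, h1, h2, h3, h4, h5⟩ := ih
    obtain ⟨V₁, V₂, k1, k2, k3, k4, k5⟩ := ih'
    refine ⟨U₁ ∩ V₁, U₂ ∪ V₂, h1.inter k1, h2.union k2, ?_, ?_, ?_⟩
    · rintro x ⟨⟨hx1, hx2⟩, hxC⟩
      exact ⟨h3 ⟨hx1, hxC⟩, k3 ⟨hx2, hxC⟩⟩
    · rintro x ⟨hx | hx, hxC⟩ hST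
      · exact h4 ⟨hx, hxC⟩ hST.1
      · exact k4 ⟨hx, hxC⟩ hST.2
    · intro x hx
      rw [mem_closure_iff]
      intro W hW hxW
      obtain ⟨y, hyW, hyU, hyC⟩ := mem_closure_iff.1 (h5 hx) W hW hxW
      obtain ⟨z, ⟨hzW, hzU⟩, hzV, hzC⟩ := mem_closure_iff.1 (k5 hyC) (W ∩ (U₁ ∪ U₂))
        (hW.inter (h1.union h2)) ⟨hyW, hyU⟩
      refine ⟨z, hzW, ?_, hzC⟩
      rcases hzU with h | h
      · rcases hzV with h' | h'
        · exact Or.inl ⟨h, h'⟩
        · exact Or.inr (Or.inr h')
      · exact Or.inr (Or.inl h)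

/-- A Boolean combination of closed sets and its complement are not both dense in a nonempty
set. -/
theorem not_both_dense {K : Type*} [Zero K] {A : Set (X → K)}
    (hA : ∀ g ∈ A, IsClosed {x | g x = 0}) {S : Set X} (hS : BoolComb A S) (C : Set X)
    (hne : C.Nonempty) (h1 : C ⊆ closure (C ∩ S)) : ¬ C ⊆ closure (C ∩ Sᶜ) := by
  intro h2
  obtain ⟨U₁, U₂, hU₁, hU₂, h3, h4, h5⟩ := exists_open hA hS C
  obtain ⟨x, hx⟩ := hne
  obtain ⟨y, _, hyU, hyC⟩ := mem_closure_iff.1 (h5 hx) Set.univ isOpen_univ trivial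
  rcases hyU with hy | hy
  · obtain ⟨z, hz1, hz2, hz3⟩ := mem_closure_iff.1 (h2 hyC) U₁ hU₁ hy
    exact hz3 (h3 ⟨hz1, hz2⟩)
  · obtain ⟨z, hz1, hz2, hz3⟩ := mem_closure_iff.1 (h1 hyC) U₂ hU₂ hy
    exact h4 ⟨hz1, hz2⟩ hz3

end top

open MvPolynomial

variable {τ K : Type*} [Field K]

/-- Polynomial functions on affine space. -/
def polys (τ K : Type*) [Field K] : Set ((τ → K) → K) :=
  {g | ∃ p : MvPolynomial τ K, ∀ x, g x = eval x p}

/-- The Zariski topology. -/
@[reducible] noncomputable def zar (τ K : Type*) [Field K] : TopologicalSpace (τ → K) :=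
  TopologicalSpace.induced (pointToPoint (k := K) (K := K)) inferInstance

attribute [local instance] zar

theorem noetherian [Finite τ] : TopologicalSpace.NoetherianSpace (τ → K) :=
  Topology.IsInducing.noetherianSpace (i := pointToPoint (k := K) (K := K)) ⟨rfl⟩

theorem mem_preimage (s : Set (MvPolynomial τ K)) (x : τ → K) :
    pointToPoint (k := K) (K := K) x ∈ PrimeSpectrum.zeroLocus s ↔ ∀ p ∈ s, eval x p = 0 := by
  rw [PrimeSpectrum.mem_zeroLocus]
  constructor
  · intro h p hp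
    have := h hp
    change p ∈ vanishingIdeal K {x} at this
    rw [mem_vanishingIdeal_singleton_iff] at this
    rwa [← MvPolynomial.aeval_eq_eval] 
  · intro h p hp
    change p ∈ vanishingIdeal K {x}
    rw [mem_vanishingIdeal_singleton_iff]
    have := h p hp
    rwa [← MvPolynomial.aeval_eq_eval] at this

theorem isClosed_iff (A : Set (τ → K)) :
    IsClosed A ↔ ∃ s : Set (MvPolynomial τ K), A = {x | ∀ p ∈ s, eval x p = 0} := by
  refine (isClosed_induced_iff (f := pointToPoint (k := K) (K := K))).trans ?_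
  constructor
  · rintro ⟨t, ht, rfl⟩
    rw [PrimeSpectrum.isClosed_iff_zeroLocus] at ht
    obtain ⟨s, rfl⟩ := ht
    exact ⟨s, Set.ext fun x => mem_preimage s x⟩
  · rintro ⟨s, rfl⟩
    exact ⟨PrimeSpectrum.zeroLocus s, PrimeSpectrum.isClosed_zeroLocus s,
      Set.ext fun x => mem_preimage s x⟩

theorem isClosed_zeros (p : MvPolynomial τ K) : IsClosed {x : τ → K | eval x p = 0} :=
  (isClosed_iff _).2 ⟨{p}, by ext x; simp⟩

theorem isClosed_polys (g : (τ → K) → K) (hg : g ∈ polys τ K) :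
    IsClosed {x : τ → K | g x = 0} := by
  obtain ⟨p, hp⟩ := hg
  simp only [hp]
  exact isClosed_zeros p

theorem mem_closure_iff_eval (A : Set (τ → K)) (x : τ → K) :
    x ∈ closure A ↔ ∀ p : MvPolynomial τ K, (∀ a ∈ A, eval a p = 0) → eval x p = 0 := by
  constructor
  · intro h p hp
    exact closure_minimal (t := {x : τ → K | eval x p = 0}) hp (isClosed_zeros p) h
  · intro h
    obtain ⟨s, hs⟩ := (isClosed_iff (closure A)).1 isClosed_closure
    rw [hs]
    intro p hp
    apply h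
    intro a ha
    have : a ∈ closure A := subset_closure ha
    rw [hs] at this
    exact this p hp

theorem dense_iff_eval [Infinite K] (A : Set (τ → K)) :
    Dense A ↔ ∀ p : MvPolynomial τ K, (∀ a ∈ A, eval a p = 0) → p = 0 := by
  constructor
  · intro h p hp
    apply MvPolynomial.funext
    intro x
    rw [map_zero]
    exact (mem_closure_iff_eval A x).1 (h x) p hp
  · intro h x
    rw [mem_closure_iff_eval]
    intro p hp
    rw [h p hp, map_zero]

theorem eval_bind {ρ : Type*} (P : ρ → MvPolynomial τ K) (p : MvPolynomial ρ K) (x : τ → K) :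
    eval x (bind₁ P p) = eval (fun i => eval x (P i)) p :=
  eval₂Hom_bind₁ (RingHom.id K) x P p

theorem continuous_of_polys {ρ : Type*} (f : (τ → K) → (ρ → K))
    (hf : ∀ i, (fun x => f x i) ∈ polys τ K) : Continuous f := by
  choose P hP using hf
  rw [continuous_iff_isClosed]
  intro A hA
  obtain ⟨s, rfl⟩ := (isClosed_iff A).1 hA
  rw [isClosed_iff]
  refine ⟨(fun p => bind₁ P p) '' s, ?_⟩
  ext x
  have : ∀ p, eval x (bind₁ P p) = eval (f x) p := by
    intro p
    rw [eval_bind]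
    congr 1
    congr 1
    funext i
    exact (hP i x).symm
  constructor
  · rintro h _ ⟨p, hp, rfl⟩
    exact (this p).trans (h p hp)
  · intro h p hp
    exact (this p).symm.trans (h _ ⟨p, hp, rfl⟩)

theorem continuous_linear [Finite τ] (f : (τ → K) →ₗ[K] (τ → K)) : Continuous f := by
  classical
  have := Fintype.ofFinite τ
  apply continuous_of_polys
  intro i
  refine ⟨∑ j, C (f (Pi.single j 1) i) * X j, fun x => ?_⟩
  rw [map_sum]
  simp only [map_mul, eval_C, eval_X]
  conv_lhs => rw [← Finset.univ_sum_single x]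
  rw [map_sum, Finset.sum_apply]
  refine Finset.sum_congr rfl fun j _ => ?_
  have : (Pi.single j (x j) : τ → K) = x j • Pi.single j 1 := by
    rw [← Pi.single_smul, smul_eq_mul, mul_one]
  rw [this, map_smul, Pi.smul_apply, smul_eq_mul, mul_comm]

end Zar

end Pool.Agent.Lib.MP_d55432_al
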